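import Pool.Agent.FT80.InO

/-!
# Primitive element data
-/

set_option maxSynthPendingDepth 10

open Polynomial

namespace FT80

/-! ### Abstract rational functions of an algebraic element -/

section abs

variable {R L : Type*} [CommRing R] [Field L]

/-- `x` is a rational function of `θ` with coefficients in the image of `σ` -/
def Rat1 (σ : R →+* L) (θ x : L) : Prop :=
  ∃ A B : Polynomial R, ev1 σ θ B ≠ 0 ∧ ev1 σ θ B * x = ev1 σ θ A

variable [IsDomain R]

theorem rat1_iff (σ : R →+* L) (hσ : Function.Injective σ) [Algebra R L]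
    [Algebra (FractionRing R) L] [IsScalarTower R (FractionRing R) L]
    (h : algebraMap R L = σ) (θ x : L) :
    Rat1 σ θ x ↔ x ∈ IntermediateField.adjoin (FractionRing R) {θ} := by
  have hev : ∀ A : Polynomial R, ev1 σ θ A = aeval θ (A.map (algebraMap R (FractionRing R))) := by
    intro A
    rw [aeval_map_algebraMap, aeval_def, h]
    rfl
  rw [IntermediateField.mem_adjoin_simple_iff]
  constructor
  · rintro ⟨A, B, hB, hx⟩
    refine ⟨A.map (algebraMap R (FractionRing R)), B.map (algebraMap R (FractionRing R)), ?_⟩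
    rw [← hev, ← hev, eq_div_iff hB, mul_comm, hx]
  · rintro ⟨r, s, hx⟩
    by_cases hs : aeval θ s = 0
    · rw [hs, div_zero] at hx
      refine ⟨0, 1, ?_, ?_⟩
      · rw [map_one]; exact one_ne_zero
      · rw [map_zero, hx, mul_zero]
    · obtain ⟨b, hb⟩ := IsLocalization.integerNormalization_map_to_map (nonZeroDivisors R) r
      obtain ⟨c, hc⟩ := IsLocalization.integerNormalization_map_to_map (nonZeroDivisors R) s
      have hcb : ∀ (b : nonZeroDivisors R) (N : Polynomial R) (r : Polynomial (FractionRing R)),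
          N.map (algebraMap R (FractionRing R)) = (b : R) • r →
          ev1 σ θ N = σ b * aeval θ r := by
        intro b N r h1
        rw [hev, h1, ← h, Algebra.smul_def, IsScalarTower.algebraMap_apply R (FractionRing R)
          (Polynomial (FractionRing R)), Polynomial.algebraMap_eq, map_mul, aeval_C,
          ← IsScalarTower.algebraMap_apply]
      have hb' := hcb b _ r hb
      have hc' := hcb c _ s hc
      have hb0 : σ b ≠ 0 := by
        rw [Ne, map_eq_zero_iff σ hσ]
        exact nonZeroDivisors.coe_ne_zero b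
      have hc0 : σ c ≠ 0 := by
        rw [Ne, map_eq_zero_iff σ hσ]
        exact nonZeroDivisors.coe_ne_zero c
      refine ⟨C (c : R) * IsLocalization.integerNormalization (nonZeroDivisors R) r,
        C (b : R) * IsLocalization.integerNormalization (nonZeroDivisors R) s, ?_, ?_⟩
      · rw [map_mul, hc']
        have : ev1 σ θ (C (b : R)) = σ b := by simp [ev1]
        rw [this]
        exact mul_ne_zero hb0 (mul_ne_zero hc0 hs)
      · rw [map_mul, map_mul, hb', hc', hx]
        have h1 : ev1 σ θ (C (b : R)) = σ b := by simp [ev1]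
        have h2 : ev1 σ θ (C (c : R)) = σ c := by simp [ev1]
        rw [h1, h2]
        field_simp

theorem rat1_trans (σ : R →+* L) (hσ : Function.Injective σ) {θ θ' x : L}
    (h1 : Rat1 σ θ θ') (h2 : Rat1 σ θ' x) : Rat1 σ θ x := by
  letI : Algebra R L := σ.toAlgebra
  letI : Algebra (FractionRing R) L := (IsFractionRing.lift (K := FractionRing R) hσ).toAlgebra
  haveI : IsScalarTower R (FractionRing R) L := by
    refine IsScalarTower.of_algebraMap_eq (fun r => ?_)
    exact (IsFractionRing.lift_algebraMap hσ r).symm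
  rw [rat1_iff σ hσ rfl] at h1 h2 ⊢
  have h3 : IntermediateField.adjoin (FractionRing R) {θ'} ≤
      IntermediateField.adjoin (FractionRing R) {θ} := by
    rw [IntermediateField.adjoin_simple_le_iff]
    exact h1
  exact h3 h2

/-- algebraic elements -/
def Alg1 (σ : R →+* L) (x : L) : Prop := ∃ q : Polynomial R, q ≠ 0 ∧ ev1 σ x q = 0

theorem alg1_iff (σ : R →+* L) [Algebra R L]
    [Algebra (FractionRing R) L] [IsScalarTower R (FractionRing R) L]
    (h : algebraMap R L = σ) (x : L) :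
    Alg1 σ x ↔ IsAlgebraic (FractionRing R) x := by
  rw [← IsFractionRing.isAlgebraic_iff R (FractionRing R) L]
  unfold Alg1 IsAlgebraic
  have hev : ∀ A : Polynomial R, ev1 σ x A = aeval x A := by
    intro A
    rw [aeval_def, h]
    rfl
  simp only [hev]

theorem alg1_rat (σ : R →+* L) (hσ : Function.Injective σ) {θ x : L}
    (h1 : Alg1 σ θ) (h2 : Rat1 σ θ x) : Alg1 σ x := by
  letI : Algebra R L := σ.toAlgebra
  letI : Algebra (FractionRing R) L := (IsFractionRing.lift (K := FractionRing R) hσ).toAlgebra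
  haveI : IsScalarTower R (FractionRing R) L := by
    refine IsScalarTower.of_algebraMap_eq (fun r => ?_)
    exact (IsFractionRing.lift_algebraMap hσ r).symm
  rw [rat1_iff σ hσ rfl] at h2
  rw [alg1_iff σ rfl] at h1 ⊢
  haveI : Algebra.IsAlgebraic (FractionRing R) (IntermediateField.adjoin (FractionRing R) {θ}) :=
    IntermediateField.isAlgebraic_adjoin_simple h1.isIntegral
  have h3 := Algebra.IsAlgebraic.isAlgebraic (R := FractionRing R)
    (⟨x, h2⟩ : IntermediateField.adjoin (FractionRing R) {θ})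
  exact h3.algebraMap (A := L)

/-- primitive element theorem -/
theorem prim (σ : R →+* L) (hσ : Function.Injective σ) (S : Finset L)
    (hS : ∀ s ∈ S, ∃ q : Polynomial R, ev1 σ s q = 0 ∧ ev1 σ s (derivative q) ≠ 0) :
    ∃ θ : L, Alg1 σ θ ∧ ∀ s ∈ S, Rat1 σ θ s := by
  letI : Algebra R L := σ.toAlgebra
  letI : Algebra (FractionRing R) L := (IsFractionRing.lift (K := FractionRing R) hσ).toAlgebra
  haveI : IsScalarTower R (FractionRing R) L := by
    refine IsScalarTower.of_algebraMap_eq (fun r => ?_)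
    exact (IsFractionRing.lift_algebraMap hσ r).symm
  have hev : ∀ (x : L) (A : Polynomial R),
      ev1 σ x A = aeval x (A.map (algebraMap R (FractionRing R))) := by
    intro x A
    rw [aeval_map_algebraMap, aeval_def]
    rfl
  have hsep : ∀ s ∈ S, IsSeparable (FractionRing R) s := by
    intro s hs
    obtain ⟨q, hq, hq'⟩ := hS s hs
    have hq0 : q ≠ 0 := by
      rintro rfl
      simp at hq'
    have hint : IsIntegral (FractionRing R) s := by
      refine IsAlgebraic.isIntegral ((alg1_iff σ rfl s).1 ⟨q, hq0, hq⟩)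
    unfold IsSeparable
    rw [Polynomial.separable_iff_derivative_ne_zero (minpoly.irreducible hint)]
    intro h0
    obtain ⟨g, hg⟩ := minpoly.dvd (FractionRing R) s (by rw [← hev]; exact hq)
    apply hq'
    rw [hev, ← Polynomial.derivative_map, hg, Polynomial.derivative_mul, h0, zero_mul, zero_add,
      map_mul, minpoly.aeval, zero_mul]
  haveI h1 : FiniteDimensional (FractionRing R)
      (IntermediateField.adjoin (FractionRing R) (S : Set L)) := by
    refine IntermediateField.finiteDimensional_adjoin (fun s hs => ?_)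
    exact (hsep s hs).isIntegral
  haveI h2 : Algebra.IsSeparable (FractionRing R)
      (IntermediateField.adjoin (FractionRing R) (S : Set L)) := by
    rw [IntermediateField.isSeparable_adjoin_iff_isSeparable]
    exact fun s hs => hsep s hs
  obtain ⟨α, hα⟩ := Field.exists_primitive_element (FractionRing R)
    (IntermediateField.adjoin (FractionRing R) (S : Set L))
  have h3 : IntermediateField.adjoin (FractionRing R) (S : Set L) =
      IntermediateField.adjoin (FractionRing R) {(α : L)} := by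
    have := congrArg IntermediateField.lift hα
    rw [IntermediateField.lift_adjoin_simple, IntermediateField.lift_top] at this
    exact this.symm
  refine ⟨(α : L), ?_, ?_⟩
  · rw [alg1_iff σ rfl]
    have h4 := Algebra.IsAlgebraic.isAlgebraic (R := FractionRing R) α
    exact h4.algebraMap (A := L)
  · intro s hs
    rw [rat1_iff σ hσ rfl, ← h3]
    exact IntermediateField.subset_adjoin _ _ hs

end abs

/-! ### Separability -/

section sep

variable {p : ℕ} [hp : Fact p.Prime]

theorem pow_p_eq (w : OO p) : w ^ p = PowerSeries.expand p hp.out.ne_zero w := by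
  have h := MvPowerSeries.map_frobenius_expand (σ := Unit) (R := ZMod p) p hp.out.ne_zero (f := w)
  rw [← h, ZMod.frobenius_zmod]
  exact congrFun (congrArg _ (MvPowerSeries.map_id)) _

theorem coeff_X_pow_mul_pow (w : OO p) {a b : ℕ} (ha : a < p) (hb : b < p) (m : ℕ) :
    PowerSeries.coeff (b + p * m) (PowerSeries.X ^ a * w ^ p) =
      if a = b then PowerSeries.coeff m w else 0 := by
  rw [PowerSeries.coeff_X_pow_mul', pow_p_eq]
  by_cases h : a = b
  · subst h
    rw [if_pos (by omega), if_pos rfl, Nat.add_sub_cancel_left, PowerSeries.coeff_expand_mul]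
  · rw [if_neg h]
    split_ifs with h1
    · rw [PowerSeries.coeff_expand_of_not_dvd]
      intro h2
      apply h
      have h3 : (b + p * m) % p = a % p := by
        obtain ⟨c, hc⟩ := h2
        have : b + p * m = a + p * c := by omega
        rw [this, Nat.add_mul_mod_self_left]
      rw [Nat.add_mul_mod_self_left, Nat.mod_eq_of_lt ha, Nat.mod_eq_of_lt hb] at h3
      exact h3.symm
    · rfl

theorem indep_pow (w : ℕ → OO p) (h : ∑ a ∈ Finset.range p, PowerSeries.X ^ a * w a ^ p = 0) :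
    ∀ a < p, w a = 0 := by
  intro b hb
  ext m
  have h1 := congrArg (PowerSeries.coeff (b + p * m)) h
  rw [map_sum] at h1
  rw [Finset.sum_congr rfl (fun a ha =>
    coeff_X_pow_mul_pow (w a) (Finset.mem_range.1 ha) hb m)] at h1
  rw [Finset.sum_ite_eq' , if_pos (Finset.mem_range.2 hb)] at h1
  simpa using h1

/-- sections of a polynomial -/
noncomputable def sec (a : ℕ) (f : P1 p) : P1 p :=
  ∑ i ∈ Finset.range (f.natDegree + 1), monomial i (f.coeff (p * i + a))

theorem coeff_sec (a : ℕ) (f : P1 p) (m : ℕ) : (sec a f).coeff m = f.coeff (p * m + a) := by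
  unfold sec
  rw [finset_sum_coeff]
  simp only [coeff_monomial]
  rw [Finset.sum_ite_eq']
  split_ifs with h
  · rfl
  · rw [coeff_eq_zero_of_natDegree_lt]
    rw [Finset.mem_range] at h
    have : 1 * m ≤ p * m := Nat.mul_le_mul_right m hp.out.one_le
    omega

theorem tau_coeff (f : P1 p) (n : ℕ) : PowerSeries.coeff n (tau p f) = f.coeff n := by
  simp [tau]

theorem tau_sec (f : P1 p) :
    ∑ a ∈ Finset.range p, PowerSeries.X ^ a * (tau p (sec a f)) ^ p = tau p f := by
  ext n
  have hn : n = n % p + p * (n / p) := (Nat.mod_add_div n p).symm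
  have hlt : n % p < p := Nat.mod_lt _ hp.out.pos
  rw [map_sum]
  conv_lhs => rw [hn]
  rw [Finset.sum_congr rfl (fun a ha =>
    coeff_X_pow_mul_pow (tau p (sec a f)) (Finset.mem_range.1 ha) hlt (n / p))]
  rw [Finset.sum_ite_eq' , if_pos (Finset.mem_range.2 hlt), tau_coeff, coeff_sec, tau_coeff]
  congr 1
  omega

theorem ev1_sum (z : OO p) (g : P2 p) :
    ev1 (tau p) z g = ∑ j ∈ Finset.range (g.natDegree + 1), tau p (g.coeff j) * z ^ j := by
  unfold ev1
  rw [coe_eval₂RingHom, eval₂_eq_sum_range]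

theorem sep_min (z : OO p) (q : P2 p) (hq0 : q ≠ 0) (hq : ev1 (tau p) z q = 0)
    (hmin : ∀ r : P2 p, r ≠ 0 → ev1 (tau p) z r = 0 → q.natDegree ≤ r.natDegree) :
    ev1 (tau p) z (derivative q) ≠ 0 := by
  have hdeg : q.natDegree ≠ 0 := by
    intro h
    rw [natDegree_eq_zero] at h
    obtain ⟨c, rfl⟩ := h
    have h1 : tau p c = 0 := by simpa [ev1] using hq
    apply hq0
    have : c = 0 := by
      ext n
      rw [← tau_coeff, h1]
      simp
    rw [this, C_0]
  intro h
  by_cases hd : derivative q = 0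
  · haveI : CharP (P1 p) p := inferInstance
    have hexp := Polynomial.expand_contract (R := P1 p) p hd hp.out.ne_zero
    set g := contract p q with hg
    have hg0 : g ≠ 0 := by
      intro h0
      rw [h0, map_zero] at hexp
      exact hq0 hexp.symm
    have hdg : q.natDegree = g.natDegree * p := by
      rw [← hexp, natDegree_expand]
    have hgd : g.natDegree < q.natDegree := by
      have h1 : g.natDegree ≠ 0 := by
        intro h0
        rw [h0] at hdg
        omega
      have h2 := hp.out.two_le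
      nlinarith [Nat.pos_of_ne_zero h1]
    -- the sections
    let Q : ℕ → P2 p := fun a =>
      ∑ j ∈ Finset.range (g.natDegree + 1), monomial j (sec a (g.coeff j))
    have hQc : ∀ a j, (Q a).coeff j = if j < g.natDegree + 1 then sec a (g.coeff j) else 0 := by
      intro a j
      simp only [Q]
      rw [finset_sum_coeff]
      simp only [coeff_monomial]
      rw [Finset.sum_ite_eq']
      simp only [Finset.mem_range]
    have hQd : ∀ a, (Q a).natDegree < q.natDegree := by
      intro a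
      refine lt_of_le_of_lt (natDegree_le_iff_coeff_eq_zero.2 (fun j hj => ?_)) hgd
      rw [hQc, if_neg (by omega)]
    have hQe : ∀ a, ev1 (tau p) z (Q a) =
        ∑ j ∈ Finset.range (g.natDegree + 1), tau p (sec a (g.coeff j)) * z ^ j := by
      intro a
      simp only [Q]
      rw [map_sum]
      refine Finset.sum_congr rfl (fun j _ => ?_)
      simp [ev1]
    have hsum : ∑ a ∈ Finset.range p, PowerSeries.X ^ a * (ev1 (tau p) z (Q a)) ^ p = 0 := by
      have h1 : ∀ a ∈ Finset.range p, PowerSeries.X ^ a * (ev1 (tau p) z (Q a)) ^ p =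
          ∑ j ∈ Finset.range (g.natDegree + 1),
            (PowerSeries.X ^ a * (tau p (sec a (g.coeff j))) ^ p) * (z ^ j) ^ p := by
        intro a _
        haveI : CharP (OO p) p :=
          charP_of_injective_algebraMap (algebraMap (ZMod p) (OO p)).injective p
        rw [hQe, sum_pow_char p, Finset.mul_sum]
        refine Finset.sum_congr rfl (fun j _ => ?_)
        rw [mul_pow, mul_assoc]
      rw [Finset.sum_congr rfl h1, Finset.sum_comm]
      have h2 : ∀ j ∈ Finset.range (g.natDegree + 1),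
          ∑ a ∈ Finset.range p,
            (PowerSeries.X ^ a * (tau p (sec a (g.coeff j))) ^ p) * (z ^ j) ^ p =
          tau p (g.coeff j) * (z ^ p) ^ j := by
        intro j _
        rw [← Finset.sum_mul, tau_sec, ← pow_mul, ← pow_mul, mul_comm j p]
      rw [Finset.sum_congr rfl h2, ← ev1_sum]
      rw [← hexp] at hq
      rw [← hq]
      unfold ev1
      rw [coe_eval₂RingHom, coe_eval₂RingHom, eval₂_eq_eval_map, eval₂_eq_eval_map, map_expand,
        expand_eval]
    have hz := indep_pow _ hsum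
    have hQ0 : ∀ a < p, Q a = 0 := by
      intro a ha
      by_contra hne
      exact absurd (hmin _ hne (hz a ha)) (not_le.2 (hQd a))
    apply hg0
    ext1 j
    rw [coeff_zero]
    by_cases hj : j < g.natDegree + 1
    · have h3 : ∀ a < p, sec a (g.coeff j) = 0 := by
        intro a ha
        have := hQc a j
        rw [hQ0 a ha, if_pos hj, coeff_zero] at this
        exact this.symm
      ext n
      have h4 := coeff_sec (n % p) (g.coeff j) (n / p)
      rw [h3 _ (Nat.mod_lt _ hp.out.pos), Nat.div_add_mod] at h4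
      exact h4.symm
    · exact coeff_eq_zero_of_natDegree_lt (by omega)
  · have h1 := hmin _ hd h
    have h2 := natDegree_derivative_lt hdeg
    omega

theorem tau_injective : Function.Injective (tau p) := by
  intro f g h
  ext n
  rw [← tau_coeff, ← tau_coeff, h]

theorem tauK_injective : Function.Injective (tauK p) :=
  iK_injective.comp tau_injective

theorem tau_X : tau p X = PowerSeries.X := by
  simp [tau]

theorem iK_ev1 (z : OO p) (q : P2 p) : iK p (ev1 (tau p) z q) = ev1 (tauK p) (iK p z) q := by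
  unfold ev1 tauK
  rw [coe_eval₂RingHom, coe_eval₂RingHom, hom_eval₂]

theorem ev1_eq_eval {R S : Type*} [CommRing R] [CommRing S] (σ : R →+* S) (x : S)
    (q : Polynomial R) : ev1 σ x q = (q.map σ).eval x := by
  unfold ev1
  rw [coe_eval₂RingHom, eval₂_eq_eval_map]

theorem ev1_C {R S : Type*} [CommRing R] [CommRing S] (σ : R →+* S) (x : S)
    (r : R) : ev1 σ x (C r) = σ r := by
  simp [ev1]

theorem ev1_X {R S : Type*} [CommRing R] [CommRing S] (σ : R →+* S) (x : S) :
    ev1 σ x X = x := by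
  simp [ev1]

theorem ev1_comp {R S : Type*} [CommRing R] [CommRing S] (σ : R →+* S) (x : S)
    (q r : Polynomial R) : ev1 σ x (q.comp r) = ev1 σ (ev1 σ x r) q := by
  unfold ev1
  simp only [coe_eval₂RingHom]
  rw [eval₂_comp]

theorem X_pow_dvd_tau (n : ℕ) (f : P1 p) : PowerSeries.X ^ n ∣ tau p f ↔ X ^ n ∣ f := by
  rw [PowerSeries.X_pow_dvd_iff, Polynomial.X_pow_dvd_iff]
  simp only [tau_coeff]

theorem exists_order (D : OO p) (hD : D ≠ 0) :
    ∃ e : ℕ, PowerSeries.X ^ e ∣ D ∧ ¬ PowerSeries.X ^ (e + 1) ∣ D := by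
  classical
  have hex : ∃ n, PowerSeries.coeff n D ≠ 0 := by
    by_contra h
    push Not at h
    exact hD (PowerSeries.ext (fun n => by simpa using h n))
  refine ⟨Nat.find hex, ?_, ?_⟩
  · rw [PowerSeries.X_pow_dvd_iff]
    intro m hm
    have := Nat.find_min hex hm
    push Not at this
    exact this
  · rw [PowerSeries.X_pow_dvd_iff]
    intro h
    exact Nat.find_spec hex (h _ (Nat.lt_succ_self _))

theorem exists_min {z : OO p} (hz : AlgO z) : ∃ q : P2 p, q ≠ 0 ∧ ev1 (tau p) z q = 0 ∧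
    ∀ r : P2 p, r ≠ 0 → ev1 (tau p) z r = 0 → q.natDegree ≤ r.natDegree := by
  classical
  have hex : ∃ n, ∃ q : P2 p, q ≠ 0 ∧ ev1 (tau p) z q = 0 ∧ q.natDegree = n := by
    obtain ⟨q, h1, h2⟩ := hz
    exact ⟨_, q, h1, h2, rfl⟩
  obtain ⟨q, h1, h2, h3⟩ := Nat.find_spec hex
  refine ⟨q, h1, h2, fun r hr hr' => ?_⟩
  rw [h3]
  exact Nat.find_min' hex ⟨r, hr, hr', rfl⟩

end sep

/-! ### pseudo division -/

theorem pdiv {R : Type*} [CommRing R] [IsDomain R] (m : Polynomial R) (hm : m ≠ 0) :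
    ∀ (n : ℕ) (q : Polynomial R), q.natDegree = n →
      ∃ d : R, d ≠ 0 ∧ ∃ s r : Polynomial R, C d * q = m * s + r ∧ r.degree < m.degree := by
  intro n
  induction n using Nat.strong_induction_on with
  | _ n ih =>
    intro q hq
    by_cases h : q.degree < m.degree
    · exact ⟨1, one_ne_zero, 0, q, by simp, h⟩
    · rw [not_lt] at h
      have hq0 : q ≠ 0 := by
        rintro rfl
        rw [degree_zero, le_bot_iff, degree_eq_bot] at h
        exact hm h
      have hnat : m.natDegree ≤ q.natDegree := natDegree_le_natDegree h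
      set k := q.natDegree - m.natDegree with hk
      have hlm : m.leadingCoeff ≠ 0 := leadingCoeff_ne_zero.2 hm
      have hlq : q.leadingCoeff ≠ 0 := leadingCoeff_ne_zero.2 hq0
      have hdeg : (C m.leadingCoeff * q - C q.leadingCoeff * X ^ k * m).degree <
          (C m.leadingCoeff * q).degree := by
        apply degree_sub_lt
        · rw [degree_C_mul hlm, degree_mul, degree_C_mul_X_pow k hlq,
            degree_eq_natDegree hq0, degree_eq_natDegree hm]
          norm_cast
          omega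
        · exact mul_ne_zero (C_ne_zero.2 hlm) hq0
        · rw [leadingCoeff_mul, leadingCoeff_mul, leadingCoeff_mul, leadingCoeff_C,
            leadingCoeff_C, leadingCoeff_X_pow, mul_one, mul_comm]
      rw [degree_C_mul hlm] at hdeg
      set q1 := C m.leadingCoeff * q - C q.leadingCoeff * X ^ k * m with hq1
      have key : ∃ d : R, d ≠ 0 ∧ ∃ s r : Polynomial R, C d * q1 = m * s + r ∧
          r.degree < m.degree := by
        by_cases h0 : q1 = 0
        · refine ⟨1, one_ne_zero, 0, 0, by simp [h0], ?_⟩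
          rw [degree_zero, bot_lt_iff_ne_bot]
          exact degree_ne_bot.2 hm
        · exact ih _ (hq ▸ natDegree_lt_natDegree h0 hdeg) q1 rfl
      obtain ⟨d, hd, s, r, hsr, hr⟩ := key
      refine ⟨d * m.leadingCoeff, mul_ne_zero hd hlm, s + C d * C q.leadingCoeff * X ^ k, r,
        ?_, hr⟩
      rw [hq1] at hsr
      rw [C_mul]
      linear_combination hsr

section theta

variable {p : ℕ} [hp : Fact p.Prime]

/-- minimal polynomial data -/
def MinP (m : P2 p) (θ : OO p) : Prop :=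
  m ≠ 0 ∧ ev1 (tau p) θ m = 0 ∧
    ∀ r : P2 p, r ≠ 0 → ev1 (tau p) θ r = 0 → m.natDegree ≤ r.natDegree

theorem MinP.ne {m : P2 p} {θ : OO p} (h : MinP m θ) {r : P2 p} (hr : r ≠ 0)
    (hd : r.natDegree < m.natDegree) : ev1 (tau p) θ r ≠ 0 := by
  intro h1
  exact absurd (h.2.2 r hr h1) (not_le.2 hd)

theorem MinP.deg_pos {m : P2 p} {θ : OO p} (h : MinP m θ) : 0 < m.natDegree := by
  rw [Nat.pos_iff_ne_zero]
  intro h0
  rw [natDegree_eq_zero] at h0
  obtain ⟨c, hc⟩ := h0
  have h1 := h.2.1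
  rw [← hc, ev1_C] at h1
  apply h.1
  rw [← hc, tau_injective (h1.trans (map_zero _).symm), C_0]

theorem MinP.dvd {m : P2 p} {θ : OO p} (h : MinP m θ) {q : P2 p} (hq : ev1 (tau p) θ q = 0) :
    ∃ d : P1 p, d ≠ 0 ∧ ∃ s : P2 p, C d * q = m * s := by
  obtain ⟨d, hd, s, r, hsr, hr⟩ := pdiv m h.1 _ q rfl
  refine ⟨d, hd, s, ?_⟩
  have h1 : ev1 (tau p) θ r = 0 := by
    have := congrArg (ev1 (tau p) θ) hsr
    rw [map_mul, map_add, map_mul, hq, h.2.1, mul_zero, zero_mul, zero_add] at this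
    exact this.symm
  have h2 : r = 0 := by
    by_contra h3
    exact h.ne h3 (natDegree_lt_natDegree h3 hr) h1
  rw [hsr, h2, add_zero]

theorem MinP.inv_aux {m : P2 p} {θ : OO p} (h : MinP m θ) :
    ∀ (n : ℕ) (B : P2 p), B.natDegree = n → B ≠ 0 → B.natDegree < m.natDegree →
      ∃ (B' : P2 p) (d : P1 p), d ≠ 0 ∧ ev1 (tau p) θ B' * ev1 (tau p) θ B = tau p d := by
  intro n
  induction n using Nat.strong_induction_on with
  | _ n ih =>
    intro B hBn hB0 hBm
    by_cases hn : n = 0
    · rw [hn, natDegree_eq_zero] at hBn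
      obtain ⟨b, hb⟩ := hBn
      refine ⟨1, b, ?_, ?_⟩
      · rintro rfl
        exact hB0 (by rw [← hb, C_0])
      · rw [map_one, one_mul, ← hb, ev1_C]
    · obtain ⟨d, hd, s, r, hsr, hr⟩ := pdiv B hB0 _ m rfl
      have h0 : ev1 (tau p) θ B * ev1 (tau p) θ s + ev1 (tau p) θ r = 0 := by
        have := congrArg (ev1 (tau p) θ) hsr
        rw [map_mul, map_add, map_mul, h.2.1, mul_zero] at this
        exact this.symm
      have hr0 : r ≠ 0 := by
        intro hr0
        rw [hr0, map_zero, add_zero] at h0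
        rw [hr0, add_zero] at hsr
        have hs0 : s ≠ 0 := by
          rintro rfl
          rw [mul_zero] at hsr
          exact mul_ne_zero (C_ne_zero.2 hd) h.1 hsr
        have h1 := congrArg natDegree hsr
        rw [natDegree_C_mul hd, natDegree_mul hB0 hs0] at h1
        rcases mul_eq_zero.1 h0 with h2 | h2
        · exact h.ne hB0 hBm h2
        · exact h.ne hs0 (by omega) h2
      have hrn : r.natDegree < B.natDegree := natDegree_lt_natDegree hr0 hr
      obtain ⟨r', d', hd', hr'⟩ := ih r.natDegree (hBn ▸ hrn) r rfl hr0 (hrn.trans hBm)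
      refine ⟨- (s * r'), d', hd', ?_⟩
      rw [map_neg, map_mul, ← hr']
      linear_combination (-(ev1 (tau p) θ r')) * h0

theorem MinP.inv {m : P2 p} {θ : OO p} (h : MinP m θ) {B : P2 p} (hB : ev1 (tau p) θ B ≠ 0) :
    ∃ (B' : P2 p) (d : P1 p), d ≠ 0 ∧ ev1 (tau p) θ B' * ev1 (tau p) θ B = tau p d := by
  obtain ⟨d, hd, s, r, hsr, hr⟩ := pdiv m h.1 _ B rfl
  have h1 : tau p d * ev1 (tau p) θ B = ev1 (tau p) θ r := by
    have := congrArg (ev1 (tau p) θ) hsr
    rw [map_mul, map_add, map_mul, h.2.1, zero_mul, zero_add, ev1_C] at this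
    exact this
  have hd0 : tau p d ≠ 0 := by
    intro h2
    exact hd (tau_injective (h2.trans (map_zero _).symm))
  have hr0 : r ≠ 0 := by
    rintro rfl
    rw [map_zero] at h1
    exact mul_ne_zero hd0 hB h1
  obtain ⟨r', d', hd', hr'⟩ := h.inv_aux _ r rfl hr0 (natDegree_lt_natDegree hr0 hr)
  refine ⟨r' * C d, d', hd', ?_⟩
  rw [map_mul, ev1_C, ← hr', ← h1]
  ring

/-- the local conditions on `m` -/
def LocM (m : P2 p) : Prop :=
  (m.coeff 0).coeff 0 = 0 ∧ (m.coeff 1).coeff 0 ≠ 0 ∧ ∀ i, 2 ≤ i → (m.coeff i).coeff 0 = 0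

theorem div_t {m : P2 p} {θ : OO p} (h0 : ev1 (tau p) θ m = 0) (hm : LocM m)
    (hθ : PowerSeries.X ∣ θ) (A : P2 p) (hA : PowerSeries.X ∣ ev1 (tau p) θ A) :
    ∃ A₁ : P2 p, ev1 (tau p) θ A = PowerSeries.X * ev1 (tau p) θ A₁ := by
  have hA0 : (A.coeff 0).coeff 0 = 0 := by
    have h1 : ev1 (tau p) θ A = ev1 (tau p) θ (divX A) * θ + tau p (A.coeff 0) := by
      conv_lhs => rw [← divX_mul_X_add A]
      rw [map_add, map_mul, ev1_X, ev1_C]
    have h2 : PowerSeries.X ∣ tau p (A.coeff 0) := by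
      have h3 : tau p (A.coeff 0) = ev1 (tau p) θ A - ev1 (tau p) θ (divX A) * θ := by
        rw [h1]; ring
      rw [h3]
      exact dvd_sub hA (Dvd.dvd.mul_left hθ _)
    have h4 := (X_pow_dvd_tau 1 (A.coeff 0)).1 (by simpa using h2)
    rw [Polynomial.X_pow_dvd_iff] at h4
    exact h4 0 (by norm_num)
  set cc : P1 p →+* ZMod p := constantCoeff with hcc
  set u := (m.coeff 1).coeff 0 with hu
  have hmbar : m.map cc = C u * X := by
    ext i
    rw [coeff_map, coeff_C_mul, coeff_X, hcc, constantCoeff_apply]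
    rcases Nat.lt_or_ge i 2 with h2 | h2
    · interval_cases i
      · simpa using hm.1
      · simp [hu]
    · rw [if_neg (by omega), mul_zero]
      exact hm.2.2 i h2
  set Q : P2 p := (C u⁻¹ * divX (A.map cc)).map (C : ZMod p →+* P1 p) with hQ
  have hQc : Q.map cc = C u⁻¹ * divX (A.map cc) := by
    rw [hQ, map_map]
    have : cc.comp (C : ZMod p →+* P1 p) = RingHom.id _ := by
      ext x
      simp [hcc]
    rw [this, map_id]
  have hz : (A - m * Q).map cc = 0 := by
    rw [Polynomial.map_sub, Polynomial.map_mul, hmbar, hQc]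
    have h5 := divX_mul_X_add (A.map cc)
    have h6 : (A.map cc).coeff 0 = 0 := by
      rw [coeff_map, hcc, constantCoeff_apply]
      exact hA0
    rw [h6, C_0, add_zero] at h5
    have h7 : (C u : Polynomial (ZMod p)) * C u⁻¹ = 1 := by
      rw [← C_mul, mul_inv_cancel₀ hm.2.1, C_1]
    linear_combination (-1 : Polynomial (ZMod p)) * h5 -
      (divX (A.map cc)) * X * h7
  have hdvd : C (X : P1 p) ∣ A - m * Q := by
    rw [C_dvd_iff_dvd_coeff]
    intro i
    rw [X_dvd_iff]
    have := congrArg (fun r => r.coeff i) hz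
    simp only [coeff_map, coeff_zero] at this
    exact this
  obtain ⟨A₁, hA₁⟩ := hdvd
  refine ⟨A₁, ?_⟩
  have h8 := congrArg (ev1 (tau p) θ) hA₁
  rw [map_sub, map_mul, map_mul, h0, zero_mul, sub_zero, ev1_C, tau_X] at h8
  exact h8

theorem inTh_aux {m : P2 p} {θ : OO p} (h0 : ev1 (tau p) θ m = 0) (hm : LocM m)
    (hθ : PowerSeries.X ∣ θ) (c : P1 p) (hc : c.coeff 0 ≠ 0) (z : OO p) :
    ∀ (r : ℕ) (A : P2 p), PowerSeries.X ^ r * (tau p c * z) = ev1 (tau p) θ A → InTh θ z := by
  intro r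
  induction r with
  | zero =>
    intro A hA
    exact ⟨A, c, hc, by simpa using hA⟩
  | succ r ih =>
    intro A hA
    obtain ⟨A₁, hA₁⟩ := div_t h0 hm hθ A ⟨PowerSeries.X ^ r * (tau p c * z), by
      rw [← hA, pow_succ]; ring⟩
    refine ih A₁ ?_
    have h1 : PowerSeries.X * (PowerSeries.X ^ r * (tau p c * z)) =
        PowerSeries.X * ev1 (tau p) θ A₁ := by
      rw [← hA₁, ← hA, pow_succ]; ring
    exact mul_left_cancel₀ PowerSeries.X_ne_zero h1

theorem inTh_of {m : P2 p} {θ : OO p} (h : MinP m θ) (hm : LocM m)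
    (hθ : PowerSeries.X ∣ θ) (A B : P2 p) (z : OO p) (hB : ev1 (tau p) θ B ≠ 0)
    (hz : ev1 (tau p) θ B * z = ev1 (tau p) θ A) : InTh θ z := by
  obtain ⟨B', d, hd, hBd⟩ := h.inv hB
  obtain ⟨r, hr1, hr2⟩ := exists_order (tau p d)
    (fun h2 => hd (tau_injective (h2.trans (map_zero _).symm)))
  rw [X_pow_dvd_tau] at hr1
  obtain ⟨c, hc⟩ := hr1
  have hc0 : c.coeff 0 ≠ 0 := by
    intro h3
    apply hr2
    rw [X_pow_dvd_tau, hc, pow_succ]
    exact mul_dvd_mul_left _ (X_dvd_iff.2 h3)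
  refine inTh_aux h.2.1 hm hθ c hc0 z r (B' * A) ?_
  have h4 : tau p d = PowerSeries.X ^ r * tau p c := by
    rw [hc, map_mul, map_pow, tau_X]
  rw [map_mul, ← hz, ← mul_assoc, ← h4, ← hBd]
  ring

theorem exists_shift {θa : OO p} {ma : P2 p} (hma : MinP ma θa)
    (hD : ev1 (tau p) θa (derivative ma) ≠ 0) :
    ∃ (m : P2 p) (θ : OO p) (a θ₀ : P1 p), a ≠ 0 ∧ MinP m θ ∧ LocM m ∧ PowerSeries.X ∣ θ ∧
      θa = tau p θ₀ + tau p a * θ := by
  obtain ⟨e, he1, he2⟩ := exists_order _ hD
  set θ₀ : P1 p := PowerSeries.trunc (e + 2) θa with hθ₀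
  have hdvd : PowerSeries.X ^ (e + 2) ∣ θa - tau p θ₀ := by
    rw [PowerSeries.X_pow_dvd_iff]
    intro n hn
    rw [map_sub, tau_coeff, hθ₀, PowerSeries.coeff_trunc, if_pos hn, sub_self]
  obtain ⟨w, hw⟩ := hdvd
  set θ : OO p := PowerSeries.X * w with hθ
  set a : P1 p := X ^ (e + 1) with ha
  have ha0 : a ≠ 0 := pow_ne_zero _ X_ne_zero
  have hta : tau p a = PowerSeries.X ^ (e + 1) := by rw [ha, map_pow, tau_X]
  have hθa : θa = tau p θ₀ + tau p a * θ := by
    rw [hta, hθ, ← mul_assoc, ← pow_succ, show e + 1 + 1 = e + 2 from rfl, ← hw]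
    ring
  have hXθ : PowerSeries.X ∣ θ := ⟨w, rfl⟩
  set M : P2 p := ma.comp (C a * X + C θ₀) with hM
  have hMtay : M = (taylor θ₀ ma).comp (C a * X) := by
    rw [taylor_apply, comp_assoc, hM]
    congr 1
    simp
  have hMc : ∀ i, M.coeff i = (taylor θ₀ ma).coeff i * a ^ i := by
    intro i
    rw [hMtay, comp_C_mul_X_coeff]
  have hMθ : ev1 (tau p) θ M = 0 := by
    rw [hM, ev1_comp, map_add, map_mul, ev1_C, ev1_C, ev1_X, add_comm, ← hθa, hma.2.1]
  -- the derivative at θ₀
  set d₀ : P1 p := (taylor θ₀ ma).coeff 1 with hd₀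
  have hd₀' : d₀ = eval θ₀ (derivative ma) := by rw [hd₀, taylor_coeff_one]
  have hτd₀ : tau p d₀ = ev1 (tau p) (tau p θ₀) (derivative ma) := by
    rw [hd₀', ev1_eq_eval, eval_map, eval₂_at_apply]
  have hdd : PowerSeries.X ^ (e + 2) ∣ ev1 (tau p) θa (derivative ma) - tau p d₀ := by
    rw [hτd₀, ev1_eq_eval, ev1_eq_eval]
    refine dvd_trans ?_ (sub_dvd_eval_sub _ _ _)
    exact ⟨w, hw⟩
  have hd1 : X ^ e ∣ d₀ := by
    rw [← X_pow_dvd_tau]
    have h1 : tau p d₀ = ev1 (tau p) θa (derivative ma) -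
      (ev1 (tau p) θa (derivative ma) - tau p d₀) := by ring
    rw [h1]
    exact dvd_sub he1 (dvd_trans (pow_dvd_pow _ (by omega)) hdd)
  have hd2 : ¬ X ^ (e + 1) ∣ d₀ := by
    rw [← X_pow_dvd_tau]
    intro h2
    apply he2
    have h1 : ev1 (tau p) θa (derivative ma) = tau p d₀ +
      (ev1 (tau p) θa (derivative ma) - tau p d₀) := by ring
    rw [h1]
    exact dvd_add h2 (dvd_trans (pow_dvd_pow _ (by omega)) hdd)
  have hM1 : M.coeff 1 = d₀ * X ^ (e + 1) := by rw [hMc, pow_one]
  have hM1d : X ^ (2 * e + 1) ∣ M.coeff 1 := by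
    rw [hM1, show 2 * e + 1 = e + (e + 1) by ring, pow_add]
    exact mul_dvd_mul_right hd1 _
  have hM2 : ∀ i, 2 ≤ i → X ^ (2 * e + 2) ∣ M.coeff i := by
    intro i hi
    rw [hMc, ha, ← pow_mul]
    refine Dvd.dvd.mul_left (pow_dvd_pow _ ?_) _
    nlinarith
  have hM0 : X ^ (2 * e + 2) ∣ M.coeff 0 := by
    rw [← X_pow_dvd_tau]
    have h1 : M = (divX (divX M) * X + C (M.coeff 1)) * X + C (M.coeff 0) := by
      have h3 := divX_mul_X_add (divX M)
      rw [coeff_divX, zero_add] at h3
      rw [h3, divX_mul_X_add]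
    have h2 : ev1 (tau p) θ (divX (divX M)) * θ * θ + tau p (M.coeff 1) * θ +
        tau p (M.coeff 0) = 0 := by
      have := congrArg (ev1 (tau p) θ) h1
      rw [hMθ, map_add, map_mul, map_add, map_mul, ev1_X, ev1_C, ev1_C] at this
      rw [this]; ring
    have h4 : tau p (M.coeff 0) = -(ev1 (tau p) θ (divX (divX M)) * θ * θ) -
        tau p (M.coeff 1) * θ := by linear_combination h2
    rw [h4]
    have h5 : C (X ^ (2 * e + 2)) ∣ divX (divX M) := by
      rw [C_dvd_iff_dvd_coeff]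
      intro i
      rw [coeff_divX, coeff_divX]
      exact hM2 _ (by omega)
    obtain ⟨G, hG⟩ := h5
    refine dvd_sub ?_ ?_
    · rw [hG, map_mul, ev1_C, map_pow, tau_X, dvd_neg]
      exact ⟨ev1 (tau p) θ G * θ * θ, by ring⟩
    · have h6 := (X_pow_dvd_tau _ _).2 hM1d
      rw [show 2 * e + 2 = (2 * e + 1) + 1 by ring, pow_succ]
      exact mul_dvd_mul h6 hXθ
  have hMall : C (X ^ (2 * e + 1)) ∣ M := by
    rw [C_dvd_iff_dvd_coeff]
    intro i
    rcases Nat.lt_or_ge i 2 with h2 | h2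
    · interval_cases i
      · exact dvd_trans (pow_dvd_pow _ (by omega)) hM0
      · exact hM1d
    · exact dvd_trans (pow_dvd_pow _ (by omega)) (hM2 i h2)
  obtain ⟨m, hm⟩ := hMall
  have hX0 : (X : P1 p) ^ (2 * e + 1) ≠ 0 := pow_ne_zero _ X_ne_zero
  have hmc : ∀ i, M.coeff i = X ^ (2 * e + 1) * m.coeff i := by
    intro i
    rw [hm, coeff_C_mul]
  have hloc : ∀ i, X ^ (2 * e + 2) ∣ M.coeff i → (m.coeff i).coeff 0 = 0 := by
    intro i hi
    rw [hmc i, show 2 * e + 2 = (2 * e + 1) + 1 by ring, pow_succ] at hi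
    rw [← X_dvd_iff]
    exact (mul_dvd_mul_iff_left hX0).1 hi
  have hMdeg : M.natDegree = ma.natDegree := by
    rw [hM, natDegree_comp, natDegree_linear ha0, mul_one]
  have hmdeg : m.natDegree = ma.natDegree := by
    rw [← hMdeg, hm, natDegree_C_mul hX0]
  refine ⟨m, θ, a, θ₀, ha0, ⟨?_, ?_, ?_⟩, ⟨hloc 0 hM0, ?_, fun i hi => hloc i (hM2 i hi)⟩,
    hXθ, hθa⟩
  · rintro rfl
    have h1 := hma.deg_pos
    rw [← hmdeg, natDegree_zero] at h1
    exact lt_irrefl _ h1
  · have h1 := congrArg (ev1 (tau p) θ) hm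
    rw [hMθ, map_mul, ev1_C] at h1
    rcases mul_eq_zero.1 h1.symm with h2 | h2
    · exact absurd (tau_injective (h2.trans (map_zero _).symm)) hX0
    · exact h2
  · intro r hr hr'
    rw [hmdeg]
    have h1 : ev1 (tau p) θa ((scaleRoots r a).comp (X - C θ₀)) = 0 := by
      rw [ev1_comp, map_sub, ev1_X, ev1_C]
      have h2 : θa - tau p θ₀ = tau p a * θ := by rw [hθa]; ring
      rw [h2]
      have h3 := scaleRoots_eval₂_mul (f := tau p) (p := r) θ a
      unfold ev1 at hr' ⊢
      rw [coe_eval₂RingHom] at hr' ⊢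
      rw [h3, hr', mul_zero]
    have h4 : (scaleRoots r a).comp (X - C θ₀) ≠ 0 := by
      intro h5
      rw [comp_eq_zero_iff] at h5
      rcases h5 with h5 | h5
      · exact scaleRoots_ne_zero hr a h5
      · have h6 := h5.2
        have h7 := congrArg natDegree h6
        rw [natDegree_X_sub_C, natDegree_C] at h7
        exact one_ne_zero h7
    have h5 := hma.2.2 _ h4 h1
    rwa [natDegree_comp, natDegree_scaleRoots, natDegree_X_sub_C, mul_one] at h5
  · intro h1
    rw [← X_dvd_iff] at h1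
    apply hd2
    have h2 : X ^ (2 * e + 2) ∣ M.coeff 1 := by
      rw [hmc, show 2 * e + 2 = (2 * e + 1) + 1 by ring, pow_succ]
      exact mul_dvd_mul_left _ h1
    rw [hM1, show 2 * e + 2 = (e + 1) + (e + 1) by ring, pow_add] at h2
    exact (mul_dvd_mul_iff_right (pow_ne_zero _ X_ne_zero)).1 h2

theorem exists_scale (x : KK p) : ∃ (n : ℕ) (y : OO p), x * iK p PowerSeries.X ^ n = iK p y := by
  obtain ⟨⟨y, ⟨_, n, rfl⟩⟩, h⟩ := IsLocalization.surj
    (Submonoid.powers (PowerSeries.X : OO p)) x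
  refine ⟨n, y, ?_⟩
  have h' : x * algebraMap (OO p) (KK p) (PowerSeries.X ^ n) = algebraMap (OO p) (KK p) y := h
  rw [map_pow] at h'
  exact h'

theorem theta_data (S : Finset (OO p)) (hS : ∀ s ∈ S, AlgO s) :
    ∃ (m : P2 p) (θ : OO p), ThetaData m θ ∧ ∀ s ∈ S, InTh θ s := by
  classical
  obtain ⟨θ', hθ', hrat⟩ := prim (tauK p) tauK_injective (S.image (iK p)) (by
    intro s hs
    obtain ⟨z, hz, rfl⟩ := Finset.mem_image.1 hs
    obtain ⟨q, hq0, hq, hmin⟩ := exists_min (hS z hz)
    refine ⟨q, ?_, ?_⟩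
    · rw [← iK_ev1, hq, map_zero]
    · rw [← iK_ev1]
      intro h
      exact sep_min z q hq0 hq hmin (iK_injective (h.trans (map_zero _).symm)))
  obtain ⟨n, θa, hn⟩ := exists_scale θ'
  have hXn : tauK p (X ^ n) = iK p PowerSeries.X ^ n := by
    unfold tauK
    rw [RingHom.comp_apply, map_pow, tau_X, map_pow]
  have hXn0 : tauK p (X ^ n) ≠ 0 := by
    intro h
    exact pow_ne_zero n (X_ne_zero (R := ZMod p)) (tauK_injective (h.trans (map_zero _).symm))
  have halg : AlgO θa := by
    have h1 : Rat1 (tauK p) θ' (iK p θa) := by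
      refine ⟨C (X ^ n) * X, 1, by rw [map_one]; exact one_ne_zero, ?_⟩
      rw [map_one, one_mul, map_mul, ev1_C, ev1_X, hXn, ← hn, mul_comm]
    obtain ⟨q, hq0, hq⟩ := alg1_rat (tauK p) tauK_injective hθ' h1
    refine ⟨q, hq0, iK_injective ?_⟩
    rw [iK_ev1, hq, map_zero]
  obtain ⟨ma, hma0, hma, hmin⟩ := exists_min halg
  obtain ⟨m, θ, a, θ₀, ha0, hmP, hloc, hXθ, hθa⟩ := exists_shift ⟨hma0, hma, hmin⟩
    (sep_min θa ma hma0 hma hmin)
  refine ⟨m, θ, ⟨hloc.1, hloc.2.1, hXθ, hmP.2.1, fun q hq => hmP.dvd hq,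
    fun A B z hB hz => inTh_of hmP hloc hXθ A B z hB hz⟩, ?_⟩
  intro s hs
  have h1 : Rat1 (tauK p) (iK p θ) θ' := by
    refine ⟨C a * X + C θ₀, C (X ^ n), ?_, ?_⟩
    · rw [ev1_C]; exact hXn0
    · rw [ev1_C, map_add, map_mul, ev1_C, ev1_C, ev1_X, hXn, mul_comm, hn, hθa, map_add,
        map_mul, add_comm]
      rfl
  obtain ⟨A, B, hB, hAB⟩ := rat1_trans (tauK p) tauK_injective h1
    (hrat _ (Finset.mem_image_of_mem _ hs))
  rw [← iK_ev1] at hB hAB
  rw [← iK_ev1, ← map_mul] at hAB
  refine inTh_of hmP hloc hXθ A B s ?_ (iK_injective hAB)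
  intro h2
  rw [h2, map_zero] at hB
  exact hB rfl

/-! ### From equalities to certificates -/

/-- evaluation `Z ↦ ζ`, `T ↦ θ`, coefficientwise in the outer variable -/
noncomputable def evth (ζ θ : OO p) : P4 p →+* Polynomial (OO p) :=
  Polynomial.mapRingHom (ev2 (tau p) ζ θ)

theorem ev2_mhat {m : P2 p} (ζ θ : OO p) : ev2 (tau p) ζ θ (mhat m) = ev1 (tau p) θ m := by
  unfold ev2 mhat ev1
  rw [coe_eval₂RingHom, coe_eval₂RingHom, eval₂_map]
  congr 1
  refine RingHom.ext (fun r => ?_)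
  rw [RingHom.comp_apply, coe_eval₂RingHom, eval₂_C]

theorem ev2_zhat {c : P1 p} (ζ θ : OO p) :
    ev2 (tau p) ζ θ (zhat c) = tau p c * ζ - 1 := by
  unfold ev2 zhat
  simp

/-- elements of `F_p[t][Z][T]` which are equal to an element of `F_p[t][T]` modulo `c Z - 1`,
after multiplication by a power of `c` -/
def Good (c : P1 p) (e : P3 p) : Prop :=
  ∃ (N : ℕ) (e' : P2 p), zhat c ∣ C (C (c ^ N)) * e - mhat e'

theorem Good.add {c : P1 p} {e₁ e₂ : P3 p} (h₁ : Good c e₁) (h₂ : Good c e₂) :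
    Good c (e₁ + e₂) := by
  obtain ⟨N₁, a₁, s₁, h₁⟩ := h₁
  obtain ⟨N₂, a₂, s₂, h₂⟩ := h₂
  refine ⟨N₁ + N₂, C (c ^ N₂) * a₁ + C (c ^ N₁) * a₂,
    C (C (c ^ N₂)) * s₁ + C (C (c ^ N₁)) * s₂, ?_⟩
  have h3 : mhat (C (c ^ N₂) * a₁ + C (c ^ N₁) * a₂) =
      C (C (c ^ N₂)) * mhat a₁ + C (C (c ^ N₁)) * mhat a₂ := by
    unfold mhat
    rw [Polynomial.map_add, Polynomial.map_mul, Polynomial.map_mul, map_C, map_C]
  rw [h3, pow_add, C_mul, C_mul]
  linear_combination (C (C (c ^ N₂))) * h₁ + (C (C (c ^ N₁))) * h₂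

theorem Good.mul {c : P1 p} {e₁ e₂ : P3 p} (h₁ : Good c e₁) (h₂ : Good c e₂) :
    Good c (e₁ * e₂) := by
  obtain ⟨N₁, a₁, s₁, h₁⟩ := h₁
  obtain ⟨N₂, a₂, s₂, h₂⟩ := h₂
  refine ⟨N₁ + N₂, a₁ * a₂, C (C (c ^ N₂)) * e₂ * s₁ + mhat a₁ * s₂, ?_⟩
  have h3 : mhat (a₁ * a₂) = mhat a₁ * mhat a₂ := by
    unfold mhat
    rw [Polynomial.map_mul]
  rw [h3, pow_add, C_mul, C_mul]
  linear_combination (C (C (c ^ N₂)) * e₂) * h₁ + (mhat a₁) * h₂

theorem good_C_C (c r : P1 p) : Good c (C (C r)) := by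
  refine ⟨0, C r, 0, ?_⟩
  unfold mhat
  rw [map_C, pow_zero, C_1, C_1]
  ring

theorem good_Z (c : P1 p) : Good c (C X) := by
  refine ⟨1, 1, 1, ?_⟩
  unfold mhat zhat
  rw [Polynomial.map_one, pow_one, C_sub, C_mul, C_1]
  ring

theorem good_T (c : P1 p) : Good c X := by
  refine ⟨0, X, 0, ?_⟩
  unfold mhat
  rw [map_X, pow_zero, C_1, C_1]
  ring

theorem good_pow {c : P1 p} {e : P3 p} (h : Good c e) (n : ℕ) : Good c (e ^ n) := by
  induction n with
  | zero => rw [pow_zero, ← C_1, ← C_1]; exact good_C_C c 1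
  | succ n ih => rw [pow_succ]; exact ih.mul h

theorem good_C (c : P1 p) (a : P2 p) : Good c (C a) := by
  induction a using Polynomial.induction_on' with
  | add a b ha hb => rw [C_add]; exact ha.add hb
  | monomial n r =>
    rw [← C_mul_X_pow_eq_monomial, C_mul, C_pow]
    exact (good_C_C c r).mul (good_pow (good_Z c) n)

theorem good_all (c : P1 p) (e : P3 p) : Good c e := by
  induction e using Polynomial.induction_on' with
  | add a b ha hb => exact ha.add hb
  | monomial n r =>
    rw [← C_mul_X_pow_eq_monomial]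
    exact (good_C c r).mul (good_pow (good_T c) n)

theorem coeff_cert {m : P2 p} {θ : OO p} (h : ThetaData m θ) {c : P1 p} {ζ : OO p}
    (hc : tau p c * ζ = 1) (e : P3 p) (he : ev2 (tau p) ζ θ e = 0) :
    ∃ d : P1 p, d ≠ 0 ∧ C (C d) * e ∈ Ideal.span {mhat m, zhat c} := by
  obtain ⟨N, e', s, hs⟩ := good_all c e
  have hc0 : c ≠ 0 := by
    rintro rfl
    rw [map_zero, zero_mul] at hc
    exact zero_ne_one hc
  have h1 : ev1 (tau p) θ e' = 0 := by
    have := congrArg (ev2 (tau p) ζ θ) hs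
    rw [map_sub, map_mul, he, mul_zero, zero_sub, ev2_mhat, map_mul, ev2_zhat, hc, sub_self,
      zero_mul, neg_eq_zero] at this
    exact this
  obtain ⟨d, hd, q, hq⟩ := h.2.2.2.2.1 e' h1
  refine ⟨d * c ^ N, mul_ne_zero hd (pow_ne_zero _ hc0), ?_⟩
  have h2 : C (C (d * c ^ N)) * e = mhat q * mhat m + (C (C d) * s) * zhat c := by
    have h3 : C (C d) * mhat e' = mhat m * mhat q := by
      have := congrArg mhat hq
      unfold mhat at this ⊢
      rw [Polynomial.map_mul, Polynomial.map_mul, map_C] at this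
      exact this
    rw [C_mul, C_mul]
    linear_combination (C (C d)) * hs + h3
  rw [h2]
  exact Ideal.add_mem _ (Ideal.mul_mem_left _ _ (Ideal.subset_span (by simp)))
    (Ideal.mul_mem_left _ _ (Ideal.subset_span (by simp)))

theorem eqv_of_eval {m : P2 p} {θ : OO p} (h : ThetaData m θ) {c : P1 p} {ζ : OO p}
    (hc : tau p c * ζ = 1) {E₁ E₂ : P4 p} (hE : evth ζ θ E₁ = evth ζ θ E₂) : Eqv m c E₁ E₂ := by
  have h1 : ∀ n, ev2 (tau p) ζ θ ((E₁ - E₂).coeff n) = 0 := by
    intro n
    have := congrArg (fun q => Polynomial.coeff q n) hE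
    simp only [evth, coe_mapRingHom, coeff_map] at this
    rw [coeff_sub, map_sub, this, sub_self]
  have h2 : ∀ N : ℕ, ∃ d : P1 p, d ≠ 0 ∧ ∀ n < N,
      C (C d) * (E₁ - E₂).coeff n ∈ Ideal.span {mhat m, zhat c} := by
    intro N
    induction N with
    | zero => exact ⟨1, one_ne_zero, fun n hn => absurd hn (by omega)⟩
    | succ N ih =>
      obtain ⟨d, hd, hd'⟩ := ih
      obtain ⟨d₁, hd₁, hd₁'⟩ := coeff_cert h hc _ (h1 N)
      refine ⟨d * d₁, mul_ne_zero hd hd₁, fun n hn => ?_⟩
      rcases Nat.lt_succ_iff_lt_or_eq.1 hn with hn | rfl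
      · rw [C_mul, C_mul, mul_comm (C (C d)), mul_assoc]
        exact Ideal.mul_mem_left _ _ (hd' n hn)
      · rw [C_mul, C_mul, mul_assoc]
        exact Ideal.mul_mem_left _ _ hd₁'
  obtain ⟨d, hd, hd'⟩ := h2 ((E₁ - E₂).natDegree + 1)
  have h3 : kap p d * (E₁ - E₂) ∈ Ideal.map (C : P3 p →+* P4 p) (Ideal.span {mhat m, zhat c}) := by
    rw [Ideal.mem_map_C_iff]
    intro n
    have h4 : (kap p d * (E₁ - E₂)).coeff n = C (C d) * (E₁ - E₂).coeff n := by
      unfold kap
      rw [RingHom.comp_apply, RingHom.comp_apply, coeff_C_mul]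
    rw [h4]
    by_cases hn : n < (E₁ - E₂).natDegree + 1
    · exact hd' n hn
    · rw [coeff_eq_zero_of_natDegree_lt (by omega), mul_zero]
      exact Ideal.zero_mem _
  rw [Ideal.map_span, Set.image_pair, Ideal.mem_span_pair] at h3
  obtain ⟨S, S', hS⟩ := h3
  refine ⟨d, S, S', hd, ?_⟩
  linear_combination -hS

end theta

end FT80
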