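import Pool.Agent.FT80.Defs
set_option maxSynthPendingDepth 10
open Polynomial
namespace FT80

section hensel
variable {k : Type*} [Field k]

theorem ps_eq_zero_of_dvd {z : PowerSeries k} (h : ∀ n : ℕ, PowerSeries.X ^ n ∣ z) : z = 0 := by
  ext n
  exact PowerSeries.X_pow_dvd_iff.1 (h (n + 1)) n (by omega)

theorem ps_isUnit_of_not_dvd {z : PowerSeries k} (h : ¬ PowerSeries.X ∣ z) : IsUnit z := by
  rw [PowerSeries.isUnit_iff_constantCoeff, isUnit_iff_ne_zero]
  intro h0
  exact h (PowerSeries.X_dvd_iff.2 h0)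

theorem ps_not_dvd_of_isUnit {z : PowerSeries k} (h : IsUnit z) : ¬ PowerSeries.X ∣ z := by
  rw [PowerSeries.isUnit_iff_constantCoeff, isUnit_iff_ne_zero] at h
  intro h0
  exact h (PowerSeries.X_dvd_iff.1 h0)

theorem ps_eq_pow_mul_unit {z : PowerSeries k} (h : z ≠ 0) :
    ∃ (n : ℕ) (q : PowerSeries k), z = PowerSeries.X ^ n * q ∧ IsUnit q := by
  refine ⟨z.order.toNat, PowerSeries.divXPowOrder z, PowerSeries.X_pow_order_mul_divXPowOrder.symm,
    ?_⟩
  rw [PowerSeries.isUnit_iff_constantCoeff, isUnit_iff_ne_zero]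
  rw [Ne, PowerSeries.constantCoeff_divXPowOrder_eq_zero_iff]
  exact h

/-- limits of sequences of power series -/
theorem ps_limit (z : ℕ → PowerSeries k) (h : ∀ n, PowerSeries.X ^ (n + 1) ∣ z (n + 1) - z n) :
    ∃ w : PowerSeries k, ∀ n, PowerSeries.X ^ (n + 1) ∣ w - z n := by
  refine ⟨PowerSeries.mk fun n => PowerSeries.coeff n (z n), ?_⟩
  have key : ∀ m n, m ≤ n → PowerSeries.coeff m (z n) = PowerSeries.coeff m (z m) := by
    intro m n hmn
    induction n, hmn using Nat.le_induction with
    | base => rfl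
    | succ n hmn ih =>
      rw [← ih]
      have := PowerSeries.X_pow_dvd_iff.1 (h n) m (by omega)
      rw [map_sub, sub_eq_zero] at this
      exact this
  intro n
  rw [PowerSeries.X_pow_dvd_iff]
  intro m hm
  rw [map_sub, PowerSeries.coeff_mk, key m n (by omega), sub_self]

theorem hensel_ps (F : Polynomial (PowerSeries k))
    (h0 : PowerSeries.X ∣ F.eval 0) (h1 : IsUnit (F.derivative.eval 0)) :
    ∃ z : PowerSeries k, PowerSeries.X ∣ z ∧ F.eval z = 0 := by
  obtain ⟨u, hu⟩ := h1.exists_right_inv
  let seq : ℕ → PowerSeries k := fun n => Nat.iterate (fun z => z - F.eval z * u) n 0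
  have hseq : ∀ n, seq (n + 1) = seq n - F.eval (seq n) * u := fun n =>
    Function.iterate_succ_apply' (fun z => z - F.eval z * u) n 0
  have key : ∀ n, PowerSeries.X ∣ seq n ∧ PowerSeries.X ^ (n + 1) ∣ F.eval (seq n) := by
    intro n
    induction n with
    | zero =>
      have : seq 0 = 0 := rfl
      rw [this]
      exact ⟨dvd_zero _, by simpa using h0⟩
    | succ n ih =>
      obtain ⟨ih1, ih2⟩ := ih
      have hX : (PowerSeries.X : PowerSeries k) ∣ F.eval (seq n) :=
        dvd_trans (dvd_pow_self _ (by omega)) ih2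
      constructor
      · rw [hseq]
        exact dvd_sub ih1 (Dvd.dvd.mul_right hX u)
      · obtain ⟨c, hc⟩ := Polynomial.binomExpansion F (seq n) (-(F.eval (seq n) * u))
        have e1 : seq (n + 1) = seq n + -(F.eval (seq n) * u) := by rw [hseq]; ring
        rw [e1, hc]
        have h2 : PowerSeries.X ∣ 1 - F.derivative.eval (seq n) * u := by
          rw [← hu, ← sub_mul]
          have := Polynomial.sub_dvd_eval_sub 0 (seq n) F.derivative
          rw [zero_sub] at this
          exact Dvd.dvd.mul_right (dvd_trans ((dvd_neg).2 ih1) this) u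
        have e2 : F.eval (seq n) + F.derivative.eval (seq n) * -(F.eval (seq n) * u) +
            c * (-(F.eval (seq n) * u)) ^ 2 =
            F.eval (seq n) * ((1 - F.derivative.eval (seq n) * u) +
              c * F.eval (seq n) * u ^ 2) := by ring
        rw [e2, pow_succ]
        apply mul_dvd_mul ih2
        apply dvd_add h2
        apply Dvd.dvd.mul_right
        exact Dvd.dvd.mul_left hX c
  obtain ⟨w, hw⟩ := ps_limit seq (by
    intro n
    have e1 : seq (n + 1) - seq n = -(F.eval (seq n) * u) := by rw [hseq]; ring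
    rw [e1, dvd_neg]
    exact Dvd.dvd.mul_right (key n).2 u)
  refine ⟨w, ?_, ?_⟩
  · have h1 := hw 0
    rw [zero_add, pow_one] at h1
    have := dvd_add h1 (key 0).1
    simpa using this
  · apply ps_eq_zero_of_dvd
    intro n
    have h1 := Polynomial.sub_dvd_eval_sub w (seq n) F
    have h2 := dvd_add (dvd_trans (hw n) h1) (key n).2
    rw [sub_add_cancel] at h2
    exact dvd_trans (pow_dvd_pow _ (by omega)) h2

theorem exists_root_pow (e : ℕ) (he : (e : k) ≠ 0) (A : PowerSeries k)
    (hA : PowerSeries.constantCoeff A = 1) :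
    ∃ B : PowerSeries k, PowerSeries.constantCoeff B = 1 ∧ B ^ e = A := by
  have hu : IsUnit ((e : PowerSeries k)) := by
    rw [PowerSeries.isUnit_iff_constantCoeff, map_natCast, isUnit_iff_ne_zero]
    exact he
  obtain ⟨z, hz1, hz2⟩ := hensel_ps ((X + 1) ^ e - C A) (by
    rw [PowerSeries.X_dvd_iff]
    simp [hA]) (by
    simp only [Polynomial.derivative_sub, Polynomial.derivative_pow, Polynomial.derivative_add,
      Polynomial.derivative_X, Polynomial.derivative_one, Polynomial.derivative_C]
    simpa using hu)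
  refine ⟨z + 1, ?_, ?_⟩
  · rw [map_add, PowerSeries.X_dvd_iff.1 hz1]
    simp
  · simpa [sub_eq_zero] using hz2

end hensel
end FT80
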