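import Pool.Agent.FT80.Hensel
set_option maxSynthPendingDepth 10
set_option linter.unusedSectionVars false
open Polynomial
namespace FT80

variable {p : ℕ} [Fact p.Prime]

/-- the powers of `t` in `K` -/
noncomputable def TT (p : ℕ) (n : ℤ) : KK p := HahnSeries.single n 1

/-- `x ∈ K` is integral -/
def InO (x : KK p) : Prop := ∃ a : OO p, iK p a = x

theorem TT_add (m n : ℤ) : TT p (m + n) = TT p m * TT p n := by
  simp [TT, HahnSeries.single_mul_single]

theorem TT_zero : TT p 0 = 1 := rfl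

theorem TT_nat (n : ℕ) : TT p n = iK p (PowerSeries.X ^ n) := by
  show _ = (HahnSeries.ofPowerSeries ℤ (ZMod p)) (PowerSeries.X ^ n)
  rw [HahnSeries.ofPowerSeries_X_pow]
  rfl

theorem TT_neg_mul (n : ℤ) : TT p (-n) * TT p n = 1 := by
  rw [← TT_add, neg_add_cancel, TT_zero]

theorem TT_ne_zero (n : ℤ) : TT p n ≠ 0 := by
  intro h
  have := TT_neg_mul (p := p) n
  rw [h, mul_zero] at this
  exact zero_ne_one this

theorem TT_inv (n : ℤ) : (TT p n)⁻¹ = TT p (-n) := by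
  rw [inv_eq_iff_eq_inv]
  exact eq_inv_of_mul_eq_one_right (TT_neg_mul n)

theorem iK_injective : Function.Injective (iK p) :=
  IsFractionRing.injective (OO p) (KK p)

theorem InO.add {x y : KK p} (hx : InO x) (hy : InO y) : InO (x + y) := by
  obtain ⟨a, rfl⟩ := hx
  obtain ⟨b, rfl⟩ := hy
  exact ⟨a + b, map_add _ _ _⟩

theorem InO.mul {x y : KK p} (hx : InO x) (hy : InO y) : InO (x * y) := by
  obtain ⟨a, rfl⟩ := hx
  obtain ⟨b, rfl⟩ := hy
  exact ⟨a * b, map_mul _ _ _⟩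

theorem InO.neg {x : KK p} (hx : InO x) : InO (-x) := by
  obtain ⟨a, rfl⟩ := hx
  exact ⟨-a, map_neg _ _⟩

theorem InO.zero : InO (0 : KK p) := ⟨0, map_zero _⟩
theorem InO.one : InO (1 : KK p) := ⟨1, map_one _⟩
theorem InO.pow {x : KK p} (hx : InO x) (n : ℕ) : InO (x ^ n) := by
  obtain ⟨a, rfl⟩ := hx
  exact ⟨a ^ n, map_pow _ _ _⟩
theorem InO.iK (a : OO p) : InO (iK p a) := ⟨a, rfl⟩

theorem InO.TT {n : ℤ} (hn : 0 ≤ n) : InO (TT p n) := by
  obtain ⟨m, rfl⟩ := Int.eq_ofNat_of_zero_le hn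
  exact ⟨_, (TT_nat m).symm⟩

theorem inO_iff {x : KK p} : InO x ↔ Valued.v x ≤ (1 : WithZero (Multiplicative ℤ)) := by
  rw [LaurentSeries.val_le_one_iff_eq_coe]
  rfl

theorem inO_or_inv (x : KK p) (h : ¬ InO x) : InO x⁻¹ := by
  rw [inO_iff] at h ⊢
  rw [not_le] at h
  rw [map_inv₀]
  exact inv_le_one_of_one_le₀ h.le

theorem not_inO_TT {n : ℤ} (hn : n < 0) : ¬ InO (TT p n) := by
  rintro ⟨a, ha⟩
  have h1 : (iK p a).coeff n = 0 := by
    show (HahnSeries.ofPowerSeries ℤ (ZMod p) a).coeff n = 0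
    have := PowerSeries.coeff_coe (f := a) n
    rw [if_pos hn] at this
    exact this
  rw [ha] at h1
  simp [TT] at h1

theorem InO.mono {x : KK p} {m n : ℤ} (hmn : m ≤ n) (h : InO (FT80.TT p m * x)) :
    InO (FT80.TT p n * x) := by
  have : FT80.TT p n * x = FT80.TT p (n - m) * (FT80.TT p m * x) := by
    rw [← mul_assoc, ← TT_add]
    congr 2
    ring
  rw [this]
  exact (InO.TT (by omega)).mul h

/-- the normal form of a nonzero element of `K` -/
theorem exists_form {x : KK p} (hx : x ≠ 0) :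
    ∃ (n : ℤ) (a : OO p), IsUnit a ∧ x = TT p n * iK p a := by
  have hx' : x.powerSeriesPart ≠ 0 := by
    rwa [Ne, LaurentSeries.powerSeriesPart_eq_zero]
  obtain ⟨m, q, hq, hu⟩ := ps_eq_pow_mul_unit hx'
  refine ⟨x.order + m, q, hu, ?_⟩
  have h1 := LaurentSeries.single_order_mul_powerSeriesPart x
  rw [TT_add, mul_assoc, TT_nat, ← map_mul, ← hq]
  exact h1.symm

theorem exists_clear (x : KK p) : ∃ n : ℕ, InO (TT p n * x) := by
  rcases eq_or_ne x 0 with rfl | hx
  · exact ⟨0, by rw [mul_zero]; exact InO.zero⟩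
  obtain ⟨n, a, -, rfl⟩ := exists_form hx
  refine ⟨(-n).toNat, ?_⟩
  rw [← mul_assoc, ← TT_add]
  exact (InO.TT (by omega)).mul (InO.iK a)

theorem inO_TT_iff {a : OO p} {n : ℕ} : InO (TT p (-n) * iK p a) ↔ PowerSeries.X ^ n ∣ a := by
  constructor
  · rintro ⟨b, hb⟩
    refine ⟨b, ?_⟩
    apply iK_injective
    rw [map_mul, ← TT_nat, hb, ← mul_assoc, ← TT_add, add_neg_cancel, TT_zero, one_mul]
  · rintro ⟨b, rfl⟩
    refine ⟨b, ?_⟩
    rw [map_mul, ← TT_nat, ← mul_assoc, TT_neg_mul, one_mul]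

theorem clear_poly (q : Polynomial (KK p)) :
    ∃ (n : ℕ) (q' : Polynomial (OO p)), q'.map (iK p) = C (TT p n) * q := by
  induction q using Polynomial.induction_on' with
  | add q r hq hr =>
    obtain ⟨n, q', hq'⟩ := hq
    obtain ⟨m, r', hr'⟩ := hr
    refine ⟨n + m, C (PowerSeries.X ^ m) * q' + C (PowerSeries.X ^ n) * r', ?_⟩
    rw [Polynomial.map_add, Polynomial.map_mul, Polynomial.map_mul, Polynomial.map_C,
      Polynomial.map_C, hq', hr', ← TT_nat, ← TT_nat, ← mul_assoc, ← mul_assoc, ← map_mul,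
      ← map_mul, ← TT_add, ← TT_add, mul_add]
    push_cast
    rw [add_comm (m : ℤ) n]
  | monomial k a =>
    obtain ⟨n, b, hb⟩ := exists_clear a
    refine ⟨n, Polynomial.monomial k b, ?_⟩
    rw [Polynomial.map_monomial, hb, Polynomial.C_mul_monomial]

end FT80
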