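import Mathlib

set_option maxSynthPendingDepth 10

namespace FT80.SepC

open Polynomial

/-- If `R` has a finite p-basis which stays independent over the p-th powers of the field `L`,
then every element of `L` algebraic over `R` is a simple root of a polynomial over `R`. -/
theorem sep_of_pbasis {R L ι : Type*} [CommRing R] [IsDomain R] [CommRing L] [Fintype ι] (p : ℕ)
    [hp : Fact p.Prime] [CharP R p] [CharP L p] (φ : R →+* L) (hφ : Function.Injective φ) (b : ι → R)
    (hspan : ∀ r : R, ∃ c : ι → R, r = ∑ i, b i * c i ^ p)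
    (hind : ∀ z : ι → L, ∑ i, φ (b i) * z i ^ p = 0 → ∀ i, z i = 0)
    (y : L) (hy : ∃ P : R[X], P ≠ 0 ∧ P.eval₂ φ y = 0) :
    ∃ P : R[X], P ≠ 0 ∧ P.eval₂ φ y = 0 ∧ (derivative P).eval₂ φ y ≠ 0 ∧ 0 < P.natDegree ∧
      ∀ Q : R[X], Q.eval₂ φ y = 0 → Q.natDegree < P.natDegree → Q = 0 := by
  classical
  have hp1 : 1 < p := hp.out.one_lt
  have hp0 : p ≠ 0 := hp.out.ne_zero
  have hsplit : ∀ Q : R[X], ∃ c : ι → R[X], (∀ i, (c i).natDegree ≤ Q.natDegree / p) ∧
      (derivative Q = 0 → Q = ∑ i, C (b i) * c i ^ p) := by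
    intro Q
    by_cases hd : derivative Q = 0
    · choose c hc using hspan
      have hcon : expand R p (contract p Q) = Q := expand_contract p hd hp0
      refine ⟨fun i => ∑ j ∈ Finset.range (Q.natDegree / p + 1),
        C (c ((contract p Q).coeff j) i) * X ^ j, ?_, ?_⟩
      · intro i
        refine natDegree_sum_le_of_forall_le _ _ ?_
        intro j hj
        refine (natDegree_C_mul_X_pow_le _ _).trans ?_
        have := Finset.mem_range.mp hj
        omega
      · intro _
        have h1 : ∀ i, (∑ j ∈ Finset.range (Q.natDegree / p + 1),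
            C (c ((contract p Q).coeff j) i) * X ^ j : R[X]) ^ p =
            ∑ j ∈ Finset.range (Q.natDegree / p + 1),
              C (c ((contract p Q).coeff j) i ^ p) * X ^ (p * j) := by
          intro i
          have : CharP R[X] p := inferInstance
          rw [sum_pow_char]
          refine Finset.sum_congr rfl ?_
          intro j _
          rw [mul_pow, C_pow, ← pow_mul, mul_comm j p]
        have hdeg : (contract p Q).natDegree ≤ Q.natDegree / p := by
          have h2 := natDegree_expand p (contract p Q)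
          rw [hcon] at h2
          rw [h2, Nat.mul_div_cancel _ hp.out.pos]
        have h3 : Q = ∑ j ∈ Finset.range (Q.natDegree / p + 1),
            C ((contract p Q).coeff j) * X ^ (p * j) := by
          conv_lhs => rw [← hcon, as_sum_range' (contract p Q) (Q.natDegree / p + 1) (by omega)]
          rw [map_sum]
          refine Finset.sum_congr rfl ?_
          intro j _
          rw [← C_mul_X_pow_eq_monomial, map_mul, expand_C, map_pow, expand_X, ← pow_mul]
        conv_lhs => rw [h3]
        simp_rw [h1, Finset.mul_sum]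
        rw [Finset.sum_comm]
        refine Finset.sum_congr rfl ?_
        intro j _
        conv_lhs => rw [hc ((contract p Q).coeff j)]
        rw [map_sum, Finset.sum_mul]
        refine Finset.sum_congr rfl ?_
        intro i _
        rw [map_mul, mul_assoc]
    · exact ⟨fun _ => 0, fun i => by simp, fun h => absurd h hd⟩
  have hfin : ∃ n, ∃ P : R[X], P ≠ 0 ∧ P.eval₂ φ y = 0 ∧ P.natDegree = n := by
    obtain ⟨P, h1, h2⟩ := hy
    exact ⟨_, P, h1, h2, rfl⟩
  obtain ⟨P, hP0, hPy, hPn⟩ := Nat.find_spec hfin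
  have hmin : ∀ Q : R[X], Q ≠ 0 → Q.eval₂ φ y = 0 → Nat.find hfin ≤ Q.natDegree := by
    intro Q h1 h2
    exact Nat.find_min' hfin ⟨Q, h1, h2, rfl⟩
  have hpos : 0 < P.natDegree := by
    rcases Nat.eq_zero_or_pos P.natDegree with h | h
    · exfalso
      rw [natDegree_eq_zero] at h
      obtain ⟨a, ha⟩ := h
      rw [← ha, eval₂_C] at hPy
      apply hP0
      rw [← ha, (map_eq_zero_iff φ hφ).mp hPy, C_0]
    · exact h
  refine ⟨P, hP0, hPy, ?_, hpos, ?_⟩
  swap
  · intro Q h1 h2
    by_contra h3
    have := hmin Q h3 h1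
    omega
  intro hd
  by_cases hd0 : derivative P = 0
  · obtain ⟨c, hc1, hc2⟩ := hsplit P
    have hc := hc2 hd0
    have h1 : ∑ i, φ (b i) * ((c i).eval₂ φ y) ^ p = 0 := by
      rw [hc] at hPy
      rw [eval₂_finsetSum] at hPy
      rw [← hPy]
      refine Finset.sum_congr rfl ?_
      intro i _
      rw [eval₂_mul, eval₂_C, eval₂_pow]
    have h2 := hind _ h1
    have h3 : ∃ i, c i ≠ 0 := by
      by_contra hcon
      push Not at hcon
      apply hP0
      rw [hc]
      refine Finset.sum_eq_zero ?_
      intro i _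
      rw [hcon i, zero_pow hp0, mul_zero]
    obtain ⟨i, hi⟩ := h3
    have h4 := hmin (c i) hi (h2 i)
    have h5 := hc1 i
    have h6 : P.natDegree / p < P.natDegree := Nat.div_lt_self hpos hp1
    omega
  · have h1 := hmin _ hd0 hd
    have h2 := natDegree_derivative_lt (p := P) (by omega)
    omega

/-- Every element is a combination of the `b i` with p-th powers as coefficients. -/
def PSpan (p : ℕ) {R ι : Type*} [CommRing R] [Fintype ι] (b : ι → R) : Prop :=
  ∀ r : R, ∃ c : ι → R, r = ∑ i, b i * c i ^ p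

/-- The `b i` are linearly independent over the p-th powers. -/
def PIndep (p : ℕ) {L ι : Type*} [CommRing L] [Fintype ι] (b : ι → L) : Prop :=
  ∀ z : ι → L, ∑ i, b i * z i ^ p = 0 → ∀ i, z i = 0

theorem pspan_zmod (p : ℕ) [hp : Fact p.Prime] : PSpan p (fun _ : Unit => (1 : ZMod p)) := by
  intro r
  refine ⟨fun _ => r, ?_⟩
  simp [ZMod.pow_card]

theorem pindep_of_noZeroDivisors (p : ℕ) [hp : Fact p.Prime] {D : Type*} [CommRing D]
    [IsDomain D] : PIndep p (fun _ : Unit => (1 : D)) := by
  intro z hz i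
  simp only [one_mul, Finset.univ_unique, Finset.sum_singleton] at hz
  exact pow_eq_zero_iff hp.out.ne_zero |>.mp hz

theorem pspan_poly (p : ℕ) [hp : Fact p.Prime] {R ι : Type*} [CommRing R] [CharP R p]
    [Fintype ι] {b : ι → R} (hb : PSpan p b) :
    PSpan p (fun ij : ι × Fin p => (C (b ij.1) * X ^ (ij.2 : ℕ) : R[X])) := by
  classical
  intro r
  induction r using Polynomial.induction_on' with
  | add f g hf hg =>
    obtain ⟨c, hc⟩ := hf
    obtain ⟨d, hd⟩ := hg
    refine ⟨fun i => c i + d i, ?_⟩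
    have h1 : ∀ i, (c i + d i) ^ p = c i ^ p + d i ^ p := fun i => add_pow_char _ _ _
    simp_rw [h1, mul_add, Finset.sum_add_distrib]
    rw [← hc, ← hd]
  | monomial n a =>
    obtain ⟨c, hc⟩ := hb a
    have hlt : n % p < p := Nat.mod_lt _ hp.out.pos
    refine ⟨fun ij => if ij.2 = (⟨n % p, hlt⟩ : Fin p) then C (c ij.1) * X ^ (n / p) else 0, ?_⟩
    have h1 : ∀ ij : ι × Fin p, (C (b ij.1) * X ^ (ij.2 : ℕ) : R[X]) *
        (if ij.2 = (⟨n % p, hlt⟩ : Fin p) then C (c ij.1) * X ^ (n / p) else 0) ^ p =
        if ij.2 = (⟨n % p, hlt⟩ : Fin p) then C (b ij.1 * c ij.1 ^ p) * X ^ n else 0 := by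
      intro ij
      split_ifs with h
      · rw [h]
        simp only
        rw [mul_pow, ← pow_mul, map_mul, map_pow]
        have h2 : n = n % p + n / p * p := by
          rw [add_comm, mul_comm]; exact (Nat.div_add_mod n p).symm
        calc C (b ij.1) * X ^ (n % p) * (C (c ij.1) ^ p * X ^ (n / p * p))
            = C (b ij.1) * C (c ij.1) ^ p * X ^ (n % p + n / p * p) := by
              rw [pow_add]; ring
          _ = _ := by rw [← h2]
      · rw [zero_pow hp.out.ne_zero, mul_zero]
    simp_rw [h1]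
    rw [Fintype.sum_prod_type]
    simp only [Finset.sum_ite_eq', Finset.mem_univ, if_true]
    rw [← Finset.sum_mul, ← map_sum, ← hc, C_mul_X_pow_eq_monomial]

theorem coeff_pow_char (p : ℕ) [hp : Fact p.Prime] {A : Type*} [CommRing A] [CharP A p]
    (f : PowerSeries A) (n : ℕ) :
    PowerSeries.coeff n (f ^ p) = if p ∣ n then (PowerSeries.coeff (n / p) f) ^ p else 0 := by
  have h1 : PowerSeries.coeff n (f ^ p) =
      ((PowerSeries.trunc (n + 1) f) ^ p : A[X]).coeff n := by
    have h2 := PowerSeries.trunc_trunc_pow f (n + 1) p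
    have h3 : (PowerSeries.trunc (n + 1) (f ^ p)).coeff n = PowerSeries.coeff n (f ^ p) := by
      rw [PowerSeries.coeff_trunc, if_pos (Nat.lt_succ_self n)]
    rw [← h3, ← h2, PowerSeries.coeff_trunc, if_pos (Nat.lt_succ_self n)]
    rw [← Polynomial.coe_pow, Polynomial.coeff_coe]
  rw [h1, ← map_frobenius_expand, coeff_map, coeff_expand hp.out.pos]
  split_ifs with h
  · rw [frobenius_def, PowerSeries.coeff_trunc, if_pos]
    have := Nat.div_le_self n p
    omega
  · simp

theorem pindep_powerSeries (p : ℕ) [hp : Fact p.Prime] {D ι : Type*} [CommRing D] [CharP D p]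
    [Fintype ι] {b : ι → D} (hb : PIndep p b) :
    PIndep p (fun ij : ι × Fin p =>
      (PowerSeries.C (b ij.1) * PowerSeries.X ^ (ij.2 : ℕ) : PowerSeries D)) := by
  classical
  intro z hz ij
  ext k
  have h1 := congrArg (PowerSeries.coeff (p * k + ij.2)) hz
  rw [map_sum, Fintype.sum_prod_type_right] at h1
  have hlt := ij.2.isLt
  have h2 : ∀ (i : ι) (j : Fin p), PowerSeries.coeff (p * k + ij.2)
      (PowerSeries.C (b i) * PowerSeries.X ^ (j : ℕ) * z (i, j) ^ p) =
      if j = ij.2 then b i * (PowerSeries.coeff k (z (i, j))) ^ p else 0 := by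
    intro i j
    have hj := j.isLt
    rw [mul_assoc, PowerSeries.coeff_C_mul, PowerSeries.coeff_X_pow_mul', coeff_pow_char]
    by_cases h : j = ij.2
    · subst h
      rw [if_pos (Nat.le_add_left _ _), if_pos rfl, Nat.add_sub_cancel, if_pos (dvd_mul_right _ _),
        Nat.mul_div_cancel_left _ hp.out.pos]
    · rw [if_neg h]
      have h3 : (j : ℕ) ≠ ij.2 := fun h4 => h (Fin.ext h4)
      split_ifs with h4 h5
      · exfalso
        have h6 : ((p * k + (ij.2 : ℕ) : ℕ) : ℤ) - (j : ℕ) = ((p * k + (ij.2 : ℕ) - j : ℕ) : ℤ) := by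
          rw [Nat.cast_sub h4]
        obtain ⟨m, hm⟩ := h5
        rw [hm] at h6
        push_cast at h6
        have h7 : ((ij.2 : ℕ) : ℤ) - (j : ℕ) = (p : ℤ) * (m - k) := by linarith
        have h8 : |((ij.2 : ℕ) : ℤ) - (j : ℕ)| < p := by
          rw [abs_lt]; constructor <;> omega
        have h9 : ((ij.2 : ℕ) : ℤ) - (j : ℕ) = 0 :=
          Int.eq_zero_of_abs_lt_dvd ⟨_, h7⟩ h8
        omega
      · rw [mul_zero]
      · rw [mul_zero]
  simp_rw [h2] at h1
  rw [Finset.sum_comm] at h1
  simp only [Finset.sum_ite_eq', Finset.mem_univ, if_true, map_zero] at h1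
  have h3 := hb (fun i => PowerSeries.coeff k (z (i, ij.2))) h1 ij.1
  simpa using h3

theorem pindep_frac (p : ℕ) [hp : Fact p.Prime] {D L ι : Type*} [CommRing D] [IsDomain D]
    [Field L] [Algebra D L] [IsFractionRing D L] [Fintype ι] {b : ι → D} (hb : PIndep p b) :
    PIndep p (fun i => algebraMap D L (b i)) := by
  classical
  intro z hz i
  obtain ⟨d, hd⟩ := IsLocalization.exist_integer_multiples_of_finite (nonZeroDivisors D) z
  choose w hw using hd
  have hinj := IsFractionRing.injective D L
  have h1 : ∑ i, b i * w i ^ p = 0 := by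
    apply hinj
    rw [map_sum, map_zero]
    have h2 : ∀ i, algebraMap D L (b i * w i ^ p) =
        algebraMap D L (d : D) ^ p * (algebraMap D L (b i) * z i ^ p) := by
      intro i
      rw [map_mul, map_pow, hw i, Algebra.smul_def, mul_pow]
      ring
    simp_rw [h2]
    rw [← Finset.mul_sum, hz, mul_zero]
  have h2 := hb w h1 i
  have h3 := hw i
  rw [h2, map_zero, Algebra.smul_def] at h3
  have h4 : algebraMap D L (d : D) ≠ 0 := by
    intro h5
    exact nonZeroDivisors.coe_ne_zero d (hinj (by rw [h5, map_zero]))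
  rcases mul_eq_zero.mp h3.symm with h | h
  · exact absurd h h4
  · exact h

end FT80.SepC
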