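import Pool.Agent.FT80.Defs
import Pool.Agent.FT80.SepC

set_option maxSynthPendingDepth 10

open Polynomial

namespace FT80.SepC

/-- pseudo-division -/
theorem pdiv {R : Type*} [CommRing R] [IsDomain R] (P : R[X]) (hP : 0 < P.natDegree) :
    ∀ (n : ℕ) (F : R[X]), F.natDegree ≤ n → ∃ (c : R) (Q S : R[X]), c ≠ 0 ∧
      C c * F = P * Q + S ∧ S.natDegree < P.natDegree := by
  intro n
  induction n with
  | zero =>
    intro F hF
    exact ⟨1, 0, F, one_ne_zero, by simp, by omega⟩
  | succ n ih =>
    intro F hF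
    by_cases h : F.natDegree < P.natDegree
    · exact ⟨1, 0, F, one_ne_zero, by simp, h⟩
    · have hlc : P.leadingCoeff ≠ 0 := by
        intro h0
        rw [leadingCoeff_eq_zero] at h0
        rw [h0] at hP
        simp at hP
      have h1 : (cancelLeads P F).natDegree < F.natDegree :=
        natDegree_cancelLeads_lt_of_natDegree_le_natDegree (by omega) (by omega)
      obtain ⟨c, Q, S, hc, h2, h3⟩ := ih (cancelLeads P F) (by omega)
      refine ⟨c * P.leadingCoeff, Q + C (c * F.leadingCoeff) * X ^ (F.natDegree - P.natDegree), S,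
        mul_ne_zero hc hlc, ?_, h3⟩
      have h4 : P.natDegree - F.natDegree = 0 := by omega
      unfold cancelLeads at h2
      rw [h4, pow_zero, mul_one] at h2
      rw [map_mul, map_mul, mul_add, ← add_right_comm, ← h2]
      ring

/-- Bezout data for the minimal polynomial. -/
theorem bezout {R L : Type*} [CommRing R] [IsDomain R] [CommRing L] [IsDomain L]
    (φ : R →+* L) (hφ : Function.Injective φ) (y : L) (P : R[X]) (hPy : P.eval₂ φ y = 0)
    (hpos : 0 < P.natDegree)
    (hmin : ∀ Q : R[X], Q.eval₂ φ y = 0 → Q.natDegree < P.natDegree → Q = 0) :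
    ∀ (n : ℕ) (G : R[X]), G.natDegree ≤ n → G.eval₂ φ y ≠ 0 →
      ∃ (h l : R[X]) (s : R), s ≠ 0 ∧ G * h + P * l = C s := by
  intro n
  induction n using Nat.strong_induction_on with
  | _ n ih =>
    intro G hGn hG
    have hP0 : P ≠ 0 := by
      intro h; rw [h] at hpos; simp at hpos
    by_cases hG0 : G.natDegree = 0
    · rw [natDegree_eq_zero] at hG0
      obtain ⟨s, hs⟩ := hG0
      refine ⟨1, 0, s, ?_, by rw [← hs]; ring⟩
      rintro rfl
      apply hG
      rw [← hs]
      simp
    by_cases hGP : G.natDegree < P.natDegree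
    · obtain ⟨c, Q, S, hc, h1, h2⟩ := pdiv G (Nat.pos_of_ne_zero hG0) _ P le_rfl
      have h3 : C c * P ≠ 0 := mul_ne_zero (by simpa using hc) hP0
      have hQ0 : Q ≠ 0 := by
        rintro rfl
        rw [mul_zero, zero_add] at h1
        have h4 : (C c * P).natDegree = P.natDegree := natDegree_C_mul hc
        rw [h1] at h4
        omega
      have hQdeg : Q.natDegree < P.natDegree := by
        by_contra hcon
        have hG1 : G ≠ 0 := by
          intro h; rw [h] at hG0; simp at hG0
        have h5 : (G * Q).natDegree = G.natDegree + Q.natDegree := natDegree_mul hG1 hQ0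
        have h6 : (G * Q + S).natDegree = (G * Q).natDegree := by
          apply natDegree_add_eq_left_of_natDegree_lt
          omega
        rw [← h1, natDegree_C_mul hc] at h6
        omega
      have hQy : Q.eval₂ φ y ≠ 0 := fun h => hQ0 (hmin Q h hQdeg)
      have hSy : S.eval₂ φ y ≠ 0 := by
        intro h
        have h7 := congrArg (eval₂ φ y) h1
        rw [eval₂_mul, eval₂_add, eval₂_mul, hPy, h, mul_zero, add_zero] at h7
        rcases mul_eq_zero.mp h7.symm with h8 | h8
        · exact hG h8
        · exact hQy h8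
      obtain ⟨h', l', s', hs', h9⟩ := ih _ (by omega : S.natDegree < n) S le_rfl hSy
      refine ⟨-(Q * h'), C c * h' + l', s', hs', ?_⟩
      rw [← h9]
      have h10 : S = C c * P - G * Q := by rw [h1]; ring
      rw [h10]; ring
    · obtain ⟨c, Q, S, hc, h1, h2⟩ := pdiv P hpos _ G le_rfl
      have hSy : S.eval₂ φ y ≠ 0 := by
        intro h
        have h7 := congrArg (eval₂ φ y) h1
        rw [eval₂_mul, eval₂_add, eval₂_mul, hPy, h, zero_mul, add_zero, eval₂_C] at h7
        rcases mul_eq_zero.mp h7 with h8 | h8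
        · exact hc (hφ (by rw [h8, map_zero]))
        · exact hG h8
      obtain ⟨h', l', s', hs', h9⟩ := ih _ (by omega : S.natDegree < n) S le_rfl hSy
      refine ⟨C c * h', l' - Q * h', s', hs', ?_⟩
      rw [← h9]
      have h10 : S = C c * G - P * Q := by rw [h1]; ring
      rw [h10]; ring

/-- the general form of `sep_data` -/
theorem alg_data {R L ι : Type*} [CommRing R] [IsDomain R] [CommRing L] [IsDomain L] [Fintype ι]
    (p : ℕ) [hp : Fact p.Prime] [CharP R p] [CharP L p] (φ : R →+* L)
    (hφ : Function.Injective φ) (b : ι → R) (hspan : PSpan p b)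
    (hind : PIndep p (fun i => φ (b i))) (y : L) {f g : R[X]} (hf0 : f ≠ 0)
    (hf : f.eval₂ φ y = 0) (hg : g.eval₂ φ y ≠ 0) :
    ∃ (ft q h l A B : R[X]) (b : R), b ≠ 0 ∧ ft ≠ 0 ∧ (C b * f = ft * q ∧
      g * h + ft * l = C b ∧ ft * A + derivative ft * B = C b) ∧ ft.eval₂ φ y = 0 := by
  obtain ⟨P, hP0, hPy, hP'y, hpos, hmin⟩ := sep_of_pbasis p φ hφ b hspan hind y ⟨f, hf0, hf⟩
  obtain ⟨c, Q, S, hc, h1, h2⟩ := pdiv P hpos _ f le_rfl
  have hS : S = 0 := by
    apply hmin S _ h2
    have h7 := congrArg (eval₂ φ y) h1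
    rw [eval₂_mul, eval₂_add, eval₂_mul, hPy, hf, zero_mul, zero_add, mul_zero] at h7
    exact h7.symm
  rw [hS, add_zero] at h1
  obtain ⟨h, l, s, hs, h3⟩ := bezout φ hφ y P hPy hpos hmin _ g le_rfl hg
  obtain ⟨B, A, s', hs', h4⟩ := bezout φ hφ y P hPy hpos hmin _ (derivative P) le_rfl hP'y
  refine ⟨P, C (s * s') * Q, C (c * s') * h, C (c * s') * l, C (c * s) * A, C (c * s) * B,
    c * s * s', mul_ne_zero (mul_ne_zero hc hs) hs', hP0, ⟨?_, ?_, ?_⟩, hPy⟩
  · calc C (c * s * s') * f = C (s * s') * (C c * f) := by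
          rw [map_mul, map_mul, map_mul]; ring
      _ = _ := by rw [h1]; ring
  · calc g * (C (c * s') * h) + P * (C (c * s') * l) = C (c * s') * (g * h + P * l) := by ring
      _ = _ := by rw [h3, ← map_mul]; congr 1; ring
  · calc P * (C (c * s) * A) + derivative P * (C (c * s) * B)
        = C (c * s) * (derivative P * B + P * A) := by ring
      _ = _ := by rw [h4, ← map_mul]

theorem charP_powerSeries (p : ℕ) {D : Type*} [CommRing D] [CharP D p] :
    CharP (PowerSeries D) p :=
  charP_of_injective_ringHom (f := (PowerSeries.C : D →+* PowerSeries D))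
    PowerSeries.C_injective p

/-- a polynomial of degree `< p` with constants (for a derivation) as coefficients which
vanishes at an element with nonzero derivative is zero -/
theorem poly_const_zero {k D : Type*} [CommRing k] [CommRing D] [IsDomain D] [Algebra k D]
    (p : ℕ) [CharP D p] (d : Derivation k D D) (W : D) (hW : d W ≠ 0) :
    ∀ (n : ℕ) (P : D[X]), n < p → P.natDegree ≤ n → (∀ i, d (P.coeff i) = 0) → P.eval W = 0 →
      P = 0 := by
  intro n
  induction n with
  | zero =>
    intro P _ h1 _ h3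
    rw [Nat.le_zero, natDegree_eq_zero] at h1
    obtain ⟨a, rfl⟩ := h1
    rw [eval_C] at h3
    rw [h3, C_0]
  | succ n ih =>
    intro P hn h1 h2 h3
    have h4 : d (P.eval W) = (derivative P).eval W * d W := by
      have h5 : ∀ (Q : D[X]), (∀ i, d (Q.coeff i) = 0) → d (Q.eval W) =
          (derivative Q).eval W * d W := by
        intro Q hQ
        rw [eval_eq_sum_range, derivative_eval, sum_over_range _ (by simp), map_sum,
          Finset.sum_mul]
        refine Finset.sum_congr rfl ?_
        intro i _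
        rw [Derivation.leibniz, hQ i, smul_zero, add_zero, Derivation.leibniz_pow]
        simp only [smul_eq_mul, nsmul_eq_mul]
        ring
      exact h5 P h2
    rw [h3, map_zero] at h4
    have h5 : (derivative P).eval W = 0 := by
      rcases mul_eq_zero.mp h4.symm with h | h
      · exact h
      · exact absurd h hW
    have h6 : derivative P = 0 := by
      apply ih (derivative P) (by omega)
      · have := natDegree_derivative_le P
        omega
      · intro i
        rw [coeff_derivative, Derivation.leibniz, h2 (i + 1), smul_zero, add_zero]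
        have : d ((i : D) + 1) = 0 := by
          have h7 : ((i : D) + 1) = ((i + 1 : ℕ) : D) := by push_cast; rfl
          rw [h7]
          exact Derivation.map_natCast d _
        rw [this, smul_zero]
      · exact h5
    have h7 : P.natDegree = 0 := by
      by_contra hcon
      have h8 : (derivative P).coeff (P.natDegree - 1) = 0 := by rw [h6, coeff_zero]
      rw [coeff_derivative] at h8
      have h9 : P.natDegree - 1 + 1 = P.natDegree := by omega
      have h10 : ((P.natDegree - 1 : ℕ) : D) + 1 = ((P.natDegree : ℕ) : D) := by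
        rw [← h9]; push_cast; simp
      rw [h9, h10] at h8
      rcases mul_eq_zero.mp h8 with h | h
      · have h11 : P = 0 := leadingCoeff_eq_zero.mp h
        rw [h11] at hcon
        simp at hcon
      · rw [CharP.cast_eq_zero_iff D p] at h
        have := Nat.le_of_dvd (Nat.pos_of_ne_zero hcon) h
        omega
    exact ih P (by omega) (by omega) h2 h3

theorem pindep_pow {D ι : Type*} [CommRing D] [IsDomain D] (p : ℕ) [hp : Fact p.Prime]
    [CharP D p] [Fintype ι] {b : ι → D} (hb : PIndep p b) (W : PowerSeries D)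
    (hW : PowerSeries.derivative D W ≠ 0) :
    PIndep p (fun ij : ι × Fin p => (PowerSeries.C (b ij.1) * W ^ (ij.2 : ℕ) :
      PowerSeries D)) := by
  classical
  intro z hz ij
  have hDp : CharP (PowerSeries D) p := charP_powerSeries p
  set A : Fin p → PowerSeries D := fun j => ∑ i, PowerSeries.C (b i) * z (i, j) ^ p with hA
  have hA0 : ∀ j, PowerSeries.derivative D (A j) = 0 := by
    intro j
    rw [hA]
    simp only
    rw [map_sum]
    refine Finset.sum_eq_zero ?_
    intro i _
    rw [Derivation.leibniz, Derivation.leibniz_pow, ← Nat.cast_smul_eq_nsmul (PowerSeries D),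
      CharP.cast_eq_zero, zero_smul, smul_zero, PowerSeries.derivative_C, smul_zero, add_zero]
  set P : (PowerSeries D)[X] := ∑ j : Fin p, C (A j) * X ^ (j : ℕ) with hP
  have hPc : ∀ i, P.coeff i = if h : i < p then A ⟨i, h⟩ else 0 := by
    intro i
    rw [hP, finsetSum_coeff]
    simp only [coeff_C_mul, coeff_X_pow]
    split_ifs with h
    · rw [Finset.sum_eq_single (⟨i, h⟩ : Fin p)]
      · simp
      · intro j _ hj
        rw [if_neg, mul_zero]
        intro h1
        exact hj (Fin.ext h1.symm)
      · simp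
    · refine Finset.sum_eq_zero ?_
      intro j _
      rw [if_neg, mul_zero]
      intro h1
      exact h (by rw [h1]; exact j.isLt)
  have hPdeg : P.natDegree ≤ p - 1 := by
    rw [natDegree_le_iff_coeff_eq_zero]
    intro i hi
    rw [hPc, dif_neg (by omega)]
  have hPW : P.eval W = 0 := by
    rw [← hz, hP, eval_finsetSum, Fintype.sum_prod_type_right]
    refine Finset.sum_congr rfl ?_
    intro j _
    rw [eval_mul, eval_C, eval_pow, eval_X, hA]
    simp only
    rw [Finset.sum_mul]
    refine Finset.sum_congr rfl ?_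
    intro i _
    ring
  have hP0 : P = 0 := by
    refine poly_const_zero p (PowerSeries.derivative D) W hW (p - 1) P
      (Nat.sub_lt hp.out.pos one_pos) hPdeg ?_ hPW
    intro i
    rw [hPc]
    split_ifs with h
    · exact hA0 _
    · exact map_zero _
  have hAj : A ij.2 = 0 := by
    have h1 := hPc ij.2
    rw [hP0, coeff_zero, dif_pos ij.2.isLt] at h1
    exact h1.symm
  have h2 := pindep_powerSeries p hb
    (fun ik => if (ik.2 : ℕ) = 0 then z (ik.1, ij.2) else 0) ?_ (ij.1, ⟨0, hp.out.pos⟩)
  · simpa using h2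
  · rw [Fintype.sum_prod_type_right, Finset.sum_eq_single (⟨0, hp.out.pos⟩ : Fin p)]
    · rw [← hAj, hA]
      simp
    · intro j _ hj
      refine Finset.sum_eq_zero ?_
      intro i _
      have : (j : ℕ) ≠ 0 := fun h => hj (Fin.ext h)
      simp only [this, if_false]
      rw [zero_pow hp.out.ne_zero, mul_zero]
    · simp

theorem subst_injective {R D : Type*} [CommRing R] [CommRing D] [IsDomain D] (σ : R →+* D)
    (hσ : Function.Injective σ) (w c : D) (hc : c ≠ 0) {e : ℕ} (he : e ≠ 0) :
    Function.Injective (eval₂RingHom ((C : D →+* D[X]).comp σ) (C w + C c * X ^ e)) := by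
  rw [injective_iff_map_eq_zero]
  intro P hP
  rw [coe_eval₂RingHom, ← eval₂_map, ← comp, comp_eq_zero_iff] at hP
  rcases hP with h | h
  · exact (Polynomial.map_eq_zero_iff hσ).mp h
  · exfalso
    have h1 := congrArg (fun q => Polynomial.coeff q e) h.2
    simp only [coeff_add, coeff_C_mul, coeff_X_pow_self, mul_one, coeff_C, if_neg he] at h1
    rw [zero_add] at h1
    exact hc h1

theorem subst_injective_ps {R D : Type*} [CommRing R] [CommRing D] [IsDomain D] (σ : R →+* D)
    (hσ : Function.Injective σ) (w c : D) (hc : c ≠ 0) {e : ℕ} (he : e ≠ 0) :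
    Function.Injective (eval₂RingHom ((PowerSeries.C : D →+* PowerSeries D).comp σ)
      (PowerSeries.C w + PowerSeries.C c * PowerSeries.X ^ e)) := by
  have h1 : eval₂RingHom ((PowerSeries.C : D →+* PowerSeries D).comp σ)
      (PowerSeries.C w + PowerSeries.C c * PowerSeries.X ^ e) =
      (coeToPowerSeries.ringHom : D[X] →+* PowerSeries D).comp
        (eval₂RingHom ((C : D →+* D[X]).comp σ) (C w + C c * X ^ e)) := by
    ext a
    · simp
    · simp
  rw [h1]
  intro a b hab
  apply subst_injective σ hσ w c hc he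
  simpa using hab

theorem sep_gen (p : ℕ) [hp : Fact p.Prime] {k D : Type*} [CommRing k] [IsDomain k] [CharP k p]
    (hk : PSpan p (fun _ : Unit => (1 : k)))
    [CommRing D] [IsDomain D] [CharP D p] (σ : k[X] →+* D) (hσ : Function.Injective σ)
    (hind1 : PIndep p (fun i : Unit × Fin p => σ (C (1 : k) * X ^ (i.2 : ℕ))))
    (w c : D) (hc : c ≠ 0) {e : ℕ} (he : ¬ p ∣ e)
    (Y : PowerSeries D) {f g : k[X][X][X]} (hf0 : f ≠ 0)
    (hf : f.eval₂ (eval₂RingHom ((PowerSeries.C : D →+* PowerSeries D).comp σ)
      (PowerSeries.C w + PowerSeries.C c * PowerSeries.X ^ e)) Y = 0)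
    (hg : g.eval₂ (eval₂RingHom ((PowerSeries.C : D →+* PowerSeries D).comp σ)
      (PowerSeries.C w + PowerSeries.C c * PowerSeries.X ^ e)) Y ≠ 0) :
    ∃ (ft q h l A B : k[X][X][X]) (b : k[X][X]), b ≠ 0 ∧ ft ≠ 0 ∧ (C b * f = ft * q ∧
      g * h + ft * l = C b ∧ ft * A + derivative ft * B = C b) ∧
      ft.eval₂ (eval₂RingHom ((PowerSeries.C : D →+* PowerSeries D).comp σ)
      (PowerSeries.C w + PowerSeries.C c * PowerSeries.X ^ e)) Y = 0 := by
  have hL : CharP (PowerSeries D) p := charP_powerSeries p
  have he0 : e ≠ 0 := by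
    rintro rfl
    exact he (dvd_zero p)
  have hinj := subst_injective_ps σ hσ w c hc he0
  have hW : PowerSeries.derivative D
      (PowerSeries.C w + PowerSeries.C c * PowerSeries.X ^ e) ≠ 0 := by
    intro h
    have h1 := congrArg (PowerSeries.coeff (e - 1)) h
    rw [PowerSeries.coeff_derivative, map_add, PowerSeries.coeff_C_mul,
      PowerSeries.coeff_X_pow, if_pos (by omega), PowerSeries.coeff_C, if_neg (by omega),
      zero_add, mul_one, map_zero] at h1
    rcases mul_eq_zero.mp h1 with h2 | h2
    · exact hc h2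
    · have h3 : ((e : ℕ) : D) = 0 := by
        rw [← h2]
        have : e = e - 1 + 1 := by omega
        conv_lhs => rw [this]
        push_cast
        rfl
      rw [CharP.cast_eq_zero_iff D p] at h3
      exact he h3
  have hind0 := pindep_pow p hind1 _ hW
  have hspan : PSpan p (fun ij : (Unit × Fin p) × Fin p =>
      (C (C (1 : k) * X ^ (ij.1.2 : ℕ)) * X ^ (ij.2 : ℕ) : k[X][X])) :=
    pspan_poly p (b := fun ij : Unit × Fin p => (C (1 : k) * X ^ (ij.2 : ℕ) : k[X]))
      (pspan_poly p (b := fun _ : Unit => (1 : k)) hk)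
  have hind : PIndep p (fun ij : (Unit × Fin p) × Fin p =>
      (eval₂RingHom ((PowerSeries.C : D →+* PowerSeries D).comp σ)
        (PowerSeries.C w + PowerSeries.C c * PowerSeries.X ^ e) : k[X][X] →+* PowerSeries D)
        (C (C (1 : k) * X ^ (ij.1.2 : ℕ)) * X ^ (ij.2 : ℕ))) := by
    have h2 : (fun ij : (Unit × Fin p) × Fin p =>
      (eval₂RingHom ((PowerSeries.C : D →+* PowerSeries D).comp σ)
        (PowerSeries.C w + PowerSeries.C c * PowerSeries.X ^ e) : k[X][X] →+* PowerSeries D)
        (C (C (1 : k) * X ^ (ij.1.2 : ℕ)) * X ^ (ij.2 : ℕ))) =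
        fun ij : (Unit × Fin p) × Fin p =>
          (PowerSeries.C (σ (C (1 : k) * X ^ (ij.1.2 : ℕ))) *
            (PowerSeries.C w + PowerSeries.C c * PowerSeries.X ^ e) ^ (ij.2 : ℕ)) := by
      funext ij
      rw [coe_eval₂RingHom, eval₂_mul, eval₂_C, eval₂_pow, eval₂_X]
      rfl
    rw [h2]
    exact hind0
  exact alg_data p _ hinj _ hspan hind Y hf0 hf hg

end FT80.SepC

namespace FT80

variable {p : ℕ} [Fact p.Prime]

theorem SepC.tauK_injective : Function.Injective (tauK p) := by
  have h1 : Function.Injective (iK p) := IsFractionRing.injective (OO p) (KK p)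
  have h2 : Function.Injective (tau p) := Polynomial.coe_injective (ZMod p)
  exact h1.comp h2

theorem SepC.pindep_K :
    SepC.PIndep p (fun i : Unit × Fin p => tauK p (C (1 : ZMod p) * X ^ (i.2 : ℕ))) := by
  have hOp : CharP (OO p) p := SepC.charP_powerSeries p
  have h1 := SepC.pindep_frac p (L := KK p)
    (SepC.pindep_powerSeries p (SepC.pindep_of_noZeroDivisors p (D := ZMod p)))
  have h2 : (fun i : Unit × Fin p => tauK p (C (1 : ZMod p) * X ^ (i.2 : ℕ))) =
      fun i : Unit × Fin p => algebraMap (OO p) (KK p)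
        (PowerSeries.C (1 : ZMod p) * PowerSeries.X ^ (i.2 : ℕ)) := by
    funext i
    simp [tauK, iK, tau]
  rw [h2]
  exact h1

theorem SepC.charP_K : CharP (KK p) p :=
  have _hOp : CharP (OO p) p := SepC.charP_powerSeries p
  charP_of_injective_ringHom (f := iK p) (IsFractionRing.injective (OO p) (KK p)) p

theorem SepC.gamma_ne {γ : ZMod p} (hγ : γ ≠ 0) (j : ℕ) :
    iK p (PowerSeries.C γ * PowerSeries.X ^ j) ≠ 0 := by
  rw [Ne, map_eq_zero_iff (iK p) (IsFractionRing.injective (OO p) (KK p))]
  refine mul_ne_zero ?_ (pow_ne_zero _ PowerSeries.X_ne_zero)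
  intro h
  apply hγ
  have := congrArg PowerSeries.constantCoeff h
  simpa using this

theorem sep_data (ξ : OO p) {γ : ZMod p} (hγ : γ ≠ 0) (j : ℕ) {e : ℕ} (he : ¬ p ∣ e)
    (Y : PowerSeries (KK p)) {f g : P3 p} (hf0 : f ≠ 0)
    (hf : ev2 (iota p) (XX ξ γ j e) Y f = 0) (hg : ev2 (iota p) (XX ξ γ j e) Y g ≠ 0) :
    ∃ (ft q h l A B : P3 p) (b : P2 p), b ≠ 0 ∧ ft ≠ 0 ∧ SepRel f g ft q h l A B b ∧
      ev2 (iota p) (XX ξ γ j e) Y ft = 0 := by
  have hK : CharP (KK p) p := SepC.charP_K
  have hc := SepC.gamma_ne hγ j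
  exact SepC.sep_gen p (SepC.pspan_zmod p) (tauK p) SepC.tauK_injective SepC.pindep_K
    (iK p ξ) _ hc he Y hf0 hf hg

end FT80
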