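import Pool.Agent.FT80.Ultra
set_option maxSynthPendingDepth 10
set_option linter.unusedSectionVars false
open Polynomial Filter
namespace FT80

variable {p : ℕ} [Fact p.Prime]

section special

theorem coeff_pow_p (f : OO p) {n : ℕ} (hn : ¬ p ∣ n) : PowerSeries.coeff n (f ^ p) = 0 := by
  have h1 : PowerSeries.derivative (ZMod p) (f ^ p) = 0 := by
    rw [Derivation.leibniz_pow]
    have : (p : OO p) = 0 := by
      have h2 : ((p : ℕ) : ZMod p) = 0 := ZMod.natCast_self p
      rw [← map_natCast (PowerSeries.C (R := ZMod p)), h2, map_zero]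
    rw [nsmul_eq_mul, this, zero_mul]
  obtain ⟨m, rfl⟩ : ∃ m, n = m + 1 := by
    rcases n with _ | m
    · exact absurd (dvd_zero p) hn
    · exact ⟨m, rfl⟩
  have h2 := PowerSeries.coeff_derivative (f ^ p) m
  rw [h1, map_zero] at h2
  rcases mul_eq_zero.1 h2.symm with h3 | h3
  · exact h3
  · exfalso
    apply hn
    rw [← ZMod.natCast_eq_zero_iff]
    push_cast
    exact h3

theorem special (g : KK p) (a : ℤ) {γ : ZMod p} (hγ : γ ≠ 0) {κ n : ℕ} (hκ : ¬ p ∣ κ)
    (hn : ¬ p ∣ n) (A : OO p)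
    (hA : PowerSeries.X ^ (κ + 1) ∣ A - (1 + PowerSeries.C (n : ZMod p) * PowerSeries.X ^ κ))
    (h : g ^ p = iK p (PowerSeries.C γ) * TT p a * iK p A) : False := by
  obtain ⟨n₀, hn₀⟩ := exists_clear g
  set N : ℕ := n₀ + a.natAbs with hN
  have hp : 0 < p := (Fact.out : p.Prime).pos
  obtain ⟨G, hG⟩ : InO (TT p N * g) := InO.mono (by rw [hN]; omega) hn₀
  obtain ⟨a', ha'⟩ : ∃ a' : ℕ, (a' : ℤ) = a + p * N := by
    refine ⟨(a + p * N).toNat, Int.toNat_of_nonneg ?_⟩
    have h1 : (a.natAbs : ℤ) ≤ p * N := by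
      rw [hN]; push_cast
      nlinarith [abs_nonneg a]
    have h2 : -a ≤ (a.natAbs : ℤ) := by omega
    linarith
  have h1 : G ^ p = PowerSeries.C γ * PowerSeries.X ^ a' * A := by
    apply iK_injective
    rw [map_pow, hG, mul_pow, h, map_mul, map_mul, ← TT_nat, ha', TT_add]
    have h2 : TT p N ^ p = TT p (p * N) := by
      rw [TT_nat, ← map_pow, ← pow_mul, ← Nat.cast_mul, TT_nat, mul_comm]
    rw [h2]
    ring
  have hA' : ∀ m ≤ κ, PowerSeries.coeff m A =
      PowerSeries.coeff m (1 + PowerSeries.C (n : ZMod p) * PowerSeries.X ^ κ : OO p) := by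
    intro m hm
    have := PowerSeries.X_pow_dvd_iff.1 hA m (by omega)
    rwa [map_sub, sub_eq_zero] at this
  have hκ0 : κ ≠ 0 := by
    rintro rfl
    exact hκ (dvd_zero p)
  have c0 : PowerSeries.coeff 0 A = 1 := by
    rw [hA' 0 (by omega), map_add, PowerSeries.coeff_C_mul, PowerSeries.coeff_X_pow,
      if_neg (by omega)]
    simp
  have c1 : PowerSeries.coeff κ A = (n : ZMod p) := by
    rw [hA' κ le_rfl, map_add, PowerSeries.coeff_C_mul, PowerSeries.coeff_X_pow, if_pos rfl,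
      PowerSeries.coeff_one, if_neg hκ0]
    simp
  have e : ∀ m, PowerSeries.coeff (m + a') (G ^ p) = γ * PowerSeries.coeff m A := by
    intro m
    rw [h1, mul_assoc, PowerSeries.coeff_C_mul, PowerSeries.coeff_X_pow_mul]
  have d0 : p ∣ a' := by
    by_contra hcon
    have := coeff_pow_p G hcon
    have h2 := e 0
    rw [zero_add, this, c0, mul_one] at h2
    exact hγ h2.symm
  have d1 : p ∣ κ + a' := by
    by_contra hcon
    have := coeff_pow_p G hcon
    have h2 := e κ
    rw [this, c1] at h2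
    rcases mul_eq_zero.1 h2.symm with h3 | h3
    · exact hγ h3
    · exact hn ((ZMod.natCast_eq_zero_iff _ _).1 h3)
  exact hκ ((Nat.dvd_add_left d0).1 d1)

/-- `(1 + X^κ)^n = 1 + n X^κ` modulo `X^(κ+1)` -/
theorem one_add_pow {κ : ℕ} (hκ : κ ≠ 0) (n : ℕ) :
    (PowerSeries.X : OO p) ^ (κ + 1) ∣
      (1 + PowerSeries.X ^ κ) ^ n - (1 + PowerSeries.C (n : ZMod p) * PowerSeries.X ^ κ) := by
  induction n with
  | zero => simp
  | succ n ih =>
    have h1 := Dvd.dvd.mul_right ih (1 + PowerSeries.X ^ κ : OO p)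
    have h2 : (PowerSeries.X : OO p) ^ (κ + 1) ∣
        PowerSeries.C (n : ZMod p) * (PowerSeries.X ^ κ * PowerSeries.X ^ κ) := by
      apply Dvd.dvd.mul_left
      rw [← pow_add]
      exact pow_dvd_pow _ (by omega)
    have h3 := dvd_add h1 h2
    convert h3 using 1
    push_cast
    rw [map_add, map_one, pow_succ]
    ring

end special

section shift

/-- `f(ξ + w, y)` as a polynomial in `w, y` over `K` -/
noncomputable def shiftQ (ξ : KK p) : P3 p →+* Polynomial (Polynomial (KK p)) :=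
  ev2 (((C : Polynomial (KK p) →+* Polynomial (Polynomial (KK p))).comp
    (C : KK p →+* Polynomial (KK p))).comp (tauK p)) (C (C ξ + X)) X

theorem ev2_shiftQ {S : Type*} [CommRing S] (σ : KK p →+* S) (ξ : KK p) (w y : S) (f : P3 p) :
    ev2 σ w y (shiftQ ξ f) = ev2 (σ.comp (tauK p)) (σ ξ + w) y f := by
  unfold shiftQ
  rw [hom_ev2]
  congr 1
  · congr 1
    · refine RingHom.ext fun a => ?_
      simp [ev2]
    · simp [ev2]
    · simp [ev2]

theorem tauK_inj : Function.Injective (tauK p) := by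
  intro a b h
  have h1 : tau p a = tau p b := iK_injective h
  exact Polynomial.coe_injective (ZMod p) h1

theorem shiftQ_ne_zero (ξ : KK p) {f : P3 p} (hf : f ≠ 0) : shiftQ ξ f ≠ 0 := by
  intro h
  have h1 := ev2_shiftQ ((C : Polynomial (KK p) →+* Polynomial (Polynomial (KK p))).comp
    (C : KK p →+* Polynomial (KK p))) ξ (C (X - C ξ)) X f
  rw [h, map_zero] at h1
  have h2 : ev2 (((C : Polynomial (KK p) →+* Polynomial (Polynomial (KK p))).comp
      (C : KK p →+* Polynomial (KK p))).comp (tauK p))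
      (((C : Polynomial (KK p) →+* Polynomial (Polynomial (KK p))).comp
        (C : KK p →+* Polynomial (KK p))) ξ + C (X - C ξ)) X =
      Polynomial.mapRingHom (Polynomial.mapRingHom (tauK p)) := by
    apply Polynomial.ringHom_ext'
    · apply Polynomial.ringHom_ext'
      · refine RingHom.ext fun a => ?_
        simp [ev2]
      · simp [ev2]
    · simp [ev2]
  rw [h2] at h1
  have h3 : Function.Injective (Polynomial.mapRingHom (Polynomial.mapRingHom (tauK p))) :=
    Polynomial.map_injective _ (Polynomial.map_injective _ tauK_inj)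
  exact hf (h3 (by rw [← h1, map_zero]))

theorem ev2_iK (x y : OO p) (f : P3 p) :
    ev2 (tauK p) (iK p x) (iK p y) f = iK p (ev2 (tau p) x y f) :=
  (hom_ev2 (tau p) (iK p) x y f).symm

theorem ev2_cls (U : Ultrafilter ℕ) (x y : ℕ → KK p) (f : P3 p) :
    ev2 ((algebraMap (KK p) (FF p U)).comp (tauK p)) (cls U x) (cls U y) f =
      cls U (fun l => ev2 (tauK p) (x l) (y l) f) := by
  have h1 := hom_ev2 ((Pi.constRingHom ℕ (KK p)).comp (tauK p)) (cls U) x y f
  have h2 : ((cls U).comp ((Pi.constRingHom ℕ (KK p)).comp (tauK p))) =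
      ((algebraMap (KK p) (FF p U)).comp (tauK p)) := rfl
  rw [h2] at h1
  rw [← h1]
  congr 1
  funext l
  exact hom_ev2 ((Pi.constRingHom ℕ (KK p)).comp (tauK p)) (Pi.evalRingHom (fun _ => KK p) l) x y f

end shift

section wild

/-- the test points -/
noncomputable def WW (γ : ZMod p) (j n M κ : ℕ) : OO p :=
  PowerSeries.C γ * PowerSeries.X ^ j * (PowerSeries.X ^ M * (1 + PowerSeries.X ^ κ)) ^ n

theorem exists_close {ζ : KK p} (hζ : ζ ≠ 0) :
    ∃ z : ℕ, ∀ (u : KK p) (k : ℕ), z + 1 ≤ k → InO (TT p (-((2 * k : ℕ) : ℤ)) * (u - ζ)) →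
      ∃ D : OO p, PowerSeries.X ^ (k + 1) ∣ D - 1 ∧ u = ζ * iK p D := by
  obtain ⟨z, ζ₀, hu, hz⟩ := exists_form hζ
  obtain ⟨ζ₁, hζ₁⟩ := hu.exists_right_inv
  refine ⟨z.natAbs, ?_⟩
  rintro u k hk ⟨d, hd⟩
  obtain ⟨m, hm⟩ : ∃ m : ℕ, (m : ℤ) = 2 * k - z := ⟨(2 * (k : ℤ) - z).toNat,
    Int.toNat_of_nonneg (by omega)⟩
  refine ⟨1 + PowerSeries.X ^ m * (d * ζ₁), ?_, ?_⟩
  · rw [add_sub_cancel_left]
    exact Dvd.dvd.mul_right (pow_dvd_pow _ (by omega)) _
  · have h1 : u - ζ = TT p ((2 * k : ℕ) : ℤ) * iK p d := by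
      rw [hd, ← mul_assoc, ← TT_add, add_neg_cancel, TT_zero, one_mul]
    have h2 : iK p ζ₀ * iK p ζ₁ = 1 := by rw [← map_mul, hζ₁, map_one]
    have h3 : TT p ((2 * k : ℕ) : ℤ) = TT p z * TT p m := by
      rw [← TT_add]
      congr 1
      push_cast
      omega
    have h4 : u = ζ + TT p ((2 * k : ℕ) : ℤ) * iK p d := by rw [← h1]; ring
    rw [h4, map_add, map_one, mul_add, mul_one, map_mul, map_mul, ← TT_nat, h3]
    congr 1
    rw [hz]
    calc TT p z * TT p m * iK p d = TT p z * TT p m * iK p d * (iK p ζ₀ * iK p ζ₁) := by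
          rw [h2, mul_one]
      _ = _ := by ring

theorem no_wild {U : Ultrafilter ℕ} (hU : ∀ N : ℕ, ∀ᶠ l in (U : Filter ℕ), N ≤ l)
    {γ : ℕ → ZMod p} (hγ : ∀ l, γ l ≠ 0) {j nn MM : ℕ → ℕ} (hnn : ∀ l, ¬ p ∣ nn l)
    {h u : ℕ → KK p} {ζ : KK p} (hζ : ζ ≠ 0)
    (h1 : ∀ᶠ l in (U : Filter ℕ), iK p (WW (γ l) (j l) (nn l) (MM l) (p * l + 1)) =
      (h l) ^ p * u l)
    (h2 : Sm U (fun l => p * l + 1) (fun l => u l - ζ)) : False := by
  have hp : 2 ≤ p := (Fact.out : p.Prime).two_le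
  obtain ⟨z, hz⟩ := exists_close hζ
  have hgood : ∀ᶠ l in (U : Filter ℕ), iK p (WW (γ l) (j l) (nn l) (MM l) (p * l + 1)) =
      (h l) ^ p * u l ∧ ∃ D : OO p, PowerSeries.X ^ (p * l + 1 + 1) ∣ D - 1 ∧
        u l = ζ * iK p D := by
    filter_upwards [h1, h2 2, hU (z + 1)] with l e1 e2 e3
    exact ⟨e1, hz (u l) (p * l + 1) (by nlinarith) e2⟩
  obtain ⟨l, e1, D, hD, eD⟩ := hgood.exists
  obtain ⟨l', ⟨e1', D', hD', eD'⟩, hl'⟩ := (hgood.and (hU (l + 1))).exists
  have hll : p * l + 1 + 1 ≤ p * l' + 1 := by nlinarith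
  set κ := p * l + 1 with hκ
  set κ' := p * l' + 1 with hκ'
  have hpκ : ¬ p ∣ κ := by
    rw [hκ]
    intro hdvd
    have := (Nat.dvd_add_right (Dvd.intro l rfl)).1 hdvd
    have := Nat.le_of_dvd (by norm_num) this
    omega
  -- the unit parts
  set A : OO p := (1 + PowerSeries.X ^ κ) ^ nn l with hA
  set A' : OO p := (1 + PowerSeries.X ^ κ') ^ nn l' with hA'
  have hAc : PowerSeries.X ^ (κ + 1) ∣ A - (1 + PowerSeries.C ((nn l : ℕ) : ZMod p) *
      PowerSeries.X ^ κ) := one_add_pow (by omega) _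
  have hA'c : PowerSeries.X ^ (κ + 1) ∣ A' - 1 := by
    have h3 := one_add_pow (p := p) (κ := κ') (by omega) (nn l')
    have h4 : (PowerSeries.X : OO p) ^ (κ + 1) ∣ PowerSeries.X ^ (κ' + 1) :=
      pow_dvd_pow _ (by omega)
    have h5 : (PowerSeries.X : OO p) ^ (κ + 1) ∣ PowerSeries.C ((nn l' : ℕ) : ZMod p) *
        PowerSeries.X ^ κ' := Dvd.dvd.mul_left (pow_dvd_pow _ (by omega)) _
    have h6 := dvd_add (dvd_trans h4 h3) h5
    convert h6 using 1
    ring
  have hD1 : PowerSeries.X ^ (κ + 1) ∣ D - 1 := hD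
  have hD'1 : PowerSeries.X ^ (κ + 1) ∣ D' - 1 := dvd_trans (pow_dvd_pow _ (by omega)) hD'
  have hAD : PowerSeries.X ^ (κ + 1) ∣ A' * D - 1 := by
    have h3 := dvd_add (Dvd.dvd.mul_right hA'c D) hD1
    convert h3 using 1
    ring
  have hADu : IsUnit (A' * D) := by
    rw [PowerSeries.isUnit_iff_constantCoeff]
    have h3 : PowerSeries.X ∣ A' * D - 1 := dvd_trans (dvd_pow_self _ (by omega)) hAD
    rw [PowerSeries.X_dvd_iff, map_sub, map_one, sub_eq_zero] at h3
    rw [h3]
    exact isUnit_one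
  obtain ⟨B, hB⟩ := hADu.exists_right_inv
  have hB1 : PowerSeries.X ^ (κ + 1) ∣ B - 1 := by
    have h3 : B - 1 = -((A' * D - 1) * B) := by
      rw [sub_mul, hB, one_mul]; ring
    rw [h3, dvd_neg]
    exact Dvd.dvd.mul_right hAD B
  -- the equations
  have hWW : ∀ (l : ℕ), iK p (WW (γ l) (j l) (nn l) (MM l) (p * l + 1)) =
      iK p (PowerSeries.C (γ l)) * TT p ((j l + MM l * nn l : ℕ) : ℤ) *
        iK p ((1 + PowerSeries.X ^ (p * l + 1)) ^ nn l) := by
    intro l
    rw [TT_nat, ← map_mul, ← map_mul]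
    congr 1
    rw [WW, mul_pow, ← pow_mul, pow_add]
    ring
  rw [hWW l, eD] at e1
  rw [hWW l', eD'] at e1'
  have hC : ∀ l, iK p (PowerSeries.C (γ l)) ≠ 0 := by
    intro l h3
    have h4 : (PowerSeries.C (γ l) : OO p) = 0 := iK_injective (by rw [h3, map_zero])
    exact hγ l (by simpa using h4)
  have hunit : ∀ a : OO p, IsUnit a → iK p a ≠ 0 := by
    intro a ha h3
    exact ha.ne_zero (iK_injective (by rw [h3, map_zero]))
  have hA'u : IsUnit A' := isUnit_of_mul_isUnit_left hADu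
  have hDu : IsUnit D := isUnit_of_mul_isUnit_right hADu
  have hAu : IsUnit A := by
    rw [hA]
    apply IsUnit.pow
    rw [PowerSeries.isUnit_iff_constantCoeff, map_add, map_pow, PowerSeries.constantCoeff_X,
      zero_pow (by omega)]
    simp
  have hD'u : IsUnit D' := by
    rw [PowerSeries.isUnit_iff_constantCoeff]
    have h3 : PowerSeries.X ∣ D' - 1 := dvd_trans (dvd_pow_self _ (by omega)) hD'1
    rw [PowerSeries.X_dvd_iff, map_sub, map_one, sub_eq_zero] at h3
    rw [h3]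
    exact isUnit_one
  have hh : h l ≠ 0 := by
    intro h3
    rw [h3, zero_pow (by omega), zero_mul] at e1
    exact mul_ne_zero (mul_ne_zero (hC l) (TT_ne_zero _)) (hunit _ hAu) e1
  have hh' : h l' ≠ 0 := by
    intro h3
    rw [h3, zero_pow (by omega), zero_mul] at e1'
    exact mul_ne_zero (mul_ne_zero (hC l') (TT_ne_zero _)) (hunit _ hA'u) e1'
  apply special (h l / h l') ((j l + MM l * nn l : ℕ) - (j l' + MM l' * nn l' : ℕ) : ℤ)
    (γ := γ l / γ l') (div_ne_zero (hγ l) (hγ l')) hpκ (hnn l) (A * D' * B)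
  · have h3 : A * D' * B - (1 + PowerSeries.C ((nn l : ℕ) : ZMod p) * PowerSeries.X ^ κ) =
        (A - (1 + PowerSeries.C ((nn l : ℕ) : ZMod p) * PowerSeries.X ^ κ)) * (D' * B) +
        (1 + PowerSeries.C ((nn l : ℕ) : ZMod p) * PowerSeries.X ^ κ) *
          ((D' - 1) * B + (B - 1)) := by ring
    rw [h3]
    exact dvd_add (Dvd.dvd.mul_right hAc _)
      (Dvd.dvd.mul_left (dvd_add (Dvd.dvd.mul_right hD'1 _) hB1) _)
  · have hγ' : iK p (PowerSeries.C (γ l / γ l')) * iK p (PowerSeries.C (γ l')) =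
        iK p (PowerSeries.C (γ l)) := by
      rw [← map_mul, ← map_mul, div_mul_cancel₀ _ (hγ l')]
    have hT : TT p ((j l + MM l * nn l : ℕ) - (j l' + MM l' * nn l' : ℕ) : ℤ) *
        TT p ((j l' + MM l' * nn l' : ℕ) : ℤ) = TT p ((j l + MM l * nn l : ℕ) : ℤ) := by
      rw [← TT_add]
      congr 1
      ring
    have hB' : iK p A' * iK p D * iK p B = 1 := by
      rw [← map_mul, ← map_mul, hB, map_one]
    rw [div_pow, div_eq_iff (pow_ne_zero _ hh')]
    rw [map_mul, map_mul]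
    have k1 : (h l) ^ p * (ζ * iK p D) =
        iK p (PowerSeries.C (γ l)) * TT p ((j l + MM l * nn l : ℕ) : ℤ) * iK p A := e1.symm
    have k2 : (h l') ^ p * (ζ * iK p D') =
        iK p (PowerSeries.C (γ l')) * TT p ((j l' + MM l' * nn l' : ℕ) : ℤ) * iK p A' := e1'.symm
    have hζD : ζ * iK p D ≠ 0 := mul_ne_zero hζ (hunit _ hDu)
    apply mul_right_cancel₀ hζD
    rw [k1]
    have hlhs : iK p (PowerSeries.C (γ l)) * TT p ((j l + MM l * nn l : ℕ) : ℤ) * iK p A =
        (iK p (PowerSeries.C (γ l / γ l')) * iK p (PowerSeries.C (γ l'))) *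
        (TT p ((j l + MM l * nn l : ℕ) - (j l' + MM l' * nn l' : ℕ) : ℤ) *
        TT p ((j l' + MM l' * nn l' : ℕ) : ℤ)) * iK p A * (iK p A' * iK p D * iK p B) := by
      rw [hγ', hT, hB', mul_one]
    rw [hlhs]
    have k3 : iK p (PowerSeries.C (γ l / γ l')) *
        TT p ((j l + MM l * nn l : ℕ) - (j l' + MM l' * nn l' : ℕ) : ℤ) *
        (iK p A * iK p D' * iK p B) * (h l') ^ p * (ζ * iK p D) =
        iK p (PowerSeries.C (γ l / γ l')) *
        TT p ((j l + MM l * nn l : ℕ) - (j l' + MM l' * nn l' : ℕ) : ℤ) *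
        (iK p A * iK p B) * iK p D * ((h l') ^ p * (ζ * iK p D')) := by ring
    rw [k3, k2]
    ring

end wild


section final

/-- product of the numbers `≤ l` prime to `p` -/
def nn (p l : ℕ) : ℕ := ∏ b ∈ (Finset.range (l + 1)).filter (fun b => ¬ p ∣ b), b

theorem nn_not_dvd (l : ℕ) : ¬ p ∣ nn p l := by
  have hp : Prime p := (Fact.out : p.Prime).prime
  intro h
  rw [nn, hp.dvd_finsetProd_iff] at h
  obtain ⟨b, hb, hd⟩ := h
  rw [Finset.mem_filter] at hb
  exact hb.2 hd

theorem nn_pos (l : ℕ) : 1 ≤ nn p l := by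
  rcases Nat.eq_zero_or_pos (nn p l) with h | h
  · exact absurd (h ▸ dvd_zero p) (nn_not_dvd l)
  · exact h

theorem dvd_nn {e l : ℕ} (he : ¬ p ∣ e) (hl : e ≤ l) : e ∣ nn p l := by
  apply Finset.dvd_prod_of_mem
  rw [Finset.mem_filter, Finset.mem_range]
  exact ⟨by omega, he⟩

theorem WW_ne_zero {γ : ZMod p} (hγ : γ ≠ 0) (j n M : ℕ) {κ : ℕ} (hκ : κ ≠ 0) :
    WW γ j n M κ ≠ 0 := by
  have h1 : (1 + PowerSeries.X ^ κ : OO p) ≠ 0 := by
    intro h
    have := congrArg (PowerSeries.constantCoeff (R := ZMod p)) h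
    rw [map_add, map_pow, PowerSeries.constantCoeff_X, zero_pow hκ] at this
    simp at this
  have h2 : (PowerSeries.C γ : OO p) ≠ 0 := by
    intro h
    exact hγ (by simpa using h)
  unfold WW
  exact mul_ne_zero (mul_ne_zero h2 (pow_ne_zero _ PowerSeries.X_ne_zero))
    (pow_ne_zero _ (mul_ne_zero (pow_ne_zero _ PowerSeries.X_ne_zero) h1))

theorem natCast_KK_ne_zero {e : ℕ} (he : ¬ p ∣ e) : (e : KK p) ≠ 0 := by
  intro h
  apply he
  have h1 : (e : OO p) = 0 := iK_injective (by rw [map_natCast, h, map_zero])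
  have h2 : (e : ZMod p) = 0 := by
    have := congrArg (PowerSeries.constantCoeff (R := ZMod p)) h1
    simpa using this
  exact (ZMod.natCast_eq_zero_iff _ _).1 h2

theorem np (φ : List (P3 p × P3 p)) (hφ : ∀ c ∈ φ, c.1 ≠ 0) (ξ : OO p)
    (h : ∀ w : OO p, w ≠ 0 → ∃ y : OO p, Holds (tau p) φ (ξ + w) y) :
    ∃ n ≥ 1, ∀ γ : ZMod p, γ ≠ 0 → ∀ j < n, ∃ e ≥ 1, e ∣ n ∧ ¬ p ∣ e ∧
      ∃ Y : PowerSeries (KK p), (∃ y₀ : OO p, PowerSeries.constantCoeff Y = iK p y₀) ∧
        Holds (iota p) φ (XX ξ γ j e) Y := by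
  classical
  by_contra hcon
  push Not at hcon
  choose! γ hγ j hj hbad using hcon
  -- test points
  set γl : ℕ → ZMod p := fun l => γ (nn p l) with hγl
  set jl : ℕ → ℕ := fun l => j (nn p l) with hjl
  set kk : ℕ → ℕ := fun l => p * l + 1 with hkk
  set MM : ℕ → ℕ := fun l => (l + 1) * (p * l + 1) with hMM
  have hγl0 : ∀ l, γl l ≠ 0 := fun l => hγ _ (nn_pos l)
  set W : ℕ → OO p := fun l => WW (γl l) (jl l) (nn p l) (MM l) (p * l + 1) with hW
  have hW0 : ∀ l, W l ≠ 0 := fun l => WW_ne_zero (hγl0 l) _ _ _ (by omega)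
  choose yl hyl using fun l => h (W l) (hW0 l)
  -- the ultrafilter
  let U : Ultrafilter ℕ := Filter.hyperfilter ℕ
  have hU : ∀ N : ℕ, ∀ᶠ l in (U : Filter ℕ), N ≤ l := by
    intro N
    exact Nat.hyperfilter_le_atTop (Filter.eventually_ge_atTop N)
  have hUk : ∀ N : ℕ, ∀ᶠ l in (U : Filter ℕ), N ≤ kk l := by
    intro N
    filter_upwards [hU N] with l hl
    have hp : 1 ≤ p := (Fact.out : p.Prime).one_lt.le
    show N ≤ p * l + 1
    nlinarith
  -- a constant choice of the disjunct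
  obtain ⟨c, hcφ, hc⟩ : ∃ c ∈ φ, ∀ᶠ l in (U : Filter ℕ),
      ev2 (tau p) (ξ + W l) (yl l) c.1 = 0 ∧ ev2 (tau p) (ξ + W l) (yl l) c.2 ≠ 0 := by
    by_contra hno
    have h1 : ∀ᶠ l in (U : Filter ℕ), ∀ c ∈ φ.toFinset,
        ¬ (ev2 (tau p) (ξ + W l) (yl l) c.1 = 0 ∧ ev2 (tau p) (ξ + W l) (yl l) c.2 ≠ 0) := by
      rw [Filter.eventually_all_finset]
      intro c hc
      rw [List.mem_toFinset] at hc
      rw [Ultrafilter.eventually_not]
      intro h2
      exact hno ⟨c, hc, h2⟩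
    obtain ⟨l, hl⟩ := h1.exists
    obtain ⟨c, hc, hc1, hc2⟩ := hyl l
    exact hl c (List.mem_toFinset.2 hc) ⟨hc1, hc2⟩
  -- the ultrapower
  let w : FF p U := cls U (fun l => iK p (W l))
  let y : FF p U := cls U (fun l => iK p (yl l))
  have hv := nice_FF (p := p) (U := U) (κ := kk) hUk
  have hk1 := hUk 1
  have hw0 : w ≠ 0 := by
    intro h0
    rw [cls_eq_zero_iff] at h0
    obtain ⟨l, hl⟩ := h0.exists
    exact hW0 l (iK_injective (by rw [hl, map_zero]))
  have hw : vv U kk w < 1 := by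
    rw [vv_lt_one hk1]
    intro C
    filter_upwards [hU C] with l hl
    rw [inO_TT_iff]
    have h1 : (PowerSeries.X : OO p) ^ (C * kk l) ∣ PowerSeries.X ^ MM l := by
      apply pow_dvd_pow
      show C * (p * l + 1) ≤ (l + 1) * (p * l + 1)
      exact Nat.mul_le_mul_right _ (by omega)
    apply dvd_trans h1
    show _ ∣ WW (γl l) (jl l) (nn p l) (MM l) (p * l + 1)
    unfold WW
    apply Dvd.dvd.mul_left
    exact dvd_trans (Dvd.intro _ rfl) (dvd_pow_self _ (by have := nn_pos (p := p) l; omega))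
  have hy1 : vv U kk y ≤ 1 := by
    rw [vv_le_one]
    exact Bd.of_inO (Eventually.of_forall fun l => InO.iK _)
  -- the values of the polynomials
  have hval : ∀ f : P3 p, ev2 (algebraMap (KK p) (FF p U)) w y (shiftQ (iK p ξ) f) =
      cls U (fun l => iK p (ev2 (tau p) (ξ + W l) (yl l) f)) := by
    intro f
    rw [ev2_shiftQ]
    have h1 : algebraMap (KK p) (FF p U) (iK p ξ) + w = cls U (fun l => iK p (ξ + W l)) := by
      rw [algebraMap_FF, ← map_add]
      congr 1
      funext l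
      simp
    rw [h1, ev2_cls]
    congr 1
    funext l
    exact ev2_iK _ _ _
  have hf0 : ev2 (algebraMap (KK p) (FF p U)) w y (shiftQ (iK p ξ) c.1) = 0 := by
    rw [hval, cls_eq_zero_iff]
    filter_upwards [hc] with l hl
    rw [hl.1, map_zero]
  have hg0 : ev2 (algebraMap (KK p) (FF p U)) w y (shiftQ (iK p ξ) c.2) ≠ 0 := by
    rw [hval, Ne, cls_eq_zero_iff]
    intro h1
    obtain ⟨l, hl1, hl2⟩ := (hc.and h1).exists
    exact hl1.2 (iK_injective (by rw [hl2, map_zero]))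
  -- y is algebraic over K(w)
  have hint : IsIntegral (IntermediateField.adjoin (KK p) {w}) y := by
    rw [← isAlgebraic_iff_isIntegral]
    let w' : IntermediateField.adjoin (KK p) {w} :=
      ⟨w, IntermediateField.mem_adjoin_simple_self (KK p) w⟩
    let ι : Polynomial (KK p) →+* IntermediateField.adjoin (KK p) {w} :=
      ev1 (algebraMap (KK p) (IntermediateField.adjoin (KK p) {w})) w'
    have hι : Function.Injective ι := by
      rw [injective_iff_map_eq_zero]
      intro r hr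
      by_contra hr0
      obtain ⟨n, κ, s, h1, h2, h3⟩ := hv.poly hw r hr0
      have h4 : aeval w r = 0 := by
        have h5 := congrArg (algebraMap (IntermediateField.adjoin (KK p) {w}) (FF p U)) hr
        rw [map_zero] at h5
        rw [← h5]
        show aeval w r = algebraMap _ _ (aeval w' r)
        rw [← Polynomial.aeval_algebraMap_apply]
        rfl
      rw [h4] at h3
      rcases mul_eq_zero.1 h3.symm with h5 | h5
      · exact pow_ne_zero _ hw0 h5
      · have h6 : vv U kk (algebraMap (KK p) (FF p U) κ + w * s) = 1 := by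
          apply hv.unit h1
          rw [add_sub_cancel_left, map_mul]
          exact mul_lt_one_of_lt_of_le hw h2
        rw [h5, map_zero] at h6
        exact zero_ne_one h6
    refine ⟨(shiftQ (iK p ξ) c.1).map ι, ?_, ?_⟩
    · rw [Ne, Polynomial.map_eq_zero_iff hι]
      exact shiftQ_ne_zero _ (hφ c hcφ)
    · rw [Polynomial.aeval_def, Polynomial.eval₂_map]
      have h1 : (algebraMap (IntermediateField.adjoin (KK p) {w}) (FF p U)).comp ι =
          ev1 (algebraMap (KK p) (FF p U)) w := by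
        apply Polynomial.ringHom_ext
        · intro a
          simp [ι, ev1]
        · simp [ι, ev1, w']
      rw [h1]
      exact hf0
  obtain ⟨e, π, u, ζ, he1, hζ, hwe, huζ, hY⟩ := embed hv hw hw0 hy1 hint
  obtain ⟨πl, rfl⟩ := cls_surj U π
  obtain ⟨ul, rfl⟩ := cls_surj U u
  have hweq : ∀ᶠ l in (U : Filter ℕ), iK p (W l) = (πl l) ^ e * ul l := by
    rw [← map_pow, ← map_mul] at hwe
    exact (cls_eq_iff U).1 hwe
  have huζ' : Sm U kk (fun l => ul l - ζ) := by
    rw [algebraMap_FF, ← map_sub, vv_lt_one hk1] at huζ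
    exact huζ
  -- e is prime to p
  have hpe : ¬ p ∣ e := by
    rintro ⟨e', he'⟩
    apply no_wild hU hγl0 (j := jl) (nn := fun l => nn p l) (MM := MM)
      (fun l => nn_not_dvd l) (h := fun l => (πl l) ^ e') hζ _ huζ'
    filter_upwards [hweq] with l hl
    rw [← pow_mul, mul_comm e' p, ← he']
    exact hl
  obtain ⟨Y, hYQ, hYc⟩ := hY (natCast_KK_ne_zero hpe)
  -- the constant coefficient of Y
  have hYO : InO (PowerSeries.constantCoeff Y) := by
    rw [algebraMap_FF, ← map_sub, vv_lt_one hk1] at hYc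
    obtain ⟨l, hl⟩ := (hYc 0).exists
    rw [zero_mul, Nat.cast_zero, neg_zero, TT_zero, one_mul] at hl
    have h1 : PowerSeries.constantCoeff Y =
        iK p (yl l) + -(iK p (yl l) - PowerSeries.constantCoeff Y) := by ring
    rw [h1]
    exact (InO.iK _).add hl.neg
  -- choose l
  obtain ⟨z, hz⟩ := exists_close hζ
  have hfin : ∀ᶠ l in (U : Filter ℕ), e ≤ l ∧ iK p (W l) = (πl l) ^ e * ul l ∧
      ∃ D : OO p, PowerSeries.X ^ (kk l + 1) ∣ D - 1 ∧ ul l = ζ * iK p D := by
    filter_upwards [hU e, hweq, huζ' 2, hUk (z + 1)] with l e1 e2 e3 e4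
    exact ⟨e1, e2, hz (ul l) (kk l) e4 e3⟩
  obtain ⟨l, hel, hWl, D, hD, hDl⟩ := hfin.exists
  have hD1 : PowerSeries.constantCoeff D = 1 := by
    have h3 : PowerSeries.X ∣ D - 1 := dvd_trans (dvd_pow_self _ (by omega)) hD
    rw [PowerSeries.X_dvd_iff, map_sub, map_one, sub_eq_zero] at h3
    exact h3
  have heF : (e : ZMod p) ≠ 0 := by
    rw [Ne, ZMod.natCast_eq_zero_iff]
    exact hpe
  obtain ⟨ρ, hρ1, hρ2⟩ := exists_root_pow e heF D hD1
  obtain ⟨m, hm⟩ := dvd_nn hpe hel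
  set V : OO p := PowerSeries.X ^ MM l * (1 + PowerSeries.X ^ (p * l + 1)) with hV
  have hV0 : V ≠ 0 := by
    intro h0
    apply hW0 l
    show WW (γl l) (jl l) (nn p l) (MM l) (p * l + 1) = 0
    unfold WW
    rw [← hV, h0, zero_pow (by have := nn_pos (p := p) l; omega), mul_zero]
  have hV0' : iK p V ≠ 0 := by
    intro h0
    exact hV0 (iK_injective (by rw [h0, map_zero]))
  set κ₁ : KK p := πl l * iK p ρ / (iK p V) ^ m with hκ₁
  have hkey : iK p (PowerSeries.C (γl l) * PowerSeries.X ^ (jl l)) = ζ * κ₁ ^ e := by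
    have h1 : iK p (W l) = iK p (PowerSeries.C (γl l) * PowerSeries.X ^ (jl l)) *
        (iK p V) ^ (nn p l) := by
      rw [← map_pow, ← map_mul]
      rfl
    rw [hκ₁, div_pow, ← pow_mul, mul_comm m e, ← hm, mul_div_assoc', eq_div_iff
      (pow_ne_zero _ hV0'), ← h1, hWl, hDl, ← hρ2]
    rw [map_pow]
    ring
  apply hbad (nn p l) (nn_pos l) e he1 (dvd_nn hpe hel) hpe (PowerSeries.rescale κ₁ Y)
  · obtain ⟨y₀, hy₀⟩ := hYO
    refine ⟨y₀, ?_⟩
    rw [hy₀, ← PowerSeries.coeff_zero_eq_constantCoeff_apply,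
      ← PowerSeries.coeff_zero_eq_constantCoeff_apply, PowerSeries.coeff_rescale, pow_zero,
      one_mul]
  · -- transfer
    have hcomp : (PowerSeries.rescale κ₁).comp (iota p) = iota p := by
      refine RingHom.ext fun a => ?_
      simp only [iota, RingHom.comp_apply]
      ext n
      rw [PowerSeries.coeff_rescale, PowerSeries.coeff_C]
      split_ifs with h0
      · rw [h0, pow_zero, one_mul]
      · rw [mul_zero]
    have hresc : ∀ f : P3 p, ev2 (iota p) (XX ξ (γl l) (jl l) e) (PowerSeries.rescale κ₁ Y) f =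
        PowerSeries.rescale κ₁ (ev2 (PowerSeries.C (R := KK p))
          (PowerSeries.C ζ * PowerSeries.X ^ e) Y (shiftQ (iK p ξ) f)) := by
      intro f
      rw [ev2_shiftQ]
      have h1 : (PowerSeries.C (R := KK p)).comp (tauK p) = iota p := rfl
      rw [h1, hom_ev2, hcomp]
      congr 2
      rw [map_add, map_mul, map_pow, PowerSeries.rescale_X, XX, hkey]
      have h2 : ∀ a : KK p, PowerSeries.rescale κ₁ (PowerSeries.C a) = PowerSeries.C a := by
        intro a
        ext n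
        rw [PowerSeries.coeff_rescale, PowerSeries.coeff_C]
        split_ifs with h0
        · rw [h0, pow_zero, one_mul]
        · rw [mul_zero]
      rw [h2, h2, mul_pow, map_mul, map_pow]
      ring
    have hinj : Function.Injective (PowerSeries.rescale κ₁ :
        PowerSeries (KK p) →+* PowerSeries (KK p)) := by
      apply PowerSeries.rescale_injective
      intro h0
      have h1 : (PowerSeries.C (γl l) * PowerSeries.X ^ (jl l) : OO p) = 0 := by
        apply iK_injective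
        rw [hkey, h0, zero_pow (by omega), mul_zero, map_zero]
      have h2 : (PowerSeries.C (γl l) : OO p) ≠ 0 := by
        intro h
        exact hγl0 l (by simpa using h)
      exact mul_ne_zero h2 (pow_ne_zero _ PowerSeries.X_ne_zero) h1
    refine ⟨c, hcφ, ?_, ?_⟩
    · have h1 := hresc c.1
      rw [(hYQ _).1 hf0, map_zero] at h1
      exact h1
    · intro h0
      apply hg0
      rw [hYQ]
      apply hinj
      rw [map_zero, ← hresc c.2]
      exact h0

end final

end FT80
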