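import Pool.Agent.FT80.Sound

/-!
# Lifting of equalities in `F_p(t)(θ) ∩ O` to certificates
-/

set_option maxSynthPendingDepth 10

open Polynomial

namespace FT80

section mem

variable {R T : Type*} [CommRing R] [CommRing T]

theorem ev1_mem (S : Subring T) (σ : R →+* T) (hσ : ∀ r, σ r ∈ S) {x : T} (hx : x ∈ S)
    (q : Polynomial R) : ev1 σ x q ∈ S := by
  unfold ev1
  rw [coe_eval₂RingHom, eval₂_eq_sum_range]
  exact Subring.sum_mem _ (fun i _ => Subring.mul_mem _ (hσ _) (Subring.pow_mem _ hx _))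

theorem ev2_mem (S : Subring T) (σ : R →+* T) (hσ : ∀ r, σ r ∈ S) {x y : T} (hx : x ∈ S)
    (hy : y ∈ S) (q : Polynomial (Polynomial R)) : ev2 σ x y q ∈ S := by
  unfold ev2
  rw [coe_eval₂RingHom, eval₂_eq_sum_range]
  exact Subring.sum_mem _ (fun i _ => Subring.mul_mem _ (ev1_mem S σ hσ hx _)
    (Subring.pow_mem _ hy _))

end mem

variable {p : ℕ} [hp : Fact p.Prime]

/-- the ring `F_p(t)(θ) ∩ O` -/
def OTheta (θ : OO p) : Subring (OO p) where
  carrier := {z | InTh θ z}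
  mul_mem' := by
    rintro a b ⟨A, c, hc, h⟩ ⟨B, d, hd, h'⟩
    refine ⟨A * B, c * d, ?_, ?_⟩
    · rw [mul_coeff_zero]; exact mul_ne_zero hc hd
    · rw [map_mul, map_mul, ← h, ← h']; ring
  one_mem' := ⟨1, 1, by rw [coeff_one_zero]; exact one_ne_zero, by rw [map_one, map_one, mul_one]⟩
  add_mem' := by
    rintro a b ⟨A, c, hc, h⟩ ⟨B, d, hd, h'⟩
    refine ⟨C d * A + C c * B, c * d, ?_, ?_⟩
    · rw [mul_coeff_zero]; exact mul_ne_zero hc hd
    · rw [map_add, map_mul (tau p), map_mul (ev1 _ _), map_mul (ev1 _ _), ev1_C, ev1_C, ← h,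
        ← h']
      ring
  zero_mem' := ⟨0, 1, by rw [coeff_one_zero]; exact one_ne_zero, by rw [map_zero, mul_zero]⟩
  neg_mem' := by
    rintro a ⟨A, c, hc, h⟩
    exact ⟨-A, c, hc, by rw [map_neg, ← h]; ring⟩

theorem mem_OTheta {θ z : OO p} : z ∈ OTheta θ ↔ InTh θ z := Iff.rfl

theorem tau_mem (θ : OO p) (d : P1 p) : tau p d ∈ OTheta θ :=
  ⟨C d, 1, by rw [coeff_one_zero]; exact one_ne_zero, by rw [ev1_C, map_one, one_mul]⟩

theorem theta_mem (θ : OO p) : θ ∈ OTheta θ :=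
  ⟨X, 1, by rw [coeff_one_zero]; exact one_ne_zero, by rw [ev1_X, map_one, one_mul]⟩

theorem div_mem {m : P2 p} {θ : OO p} (h : ThetaData m θ) {w z v : OO p} (hw : w ∈ OTheta θ)
    (hz : z ∈ OTheta θ) (hw0 : w ≠ 0) (hv : w * v = z) : v ∈ OTheta θ := by
  obtain ⟨A, c, hc, hA⟩ := hw
  obtain ⟨B, d, hd, hB⟩ := hz
  have hc0 : tau p c ≠ 0 := by
    intro h1
    have := congrArg (PowerSeries.coeff 0) h1
    rw [tau_coeff, map_zero] at this
    exact hc this
  have hd0 : tau p d ≠ 0 := by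
    intro h1
    have := congrArg (PowerSeries.coeff 0) h1
    rw [tau_coeff, map_zero] at this
    exact hd this
  refine h.2.2.2.2.2 (C c * B) (A * C d) v ?_ ?_
  · rw [map_mul, ev1_C, ← hA]
    exact mul_ne_zero (mul_ne_zero hc0 hw0) hd0
  · rw [map_mul, map_mul, ev1_C, ev1_C, ← hA, ← hB, ← hv]
    ring

/-- polynomials with coefficients in `F_p(t)(θ) ∩ O` -/
def PTheta (θ : OO p) : Subring (Polynomial (OO p)) where
  carrier := {G | ∀ i, G.coeff i ∈ OTheta θ}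
  mul_mem' := by
    intro a b ha hb i
    rw [coeff_mul]
    exact Subring.sum_mem _ (fun x _ => Subring.mul_mem _ (ha _) (hb _))
  one_mem' := by
    intro i
    rw [coeff_one]
    split_ifs
    · exact Subring.one_mem _
    · exact Subring.zero_mem _
  add_mem' := by
    intro a b ha hb i
    rw [coeff_add]
    exact Subring.add_mem _ (ha i) (hb i)
  zero_mem' := by
    intro i
    rw [coeff_zero]
    exact Subring.zero_mem _
  neg_mem' := by
    intro a ha i
    rw [coeff_neg]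
    exact Subring.neg_mem _ (ha i)

theorem C_mem_PTheta {θ z : OO p} (hz : z ∈ OTheta θ) : C z ∈ PTheta θ := by
  intro i
  rw [coeff_C]
  split_ifs
  · exact hz
  · exact Subring.zero_mem _

theorem X_mem_PTheta (θ : OO p) : X ∈ PTheta θ := by
  intro i
  rw [coeff_X]
  split_ifs
  · exact Subring.one_mem _
  · exact Subring.zero_mem _

/-- `c z` is a polynomial in `θ` -/
def InThc (c : P1 p) (θ z : OO p) : Prop := ∃ A : P2 p, tau p c * z = ev1 (tau p) θ A

theorem InThc.mono {c c' : P1 p} {θ z : OO p} (h : InThc c θ z) (hd : c ∣ c') : InThc c' θ z := by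
  obtain ⟨A, hA⟩ := h
  obtain ⟨d, rfl⟩ := hd
  exact ⟨C d * A, by rw [map_mul, map_mul, ev1_C, ← hA]; ring⟩

theorem exists_c {θ : OO p} (S : Finset (OO p)) (h : ∀ z ∈ S, InTh θ z) :
    ∃ c : P1 p, c.coeff 0 ≠ 0 ∧ ∀ z ∈ S, InThc c θ z := by
  classical
  induction S using Finset.induction_on with
  | empty => exact ⟨1, by rw [coeff_one_zero]; exact one_ne_zero, fun z hz => by simp at hz⟩
  | insert a S ha ih =>
    obtain ⟨c, hc, hcS⟩ := ih (fun z hz => h z (Finset.mem_insert_of_mem hz))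
    obtain ⟨A, d, hd, hA⟩ := h a (Finset.mem_insert_self _ _)
    refine ⟨d * c, ?_, ?_⟩
    · rw [mul_coeff_zero]; exact mul_ne_zero hd hc
    · intro z hz
      rcases Finset.mem_insert.1 hz with rfl | hz
      · exact InThc.mono ⟨A, hA⟩ (dvd_mul_right _ _)
      · exact (hcS z hz).mono (dvd_mul_left _ _)

/-- `Pr` holds as soon as the denominator `c` is good enough -/
def Lift (θ : OO p) (Pr : P1 p → OO p → Prop) : Prop :=
  ∃ S : Finset (OO p), (∀ z ∈ S, InTh θ z) ∧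
    ∀ (c : P1 p) (ζ : OO p), tau p c * ζ = 1 → (∀ z ∈ S, InThc c θ z) → Pr c ζ

theorem Lift.and {θ : OO p} {P Q : P1 p → OO p → Prop} (h : Lift θ P) (h' : Lift θ Q) :
    Lift θ (fun c ζ => P c ζ ∧ Q c ζ) := by
  classical
  obtain ⟨S, hS, h⟩ := h
  obtain ⟨S', hS', h'⟩ := h'
  refine ⟨S ∪ S', ?_, ?_⟩
  · intro z hz
    rcases Finset.mem_union.1 hz with hz | hz
    · exact hS z hz
    · exact hS' z hz
  · intro c ζ hc hz
    exact ⟨h c ζ hc (fun z h1 => hz z (Finset.mem_union_left _ h1)),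
      h' c ζ hc (fun z h1 => hz z (Finset.mem_union_right _ h1))⟩

theorem Lift.imp {θ : OO p} {P Q : P1 p → OO p → Prop} (h : Lift θ P)
    (h' : ∀ c ζ, tau p c * ζ = 1 → P c ζ → Q c ζ) : Lift θ Q := by
  obtain ⟨S, hS, h⟩ := h
  exact ⟨S, hS, fun c ζ hc hz => h' c ζ hc (h c ζ hc hz)⟩

theorem Lift.ball {ι : Type*} {θ : OO p} (I : Finset ι) {P : ι → P1 p → OO p → Prop}
    (h : ∀ i ∈ I, Lift θ (P i)) : Lift θ (fun c ζ => ∀ i ∈ I, P i c ζ) := by
  classical
  induction I using Finset.induction_on with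
  | empty => exact ⟨∅, fun z hz => by simp at hz, fun c ζ _ _ i hi => by simp at hi⟩
  | insert a S ha ih =>
    refine ((h a (Finset.mem_insert_self _ _)).and
      (ih (fun i hi => h i (Finset.mem_insert_of_mem hi)))).imp ?_
    rintro c ζ _ ⟨h1, h2⟩ i hi
    rcases Finset.mem_insert.1 hi with rfl | hi
    · exact h1
    · exact h2 i hi

theorem Lift.true {θ : OO p} {P : P1 p → OO p → Prop} (h : ∀ c ζ, tau p c * ζ = 1 → P c ζ) :
    Lift θ P :=
  ⟨∅, fun z hz => by simp at hz, fun c ζ hc _ => h c ζ hc⟩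

theorem Lift.exists {θ : OO p} {P : P1 p → OO p → Prop} (h : Lift θ P) :
    ∃ (c : P1 p) (ζ : OO p), c.coeff 0 ≠ 0 ∧ tau p c * ζ = 1 ∧ P c ζ := by
  obtain ⟨S, hS, h⟩ := h
  obtain ⟨c, hc, hcS⟩ := exists_c S hS
  have hu : IsUnit (tau p c) := by
    rw [PowerSeries.isUnit_iff_constantCoeff, ← PowerSeries.coeff_zero_eq_constantCoeff_apply,
      tau_coeff]
    exact isUnit_iff_ne_zero.2 hc
  obtain ⟨ζ, hζ⟩ := hu.exists_right_inv
  exact ⟨c, ζ, hc, hζ, h c ζ hζ hcS⟩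

theorem lift3 {θ z : OO p} (h : z ∈ OTheta θ) :
    Lift θ (fun _ ζ => ∃ E : P3 p, ev2 (tau p) ζ θ E = z) := by
  refine ⟨{z}, fun w hw => by rw [Finset.mem_singleton.1 hw]; exact h, fun c ζ hc hz => ?_⟩
  obtain ⟨A, hA⟩ := hz z (Finset.mem_singleton_self _)
  refine ⟨C X * mhat A, ?_⟩
  rw [map_mul, ev2_mhat, ev2_C', ev1_X, ← hA, ← mul_assoc, mul_comm ζ, hc, one_mul]

theorem lift4 {θ : OO p} {G : Polynomial (OO p)} (h : G ∈ PTheta θ) :
    Lift θ (fun _ ζ => ∃ E : P4 p, evth ζ θ E = G) := by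
  refine (Lift.ball (Finset.range (G.natDegree + 1)) (fun i _ => lift3 (h i))).imp ?_
  intro c ζ hc hE
  choose! E hE using hE
  refine ⟨∑ i ∈ Finset.range (G.natDegree + 1), monomial i (E i), ?_⟩
  rw [map_sum]
  conv_rhs => rw [G.as_sum_range]
  refine Finset.sum_congr rfl (fun i hi => ?_)
  unfold evth
  rw [coe_mapRingHom, map_monomial, hE i hi]

/-! ### evaluation of `P4` in `O[u]` -/

theorem evth_C (ζ θ : OO p) (E : P3 p) : evth ζ θ (C E) = C (ev2 (tau p) ζ θ E) := by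
  simp [evth]

theorem evth_X (ζ θ : OO p) : evth ζ θ X = X := by
  simp [evth]

theorem evth_kap (ζ θ : OO p) (d : P1 p) : evth ζ θ (kap p d) = C (tau p d) := by
  unfold kap
  rw [RingHom.comp_apply, RingHom.comp_apply, evth_C, ev2_C', ev1_C]

/-- `F_p[t] → O[u]` -/
noncomputable def Ct (p : ℕ) [Fact p.Prime] : P1 p →+* Polynomial (OO p) := (C).comp (tau p)

theorem evth_comp_kap (ζ θ : OO p) : (evth ζ θ).comp (kap p) = Ct p :=
  RingHom.ext (fun d => evth_kap ζ θ d)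

theorem evth_ev2 (ζ θ : OO p) (x y : P4 p) (F : P3 p) :
    evth ζ θ (ev2 (kap p) x y F) = ev2 (Ct p) (evth ζ θ x) (evth ζ θ y) F := by
  rw [map_ev2', evth_comp_kap]

theorem evth_ev1 (ζ θ : OO p) (x : P4 p) (F : P2 p) :
    evth ζ θ (ev1 (kap p) x F) = ev1 (Ct p) (evth ζ θ x) F := by
  rw [map_ev1', evth_comp_kap]

theorem ev1_Ct_C (x : OO p) (F : P2 p) : ev1 (Ct p) (C x) F = C (ev1 (tau p) x F) := by
  rw [map_ev1']
  rfl

theorem ev2_Ct_C (x y : OO p) (F : P3 p) : ev2 (Ct p) (C x) (C y) F = C (ev2 (tau p) x y F) := by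
  rw [map_ev2']
  rfl

theorem ev2_Ct_X (x : OO p) (F : P3 p) : ev2 (Ct p) (C x) X F = F.map (ev1 (tau p) x) := by
  rw [ev2_eq_eval, eval_map]
  induction F using Polynomial.induction_on' with
  | add F G hF hG => rw [eval₂_add, hF, hG, Polynomial.map_add]
  | monomial n r =>
    rw [eval₂_monomial, map_monomial, ev1_Ct_C, C_mul_X_pow_eq_monomial]

theorem Ct_mem (θ : OO p) (d : P1 p) : Ct p d ∈ PTheta θ := C_mem_PTheta (tau_mem θ d)

end FT80
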