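import Mathlib

/-!
# Closure properties of semi-decidable predicates

`Sig P`: the predicate `P` is the projection of a primitive recursive predicate.
-/

namespace FT80

section sig

variable {α β γ : Type} [Primcodable α] [Primcodable β] [Primcodable γ]

/-- projections of primitive recursive predicates -/
def Sig (P : α → Prop) : Prop :=
  ∃ q : α × ℕ → Prop, PrimrecPred q ∧ ∀ a, P a ↔ ∃ n, q (a, n)

theorem Sig.of_eq {P Q : α → Prop} (h : Sig P) (H : ∀ a, P a ↔ Q a) : Sig Q := by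
  obtain ⟨q, hq, h⟩ := h
  exact ⟨q, hq, fun a => (H a).symm.trans (h a)⟩

theorem Sig.of_prim {P : α → Prop} (h : PrimrecPred P) : Sig P :=
  ⟨fun x => P x.1, h.comp Primrec.fst, fun _ => ⟨fun h => ⟨0, h⟩, fun ⟨_, h⟩ => h⟩⟩

theorem Sig.rePred {P : α → Prop} (h : Sig P) : REPred P := by
  classical
  obtain ⟨q, hq, h⟩ := h
  have h0 : ComputablePred q := hq.computablePred
  have h1 : Computable (fun x : α × ℕ => decide (q x)) := h0.decide
  have h2 : Partrec (fun a : α => Nat.rfind (fun n => Part.some (decide (q (a, n))))) := by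
    apply Partrec.rfind
    exact h1.partrec
  refine h2.dom_re.of_eq fun a => ?_
  rw [h a]
  refine Nat.rfind_dom.trans ?_
  constructor
  · rintro ⟨n, hn, -⟩
    exact ⟨n, by simpa using hn⟩
  · rintro ⟨n, hn⟩
    exact ⟨n, by simpa using hn, fun _ => trivial⟩

theorem Sig.comp {P : β → Prop} (h : Sig P) {f : α → β} (hf : Primrec f) :
    Sig (fun a => P (f a)) := by
  obtain ⟨q, hq, h⟩ := h
  refine ⟨fun x => q (f x.1, x.2), hq.comp ((hf.comp Primrec.fst).pair Primrec.snd), ?_⟩
  exact fun a => h (f a)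

theorem Sig.and {P Q : α → Prop} (hP : Sig P) (hQ : Sig Q) : Sig (fun a => P a ∧ Q a) := by
  obtain ⟨q, hq, h⟩ := hP
  obtain ⟨q', hq', h'⟩ := hQ
  refine ⟨fun x => q (x.1, x.2.unpair.1) ∧ q' (x.1, x.2.unpair.2),
    (hq.comp (Primrec.fst.pair (Primrec.fst.comp (Primrec.unpair.comp Primrec.snd)))).and
      (hq'.comp (Primrec.fst.pair (Primrec.snd.comp (Primrec.unpair.comp Primrec.snd)))), ?_⟩
  intro a
  refine (and_congr (h a) (h' a)).trans ?_
  constructor
  · rintro ⟨⟨n, hn⟩, ⟨m, hm⟩⟩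
    exact ⟨Nat.pair n m, by simpa using hn, by simpa using hm⟩
  · rintro ⟨n, hn, hm⟩
    exact ⟨⟨_, hn⟩, ⟨_, hm⟩⟩

theorem Sig.or {P Q : α → Prop} (hP : Sig P) (hQ : Sig Q) : Sig (fun a => P a ∨ Q a) := by
  obtain ⟨q, hq, h⟩ := hP
  obtain ⟨q', hq', h'⟩ := hQ
  refine ⟨fun x => q x ∨ q' x, hq.or hq', ?_⟩
  intro a
  refine (or_congr (h a) (h' a)).trans ?_
  constructor
  · rintro (⟨n, hn⟩ | ⟨n, hn⟩)
    · exact ⟨n, Or.inl hn⟩
    · exact ⟨n, Or.inr hn⟩
  · rintro ⟨n, hn | hn⟩
    · exact Or.inl ⟨n, hn⟩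
    · exact Or.inr ⟨n, hn⟩

theorem Sig.ex_nat {P : α → ℕ → Prop} (h : Sig fun x : α × ℕ => P x.1 x.2) :
    Sig (fun a => ∃ n, P a n) := by
  obtain ⟨q, hq, h⟩ := h
  refine ⟨fun x => q ((x.1, x.2.unpair.1), x.2.unpair.2), hq.comp ?_, ?_⟩
  · exact (Primrec.fst.pair (Primrec.fst.comp (Primrec.unpair.comp Primrec.snd))).pair
      (Primrec.snd.comp (Primrec.unpair.comp Primrec.snd))
  · intro a
    constructor
    · rintro ⟨n, hn⟩
      obtain ⟨m, hm⟩ := (h (a, n)).1 hn
      exact ⟨Nat.pair n m, by simpa using hm⟩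
    · rintro ⟨n, hn⟩
      exact ⟨_, (h (a, _)).2 ⟨_, hn⟩⟩

theorem primrecPred_decode {q : α × β → Prop} (hq : PrimrecPred q) :
    PrimrecPred (fun x : α × ℕ => ∃ b, Encodable.decode (α := β) x.2 = some b ∧ q (x.1, b)) := by
  classical
  refine PrimrecPred.of_eq (p := fun x : α × ℕ =>
    ((Encodable.decode (α := β) x.2).map fun b => decide (q (x.1, b))) = some true) ?_ ?_
  · refine Primrec.eq.comp ?_ (Primrec.const _)
    refine Primrec.option_map (Primrec.decode.comp Primrec.snd) ?_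
    exact hq.decide.comp ((Primrec.fst.comp Primrec.fst).pair Primrec.snd)
  · intro x
    cases h : Encodable.decode (α := β) x.2 with
    | none => simp
    | some b => simp

/-- existential quantification over a type with a primitive recursive coding -/
theorem Sig.ex {P : α → β → Prop} (h : Sig fun x : α × β => P x.1 x.2) :
    Sig (fun a => ∃ b, P a b) := by
  obtain ⟨q, hq, h⟩ := h
  have h1 : Sig (fun a : α => ∃ n : ℕ, ∃ m : ℕ, ∃ b, Encodable.decode (α := β) n = some b ∧
      q ((a, b), m)) := by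
    refine Sig.ex_nat (Sig.ex_nat (Sig.of_prim ?_))
    have h2 := primrecPred_decode (α := α × ℕ) (β := β)
      (q := fun x : (α × ℕ) × β => q ((x.1.1, x.2), x.1.2)) (hq.comp
        (((Primrec.fst.comp Primrec.fst).pair Primrec.snd).pair
          (Primrec.snd.comp Primrec.fst)))
    refine (h2.comp (f := fun x : (α × ℕ) × ℕ => ((x.1.1, x.2), x.1.2)) ?_).of_eq ?_
    · exact ((Primrec.fst.comp Primrec.fst).pair Primrec.snd).pair (Primrec.snd.comp Primrec.fst)
    · intro x
      exact Iff.rfl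
  refine h1.of_eq ?_
  intro a
  constructor
  · rintro ⟨n, m, b, _, hb⟩
    exact ⟨b, (h (a, b)).2 ⟨m, hb⟩⟩
  · rintro ⟨b, hb⟩
    obtain ⟨m, hm⟩ := (h (a, b)).1 hb
    exact ⟨Encodable.encode b, m, b, Encodable.encodek b, hm⟩

/-- bounded universal quantification over the members of a list -/
theorem Sig.all_mem {P : α → β → Prop} {l : α → List β} (hl : Primrec l)
    (h : Sig fun x : α × β => P x.1 x.2) : Sig (fun a => ∀ b ∈ l a, P a b) := by
  obtain ⟨q, hq, h⟩ := h
  have hR : PrimrecRel (fun (b : β) (x : α × ℕ) => ∃ n < x.2, q ((x.1, b), n)) := by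
    have h1 : PrimrecRel (fun (n : ℕ) (y : α × β) => q (y, n)) :=
      hq.comp (Primrec.snd.pair Primrec.fst)
    have h2 : PrimrecRel (fun (L : List ℕ) (y : α × β) => ∃ n ∈ L, q (y, n)) :=
      h1.exists_mem_list
    refine (h2.comp (Primrec.list_range.comp (Primrec.snd.comp Primrec.snd))
      ((Primrec.fst.comp Primrec.snd).pair Primrec.fst)).of_eq ?_
    intro x
    simp only [List.mem_range]
  have h3 : PrimrecRel (fun (L : List β) (x : α × ℕ) => ∀ b ∈ L, ∃ n < x.2, q ((x.1, b), n)) :=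
    hR.forall_mem_list
  refine ⟨fun x => ∀ b ∈ l x.1, ∃ n < x.2, q ((x.1, b), n),
    h3.comp (hl.comp Primrec.fst) Primrec.id, ?_⟩
  intro a
  constructor
  · intro h4
    have h5 : ∀ L : List β, (∀ b ∈ L, P a b) → ∃ N : ℕ, ∀ b ∈ L, ∃ n < N, q ((a, b), n) := by
      intro L
      induction L with
      | nil => exact fun _ => ⟨0, fun b hb => absurd hb (by simp)⟩
      | cons c L ih =>
        intro hL
        obtain ⟨N, hN⟩ := ih (fun b hb => hL b (List.mem_cons_of_mem _ hb))
        obtain ⟨n, hn⟩ := (h (a, c)).1 (hL c List.mem_cons_self)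
        refine ⟨max N (n + 1), fun b hb => ?_⟩
        rw [List.mem_cons] at hb
        rcases hb with rfl | hb
        · exact ⟨n, by omega, hn⟩
        · obtain ⟨n', hn', hq'⟩ := hN b hb
          exact ⟨n', by omega, hq'⟩
    exact h5 (l a) h4
  · rintro ⟨N, hN⟩ b hb
    obtain ⟨n, _, hn⟩ := hN b hb
    exact (h (a, b)).2 ⟨n, hn⟩

/-- bounded universal quantification -/
theorem Sig.all_lt {P : α → ℕ → Prop} {f : α → ℕ} (hf : Primrec f)
    (h : Sig fun x : α × ℕ => P x.1 x.2) : Sig (fun a => ∀ i < f a, P a i) := by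
  refine (Sig.all_mem (Primrec.list_range.comp hf) h).of_eq ?_
  intro a
  simp only [List.mem_range]

theorem Sig.ex_mem {P : α → β → Prop} {l : α → List β} (hl : Primrec l)
    (h : Sig fun x : α × β => P x.1 x.2) : Sig (fun a => ∃ b ∈ l a, P a b) := by
  have h1 : PrimrecRel (fun (b : β) (L : List β) => b ∈ L) := by
    have h2 : PrimrecRel (fun (L : List β) (b : β) => ∃ a ∈ L, a = b) :=
      Primrec.eq.exists_mem_list
    refine (h2.comp Primrec.snd Primrec.fst).of_eq ?_
    intro x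
    simp
  have h3 : Sig (fun x : α × β => x.2 ∈ l x.1) :=
    Sig.of_prim (h1.comp Primrec.snd (hl.comp Primrec.fst))
  exact Sig.ex (h3.and h)

theorem Sig.ex_lt {P : α → ℕ → Prop} {f : α → ℕ} (hf : Primrec f)
    (h : Sig fun x : α × ℕ => P x.1 x.2) : Sig (fun a => ∃ i < f a, P a i) := by
  refine (Sig.ex_mem (Primrec.list_range.comp hf) h).of_eq ?_
  intro a
  simp only [List.mem_range]

theorem Sig.const (b : Prop) : Sig (fun _ : α => b) := by
  classical
  exact Sig.of_prim (PrimrecPred.of_eq (p := fun _ : α => (decide b) = true)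
    (Primrec.eq.comp (Primrec.const _) (Primrec.const _)) (fun a => by simp))

/-- conditional -/
theorem Sig.imp_prim {P Q : α → Prop} (hP : PrimrecPred P) (hQ : Sig Q) :
    Sig (fun a => P a → Q a) := by
  refine ((Sig.of_prim hP.not).or hQ).of_eq ?_
  intro a
  tauto

/-- quantification over elements of a coded ring -/
theorem Sig.ex_coded {R : Type*} {v : β → R} (hv : Function.Surjective v) {P : α → R → Prop}
    (h : Sig fun x : α × β => P x.1 (v x.2)) : Sig (fun a => ∃ r, P a r) := by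
  refine (Sig.ex (P := fun a b => P a (v b)) h).of_eq ?_
  intro a
  constructor
  · rintro ⟨b, hb⟩
    exact ⟨_, hb⟩
  · rintro ⟨r, hr⟩
    obtain ⟨b, rfl⟩ := hv r
    exact ⟨b, hr⟩

end sig

end FT80
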