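import Pool.Agent.FT80.Defs
set_option maxSynthPendingDepth 10
set_option linter.unusedSectionVars false
open Polynomial
namespace FT80

section digits

variable {k R : Type*} [Field k] [CommRing R] [IsDomain R] [Algebra k R] (s : R)

/-- `ψ` is the expansion of `r` in powers of `s` -/
def Exp (r : R) (ψ : PowerSeries k) : Prop :=
  ∀ n : ℕ, s ^ n ∣ r - aeval s (PowerSeries.trunc n ψ)

variable {s}

theorem exp_add {r r' : R} {ψ ψ' : PowerSeries k} (h : Exp s r ψ) (h' : Exp s r' ψ') :
    Exp s (r + r') (ψ + ψ') := by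
  intro n
  have := dvd_add (h n) (h' n)
  rw [map_add, map_add]
  convert this using 1
  ring

theorem aeval_dvd_of_coeff {n : ℕ} {q : Polynomial k} (h : ∀ m < n, q.coeff m = 0) :
    s ^ n ∣ aeval s q := by
  have : (X : Polynomial k) ^ n ∣ q := Polynomial.X_pow_dvd_iff.2 h
  obtain ⟨q', rfl⟩ := this
  rw [map_mul, map_pow, aeval_X]
  exact Dvd.intro _ rfl

theorem exp_mul {r r' : R} {ψ ψ' : PowerSeries k} (h : Exp s r ψ) (h' : Exp s r' ψ') :
    Exp s (r * r') (ψ * ψ') := by
  intro n
  have h1 : s ^ n ∣ r * r' - aeval s (PowerSeries.trunc n ψ * PowerSeries.trunc n ψ') := by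
    rw [map_mul]
    have := dvd_add (Dvd.dvd.mul_right (h n) r')
      (Dvd.dvd.mul_left (h' n) (aeval s (PowerSeries.trunc n ψ)))
    convert this using 1
    ring
  have h2 : s ^ n ∣ aeval s (PowerSeries.trunc n ψ * PowerSeries.trunc n ψ' -
      PowerSeries.trunc n (ψ * ψ')) := by
    apply aeval_dvd_of_coeff
    intro m hm
    rw [Polynomial.coeff_sub, PowerSeries.coeff_trunc, if_pos hm, Polynomial.coeff_mul,
      PowerSeries.coeff_mul, sub_eq_zero]
    apply Finset.sum_congr rfl
    intro ij hij
    have := Finset.HasAntidiagonal.mem_antidiagonal.1 hij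
    rw [PowerSeries.coeff_trunc, PowerSeries.coeff_trunc, if_pos (by omega), if_pos (by omega)]
  have := dvd_add h1 h2
  rw [map_sub] at this
  convert this using 1
  ring

theorem exp_algebraMap (a : k) : Exp s (algebraMap k R a) (PowerSeries.C a) := by
  intro n
  rcases n with _ | n
  · simp
  · have : PowerSeries.trunc (n + 1) (PowerSeries.C a) = C a := by
      rw [PowerSeries.trunc_C]
    rw [this, aeval_C, sub_self]
    exact dvd_zero _

theorem exp_X : Exp s s (PowerSeries.X : PowerSeries k) := by
  intro n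
  rcases n with _ | _ | n
  · simp
  · have : PowerSeries.trunc 1 (PowerSeries.X : PowerSeries k) = 0 := by
      ext m
      rw [PowerSeries.coeff_trunc]
      split_ifs with h
      · have : m = 0 := by omega
        subst this
        simp
      · simp
    rw [this]
    simp
  · have : PowerSeries.trunc (n + 2) (PowerSeries.X : PowerSeries k) = X :=
      PowerSeries.trunc_X n
    rw [this]
    simp

variable (hs : s ≠ 0) (ρ : R →ₐ[k] k) (hρ : ∀ r : R, ρ r = 0 ↔ s ∣ r)
include hs hρ

theorem aeval_dvd_unique {n : ℕ} {q : Polynomial k} (h : s ^ n ∣ aeval s q) :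
    ∀ m < n, q.coeff m = 0 := by
  induction n generalizing q with
  | zero => intro m hm; omega
  | succ n ih =>
    have hρs : ρ s = 0 := (hρ s).2 dvd_rfl
    have h0 : q.coeff 0 = 0 := by
      have h1 : ρ (aeval s q) = 0 := (hρ _).2 (dvd_trans (dvd_pow_self s (by omega)) h)
      rw [← Polynomial.aeval_algHom_apply, hρs] at h1
      simpa [Polynomial.aeval_def, Polynomial.eval₂_eq_eval_map, Polynomial.coeff_zero_eq_eval_zero]
        using h1
    have hq : q = X * q.divX := by
      conv_lhs => rw [← Polynomial.X_mul_divX_add q, h0]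
      simp
    have h2 : s ^ n ∣ aeval s q.divX := by
      rw [hq, map_mul, aeval_X, pow_succ'] at h
      exact (mul_dvd_mul_iff_left hs).1 h
    intro m hm
    rcases m with _ | m
    · exact h0
    · rw [← Polynomial.coeff_divX]
      exact ih h2 m (by omega)

theorem exp_unique {r : R} {ψ ψ' : PowerSeries k} (h : Exp s r ψ) (h' : Exp s r ψ') : ψ = ψ' := by
  ext n
  have h1 := dvd_sub (h' (n + 1)) (h (n + 1))
  have h2 : s ^ (n + 1) ∣ aeval s (PowerSeries.trunc (n + 1) ψ - PowerSeries.trunc (n + 1) ψ') := by
    rw [map_sub]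
    convert h1 using 1
    ring
  have h3 := aeval_dvd_unique hs ρ hρ h2 n (by omega)
  rw [Polynomial.coeff_sub, PowerSeries.coeff_trunc, PowerSeries.coeff_trunc, if_pos (by omega),
    if_pos (by omega), sub_eq_zero] at h3
  exact h3

theorem exp_exists (r : R) : ∃ ψ : PowerSeries k, Exp s r ψ := by
  classical
  have key : ∀ r : R, ∃ r' : R, r = algebraMap k R (ρ r) + s * r' := by
    intro r
    have : s ∣ r - algebraMap k R (ρ r) := by
      rw [← hρ, map_sub, AlgHom.commutes]
      simp
    obtain ⟨r', hr'⟩ := this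
    exact ⟨r', by rw [← hr']; ring⟩
  choose nx hnx using key
  let seq : ℕ → R := fun n => Nat.iterate nx n r
  have hseq : ∀ n, seq n = algebraMap k R (ρ (seq n)) + s * seq (n + 1) := by
    intro n
    have : seq (n + 1) = nx (seq n) := Function.iterate_succ_apply' nx n r
    rw [this]
    exact hnx (seq n)
  refine ⟨PowerSeries.mk fun n => ρ (seq n), ?_⟩
  intro n
  have : r = aeval s (PowerSeries.trunc n (PowerSeries.mk fun n => ρ (seq n))) + s ^ n * seq n := by
    induction n with
    | zero => simp [seq]
    | succ n ih =>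
      rw [PowerSeries.trunc_succ, map_add, PowerSeries.coeff_mk, Polynomial.aeval_monomial]
      conv_lhs => rw [ih, hseq n]
      ring
  refine ⟨seq n, ?_⟩
  conv_lhs => rw [this]
  ring

theorem digits :
    ∃ Ψ : R →ₐ[k] PowerSeries k, Ψ s = PowerSeries.X ∧
      (∀ r, PowerSeries.constantCoeff (Ψ r) = ρ r) := by
  classical
  choose ψ hψ using exp_exists hs ρ hρ
  have huniq : ∀ {r : R} {χ : PowerSeries k}, Exp s r χ → ψ r = χ :=
    fun {r χ} h => exp_unique hs ρ hρ (hψ r) h
  let Ψ : R →ₐ[k] PowerSeries k :=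
    { toFun := ψ
      map_one' := by
        apply huniq
        have := exp_algebraMap (R := R) (s := s) (1 : k)
        simpa using this
      map_mul' := fun a b => huniq (exp_mul (hψ a) (hψ b))
      map_zero' := by
        apply huniq
        have := exp_algebraMap (R := R) (s := s) (0 : k)
        simpa using this
      map_add' := fun a b => huniq (exp_add (hψ a) (hψ b))
      commutes' := fun a => huniq (exp_algebraMap a) }
  refine ⟨Ψ, huniq exp_X, ?_⟩
  intro r
  have h1 := hψ r 1
  rw [pow_one, ← hρ, map_sub, sub_eq_zero] at h1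
  have h2 : PowerSeries.trunc 1 (ψ r) = C (PowerSeries.constantCoeff (ψ r)) := by
    ext m
    rw [PowerSeries.coeff_trunc, Polynomial.coeff_C]
    split_ifs with h3 h4 h4
    · subst h4; simp
    · omega
    · omega
    · rfl
  rw [h2, aeval_C, AlgHom.commutes] at h1
  exact h1.symm

end digits

end FT80
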