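import Pool.Agent.FT80.InO
set_option maxSynthPendingDepth 10
set_option linter.unusedSectionVars false
open Polynomial
namespace FT80

variable {p : ℕ} [Fact p.Prime]

section compact
open scoped PowerSeries.WithPiTopology

/-- König's lemma / compactness of `F_p[[t]]`, in the form of a nested family of predicates -/
theorem compact_inter (B : ℕ → OO p → Prop)
    (hne : ∀ N, ∃ x, B N x)
    (hmono : ∀ N x, B (N + 1) x → B N x)
    (hloc : ∀ N x y, PowerSeries.X ^ N ∣ x - y → B N x → B N y) :
    ∃ x, ∀ N, B N x := by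
  let _ : TopologicalSpace (ZMod p) := ⊥
  have : DiscreteTopology (ZMod p) := ⟨rfl⟩
  have : CompactSpace (OO p) := by
    show CompactSpace ((Unit →₀ ℕ) → ZMod p)
    infer_instance
  have hclosed : ∀ N, IsClosed {x : OO p | B N x} := by
    intro N
    -- show the complement is open
    rw [← isOpen_compl_iff]
    have h2 : {x : OO p | B N x}ᶜ = ⋃ y ∈ {y : OO p | ¬ B N y},
        {x : OO p | ∀ m < N, PowerSeries.coeff m x = PowerSeries.coeff m y} := by
      ext x
      simp only [Set.mem_compl_iff, Set.mem_ofPred_eq, Set.mem_iUnion, exists_prop]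
      constructor
      · intro hx
        exact ⟨x, hx, fun m _ => rfl⟩
      · rintro ⟨y, hy, hxy⟩ hx
        apply hy
        apply hloc N x y _ hx
        rw [PowerSeries.X_pow_dvd_iff]
        intro m hm
        rw [map_sub, hxy m hm, sub_self]
    rw [h2]
    apply isOpen_biUnion
    intro y _
    have h3 : {x : OO p | ∀ m < N, PowerSeries.coeff m x = PowerSeries.coeff m y} =
        ⋂ m ∈ Finset.range N, {x : OO p | PowerSeries.coeff m x = PowerSeries.coeff m y} := by
      ext x
      simp
    rw [h3]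
    apply isOpen_biInter_finset
    intro m _
    exact (isOpen_discrete {PowerSeries.coeff m y}).preimage
      (PowerSeries.WithPiTopology.continuous_coeff (ZMod p) m)
  obtain ⟨x, hx⟩ := IsCompact.nonempty_iInter_of_sequence_nonempty_isCompact_isClosed
    (fun N => {x : OO p | B N x}) (fun N x hx => hmono N x hx)
    (fun N => hne N) (hclosed 0).isCompact hclosed
  exact ⟨x, fun N => Set.mem_iInter.1 hx N⟩

theorem compact_no_root (F : Polynomial (OO p)) (h : ∀ y : OO p, F.eval y ≠ 0) :
    ∃ N : ℕ, ∀ y : OO p, ¬ PowerSeries.X ^ N ∣ F.eval y := by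
  by_contra hcon
  push Not at hcon
  obtain ⟨x, hx⟩ := compact_inter (fun N x => PowerSeries.X ^ N ∣ F.eval x) hcon
    (fun N x hx => dvd_trans (pow_dvd_pow _ (by omega)) hx)
    (fun N x y hxy hx => by
      have h1 := dvd_trans hxy (Polynomial.sub_dvd_eval_sub x y F)
      have h2 := dvd_sub hx h1
      simpa using h2)
  exact h x (ps_eq_zero_of_dvd hx)

end compact

theorem rev_eval {k : Type*} [Field k] (q : Polynomial k) {x : k} (hx : x ≠ 0) :
    q.reverse.eval x⁻¹ * x ^ q.natDegree = q.eval x := by
  let _ := invertibleOfNonzero hx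
  have := Polynomial.eval₂_reverse_mul_pow (RingHom.id k) x q
  rw [invOf_eq_inv] at this
  exact this

/-- a polynomial over `K` without roots is bounded below on `K` -/
theorem no_root_bdd (q : Polynomial (KK p)) (hq : ∀ z : KK p, q.eval z ≠ 0) :
    ∃ N : ℕ, ∀ z : KK p, ¬ InO (TT p (-N) * q.eval z) := by
  -- on O
  have hO : ∀ q : Polynomial (KK p), (∀ z : OO p, q.eval (iK p z) ≠ 0) →
      ∃ N : ℕ, ∀ z : OO p, ¬ InO (TT p (-N) * q.eval (iK p z)) := by
    intro q hq
    obtain ⟨n, q', hq'⟩ := clear_poly q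
    have hev : ∀ z : OO p, iK p (q'.eval z) = TT p n * q.eval (iK p z) := by
      intro z
      rw [← Polynomial.eval_map_apply, hq', Polynomial.eval_mul, Polynomial.eval_C]
    obtain ⟨N, hN⟩ := compact_no_root q' (by
      intro z h0
      have h1 := hev z
      rw [h0, map_zero] at h1
      rcases mul_eq_zero.1 h1.symm with h2 | h2
      · exact TT_ne_zero _ h2
      · exact hq z h2)
    refine ⟨N, ?_⟩
    intro z hz
    apply hN z
    rw [← inO_TT_iff, hev, ← mul_assoc, mul_comm (TT p (-N)), mul_assoc]
    exact (InO.TT (by omega)).mul hz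
  obtain ⟨N₁, h₁⟩ := hO q (fun z => hq _)
  obtain ⟨N₂, h₂⟩ := hO q.reverse (by
    intro z h0
    rcases eq_or_ne z 0 with rfl | hz
    · rw [map_zero, ← Polynomial.coeff_zero_eq_eval_zero, Polynomial.coeff_zero_reverse] at h0
      have hq0 : q ≠ 0 := by
        rintro rfl
        exact hq 0 (by simp)
      exact hq0 (Polynomial.leadingCoeff_eq_zero.1 h0)
    · have hz' : iK p z ≠ 0 := by
        intro h
        exact hz (iK_injective (by rw [h, map_zero]))
      have h1 := rev_eval q (inv_ne_zero hz')
      rw [inv_inv, h0, zero_mul] at h1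
      exact hq _ h1.symm)
  refine ⟨max N₁ N₂, ?_⟩
  intro z hz
  by_cases hzO : InO z
  · obtain ⟨a, rfl⟩ := hzO
    exact h₁ a (InO.mono (by push_cast; omega) hz)
  · have hz0 : z ≠ 0 := by
      rintro rfl
      exact hzO InO.zero
    obtain ⟨a, ha⟩ := inO_or_inv z hzO
    apply h₂ a
    rw [ha]
    have h3 := rev_eval q hz0
    have h4 : q.reverse.eval z⁻¹ = q.eval z * (z⁻¹) ^ q.natDegree := by
      rw [← h3, mul_assoc, ← mul_pow, mul_inv_cancel₀ hz0, one_pow, mul_one]
    rw [h4, ← mul_assoc]
    apply InO.mul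
    · exact InO.mono (by push_cast; omega) hz
    · rw [← ha]
      exact (InO.iK a).pow _

end FT80
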