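import Pool.Agent.FT80.Theta
import Pool.Agent.FT80.Tools0
import Pool.Agent.FT80.Digits

/-!
# Tools: Hensel lemmas, compactness, digits
-/

set_option maxSynthPendingDepth 10

open Polynomial

namespace FT80

section hensel

variable {k : Type*} [Field k]

theorem ps_exists_order (D : PowerSeries k) (hD : D ≠ 0) :
    ∃ e : ℕ, PowerSeries.X ^ e ∣ D ∧ ¬ PowerSeries.X ^ (e + 1) ∣ D := by
  classical
  have hex : ∃ n, PowerSeries.coeff n D ≠ 0 := by
    by_contra h
    push Not at h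
    exact hD (PowerSeries.ext (fun n => by simpa using h n))
  refine ⟨Nat.find hex, ?_, ?_⟩
  · rw [PowerSeries.X_pow_dvd_iff]
    intro m hm
    have := Nat.find_min hex hm
    push Not at this
    exact this
  · rw [PowerSeries.X_pow_dvd_iff]
    intro h
    exact Nat.find_spec hex (h _ (Nat.lt_succ_self _))

theorem ps_isUnit_iff (u : PowerSeries k) : IsUnit u ↔ ¬ PowerSeries.X ∣ u := by
  rw [PowerSeries.isUnit_iff_constantCoeff, PowerSeries.X_dvd_iff, isUnit_iff_ne_zero]

theorem hensel_newton (F : Polynomial (PowerSeries k)) (a : PowerSeries k)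
    (ν : ℕ) (h0 : PowerSeries.X ^ (2 * ν + 1) ∣ F.eval a)
    (h1 : ¬ PowerSeries.X ^ (ν + 1) ∣ F.derivative.eval a) :
    ∃ z : PowerSeries k, F.eval z = 0 := by
  have hD : F.derivative.eval a ≠ 0 := by
    intro h
    rw [h] at h1
    exact h1 (dvd_zero _)
  obtain ⟨μ, hμ1, hμ2⟩ := ps_exists_order _ hD
  have hμν : μ ≤ ν := by
    by_contra h
    exact h1 (dvd_trans (pow_dvd_pow _ (by omega)) hμ1)
  obtain ⟨u, hu⟩ := hμ1
  have huu : IsUnit u := by
    rw [ps_isUnit_iff]
    rintro ⟨v, hv⟩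
    apply hμ2
    rw [hu, hv, pow_succ]
    exact ⟨v, by ring⟩
  set M : Polynomial (PowerSeries k) := F.comp (C (PowerSeries.X ^ μ) * X + C a) with hM
  have hMtay : M = (taylor a F).comp (C (PowerSeries.X ^ μ) * X) := by
    rw [taylor_apply, comp_assoc, hM]
    congr 1
    simp
  have hMc : ∀ i, M.coeff i = (taylor a F).coeff i * (PowerSeries.X ^ μ) ^ i := by
    intro i
    rw [hMtay, comp_C_mul_X_coeff]
  have hall : C (PowerSeries.X ^ (2 * μ)) ∣ M := by
    rw [C_dvd_iff_dvd_coeff]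
    intro i
    rw [hMc]
    rcases Nat.lt_or_ge i 2 with h2 | h2
    · interval_cases i
      · rw [taylor_coeff_zero, pow_zero, mul_one]
        exact dvd_trans (pow_dvd_pow _ (by omega)) h0
      · rw [taylor_coeff_one, hu, pow_one, two_mul, pow_add]
        exact ⟨u, by ring⟩
    · refine Dvd.dvd.mul_left ?_ _
      rw [← pow_mul]
      exact pow_dvd_pow _ (by nlinarith)
  obtain ⟨G, hG⟩ := hall
  have hX : (PowerSeries.X : PowerSeries k) ^ (2 * μ) ≠ 0 := pow_ne_zero _ PowerSeries.X_ne_zero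
  have hGc : ∀ i, M.coeff i = PowerSeries.X ^ (2 * μ) * G.coeff i := by
    intro i
    rw [hG, coeff_C_mul]
  obtain ⟨z, _, hz⟩ := hensel_ps G (by
      rw [← coeff_zero_eq_eval_zero]
      have h2 := hGc 0
      rw [hMc, taylor_coeff_zero, pow_zero, mul_one] at h2
      rw [h2, show 2 * ν + 1 = 2 * μ + (2 * (ν - μ) + 1) by omega, pow_add] at h0
      have h3 := (mul_dvd_mul_iff_left hX).1 h0
      exact dvd_trans (dvd_pow_self _ (by omega)) h3) (by
      rw [← coeff_zero_eq_eval_zero, coeff_derivative]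
      have h2 := hGc 1
      rw [hMc, taylor_coeff_one, pow_one, hu, two_mul, pow_add] at h2
      have h3 : G.coeff 1 = u := by
        have h4 : (PowerSeries.X ^ μ * PowerSeries.X ^ μ) * u =
            (PowerSeries.X ^ μ * PowerSeries.X ^ μ) * G.coeff 1 := by
          rw [← h2]; ring
        have h5 : (PowerSeries.X ^ μ * PowerSeries.X ^ μ : PowerSeries k) ≠ 0 := by
          rw [← pow_add]
          exact pow_ne_zero _ PowerSeries.X_ne_zero
        exact (mul_left_cancel₀ h5 h4).symm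
      simpa [h3] using huu)
  refine ⟨PowerSeries.X ^ μ * z + a, ?_⟩
  have h2 := congrArg (eval z) hG
  rw [hM, eval_comp, eval_mul, hz, mul_zero, eval_add, eval_mul, eval_C, eval_C, eval_X] at h2
  exact h2

end hensel

section compact

variable {p : ℕ} [hp : Fact p.Prime]

theorem ultra_limit (U : Ultrafilter ℕ) (z : ℕ → OO p) :
    ∃ κ : OO p, ∀ N : ℕ, ∀ᶠ l in (U : Filter ℕ), PowerSeries.X ^ N ∣ z l - κ := by
  have hex : ∀ n, ∃ c : ZMod p, ∀ᶠ l in (U : Filter ℕ), PowerSeries.coeff n (z l) = c := by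
    intro n
    obtain ⟨c, hc⟩ := Ultrafilter.eq_pure_of_finite (U.map (fun l => PowerSeries.coeff n (z l)))
    refine ⟨c, ?_⟩
    have h1 : ({c} : Set (ZMod p)) ∈ U.map (fun l => PowerSeries.coeff n (z l)) := by
      rw [hc]
      exact Ultrafilter.mem_pure.2 rfl
    exact h1
  choose c hc using hex
  refine ⟨PowerSeries.mk c, fun N => ?_⟩
  have h1 : ∀ᶠ l in (U : Filter ℕ), ∀ n ∈ Finset.range N, PowerSeries.coeff n (z l) = c n :=
    (Finset.range N).eventually_all.2 (fun n _ => hc n)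
  filter_upwards [h1] with l hl
  rw [PowerSeries.X_pow_dvd_iff]
  intro m hm
  rw [map_sub, PowerSeries.coeff_mk, hl m (Finset.mem_range.2 hm), sub_self]

theorem exists_limit (z : ℕ → OO p) :
    ∃ κ : OO p, ∀ N M : ℕ, ∃ l, M ≤ l ∧ PowerSeries.X ^ N ∣ z l - κ := by
  obtain ⟨κ, hκ⟩ := ultra_limit (Filter.hyperfilter ℕ) z
  refine ⟨κ, fun N M => ?_⟩
  have h1 : ∀ᶠ l in (Filter.hyperfilter ℕ : Filter ℕ), M ≤ l := by
    refine Filter.Eventually.filter_mono (Nat.hyperfilter_le_atTop) ?_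
    exact Filter.eventually_ge_atTop M
  obtain ⟨l, hl⟩ := (h1.and (hκ N)).exists
  exact ⟨l, hl⟩

theorem compact_cover (G : ℕ → OO p → Prop)
    (h : ∀ ξ : OO p, ∃ N₀ : ℕ, ∀ N ≥ N₀, ∀ x : OO p, PowerSeries.X ^ N₀ ∣ x - ξ → G N x) :
    ∃ N : ℕ, ∀ x : OO p, G N x := by
  by_contra hne
  push Not at hne
  choose x hx using hne
  obtain ⟨κ, hκ⟩ := exists_limit x
  obtain ⟨N₀, hN₀⟩ := h κ
  obtain ⟨l, hl, hl'⟩ := hκ N₀ N₀
  exact hx l (hN₀ l hl _ hl')

theorem exists_code (N : ℕ) : ∀ d : ℕ → ZMod p, ∃ a < p ^ N, ∀ i < N,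
    ((a / p ^ i : ℕ) : ZMod p) = d i := by
  induction N with
  | zero => exact fun d => ⟨0, by simp, fun i hi => absurd hi (by omega)⟩
  | succ N ih =>
    intro d
    obtain ⟨a, ha, ha'⟩ := ih (fun i => d (i + 1))
    haveI : NeZero p := ⟨hp.out.ne_zero⟩
    have hv : (d 0).val < p := ZMod.val_lt _
    refine ⟨(d 0).val + p * a, ?_, ?_⟩
    · rw [pow_succ]
      have : a + 1 ≤ p ^ N := ha
      calc (d 0).val + p * a < p + p * a := by omega
        _ = (a + 1) * p := by ring
        _ ≤ p ^ N * p := Nat.mul_le_mul_right p this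
    · intro i hi
      cases i with
      | zero =>
        rw [pow_zero, Nat.div_one]
        push_cast
        rw [ZMod.natCast_self, zero_mul, add_zero, ZMod.natCast_zmod_val]
      | succ i =>
        have h1 : ((d 0).val + p * a) / p ^ (i + 1) = a / p ^ i := by
          rw [pow_succ', ← Nat.div_div_eq_div_mul, Nat.add_mul_div_left _ _ hp.out.pos,
            Nat.div_eq_of_lt hv, zero_add]
        rw [h1]
        exact ha' i (by omega)

theorem coeff_polyN (N a n : ℕ) :
    (polyN p N a).coeff n = if n < N then ((a / p ^ n : ℕ) : ZMod p) else 0 := by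
  unfold polyN
  rw [finset_sum_coeff]
  simp only [coeff_C_mul_X_pow]
  rw [Finset.sum_ite_eq]
  simp only [Finset.mem_range]

theorem exists_polyN (x : OO p) (N : ℕ) :
    ∃ a < p ^ N, PowerSeries.X ^ N ∣ x - tau p (polyN p N a) := by
  obtain ⟨a, ha, ha'⟩ := exists_code N (fun i => PowerSeries.coeff i x)
  refine ⟨a, ha, ?_⟩
  rw [PowerSeries.X_pow_dvd_iff]
  intro m hm
  rw [map_sub, tau_coeff, coeff_polyN, if_pos hm, ha' m hm, sub_self]

end compact

end FT80
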