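import Pool.Agent.FT80.CodeRing

/-!
# Functions into coded rings with a primitive recursive lift
-/

set_option maxSynthPendingDepth 10

open Polynomial

namespace FT80

open CodeRing

section cod

variable {Γ Δ : Type*} [Primcodable Γ] [Primcodable Δ]
variable {R S : Type} [CommRing R] [CommRing S] [CodeRing R] [CodeRing S]

/-- The function `f : Γ → R` has a primitive recursive lift to codes. -/
def Cod (f : Γ → R) : Prop := ∃ g : Γ → Code R, Primrec g ∧ ∀ x, val (g x) = f x

theorem Cod.of_eq {f g : Γ → R} (hf : Cod f) (h : ∀ x, f x = g x) : Cod g := by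
  obtain ⟨c, hc, h1⟩ := hf
  exact ⟨c, hc, fun x => (h1 x).trans (h x)⟩

/-- change of the context -/
theorem Cod.comp {f : Δ → R} (hf : Cod f) {g : Γ → Δ} (hg : Primrec g) :
    Cod fun x => f (g x) := by
  obtain ⟨c, hc, h⟩ := hf
  exact ⟨fun x => c (g x), hc.comp hg, fun x => h _⟩

theorem Cod.val {g : Γ → Code R} (hg : Primrec g) : Cod fun x => (val (g x) : R) :=
  ⟨g, hg, fun _ => rfl⟩

theorem Cod.const (r : R) : Cod fun _ : Γ => r := by
  obtain ⟨c, hc⟩ := surj r
  exact ⟨fun _ => c, Primrec.const c, fun _ => hc⟩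

/-- application of a function which has a lift in all variables -/
theorem Cod.app {F : Γ → R → S} (hF : Cod fun z : Γ × Code R => F z.1 (CodeRing.val z.2))
    {f : Γ → R} (hf : Cod f) : Cod fun x => F x (f x) := by
  obtain ⟨c, hc, h⟩ := hF
  obtain ⟨d, hd, h'⟩ := hf
  refine ⟨fun x => c (x, d x), hc.comp (Primrec.id.pair hd), fun x => ?_⟩
  rw [h]
  exact congrArg (F x) (h' x)

theorem Cod.add {f g : Γ → R} (hf : Cod f) (hg : Cod g) : Cod fun x => f x + g x := by
  obtain ⟨c, hc, h⟩ := hf
  obtain ⟨d, hd, h'⟩ := hg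
  exact ⟨fun x => CodeRing.add (c x) (d x), add_prim.comp hc hd, fun x => by
    rw [val_add, h, h']⟩

theorem Cod.mul {f g : Γ → R} (hf : Cod f) (hg : Cod g) : Cod fun x => f x * g x := by
  obtain ⟨c, hc, h⟩ := hf
  obtain ⟨d, hd, h'⟩ := hg
  exact ⟨fun x => CodeRing.mul (c x) (d x), mul_prim.comp hc hd, fun x => by
    rw [val_mul, h, h']⟩

theorem Cod.neg {f : Γ → R} (hf : Cod f) : Cod fun x => -f x := by
  obtain ⟨c, hc, h⟩ := hf
  exact ⟨fun x => CodeRing.neg (c x), neg_prim.comp hc, fun x => by rw [val_neg, h]⟩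

theorem Cod.sub {f g : Γ → R} (hf : Cod f) (hg : Cod g) : Cod fun x => f x - g x :=
  (hf.add hg.neg).of_eq fun _ => (sub_eq_add_neg _ _).symm

theorem Cod.pow {f : Γ → R} (hf : Cod f) {n : Γ → ℕ} (hn : Primrec n) :
    Cod fun x => f x ^ n x := by
  obtain ⟨c, hc, h⟩ := hf
  refine ⟨fun x => Nat.rec (one (R := R)) (fun _ acc => CodeRing.mul acc (c x)) (n x), ?_,
    fun x => ?_⟩
  · exact Primrec.nat_rec' (h := fun (x : Γ) (w : ℕ × Code R) => CodeRing.mul w.2 (c x)) hn
      (Primrec.const _) (mul_prim.comp (Primrec.snd.comp Primrec.snd) (hc.comp Primrec.fst))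
  · beta_reduce
    generalize n x = m
    induction m with
    | zero => simpa using val_one (R := R)
    | succ m ih =>
      rw [pow_succ, ← ih, ← h]
      exact val_mul _ _

theorem Cod.natCast {n : Γ → ℕ} (hn : Primrec n) : Cod fun x => ((n x : ℕ) : R) := by
  refine ⟨fun x => Nat.rec (zero (R := R)) (fun _ acc => CodeRing.add acc (one (R := R))) (n x),
    ?_, fun x => ?_⟩
  · exact Primrec.nat_rec' (h := fun (_ : Γ) (w : ℕ × Code R) =>
      CodeRing.add w.2 (one (R := R))) hn
      (Primrec.const _) (add_prim.comp (Primrec.snd.comp Primrec.snd) (Primrec.const _))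
  · beta_reduce
    generalize n x = m
    induction m with
    | zero => simpa using val_zero (R := R)
    | succ m ih =>
      rw [Nat.cast_succ, ← ih, ← val_one]
      exact val_add _ _

theorem Cod.ite {P : Γ → Prop} [DecidablePred P] (hP : PrimrecPred P) {f g : Γ → R}
    (hf : Cod f) (hg : Cod g) : Cod fun x => if P x then f x else g x := by
  obtain ⟨c, hc, h⟩ := hf
  obtain ⟨d, hd, h'⟩ := hg
  refine ⟨fun x => if P x then c x else d x, Primrec.ite hP hc hd, fun x => ?_⟩
  by_cases hx : P x
  · simp only [if_pos hx, h]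
  · simp only [if_neg hx, h']

/-! ### polynomials -/

theorem Cod.C {f : Γ → R} (hf : Cod f) : Cod fun x => (Polynomial.C (f x) : Polynomial R) := by
  obtain ⟨c, hc, h⟩ := hf
  refine ⟨fun x => [c x], Primrec.list_cons.comp hc (Primrec.const []), fun x => ?_⟩
  change vList (CodeRing.val (R := R)) [c x] = _
  rw [vList_cons, vList_nil, h]
  simp

theorem Cod.X : Cod fun _ : Γ => (Polynomial.X : Polynomial R) := Cod.const _

/-- evaluation, along a ring homomorphism which may depend on the context -/
theorem Cod.eval₂ {σ : Γ → R →+* S} (hσ : Cod fun z : Γ × Code R => σ z.1 (CodeRing.val z.2))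
    {x : Γ → S} (hx : Cod x) {f : Γ → Polynomial R} (hf : Cod f) :
    Cod fun z => Polynomial.eval₂ (σ z) (x z) (f z) := by
  obtain ⟨s, hs, h1⟩ := hσ
  obtain ⟨c, hc, h2⟩ := hx
  obtain ⟨d, hd, h3⟩ := hf
  refine ⟨fun z => (d z : List (Code R)).foldr
    (fun a acc => CodeRing.add (s (z, a)) (CodeRing.mul (c z) acc)) (zero (R := S)), ?_, fun z => ?_⟩
  · refine Primrec.list_foldr (h := fun (z : Γ) (w : Code R × Code S) =>
      CodeRing.add (s (z, w.1)) (CodeRing.mul (c z) w.2)) hd (Primrec.const _) ?_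
    exact add_prim.comp (hs.comp (Primrec.fst.pair (Primrec.fst.comp Primrec.snd)))
      (mul_prim.comp (hc.comp Primrec.fst) (Primrec.snd.comp Primrec.snd))
  · beta_reduce at h1 ⊢
    rw [← h3]
    change _ = Polynomial.eval₂ (σ z) (x z) (vList (CodeRing.val (R := R)) (d z : List (Code R)))
    generalize (d z : List (Code R)) = l
    induction l with
    | nil =>
      rw [vList_nil, eval₂_zero]
      exact val_zero (R := S)
    | cons a l ih =>
      rw [List.foldr_cons, val_add, val_mul, ih, h1, h2, vList_cons, eval₂_add, eval₂_C, eval₂_mul,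
        eval₂_X]

theorem Cod.eval {x : Γ → R} (hx : Cod x) {f : Γ → Polynomial R} (hf : Cod f) :
    Cod fun z => Polynomial.eval (x z) (f z) :=
  Cod.eval₂ (σ := fun _ => RingHom.id R) (Cod.val Primrec.snd) hx hf

theorem Cod.map {σ : Γ → R →+* S} (hσ : Cod fun z : Γ × Code R => σ z.1 (CodeRing.val z.2))
    {f : Γ → Polynomial R} (hf : Cod f) : Cod fun z => Polynomial.map (σ z) (f z) :=
  Cod.eval₂ (σ := fun z => (Polynomial.C : S →+* Polynomial S).comp (σ z)) hσ.C Cod.X hf

theorem Cod.coeff {f : Γ → Polynomial R} (hf : Cod f) {n : Γ → ℕ} (hn : Primrec n) :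
    Cod fun x => (f x).coeff (n x) := by
  obtain ⟨c, hc, h⟩ := hf
  refine ⟨fun x => (c x : List (Code R)).getD (n x) (zero (R := R)),
    (Primrec.list_getD (zero (R := R))).comp hc hn, fun x => ?_⟩
  beta_reduce
  rw [val_getD, ← vList_coeff, ← h]
  rfl

theorem Cod.derivative {f : Γ → Polynomial R} (hf : Cod f) :
    Cod fun x => Polynomial.derivative (f x) := by
  obtain ⟨c, hc, h⟩ := hf
  let st : Code R → List (Code R) × List (Code R) → List (Code R) × List (Code R) :=
    fun a w => (a :: w.1, addL R w.1 ((zero (R := R)) :: w.2))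
  have hst : ∀ l : List (Code R), (l.foldr st ([], [])).1 = l ∧
      vList (CodeRing.val (R := R)) (l.foldr st ([], [])).2 =
        Polynomial.derivative (vList (CodeRing.val (R := R)) l) := by
    intro l
    induction l with
    | nil => exact ⟨rfl, by simp [vList_nil]⟩
    | cons a l ih =>
      rw [List.foldr_cons]
      refine ⟨congrArg (a :: ·) ih.1, ?_⟩
      change vList _ (addL R _ _) = _
      rw [val_addL, ih.1, vList_cons, vList_cons, ih.2, val_zero]
      simp
  refine ⟨fun x => ((c x : List (Code R)).foldr st ([], [])).2, ?_, fun x => ?_⟩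
  · refine Primrec.snd.comp (Primrec.list_foldr (h := fun (_ : Γ)
      (w : Code R × List (Code R) × List (Code R)) => st w.1 w.2) hc (Primrec.const ([], [])) ?_)
    have h1 : Primrec fun z : Γ × (Code R × List (Code R) × List (Code R)) => z.2.2.1 :=
      Primrec.fst.comp (Primrec.snd.comp Primrec.snd)
    have h2 : Primrec fun z : Γ × (Code R × List (Code R) × List (Code R)) => z.2.2.2 :=
      Primrec.snd.comp (Primrec.snd.comp Primrec.snd)
    exact (Primrec.list_cons.comp (Primrec.fst.comp Primrec.snd) h1).pair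
      (addL_prim.comp h1 (Primrec.list_cons.comp (Primrec.const _) h2))
  · beta_reduce
    rw [← h]
    exact (hst (c x)).2

/-- a polynomial given by a list of codes of the coefficients which depends on the context -/
theorem Cod.vList {g : Γ → List (Code R)} (hg : Primrec g) :
    Cod fun x => FT80.vList (CodeRing.val (R := R)) (g x) :=
  ⟨g, hg, fun _ => rfl⟩

/-- the sum `∑ i < N, f i X ^ i` -/
theorem Cod.sum_range {N : Γ → ℕ} (hN : Primrec N) {f : Γ → ℕ → R}
    (hf : Cod fun z : Γ × ℕ => f z.1 z.2) :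
    Cod fun x => ∑ i ∈ Finset.range (N x), Polynomial.C (f x i) * Polynomial.X ^ i := by
  obtain ⟨c, hc, h⟩ := hf
  refine ⟨fun x => (List.range (N x)).map fun i => c (x, i),
    Primrec.list_map (Primrec.list_range.comp hN) hc, fun x => ?_⟩
  change FT80.vList _ _ = _
  ext n
  rw [vList_coeff, List.map_map, List.getD_eq_getElem?_getD, List.getElem?_map, finsetSum_coeff]
  simp only [coeff_C_mul, coeff_X_pow, mul_ite, mul_one, mul_zero]
  rw [Finset.sum_ite_eq]
  by_cases hn : n < N x
  · rw [List.getElem?_range hn, if_pos (Finset.mem_range.2 hn)]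
    exact h (x, n)
  · have h1 : (List.range (N x))[n]? = none := by
      rw [List.getElem?_eq_none_iff, List.length_range]
      exact not_lt.1 hn
    rw [h1, if_neg (by simpa using hn)]
    rfl

/-! ### equality, existence -/

theorem RE.eq {f g : Γ → R} (hf : Cod f) (hg : Cod g) : RE fun x => f x = g x := by
  obtain ⟨c, hc, h⟩ := hf.sub hg
  refine (RE.of_bool (isZero_prim.comp hc).to_comp).of_iff fun x => ?_
  rw [isZero_iff, h, sub_eq_zero]

theorem RE.ne {f g : Γ → R} (hf : Cod f) (hg : Cod g) : RE fun x => f x ≠ g x := by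
  obtain ⟨c, hc, h⟩ := hf.sub hg
  refine (RE.of_bool (Primrec.not.comp (isZero_prim.comp hc)).to_comp).of_iff fun x => ?_
  rw [Bool.not_eq_true', ← Bool.not_eq_true, isZero_iff, h, sub_eq_zero]

/-- existence of an element of a coded ring -/
theorem RE.existsR {P : Γ → R → Prop} (h : RE fun z : Γ × Code R => P z.1 (CodeRing.val z.2)) :
    RE fun x => ∃ r, P x r := by
  refine (RE.exists (P := fun x (c : Code R) => P x (CodeRing.val c)) h).of_iff fun x => ?_
  constructor
  · rintro ⟨r, hr⟩
    obtain ⟨c, rfl⟩ := surj r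
    exact ⟨c, hr⟩
  · rintro ⟨c, hc⟩
    exact ⟨_, hc⟩

end cod

end FT80
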