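import Pool.Agent.FT80.Defs

/-!
# Codes for polynomial rings and closure properties of recursively enumerable predicates

* `CodeRing R`: the elements of `R` have codes in a primitive recursive type, with primitive
  recursive ring operations and equality.  Instances: `ZMod p`, `Polynomial R`.
* `Cod f`: the function `f : Γ → R` has a primitive recursive lift to codes.
* `RE P`: `P x` iff there is a number `n` with `f x n = true`, `f` computable.
-/

set_option maxSynthPendingDepth 10

open Polynomial

namespace FT80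

/-! ### Recursively enumerable predicates -/

section re

variable {Γ : Type*} {β : Type*} [Primcodable Γ] [Primcodable β]

/-- `P` is the projection of a computable predicate. -/
def RE (P : Γ → Prop) : Prop :=
  ∃ f : Γ → ℕ → Bool, Computable₂ f ∧ ∀ x, P x ↔ ∃ n, f x n = true

theorem RE.re {P : Γ → Prop} (h : RE P) : REPred P := by
  obtain ⟨f, hf, hP⟩ := h
  have h1 : Partrec fun x => Nat.rfind fun n => (Part.some (f x n) : Part Bool) :=
    Partrec.rfind hf.partrec
  refine h1.dom_re.of_eq fun x => ?_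
  rw [hP]
  refine Nat.rfind_dom.trans ?_
  constructor
  · rintro ⟨n, hn, -⟩
    exact ⟨n, (Part.mem_some_iff.1 hn).symm⟩
  · rintro ⟨n, hn⟩
    exact ⟨n, Part.mem_some_iff.2 hn.symm, fun _ => trivial⟩

theorem RE.of_iff {P Q : Γ → Prop} (h : RE P) (hPQ : ∀ x, Q x ↔ P x) : RE Q := by
  obtain ⟨f, hf, hP⟩ := h
  exact ⟨f, hf, fun x => (hPQ x).trans (hP x)⟩

theorem RE.of_bool {f : Γ → Bool} (hf : Computable f) : RE fun x => f x = true :=
  ⟨fun x _ => f x, (hf.comp Computable.fst).to₂, fun _ => ⟨fun h => ⟨0, h⟩, fun ⟨_, h⟩ => h⟩⟩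

theorem RE.of_pred {P : Γ → Prop} (hP : PrimrecPred P) : RE P := by
  obtain ⟨_, h⟩ := hP
  exact (RE.of_bool h.to_comp).of_iff fun x => (decide_eq_true_iff).symm

/-- change of the context -/
theorem RE.comp {P : β → Prop} (h : RE P) {g : Γ → β} (hg : Primrec g) : RE fun x => P (g x) := by
  obtain ⟨f, hf, hP⟩ := h
  exact ⟨fun x n => f (g x) n, hf.comp (hg.to_comp.comp Computable.fst) Computable.snd,
    fun x => hP (g x)⟩

theorem RE.exists {P : Γ → β → Prop} (h : RE fun z : Γ × β => P z.1 z.2) :
    RE fun x => ∃ b, P x b := by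
  obtain ⟨f, hf, hP⟩ := h
  refine ⟨fun x n => Option.casesOn (Encodable.decode (α := β) n.unpair.1) false
    fun b => f (x, b) n.unpair.2, ?_, ?_⟩
  · refine Computable.option_casesOn
      (Computable.decode.comp (Computable.fst.comp (Computable.unpair.comp Computable.snd)))
      (Computable.const false) ?_
    exact hf.comp ((Computable.fst.comp Computable.fst).pair Computable.snd)
      (Computable.snd.comp (Computable.unpair.comp (Computable.snd.comp Computable.fst)))
  · intro x
    constructor
    · rintro ⟨b, hb⟩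
      obtain ⟨n, hn⟩ := (hP (x, b)).1 hb
      refine ⟨Nat.pair (Encodable.encode b) n, ?_⟩
      simp only [Nat.unpair_pair, Encodable.encodek]
      exact hn
    · rintro ⟨n, hn⟩
      cases hd : (Encodable.decode (α := β) n.unpair.1) with
      | none => simp only [hd] at hn; exact absurd hn (by simp)
      | some b =>
        simp only [hd] at hn
        exact ⟨b, (hP (x, b)).2 ⟨_, hn⟩⟩

theorem RE.and {P Q : Γ → Prop} (hP : RE P) (hQ : RE Q) : RE fun x => P x ∧ Q x := by
  obtain ⟨f, hf, hP⟩ := hP
  obtain ⟨g, hg, hQ⟩ := hQ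
  refine ⟨fun x n => f x n.unpair.1 && g x n.unpair.2, ?_, fun x => ?_⟩
  · exact Primrec.and.to_comp.comp
      (hf.comp Computable.fst (Computable.fst.comp (Computable.unpair.comp Computable.snd)))
      (hg.comp Computable.fst (Computable.snd.comp (Computable.unpair.comp Computable.snd)))
  · beta_reduce
    rw [hP, hQ]
    constructor
    · rintro ⟨⟨a, ha⟩, ⟨b, hb⟩⟩
      exact ⟨Nat.pair a b, by simp [ha, hb]⟩
    · rintro ⟨n, hn⟩
      rw [Bool.and_eq_true] at hn
      exact ⟨⟨_, hn.1⟩, ⟨_, hn.2⟩⟩

theorem RE.or {P Q : Γ → Prop} (hP : RE P) (hQ : RE Q) : RE fun x => P x ∨ Q x := by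
  obtain ⟨f, hf, hP⟩ := hP
  obtain ⟨g, hg, hQ⟩ := hQ
  refine ⟨fun x n => f x n || g x n, ?_, fun x => ?_⟩
  · exact Primrec.or.to_comp.comp hf hg
  · beta_reduce
    rw [hP, hQ]
    constructor
    · rintro (⟨a, ha⟩ | ⟨b, hb⟩)
      · exact ⟨a, by simp [ha]⟩
      · exact ⟨b, by simp [hb]⟩
    · rintro ⟨n, hn⟩
      rw [Bool.or_eq_true] at hn
      exact hn.imp (fun h => ⟨_, h⟩) (fun h => ⟨_, h⟩)

/-- bounded search -/
def srch (f : ℕ → Bool) (B : ℕ) : Bool := Nat.rec false (fun n acc => acc || f n) B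

theorem srch_iff (f : ℕ → Bool) (B : ℕ) : srch f B = true ↔ ∃ n < B, f n = true := by
  induction B with
  | zero => simp [srch]
  | succ B ih =>
    have : srch f (B + 1) = (srch f B || f B) := rfl
    rw [this, Bool.or_eq_true, ih]
    constructor
    · rintro (⟨n, hn, h⟩ | h)
      · exact ⟨n, by omega, h⟩
      · exact ⟨B, by omega, h⟩
    · rintro ⟨n, hn, h⟩
      rcases Nat.lt_succ_iff_lt_or_eq.1 hn with h1 | rfl
      · exact Or.inl ⟨n, h1, h⟩
      · exact Or.inr h

/-- bounded conjunction -/
def ball (f : ℕ → Bool) (B : ℕ) : Bool := Nat.rec true (fun n acc => acc && f n) B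

theorem ball_iff (f : ℕ → Bool) (B : ℕ) : ball f B = true ↔ ∀ n < B, f n = true := by
  induction B with
  | zero => simp [ball]
  | succ B ih =>
    have : ball f (B + 1) = (ball f B && f B) := rfl
    rw [this, Bool.and_eq_true, ih]
    constructor
    · rintro ⟨h1, h2⟩ n hn
      rcases Nat.lt_succ_iff_lt_or_eq.1 hn with h | rfl
      · exact h1 n h
      · exact h2
    · intro h
      exact ⟨fun n hn => h n (by omega), h B (by omega)⟩

theorem RE.forall_lt {P : Γ → ℕ → Prop} (h : RE fun z : Γ × ℕ => P z.1 z.2) {N : Γ → ℕ}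
    (hN : Primrec N) : RE fun x => ∀ a < N x, P x a := by
  obtain ⟨f, hf, hP⟩ := h
  refine ⟨fun x B => ball (fun a => srch (fun n => f (x, a) n) B) (N x), ?_, fun x => ?_⟩
  · unfold ball
    have h1 : Computable fun z : ((Γ × ℕ) × ℕ × Bool) × ℕ × Bool =>
        f (z.1.1.1, z.1.2.1) z.2.1 :=
      hf.comp ((Computable.fst.comp (Computable.fst.comp Computable.fst)).pair
        (Computable.fst.comp (Computable.snd.comp Computable.fst)))
        (Computable.fst.comp Computable.snd)
    have h2 : Computable fun z : ((Γ × ℕ) × ℕ × Bool) =>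
        srch (fun n => f (z.1.1, z.2.1) n) z.1.2 := by
      unfold srch
      refine Computable.nat_rec (h := fun (z : (Γ × ℕ) × ℕ × Bool) (w : ℕ × Bool) =>
        w.2 || f (z.1.1, z.2.1) w.1)
        (Computable.snd.comp Computable.fst) (Computable.const false) ?_
      exact Primrec.or.to_comp.comp (Computable.snd.comp Computable.snd) h1
    refine Computable.nat_rec (h := fun (z : Γ × ℕ) (w : ℕ × Bool) =>
      w.2 && srch (fun n => f (z.1, w.1) n) z.2)
      (hN.to_comp.comp Computable.fst) (Computable.const true) ?_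
    exact Primrec.and.to_comp.comp (Computable.snd.comp Computable.snd) h2
  · simp only [ball_iff, srch_iff]
    constructor
    · intro h
      have h1 : ∀ a, ∃ n, a < N x → f (x, a) n = true := by
        intro a
        by_cases ha : a < N x
        · obtain ⟨n, hn⟩ := (hP (x, a)).1 (h a ha)
          exact ⟨n, fun _ => hn⟩
        · exact ⟨0, fun h' => absurd h' ha⟩
      choose m hm using h1
      refine ⟨(Finset.range (N x)).sup m + 1, fun a ha => ⟨m a, ?_, hm a ha⟩⟩
      exact Nat.lt_succ_of_le (Finset.le_sup (f := m) (Finset.mem_range.2 ha))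
    · rintro ⟨B, hB⟩ a ha
      obtain ⟨n, -, hn⟩ := hB a ha
      exact (hP (x, a)).2 ⟨n, hn⟩

/-- There is an element of a list with a given property. -/
theorem RE.exists_mem {P : Γ → β → Prop} (h : RE fun z : Γ × β => P z.1 z.2) {L : Γ → List β}
    (hL : Primrec L) : RE fun x => ∃ b ∈ L x, P x b := by
  classical
  have h1 : RE fun x => ∃ b, (∃ i : ℕ, (L x)[i]? = some b) ∧ P x b := by
    have h2 : PrimrecPred fun z : (Γ × β) × ℕ => (L z.1.1)[z.2]? = some z.1.2 :=
      Primrec.eq.comp (Primrec.list_getElem?.comp (hL.comp (Primrec.fst.comp Primrec.fst))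
        Primrec.snd) (Primrec.option_some.comp (Primrec.snd.comp Primrec.fst))
    have h3 : RE fun z : Γ × β => ∃ i : ℕ, (L z.1)[i]? = some z.2 :=
      RE.exists (P := fun (z : Γ × β) (i : ℕ) => (L z.1)[i]? = some z.2) (RE.of_pred h2)
    exact RE.exists (P := fun x b => (∃ i : ℕ, (L x)[i]? = some b) ∧ P x b) (h3.and h)
  refine h1.of_iff fun x => ?_
  simp only [← List.mem_iff_getElem?]

/-- All elements of a list have a given property. -/
theorem RE.forall_mem {P : Γ → β → Prop} (h : RE fun z : Γ × β => P z.1 z.2) {L : Γ → List β}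
    (hL : Primrec L) : RE fun x => ∀ b ∈ L x, P x b := by
  classical
  have h1 : RE fun x => ∀ i < (L x).length, ∃ b, (L x)[i]? = some b ∧ P x b := by
    have h2 : PrimrecPred fun z : (Γ × ℕ) × β => (L z.1.1)[z.1.2]? = some z.2 :=
      Primrec.eq.comp (Primrec.list_getElem?.comp (hL.comp (Primrec.fst.comp Primrec.fst))
        (Primrec.snd.comp Primrec.fst)) (Primrec.option_some.comp Primrec.snd)
    have h3 : RE fun z : (Γ × ℕ) × β => P z.1.1 z.2 :=
      h.comp (g := fun z : (Γ × ℕ) × β => (z.1.1, z.2))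
        (Primrec.pair (Primrec.fst.comp Primrec.fst) Primrec.snd)
    have h4 : RE fun z : Γ × ℕ => ∃ b, (L z.1)[z.2]? = some b ∧ P z.1 b :=
      RE.exists (P := fun (z : Γ × ℕ) b => (L z.1)[z.2]? = some b ∧ P z.1 b)
        ((RE.of_pred h2).and h3)
    exact RE.forall_lt (P := fun x i => ∃ b, (L x)[i]? = some b ∧ P x b) h4
      (Primrec.list_length.comp hL)
  refine h1.of_iff fun x => ?_
  constructor
  · intro h i hi
    exact ⟨(L x)[i], List.getElem?_eq_getElem hi, h _ (List.getElem_mem hi)⟩
  · intro h b hb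
    obtain ⟨i, hi, rfl⟩ := List.getElem_of_mem hb
    obtain ⟨b', hb', hP⟩ := h i hi
    rw [List.getElem?_eq_getElem hi] at hb'
    obtain rfl := Option.some.inj hb'
    exact hP

end re

end FT80
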