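import Pool.Agent.FT80.Code

/-!
# Coded rings

* `CodeRing R`: the elements of `R` have codes in a primitive recursive type, with primitive
  recursive ring operations and equality.  Instances: `ZMod p`, `Polynomial R`.
* `Cod f`: the function `f : Γ → R` has a primitive recursive lift to codes.
-/

set_option maxSynthPendingDepth 10

open Polynomial

namespace FT80

/-- A commutative ring whose elements have codes, with primitive recursive operations. -/
class CodeRing (R : Type) [CommRing R] where
  Code : Type
  prim : Primcodable Code
  val : Code → R
  surj : Function.Surjective val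
  zero : Code
  one : Code
  add : Code → Code → Code
  neg : Code → Code
  mul : Code → Code → Code
  isZero : Code → Bool
  val_zero : val zero = 0
  val_one : val one = 1
  val_add : ∀ a b, val (add a b) = val a + val b
  val_neg : ∀ a, val (neg a) = -val a
  val_mul : ∀ a b, val (mul a b) = val a * val b
  isZero_iff : ∀ a, isZero a = true ↔ val a = 0
  add_prim : Primrec₂ add
  neg_prim : Primrec neg
  mul_prim : Primrec₂ mul
  isZero_prim : Primrec isZero

attribute [reducible, instance] CodeRing.prim

/-! ### `ZMod p` -/

noncomputable instance zmodCode (p : ℕ) [NeZero p] : CodeRing (ZMod p) where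
  Code := ℕ
  prim := inferInstance
  val := v0 p
  surj := fun a => ⟨a.val, ZMod.natCast_zmod_val a⟩
  zero := 0
  one := 1
  add := (· + ·)
  neg := fun n => (p - 1) * n
  mul := (· * ·)
  isZero := fun n => decide (n % p = 0)
  val_zero := by simp [v0]
  val_one := by simp [v0]
  val_add := fun a b => by simp [v0]
  val_neg := fun a => by
    have : ((p - 1 : ℕ) : ZMod p) = -1 := by
      rw [Nat.cast_sub (Nat.one_le_iff_ne_zero.2 (NeZero.ne p))]
      simp
    simp only [v0, Nat.cast_mul, this]
    ring
  val_mul := fun a b => by simp [v0]
  isZero_iff := fun a => by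
    rw [decide_eq_true_iff, v0, ZMod.natCast_eq_zero_iff, Nat.dvd_iff_mod_eq_zero]
  add_prim := Primrec.nat_add
  neg_prim := Primrec.nat_mul.comp (Primrec.const _) Primrec.id
  mul_prim := Primrec.nat_mul
  isZero_prim := by
    have : PrimrecPred fun n : ℕ => n % p = 0 :=
      Primrec.eq.comp (Primrec.nat_mod.comp Primrec.id (Primrec.const p)) (Primrec.const 0)
    exact primrecPred_iff_primrec_decide.1 this

/-! ### lists of codes -/

section vlist

variable {A R : Type*} [CommRing R] (v : A → R)

theorem vList_nil : vList v [] = 0 := rfl

theorem vList_cons (a : A) (l : List A) : vList v (a :: l) = C (v a) + X * vList v l := rfl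

theorem vList_coeff (l : List A) (n : ℕ) : (vList v l).coeff n = (l.map v).getD n 0 := by
  induction l generalizing n with
  | nil => simp [vList_nil]
  | cons a l ih =>
    rw [vList_cons, coeff_add, List.map_cons]
    cases n with
    | zero => simp
    | succ n => simp [ih, coeff_X_mul]

theorem vList_eq_zero (l : List A) : vList v l = 0 ↔ ∀ a ∈ l, v a = 0 := by
  induction l with
  | nil => simp [vList_nil]
  | cons a l ih =>
    rw [List.forall_mem_cons, ← ih, vList_cons]
    constructor
    · intro h
      have h0 := congrArg (fun q => coeff q 0) h
      simp only [coeff_add, coeff_C_zero, mul_coeff_zero, coeff_X_zero, zero_mul, add_zero,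
        coeff_zero] at h0
      refine ⟨h0, ?_⟩
      ext n
      have h1 := congrArg (fun q => coeff q (n + 1)) h
      simpa [coeff_C, coeff_X_mul] using h1
    · rintro ⟨h1, h2⟩
      simp [h1, h2]

end vlist

section poly

variable (R : Type) [CommRing R] [H : CodeRing R]

open CodeRing

/-- addition of codes of polynomials -/
def addL (l₁ l₂ : List (Code R)) : List (Code R) :=
  (List.range (max l₁.length l₂.length)).map fun i =>
    add (l₁.getD i (zero (R := R))) (l₂.getD i (zero (R := R)))

/-- multiplication of codes of polynomials -/
def mulL (l₁ l₂ : List (Code R)) : List (Code R) :=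
  l₁.foldr (fun a acc => addL R (l₂.map (mul a)) ((zero (R := R)) :: acc)) []

variable {R}

theorem val_getD (l : List (Code R)) (n : ℕ) :
    val (l.getD n (zero (R := R))) = ((l.map (val (R := R))).getD n 0) := by
  rw [List.getD_eq_getElem?_getD, List.getD_eq_getElem?_getD, List.getElem?_map]
  cases l[n]? with
  | none => simpa using val_zero (R := R)
  | some a => rfl

theorem val_addL (l₁ l₂ : List (Code R)) :
    vList (val (R := R)) (addL R l₁ l₂) = vList val l₁ + vList val l₂ := by
  ext n
  rw [coeff_add, vList_coeff, vList_coeff, vList_coeff, ← val_getD, ← val_getD, ← val_getD]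
  by_cases h : n < max l₁.length l₂.length
  · rw [addL, List.getD_eq_getElem?_getD, List.getElem?_map, List.getElem?_range h]
    exact val_add _ _
  · rw [addL, List.getD_eq_getElem?_getD, List.getElem?_map]
    have h1 : (List.range (max l₁.length l₂.length))[n]? = none := by
      rw [List.getElem?_eq_none_iff, List.length_range]
      exact not_lt.1 h
    have h2 := not_lt.1 h
    rw [max_le_iff] at h2
    rw [h1, List.getD_eq_getElem?_getD, List.getD_eq_getElem?_getD,
      List.getElem?_eq_none_iff.2 h2.1, List.getElem?_eq_none_iff.2 h2.2]
    simp [val_zero]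

theorem val_map_mul (a : Code R) (l : List (Code R)) :
    vList (val (R := R)) (l.map (mul a)) = C (val a) * vList val l := by
  induction l with
  | nil => simp [vList_nil]
  | cons b l ih =>
    rw [List.map_cons, vList_cons, vList_cons, ih, val_mul, C_mul]
    ring

theorem val_mulL (l₁ l₂ : List (Code R)) :
    vList (val (R := R)) (mulL R l₁ l₂) = vList val l₁ * vList val l₂ := by
  induction l₁ with
  | nil => simp [mulL, vList_nil]
  | cons a l ih =>
    have : mulL R (a :: l) l₂ = addL R (l₂.map (mul a)) ((zero (R := R)) :: mulL R l l₂) := rfl
    rw [this, val_addL, val_map_mul, vList_cons, vList_cons, ih, val_zero, C_0]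
    ring

theorem addL_prim : Primrec₂ (addL R) := by
  unfold addL
  refine Primrec.list_map (Primrec.list_range.comp (Primrec.nat_max.comp
    (Primrec.list_length.comp Primrec.fst) (Primrec.list_length.comp Primrec.snd))) ?_
  exact add_prim.comp
    ((Primrec.list_getD (zero (R := R))).comp (Primrec.fst.comp Primrec.fst) Primrec.snd)
    ((Primrec.list_getD (zero (R := R))).comp (Primrec.snd.comp Primrec.fst) Primrec.snd)

theorem mulL_prim : Primrec₂ (mulL R) := by
  unfold mulL
  refine Primrec.list_foldr (h := fun (z : List (Code R) × List (Code R))
    (w : Code R × List (Code R)) => addL R (z.2.map (mul w.1)) ((zero (R := R)) :: w.2))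
    Primrec.fst (Primrec.const []) ?_
  refine addL_prim.comp ?_ (Primrec.list_cons.comp (Primrec.const _)
    (Primrec.snd.comp Primrec.snd))
  exact Primrec.list_map (Primrec.snd.comp Primrec.fst)
    (mul_prim.comp (Primrec.fst.comp (Primrec.snd.comp Primrec.fst)) Primrec.snd)

theorem vList_surj : Function.Surjective (vList (val (R := R))) := by
  intro q
  refine ⟨(List.range (q.natDegree + 1)).map fun i => Function.surjInv (surj (R := R)) (q.coeff i),
    ?_⟩
  ext n
  rw [vList_coeff, List.map_map, List.getD_eq_getElem?_getD, List.getElem?_map]
  by_cases h : n < q.natDegree + 1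
  · rw [List.getElem?_range h]
    exact Function.surjInv_eq (surj (R := R)) (q.coeff n)
  · have h1 : (List.range (q.natDegree + 1))[n]? = none := by
      rw [List.getElem?_eq_none_iff, List.length_range]
      exact not_lt.1 h
    rw [h1, coeff_eq_zero_of_natDegree_lt (by omega)]
    rfl

noncomputable instance polyCode (R : Type) [CommRing R] [CodeRing R] :
    CodeRing (Polynomial R) where
  Code := List (Code R)
  prim := inferInstance
  val := vList val
  surj := vList_surj
  zero := []
  one := [one (R := R)]
  add := addL R
  neg := fun l => l.map neg
  mul := mulL R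
  isZero := fun l => l.foldr (fun a b => isZero a && b) true
  val_zero := rfl
  val_one := by simp [vList_cons, vList_nil, val_one]
  val_add := val_addL
  val_neg := fun l => by
    induction l with
    | nil => simp [vList_nil]
    | cons a l ih =>
      rw [List.map_cons, vList_cons, vList_cons, ih, val_neg, C_neg]
      ring
  val_mul := val_mulL
  isZero_iff := fun l => by
    rw [vList_eq_zero]
    induction l with
    | nil => simp
    | cons a l ih =>
      rw [List.foldr_cons, Bool.and_eq_true, ih, List.forall_mem_cons, isZero_iff]
  add_prim := addL_prim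
  neg_prim := Primrec.list_map Primrec.id (neg_prim.comp Primrec.snd)
  mul_prim := mulL_prim
  isZero_prim := by
    refine Primrec.list_foldr (h := fun (_ : List (Code R)) (w : Code R × Bool) =>
      isZero w.1 && w.2) Primrec.id (Primrec.const true) ?_
    exact Primrec.and.comp (isZero_prim.comp (Primrec.fst.comp Primrec.snd))
      (Primrec.snd.comp Primrec.snd)

end poly

end FT80
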