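import Pool.Agent.FT80.Sep

set_option maxSynthPendingDepth 10

open Polynomial

namespace FT80.SepC

/-- `k[X] → K[[X]]` -/
noncomputable def psi (k K : Type*) [Field k] [Field K] [Algebra k K] :
    k[X] →+* PowerSeries K :=
  (coeToPowerSeries.ringHom : K[X] →+* PowerSeries K).comp (mapRingHom (algebraMap k K))

theorem psi_injective (k K : Type*) [Field k] [Field K] [Algebra k K] :
    Function.Injective (psi k K) := by
  have h1 : Function.Injective (mapRingHom (algebraMap k K)) :=
    Polynomial.map_injective _ (algebraMap k K).injective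
  have h2 : Function.Injective (coeToPowerSeries.ringHom : K[X] →+* PowerSeries K) :=
    Polynomial.coe_injective K
  exact h2.comp h1

theorem psi_C {k K : Type*} [Field k] [Field K] [Algebra k K] (a : k) :
    psi k K (C a) = PowerSeries.C (algebraMap k K a) := by
  simp [psi]

theorem psi_X {k K : Type*} [Field k] [Field K] [Algebra k K] :
    psi k K X = PowerSeries.X := by
  simp [psi]

theorem coeff_zero_alg {k K : Type*} [Field k] [Field K] [Algebra k K]
    (Q : k[X][X]) (hQ : Q ≠ 0) (Y : PowerSeries K) (hY : Q.eval₂ (psi k K) Y = 0) :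
    IsAlgebraic k (PowerSeries.constantCoeff Y) := by
  classical
  let _ : NormalizedGCDMonoid k[X] := UniqueFactorizationMonoid.toNormalizedGCDMonoid _
  have h1 : Q.primPart.eval₂ (psi k K) Y = 0 := eval₂_primPart_eq_zero (psi_injective k K) hQ hY
  have h2 : Q.primPart.map (evalRingHom (0 : k)) ≠ 0 := by
    intro h
    have h3 : C (X : k[X]) ∣ Q.primPart := by
      rw [C_dvd_iff_dvd_coeff]
      intro i
      have h4 := congrArg (fun q => Polynomial.coeff q i) h
      simp only [coeff_map, coeff_zero, coe_evalRingHom] at h4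
      rw [X_dvd_iff, coeff_zero_eq_eval_zero]
      exact h4
    have h5 := (isPrimitive_primPart Q) _ h3
    exact not_isUnit_X h5
  refine ⟨Q.primPart.map (evalRingHom (0 : k)), h2, ?_⟩
  have h3 := congrArg PowerSeries.constantCoeff h1
  rw [map_zero, hom_eval₂] at h3
  rw [aeval_def, eval₂_map]
  have h4 : (PowerSeries.constantCoeff : PowerSeries K →+* K).comp (psi k K) =
      (algebraMap k K).comp (evalRingHom (0 : k)) := by
    ext a
    · simp [psi]
    · simp [psi]
  rw [← h4]
  exact h3

theorem coeff_alg_closed {k K : Type*} [Field k] [Field K] [Algebra k K]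
    (hc : ∀ z : K, IsAlgebraic k z → ∃ a : k, algebraMap k K a = z) :
    ∀ (n : ℕ) (Q : k[X][X]) (_ : Q ≠ 0) (Y : PowerSeries K) (_ : Q.eval₂ (psi k K) Y = 0),
      ∃ a : k, algebraMap k K a = PowerSeries.coeff n Y := by
  intro n
  induction n with
  | zero =>
    intro Q hQ Y hY
    obtain ⟨a, ha⟩ := hc _ (coeff_zero_alg Q hQ Y hY)
    exact ⟨a, by rw [ha, PowerSeries.coeff_zero_eq_constantCoeff]⟩
  | succ n ih =>
    intro Q hQ Y hY
    obtain ⟨a, ha⟩ := hc _ (coeff_zero_alg Q hQ Y hY)
    set Y₁ : PowerSeries K := PowerSeries.mk fun i => PowerSeries.coeff (i + 1) Y with hY₁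
    have h1 : Y = PowerSeries.X * Y₁ + PowerSeries.C (PowerSeries.constantCoeff Y) :=
      PowerSeries.eq_X_mul_shift_add_const Y
    have h2 : Q.comp (C (X : k[X]) * X + C (C a)) ≠ 0 := by
      intro h
      rw [comp_eq_zero_iff] at h
      rcases h with h | h
      · exact hQ h
      · have h3 := congrArg (fun q => Polynomial.coeff q 1) h.2
        simp [coeff_C] at h3
    have h3 : (Q.comp (C (X : k[X]) * X + C (C a))).eval₂ (psi k K) Y₁ = 0 := by
      rw [eval₂_comp]
      have h4 : (C (X : k[X]) * X + C (C a)).eval₂ (psi k K) Y₁ = Y := by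
        rw [eval₂_add, eval₂_mul, eval₂_C, eval₂_X, eval₂_C]
        conv_rhs => rw [h1]
        rw [← ha]
        simp [psi]
      rw [h4]
      exact hY
    obtain ⟨a', ha'⟩ := ih _ h2 Y₁ h3
    refine ⟨a', ?_⟩
    rw [ha', hY₁, PowerSeries.coeff_mk]

/-- algebraic over `R` along `σ` -/
def AlgG {R K : Type*} [CommRing R] [CommRing K] (σ : R →+* K) (z : K) : Prop :=
  ∃ q : R[X], q ≠ 0 ∧ q.eval₂ σ z = 0

theorem coeff_alg_gen {R K : Type*} [CommRing R] [IsDomain R] [Field K] (σ : R →+* K)
    (hσ : Function.Injective σ) (w c : K) (hw : AlgG σ w) (hca : AlgG σ c) (hc0 : c ≠ 0) {e : ℕ}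
    (he : e ≠ 0) (Y : PowerSeries K) {ft : R[X][X]} (hft0 : ft ≠ 0)
    (hf : ft.eval₂ (eval₂RingHom ((PowerSeries.C : K →+* PowerSeries K).comp σ)
      (PowerSeries.C w + PowerSeries.C c * PowerSeries.X ^ e)) Y = 0) (n : ℕ) :
    AlgG σ (PowerSeries.coeff n Y) := by
  let _ : Algebra R K := σ.toAlgebra
  have hinj : Function.Injective (algebraMap R K) := hσ
  let _ : Algebra (FractionRing R) K := (IsFractionRing.lift hinj).toAlgebra
  have : IsScalarTower R (FractionRing R) K := by
    refine IsScalarTower.of_algebraMap_eq ?_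
    intro x
    exact (IsFractionRing.lift_algebraMap hinj x).symm
  have hiff : ∀ z : K, AlgG σ z ↔ IsAlgebraic (FractionRing R) z := by
    intro z
    rw [← IsFractionRing.isAlgebraic_iff R (FractionRing R) K]
    rfl
  set k := algebraicClosure (FractionRing R) K with hk
  have hclosed : ∀ z : K, IsAlgebraic k z → ∃ a : k, algebraMap k K a = z := by
    intro z hz
    have h1 : z ∈ algebraicClosure k K := (mem_algebraicClosure_iff).mpr hz
    rw [hk, algebraicClosure.algebraicClosure_eq_bot, IntermediateField.mem_bot] at h1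
    exact h1
  set w' : k := ⟨w, mem_algebraicClosure_iff.mpr ((hiff w).mp hw)⟩ with hw'
  set c' : k := ⟨c, mem_algebraicClosure_iff.mpr ((hiff c).mp hca)⟩ with hc'
  have hc'0 : c' ≠ 0 := by
    intro h
    apply hc0
    have := congrArg (algebraMap k K) h
    simpa [hc'] using this
  set σ' : R →+* k := (algebraMap (FractionRing R) k).comp (algebraMap R (FractionRing R)) with hσ'
  have hσ'inj : Function.Injective σ' :=
    (algebraMap (FractionRing R) k).injective.comp (IsFractionRing.injective R (FractionRing R))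
  have h1 := subst_injective σ' hσ'inj w' c' hc'0 he
  set Q : k[X][X] := ft.map (eval₂RingHom ((C : k →+* k[X]).comp σ') (C w' + C c' * X ^ e)) with hQ
  have hQ0 : Q ≠ 0 := by
    rw [hQ]
    exact (Polynomial.map_ne_zero_iff h1).mpr hft0
  have hQY : Q.eval₂ (psi k K) Y = 0 := by
    rw [hQ, eval₂_map]
    have h2 : (psi k K).comp (eval₂RingHom ((C : k →+* k[X]).comp σ') (C w' + C c' * X ^ e)) =
        eval₂RingHom ((PowerSeries.C : K →+* PowerSeries K).comp σ)
          (PowerSeries.C w + PowerSeries.C c * PowerSeries.X ^ e) := by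
      refine Polynomial.ringHom_ext ?_ ?_
      · intro a
        rw [RingHom.comp_apply, coe_eval₂RingHom, eval₂_C, RingHom.comp_apply, coe_eval₂RingHom,
          eval₂_C, RingHom.comp_apply, psi_C, RingHom.comp_apply]
        congr 1
        exact IsFractionRing.lift_algebraMap hinj a
      · rw [RingHom.comp_apply, coe_eval₂RingHom, eval₂_X, coe_eval₂RingHom,
          eval₂_X, map_add, map_mul, map_pow, psi_C, psi_C, psi_X]
        rfl
    rw [h2]
    exact hf
  obtain ⟨a, ha⟩ := coeff_alg_closed hclosed n Q hQ0 Y hQY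
  rw [← ha, hiff]
  exact mem_algebraicClosure_iff.mp a.2

end FT80.SepC

namespace FT80

variable {p : ℕ} [Fact p.Prime]

theorem coeff_alg {ξ : OO p} (hξ : AlgO ξ) {γ : ZMod p} (hγ : γ ≠ 0) (j : ℕ) {e : ℕ}
    (he : e ≠ 0) (Y : PowerSeries (KK p)) {ft : P3 p} (hf0 : ft ≠ 0)
    (hf : ev2 (iota p) (XX ξ γ j e) Y ft = 0) (n : ℕ) : AlgK (PowerSeries.coeff n Y) := by
  have hw : SepC.AlgG (tauK p) (iK p ξ) := by
    obtain ⟨q, hq0, hq⟩ := hξ
    refine ⟨q, hq0, ?_⟩
    have h1 := congrArg (iK p) hq
    rw [map_zero, ev1, coe_eval₂RingHom, hom_eval₂] at h1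
    exact h1
  have hc : SepC.AlgG (tauK p) (iK p (PowerSeries.C γ * PowerSeries.X ^ j)) := by
    refine ⟨X - C (C γ * X ^ j), X_sub_C_ne_zero _, ?_⟩
    rw [eval₂_sub, eval₂_X, eval₂_C, sub_eq_zero]
    simp [tauK, tau]
  exact SepC.coeff_alg_gen (tauK p) SepC.tauK_injective _ _ hw hc (SepC.gamma_ne hγ j) he Y hf0
    hf n

end FT80
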