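import Pool.Agent.FT80.Lift

/-!
# Completeness of the certificates of falsity
-/

set_option maxSynthPendingDepth 10

open Polynomial

namespace FT80

/-! ### The part of `f` prime to `g` -/

theorem prime_part_field {K : Type*} [Field K] (n : ℕ) : ∀ (F G : Polynomial K), F ≠ 0 →
    F.natDegree ≤ n → ∃ (H Q W U V : Polynomial K) (k : ℕ),
      H * G ^ k = F * Q ∧ F = H * W ∧ U * H + V * G = 1 := by
  classical
  induction n with
  | zero =>
    intro F G hF hd
    have hu : IsUnit F := by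
      rw [Polynomial.isUnit_iff]
      refine ⟨F.coeff 0, isUnit_iff_ne_zero.2 ?_, ?_⟩
      · intro h
        apply hF
        rw [eq_C_of_natDegree_le_zero hd, h, C_0]
      · exact (eq_C_of_natDegree_le_zero hd).symm
    obtain ⟨V, hV⟩ := hu.exists_right_inv
    exact ⟨F, 1, 1, V, 0, 0, by ring, by ring, by rw [mul_comm, hV]; ring⟩
  | succ n ih =>
    intro F G hF hd
    by_cases hc : IsCoprime F G
    · obtain ⟨U, V, hUV⟩ := hc
      exact ⟨F, 1, 1, U, V, 0, by ring, by ring, hUV⟩
    · set d := EuclideanDomain.gcd F G with hdd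
      obtain ⟨F', hF'⟩ := EuclideanDomain.gcd_dvd_left F G
      obtain ⟨G', hG'⟩ := EuclideanDomain.gcd_dvd_right F G
      rw [← hdd] at hF' hG'
      have hd0 : d ≠ 0 := by
        intro h
        rw [h, zero_mul] at hF'
        exact hF hF'
      have hF'0 : F' ≠ 0 := by
        intro h
        rw [h, mul_zero] at hF'
        exact hF hF'
      have hdu : ¬ IsUnit d := by
        intro h
        exact hc (EuclideanDomain.gcd_isUnit_iff.1 h)
      have hddeg : 1 ≤ d.natDegree := by
        rw [Nat.one_le_iff_ne_zero]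
        intro h
        apply hdu
        rw [Polynomial.isUnit_iff]
        refine ⟨d.coeff 0, isUnit_iff_ne_zero.2 ?_, (eq_C_of_natDegree_eq_zero h).symm⟩
        intro h1
        apply hd0
        rw [eq_C_of_natDegree_eq_zero h, h1, C_0]
      have hdeg : F'.natDegree ≤ n := by
        have h1 : F.natDegree = d.natDegree + F'.natDegree := by
          conv_lhs => rw [hF']
          exact natDegree_mul hd0 hF'0
        omega
      obtain ⟨H, Q, W, U, V, k, h1, h2, h3⟩ := ih F' G hF'0 hdeg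
      refine ⟨H, Q * G', d * W, U, V, k + 1, ?_, ?_, h3⟩
      · calc H * G ^ (k + 1) = (H * G ^ k) * G := by ring
          _ = (F' * Q) * G := by rw [h1]
          _ = (F' * Q) * (d * G') := by rw [← hG']
          _ = (d * F') * (Q * G') := by ring
          _ = F * (Q * G') := by rw [← hF']
      · calc F = d * F' := hF'
          _ = d * (H * W) := by rw [← h2]
          _ = H * (d * W) := by ring

theorem clear_den {R : Type*} [CommRing R] [IsDomain R] (P : Polynomial (FractionRing R)) :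
    ∃ (s : R) (P₀ : Polynomial R), s ≠ 0 ∧
      P₀.map (algebraMap R (FractionRing R)) = C (algebraMap R (FractionRing R) s) * P := by
  obtain ⟨b, hb⟩ := IsLocalization.integerNormalization_map_to_map (nonZeroDivisors R) P
  refine ⟨b, _, nonZeroDivisors.ne_zero b.2, hb.trans ?_⟩
  rw [Algebra.smul_def]
  rfl

theorem prime_part {R : Type*} [CommRing R] [IsDomain R] {f : Polynomial R} (hf : f ≠ 0)
    (g : Polynomial R) : ∃ (H Q W U V : Polynomial R) (k : ℕ) (r : R), r ≠ 0 ∧
      H * g ^ k = f * Q ∧ C r * f = H * W ∧ U * H + V * g = C r := by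
  have hinj : Function.Injective (Polynomial.map (algebraMap R (FractionRing R))) :=
    Polynomial.map_injective _ (IsFractionRing.injective R (FractionRing R))
  have hF : f.map (algebraMap R (FractionRing R)) ≠ 0 := by
    intro h
    exact hf (hinj (h.trans (Polynomial.map_zero _).symm))
  obtain ⟨H, Q, W, U, V, k, h1, h2, h3⟩ := prime_part_field _ (f.map (algebraMap R (FractionRing R)))
    (g.map (algebraMap R (FractionRing R))) hF le_rfl
  obtain ⟨sH, H₀, hsH, hH⟩ := clear_den H
  obtain ⟨sQ, Q₀, hsQ, hQ⟩ := clear_den Q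
  obtain ⟨sW, W₀, hsW, hW⟩ := clear_den W
  obtain ⟨sU, U₀, hsU, hU⟩ := clear_den U
  obtain ⟨sV, V₀, hsV, hV⟩ := clear_den V
  refine ⟨C sQ * H₀, C sH * Q₀, C (sU * sV) * W₀, C (sW * sV) * U₀,
    C (sW * sH * sQ * sU) * V₀, k, sH * sQ * sW * sU * sV, ?_, ?_, ?_, ?_⟩
  · exact mul_ne_zero (mul_ne_zero (mul_ne_zero (mul_ne_zero hsH hsQ) hsW) hsU) hsV
  · apply hinj
    simp only [Polynomial.map_mul, Polynomial.map_pow, map_C, hH, hQ]
    linear_combination (C (algebraMap R (FractionRing R) sQ) *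
      C (algebraMap R (FractionRing R) sH)) * h1
  · apply hinj
    simp only [Polynomial.map_mul, map_C, hH, hW, map_mul, C_mul]
    linear_combination (C (algebraMap R (FractionRing R) sH) *
      C (algebraMap R (FractionRing R) sQ) * C (algebraMap R (FractionRing R) sW) *
      C (algebraMap R (FractionRing R) sU) * C (algebraMap R (FractionRing R) sV)) * h2
  · apply hinj
    simp only [Polynomial.map_add, Polynomial.map_mul, map_C, hH, hU, hV, map_mul, C_mul]
    linear_combination (C (algebraMap R (FractionRing R) sH) *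
      C (algebraMap R (FractionRing R) sQ) * C (algebraMap R (FractionRing R) sW) *
      C (algebraMap R (FractionRing R) sU) * C (algebraMap R (FractionRing R) sV)) * h3

variable {p : ℕ} [hp : Fact p.Prime]

theorem infinite_OO : Infinite (OO p) := by
  refine Infinite.of_injective (fun n : ℕ => (PowerSeries.X : OO p) ^ n) ?_
  intro m n h
  have h1 := congrArg (PowerSeries.coeff m) h
  simp only [PowerSeries.coeff_X_pow] at h1
  by_contra hne
  simp [hne] at h1

theorem zero_of_eval (F : Polynomial (OO p)) (h : ∀ y, F.eval y = 0) : F = 0 := by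
  haveI : Infinite (OO p) := infinite_OO
  exact Polynomial.funext (fun y => by rw [h y, eval_zero])

theorem ev2_congr {x x' : OO p} {N : ℕ} (h : PowerSeries.X ^ N ∣ x' - x) (y : OO p) (F : P3 p) :
    PowerSeries.X ^ N ∣ ev2 (tau p) x' y F - ev2 (tau p) x y F := by
  have hc : ∀ G : P2 p, PowerSeries.X ^ N ∣ ev1 (tau p) x' G - ev1 (tau p) x G := by
    intro G
    rw [ev1_eq_eval, ev1_eq_eval]
    exact dvd_trans h (sub_dvd_eval_sub _ _ _)
  induction F using Polynomial.induction_on' with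
  | add F G hF hG =>
    rw [map_add, map_add]
    have : ev2 (tau p) x' y F + ev2 (tau p) x' y G -
        (ev2 (tau p) x y F + ev2 (tau p) x y G) =
        (ev2 (tau p) x' y F - ev2 (tau p) x y F) +
        (ev2 (tau p) x' y G - ev2 (tau p) x y G) := by ring
    rw [this]
    exact dvd_add hF hG
  | monomial n r =>
    rw [← C_mul_X_pow_eq_monomial, map_mul, map_mul, ev2_C', ev2_C']
    have h3 : ∀ x : OO p, ev2 (tau p) x y (X ^ n : P3 p) = y ^ n := by
      intro x
      unfold ev2
      rw [coe_eval₂RingHom, eval₂_pow, eval₂_X]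
    rw [h3, h3, ← sub_mul]
    exact Dvd.dvd.mul_right (hc r) _

theorem dvd_X_pow {z : OO p} {N : ℕ} (h : ¬ PowerSeries.X ^ N ∣ z) :
    ∃ v : OO p, z * v = PowerSeries.X ^ N := by
  have hz : z ≠ 0 := by
    intro h1
    rw [h1] at h
    exact h (dvd_zero _)
  obtain ⟨v, hv1, hv2⟩ := ps_exists_order z hz
  obtain ⟨q, hq⟩ := hv1
  have hqu : IsUnit q := by
    rw [ps_isUnit_iff]
    intro h1
    apply hv2
    rw [hq, pow_succ]
    exact mul_dvd_mul_left _ h1
  obtain ⟨w, hw⟩ := hqu.exists_right_inv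
  have hvN : v ≤ N := by
    by_contra hlt
    apply h
    rw [hq]
    exact Dvd.dvd.mul_right (pow_dvd_pow _ (by omega)) _
  refine ⟨w * PowerSeries.X ^ (N - v), ?_⟩
  calc z * (w * PowerSeries.X ^ (N - v)) = (q * w) * (PowerSeries.X ^ v * PowerSeries.X ^ (N - v)) := by
        conv_lhs => rw [hq]
        ring
    _ = PowerSeries.X ^ N := by
        rw [hw, one_mul, ← pow_add]
        congr 1
        omega

/-- a point where the formula fails gives an algebraic point where it fails -/
theorem exists_alg_point (φ : List (P3 p × P3 p)) {ξ : OO p}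
    (h : ∀ y : OO p, ¬ Holds (tau p) φ ξ y) :
    ∃ x : OO p, AlgO x ∧ ∀ y : OO p, ¬ Holds (tau p) φ x y := by
  by_cases hξ : AlgO ξ
  · exact ⟨ξ, hξ, h⟩
  have htr : ∀ q : P2 p, q ≠ 0 → ev1 (tau p) ξ q ≠ 0 := fun q hq h1 => hξ ⟨q, hq, h1⟩
  have key : ∀ fg ∈ φ, ∃ N : ℕ, ∀ x : OO p, PowerSeries.X ^ N ∣ x - ξ → ∀ y : OO p,
      ev2 (tau p) x y fg.1 = 0 → ev2 (tau p) x y fg.2 = 0 := by
    intro fg hfg
    have hno : ∀ y : OO p, ev2 (tau p) ξ y fg.1 = 0 → ev2 (tau p) ξ y fg.2 = 0 := by
      intro y hy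
      by_contra hc
      exact h y ⟨fg, hfg, hy, hc⟩
    by_cases hf : fg.1 = 0
    · have hg : fg.2 = 0 := by
        have h1 : fg.2.map (ev1 (tau p) ξ) = 0 := by
          apply zero_of_eval
          intro y
          rw [← ev2_eq_eval]
          exact hno y (by rw [hf, map_zero])
        ext i : 1
        by_contra hc
        rw [coeff_zero] at hc
        apply htr _ hc
        have h2 := congrArg (fun F => Polynomial.coeff F i) h1
        simpa [coeff_map] using h2
      exact ⟨0, fun x _ y _ => by rw [hg, map_zero]⟩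
    · obtain ⟨H, Q, W, U, V, k, r, hr, h1, h2, h3⟩ := prime_part hf fg.2
      obtain ⟨N, hN⟩ := compact_no_root (H.map (ev1 (tau p) ξ)) (by
        intro y hy
        rw [← ev2_eq_eval] at hy
        have h4 := congrArg (ev2 (tau p) ξ y) h2
        rw [map_mul, map_mul, hy, zero_mul, ev2_C'] at h4
        have h5 := hno y ((mul_eq_zero.1 h4).resolve_left (htr r hr))
        have h6 := congrArg (ev2 (tau p) ξ y) h3
        rw [map_add, map_mul, map_mul, hy, h5, mul_zero, mul_zero, add_zero, ev2_C'] at h6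
        exact htr r hr h6.symm)
      refine ⟨N, fun x hx y hy => ?_⟩
      have h4 := congrArg (ev2 (tau p) x y) h1
      rw [map_mul, map_mul, hy, zero_mul, map_pow] at h4
      rcases mul_eq_zero.1 h4 with h5 | h5
      · exfalso
        apply hN y
        rw [← ev2_eq_eval]
        have h6 := ev2_congr hx y H
        rw [h5, zero_sub, dvd_neg] at h6
        exact h6
      · by_contra hc
        exact pow_ne_zero k hc h5
  have key2 : ∃ N : ℕ, ∀ fg ∈ φ, ∀ x : OO p, PowerSeries.X ^ N ∣ x - ξ → ∀ y : OO p,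
      ev2 (tau p) x y fg.1 = 0 → ev2 (tau p) x y fg.2 = 0 := by
    clear h
    induction φ with
    | nil => exact ⟨0, fun fg hfg => by simp at hfg⟩
    | cons a l ih =>
      obtain ⟨N, hN⟩ := ih (fun fg hfg => key fg (List.mem_cons_of_mem _ hfg))
      obtain ⟨N', hN'⟩ := key a List.mem_cons_self
      refine ⟨max N N', fun fg hfg x hx => ?_⟩
      rcases List.mem_cons.1 hfg with rfl | hfg
      · exact hN' x (dvd_trans (pow_dvd_pow _ (le_max_right _ _)) hx)
      · exact hN fg hfg x (dvd_trans (pow_dvd_pow _ (le_max_left _ _)) hx)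
  obtain ⟨N, hN⟩ := key2
  obtain ⟨a, ha, hx⟩ := exists_polyN ξ N
  refine ⟨tau p (polyN p N a), ⟨X - C (polyN p N a), X_sub_C_ne_zero _, ?_⟩, ?_⟩
  · rw [map_sub, ev1_X, ev1_C, sub_self]
  · rintro y ⟨fg, hfg, hy1, hy2⟩
    refine hy2 (hN fg hfg _ ?_ y hy1)
    rw [← neg_sub, dvd_neg]
    exact hx

theorem map_mem_PTheta {θ x : OO p} (hx : x ∈ OTheta θ) (F : P3 p) :
    F.map (ev1 (tau p) x) ∈ PTheta θ := by
  intro i
  rw [coeff_map]
  exact ev1_mem _ _ (tau_mem θ) hx _

theorem exists_lift_PTheta {θ : OO p} {G : Polynomial (OO p)} (h : G ∈ PTheta θ) :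
    ∃ G' : Polynomial (OTheta θ), G'.map (OTheta θ).subtype = G := by
  rw [← Polynomial.mem_lifts, Polynomial.lifts_iff_coeff_lifts]
  intro n
  exact ⟨⟨G.coeff n, h n⟩, rfl⟩

theorem map_subtype_mem {θ : OO p} (G : Polynomial (OTheta θ)) :
    G.map (OTheta θ).subtype ∈ PTheta θ := by
  intro i
  rw [coeff_map]
  exact (G.coeff i).2

/-- the certificate for one pair -/
theorem false_pair {m : P2 p} {θ : OO p} (hθ : ThetaData m θ) {F G : Polynomial (OO p)}
    (hF : F ∈ PTheta θ) (hG : G ∈ PTheta θ) (h : ∀ y, F.eval y = 0 → G.eval y = 0) :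
    ∃ (H Q : Polynomial (OO p)) (k N : ℕ), H ∈ PTheta θ ∧ Q ∈ PTheta θ ∧ H * G ^ k = F * Q ∧
      ∀ b : P1 p, ∃ v ∈ OTheta θ, H.eval (tau p b) * v = PowerSeries.X ^ N := by
  by_cases hF0 : F = 0
  · have hG0 : G = 0 := zero_of_eval G (fun y => h y (by rw [hF0, eval_zero]))
    refine ⟨1, 0, 1, 0, Subring.one_mem _, Subring.zero_mem _, by rw [hG0]; ring, ?_⟩
    intro b
    exact ⟨1, Subring.one_mem _, by rw [eval_one, one_mul, pow_zero]⟩
  · obtain ⟨f, hf⟩ := exists_lift_PTheta hF
    obtain ⟨g, hg⟩ := exists_lift_PTheta hG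
    have hf0 : f ≠ 0 := by
      rintro rfl
      rw [Polynomial.map_zero] at hf
      exact hF0 hf.symm
    obtain ⟨H, Q, W, U, V, k, r, hr, h1, h2, h3⟩ := prime_part hf0 g
    have hr0 : (OTheta θ).subtype r ≠ 0 := by
      intro h4
      exact hr (Subtype.ext h4)
    have h1' := congrArg (Polynomial.map (OTheta θ).subtype) h1
    have h2' := congrArg (Polynomial.map (OTheta θ).subtype) h2
    have h3' := congrArg (Polynomial.map (OTheta θ).subtype) h3
    rw [Polynomial.map_mul, Polynomial.map_mul, Polynomial.map_pow, hf, hg] at h1'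
    rw [Polynomial.map_mul, Polynomial.map_mul, hf, map_C] at h2'
    rw [Polynomial.map_add, Polynomial.map_mul, Polynomial.map_mul, hg, map_C] at h3'
    obtain ⟨N, hN⟩ := compact_no_root (H.map (OTheta θ).subtype) (by
      intro y hy
      have h4 := congrArg (Polynomial.eval y) h2'
      rw [eval_mul, eval_mul, hy, zero_mul, eval_C] at h4
      have h5 := h y ((mul_eq_zero.1 h4).resolve_left hr0)
      have h6 := congrArg (Polynomial.eval y) h3'
      rw [eval_add, eval_mul, eval_mul, hy, h5, mul_zero, mul_zero, add_zero, eval_C] at h6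
      exact hr0 h6.symm)
    refine ⟨H.map (OTheta θ).subtype, Q.map (OTheta θ).subtype, k, N, map_subtype_mem H,
      map_subtype_mem Q, h1', fun b => ?_⟩
    obtain ⟨v, hv⟩ := dvd_X_pow (hN (tau p b))
    refine ⟨v, ?_, hv⟩
    refine div_mem hθ (w := (H.map (OTheta θ).subtype).eval (tau p b)) ?_
      (z := PowerSeries.X ^ N) ?_ ?_ hv
    · rw [eval_eq_sum_range]
      exact Subring.sum_mem _ (fun i _ => Subring.mul_mem _ (map_subtype_mem H i)
        (Subring.pow_mem _ (tau_mem θ b) _))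
    · rw [← tau_X, ← map_pow]
      exact tau_mem θ _
    · intro h4
      apply hN (tau p b)
      rw [h4]
      exact dvd_zero _

theorem false_complete (φ : List (P3 p × P3 p))
    (h : ¬ ∀ x : OO p, ∃ y : OO p, Holds (tau p) φ x y) : FalseOK φ := by
  classical
  push Not at h
  obtain ⟨ξ, hξ⟩ := h
  obtain ⟨x, hx, hno⟩ := exists_alg_point φ hξ
  obtain ⟨m, θ, hθ, hS⟩ := theta_data {x} (fun s hs => by
    rw [Finset.mem_singleton.1 hs]; exact hx)
  have hxθ : x ∈ OTheta θ := hS x (Finset.mem_singleton_self _)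
  have key : Lift θ (fun c ζ => (∃ α : P3 p, ev2 (tau p) ζ θ α = x) ∧ ∀ fg ∈ φ.toFinset,
      ∃ (H Q : P4 p) (k N : ℕ),
        evth ζ θ H * (fg.2.map (ev1 (tau p) x)) ^ k =
          fg.1.map (ev1 (tau p) x) * evth ζ θ Q ∧
        ∀ b ∈ Finset.range (p ^ (N + 1)), ∃ h : P3 p,
          (evth ζ θ H).eval (tau p (polyN p (N + 1) b)) * ev2 (tau p) ζ θ h =
            PowerSeries.X ^ N) := by
    refine (lift3 hxθ).and (Lift.ball _ (fun fg hfg => ?_))
    obtain ⟨H, Q, k, N, hH, hQ, hHQ, hb⟩ := false_pair hθ (map_mem_PTheta hxθ fg.1)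
      (map_mem_PTheta hxθ fg.2) (by
        intro y hy
        by_contra hc
        rw [← ev2_eq_eval] at hy hc
        exact hno y ⟨fg, List.mem_toFinset.1 hfg, hy, hc⟩)
    choose v hv hvb using hb
    refine (((lift4 hH).and (lift4 hQ)).and (Lift.ball (Finset.range (p ^ (N + 1)))
      (fun b _ => lift3 (hv (polyN p (N + 1) b))))).imp ?_
    rintro c ζ hc ⟨⟨⟨H', hH'⟩, ⟨Q', hQ'⟩⟩, hbb⟩
    refine ⟨H', Q', k, N, by rw [hH', hQ']; exact hHQ, fun b hb => ?_⟩
    obtain ⟨E, hE⟩ := hbb b hb
    exact ⟨E, by rw [hH', hE]; exact hvb _⟩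
  obtain ⟨c, ζ, hc0, hcζ, ⟨α, hα⟩, hP⟩ := key.exists
  refine ⟨m, c, ⟨hθ.1, hθ.2.1, hc0⟩, α, fun fg hfg => ?_⟩
  obtain ⟨H, Q, k, N, hHQ, hb⟩ := hP fg (List.mem_toFinset.2 hfg)
  refine ⟨H, Q, k, N, eqv_of_eval hθ hcζ ?_, fun b hb' => ?_⟩
  · rw [map_mul, map_mul, map_pow, evth_ev2, evth_ev2, evth_C, evth_X, hα, ev2_Ct_X, ev2_Ct_X]
    exact hHQ
  · obtain ⟨h', hh'⟩ := hb b (Finset.mem_range.2 hb')
    refine ⟨h', eqv_of_eval hθ hcζ ?_⟩
    rw [evth_C, evth_kap, map_mul, map_pow, tau_X]
    congr 1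
    rw [← hh']
    congr 1
    unfold evth
    rw [coe_mapRingHom]
    have h5 : tau p (polyN p (N + 1) b) =
        ev2 (tau p) ζ θ (C (C (polyN p (N + 1) b))) := by
      rw [ev2_C', ev1_C]
    rw [h5, eval_map_apply]

end FT80
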