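import Pool.Agent.FT80.Complete1
import Pool.Agent.FT80.CoeffAlg
import Pool.Agent.FT80.NP

/-!
# Completeness of the certificates of truth
-/

set_option maxSynthPendingDepth 10

open Polynomial

namespace FT80

variable {p : ℕ} [hp : Fact p.Prime]

/-! ### Reduction to `f ≠ 0` -/

/-- every pair of `φ'` comes from a pair of `φ` -/
def Sub (φ' φ : List (P3 p × P3 p)) : Prop :=
  ∀ c' ∈ φ', ∃ c ∈ φ, c.2 = c'.2 ∧ (c.1 = c'.1 ∨ c.1 = 0)

theorem SepRel.sub {f g f' g' ft q h l A B : P3 p} {b : P2 p} (hs : SepRel f' g' ft q h l A B b)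
    (hg : g = g') (hf : f = f' ∨ f = 0) : ∃ q', SepRel f g ft q' h l A B b := by
  obtain ⟨e1, e2, e3⟩ := hs
  rcases hf with rfl | rfl
  · exact ⟨q, e1, hg ▸ e2, e3⟩
  · exact ⟨0, by rw [mul_zero, mul_zero], hg ▸ e2, e3⟩

theorem Eqv.refl (m : P2 p) (c : P1 p) (E : P4 p) : Eqv m c E E :=
  ⟨1, 0, 0, one_ne_zero, by rw [mul_zero, mul_zero, add_zero, add_zero]⟩

theorem BallOK.sub {φ' φ : List (P3 p × P3 p)} (hs : Sub φ' φ) {N : ℕ} {a : P1 p}
    (h : BallOK φ' N a) : BallOK φ N a := by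
  obtain ⟨fg, hfg, ft, q, h, l, A, B, b, hsep, hr⟩ := h
  obtain ⟨c, hc, hg, hf⟩ := hs fg hfg
  obtain ⟨q', hq'⟩ := hsep.sub hg hf
  exact ⟨c, hc, ft, q', h, l, A, B, b, hq', hr⟩

theorem PointOK.sub {φ' φ : List (P3 p × P3 p)} (hs : Sub φ' φ) {m : P2 p} {c : P1 p} {α : P3 p}
    (h : PointOK φ' m c α) : PointOK φ m c α := by
  obtain ⟨fg, hfg, η, h', β, e1, e2⟩ := h
  obtain ⟨c, hc, hg, hf⟩ := hs fg hfg
  refine ⟨c, hc, η, h', β, ?_, by rw [hg]; exact e2⟩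
  rcases hf with hf | hf
  · rw [hf]; exact e1
  · rw [hf, map_zero]; exact Eqv.refl _ _ _

theorem ClassOK.sub {φ' φ : List (P3 p × P3 p)} (hs : Sub φ' φ) {m : P2 p} {c : P1 p} {α : P3 p}
    {M n γ j : ℕ} (h : ClassOK φ' m c α M n γ j) : ClassOK φ m c α M n γ j := by
  obtain ⟨fg, hfg, e, J, h1, h2, h3, h4, ft, q, h', l, A, B, b, hsep, hr⟩ := h
  obtain ⟨c, hc, hg, hf⟩ := hs fg hfg
  obtain ⟨q', hq'⟩ := hsep.sub hg hf
  exact ⟨c, hc, e, J, h1, h2, h3, h4, ft, q', h', l, A, B, b, hq', hr⟩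

theorem AlphaOK.sub {φ' φ : List (P3 p × P3 p)} (hs : Sub φ' φ) {N : ℕ} {a : P1 p}
    (h : AlphaOK φ' N a) : AlphaOK φ N a := by
  obtain ⟨m, c, h1, α, R₀, M, n, h2, h3, h4, h5, h6⟩ := h
  exact ⟨m, c, h1, α, R₀, M, n, h2, h3, h4, h5.sub hs, fun γ g1 g2 j hj => (h6 γ g1 g2 j hj).sub hs⟩

theorem TrueOK.sub {φ' φ : List (P3 p × P3 p)} (hs : Sub φ' φ) (h : TrueOK φ') : TrueOK φ := by
  obtain ⟨N, hN⟩ := h
  refine ⟨N, fun a ha => ?_⟩
  rcases hN a ha with h | h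
  · exact Or.inl (h.sub hs)
  · exact Or.inr (h.sub hs)

/-- a nonzero polynomial over `O` does not vanish at all powers of `t` -/
theorem exists_pow_ne (G : Polynomial (OO p)) (hG : G ≠ 0) :
    ∃ i ≤ G.natDegree, G.eval ((PowerSeries.X : OO p) ^ i) ≠ 0 := by
  classical
  by_contra hc
  push Not at hc
  apply hG
  have hinj : Function.Injective (fun n : ℕ => (PowerSeries.X : OO p) ^ n) := by
    intro m n h
    have h1 := congrArg (PowerSeries.coeff m) h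
    simp only [PowerSeries.coeff_X_pow] at h1
    by_contra hne
    simp [hne] at h1
  refine Polynomial.eq_zero_of_natDegree_lt_card_of_eval_eq_zero' G
    ((Finset.range (G.natDegree + 1)).image (fun n : ℕ => (PowerSeries.X : OO p) ^ n)) ?_ ?_
  · intro r hr
    obtain ⟨i, hi, rfl⟩ := Finset.mem_image.1 hr
    exact hc i (Nat.lt_succ_iff.1 (Finset.mem_range.1 hi))
  · rw [Finset.card_image_of_injective _ hinj, Finset.card_range]
    exact Nat.lt_succ_self _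

theorem exists_sub (φ : List (P3 p × P3 p)) : ∃ φ' : List (P3 p × P3 p), Sub φ' φ ∧
    (∀ c ∈ φ', c.1 ≠ 0) ∧ ∀ x : OO p, (∃ y : OO p, Holds (tau p) φ x y) →
      ∃ y : OO p, Holds (tau p) φ' x y := by
  classical
  induction φ with
  | nil =>
    refine ⟨[], fun c hc => by simp at hc, fun c hc => by simp at hc, fun x ⟨y, c, hc, _⟩ => ?_⟩
    simp at hc
  | cons a φ ih =>
    obtain ⟨φ', h1, h2, h3⟩ := ih
    by_cases ha : a.1 = 0
    · refine ⟨(List.range (a.2.natDegree + 1)).map (fun i => (X - C (C (X ^ i)), a.2)) ++ φ', ?_,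
        ?_, ?_⟩
      · intro c hc
        rcases List.mem_append.1 hc with hc | hc
        · obtain ⟨i, _, rfl⟩ := List.mem_map.1 hc
          exact ⟨a, List.mem_cons_self, rfl, Or.inr ha⟩
        · obtain ⟨c', hc', h4⟩ := h1 c hc
          exact ⟨c', List.mem_cons_of_mem _ hc', h4⟩
      · intro c hc
        rcases List.mem_append.1 hc with hc | hc
        · obtain ⟨i, _, rfl⟩ := List.mem_map.1 hc
          exact X_sub_C_ne_zero _
        · exact h2 c hc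
      · rintro x ⟨y, c, hc, hf, hg⟩
        rcases List.mem_cons.1 hc with rfl | hc
        · have hG : c.2.map (ev1 (tau p) x) ≠ 0 := by
            intro h
            apply hg
            rw [ev2_eq_eval, h, eval_zero]
          obtain ⟨i, hi, hi2⟩ := exists_pow_ne _ hG
          refine ⟨PowerSeries.X ^ i, (X - C (C (X ^ i)), c.2), ?_, ?_, ?_⟩
          · refine List.mem_append_left _ (List.mem_map.2 ⟨i, List.mem_range.2 ?_, rfl⟩)
            exact Nat.lt_succ_of_le (le_trans hi (natDegree_map_le))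
          · show ev2 (tau p) x (PowerSeries.X ^ i) (X - C (C (X ^ i))) = 0
            rw [map_sub, ev2_C', ev1_C, map_pow, tau_X, ev2_eq_eval, Polynomial.map_X, eval_X,
              sub_self]
          · show ev2 (tau p) x (PowerSeries.X ^ i) c.2 ≠ 0
            rw [ev2_eq_eval]
            exact hi2
        · obtain ⟨y', c', hc', h4⟩ := h3 x ⟨y, c, hc, hf, hg⟩
          exact ⟨y', c', List.mem_append_right _ hc', h4⟩
    · refine ⟨a :: φ', ?_, ?_, ?_⟩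
      · intro c hc
        rcases List.mem_cons.1 hc with rfl | hc
        · exact ⟨c, List.mem_cons_self, rfl, Or.inl rfl⟩
        · obtain ⟨c', hc', h4⟩ := h1 c hc
          exact ⟨c', List.mem_cons_of_mem _ hc', h4⟩
      · intro c hc
        rcases List.mem_cons.1 hc with rfl | hc
        · exact ha
        · exact h2 c hc
      · rintro x ⟨y, c, hc, hf, hg⟩
        rcases List.mem_cons.1 hc with rfl | hc
        · exact ⟨y, c, List.mem_cons_self, hf, hg⟩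
        · obtain ⟨y', c', hc', h4⟩ := h3 x ⟨y, c, hc, hf, hg⟩
          exact ⟨y', c', List.mem_cons_of_mem _ hc', h4⟩

/-! ### transcendental points -/

theorem ev1_congr {x x' : OO p} {N : ℕ} (h : PowerSeries.X ^ N ∣ x' - x) (F : P2 p) :
    PowerSeries.X ^ N ∣ ev1 (tau p) x' F - ev1 (tau p) x F := by
  rw [ev1_eq_eval, ev1_eq_eval]
  exact dvd_trans h (sub_dvd_eval_sub _ _ _)

theorem ev2_congr' {S : Type*} [CommRing S] (σ : P1 p →+* S) (x : S) {y y' d : S}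
    (h : d ∣ y' - y) (F : P3 p) : d ∣ ev2 σ x y' F - ev2 σ x y F := by
  rw [ev2_eq_eval, ev2_eq_eval]
  exact dvd_trans h (sub_dvd_eval_sub _ _ _)

theorem constCoeff_ev2 (ξ y₀ : OO p) (γ : ZMod p) (j : ℕ) {e : ℕ} (he : e ≠ 0)
    (Y : PowerSeries (KK p)) (hY : PowerSeries.constantCoeff Y = iK p y₀) (F : P3 p) :
    PowerSeries.constantCoeff (ev2 (iota p) (XX ξ γ j e) Y F) = iK p (ev2 (tau p) ξ y₀ F) := by
  rw [map_ev2', map_ev2', hY]
  congr 2
  · unfold XX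
    rw [map_add, map_mul, map_pow, PowerSeries.constantCoeff_X, zero_pow he, mul_zero, add_zero,
      PowerSeries.constantCoeff_C]
  

theorem local_trans {φ : List (P3 p × P3 p)} (hφ : ∀ c ∈ φ, c.1 ≠ 0)
    (h : ∀ x : OO p, ∃ y : OO p, Holds (tau p) φ x y) {ξ : OO p} (hξ : ¬ AlgO ξ) :
    ∃ N₀ : ℕ, ∀ N ≥ N₀, ∀ a : P1 p, PowerSeries.X ^ N₀ ∣ tau p a - ξ → BallOK φ N a := by
  obtain ⟨n, hn, hc⟩ := np φ hφ ξ (fun w _ => h (ξ + w))
  obtain ⟨e, he, hen, hpe, Y, ⟨y₀, hy₀⟩, fg, hfg, hf, hg⟩ := hc 1 one_ne_zero 0 hn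
  obtain ⟨ft, q, h', l, A, B, b, hb, hft, hsep, hftY⟩ := sep_data ξ one_ne_zero 0 hpe Y
    (hφ fg hfg) hf hg
  have hft0 : ev2 (tau p) ξ y₀ ft = 0 := by
    apply iK_injective
    rw [← constCoeff_ev2 ξ y₀ 1 0 (by omega : e ≠ 0) Y hy₀, hftY, map_zero, map_zero]
  have hb0 : ev1 (tau p) ξ b ≠ 0 := fun h1 => hξ ⟨b, hb, h1⟩
  obtain ⟨ν, hν1, hν2⟩ := ps_exists_order _ hb0
  refine ⟨2 * ν + 1, fun N hN a ha => ?_⟩
  obtain ⟨a', _, ha'⟩ := exists_polyN y₀ (2 * ν + 1)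
  set y₁ := polyN p (2 * ν + 1) a' with hy₁
  have hft1 : X ^ (2 * ν + 1) ∣ ev2 (RingHom.id (P1 p)) a y₁ ft := by
    rw [← X_pow_dvd_tau, map_ev2', RingHom.comp_id]
    have h1 : ev2 (tau p) (tau p a) (tau p y₁) ft =
        (ev2 (tau p) (tau p a) (tau p y₁) ft - ev2 (tau p) ξ (tau p y₁) ft) -
        (ev2 (tau p) ξ y₀ ft - ev2 (tau p) ξ (tau p y₁) ft) := by
      rw [hft0]; ring
    rw [h1]
    exact dvd_sub (ev2_congr ha _ _) (ev2_congr' _ _ ha' _)
  obtain ⟨R, hR⟩ := hft1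
  have hb1 : X ^ ν ∣ ev1 (RingHom.id (P1 p)) a b := by
    rw [← X_pow_dvd_tau, map_ev1', RingHom.comp_id]
    have h1 : ev1 (tau p) (tau p a) b =
        (ev1 (tau p) (tau p a) b - ev1 (tau p) ξ b) + ev1 (tau p) ξ b := by ring
    rw [h1]
    exact dvd_add (dvd_trans (pow_dvd_pow _ (by omega)) (ev1_congr ha _)) hν1
  have hb2 : ¬ X ^ (ν + 1) ∣ ev1 (RingHom.id (P1 p)) a b := by
    rw [← X_pow_dvd_tau, map_ev1', RingHom.comp_id]
    intro h1
    apply hν2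
    have h2 : ev1 (tau p) ξ b =
        ev1 (tau p) (tau p a) b - (ev1 (tau p) (tau p a) b - ev1 (tau p) ξ b) := by ring
    rw [h2]
    exact dvd_sub h1 (dvd_trans (pow_dvd_pow _ (by omega)) (ev1_congr ha _))
  obtain ⟨r, hr⟩ := hb1
  have hr0 : r.coeff 0 ≠ 0 := by
    intro h1
    apply hb2
    rw [hr, pow_succ]
    exact mul_dvd_mul_left _ (X_dvd_iff.2 h1)
  have h1 : X ∣ r * C (r.coeff 0)⁻¹ - 1 := by
    rw [X_dvd_iff, coeff_sub, coeff_mul_C, coeff_one_zero, mul_inv_cancel₀ hr0, sub_self]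
  obtain ⟨c₂, hc₂⟩ := h1
  refine ⟨fg, hfg, ft, q, h', l, A, B, b, hsep, ν, y₁, R, C (r.coeff 0)⁻¹, c₂, hN, hR, ?_⟩
  rw [hr, mul_assoc, ← hc₂]
  ring

end FT80
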