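import Pool.Agent.FT80.Complete2

/-!
# Completeness of the certificates of truth: algebraic points
-/

set_option maxSynthPendingDepth 10

open Polynomial

namespace FT80

variable {p : ℕ} [hp : Fact p.Prime]

/-! ### algebraicity -/

theorem algO_tau (d : P1 p) : AlgO (tau p d) :=
  ⟨X - C d, X_sub_C_ne_zero _, by rw [map_sub, ev1_X, ev1_C, sub_self]⟩

theorem algO_of_algK {z : OO p} (h : AlgK (iK p z)) : AlgO z := by
  obtain ⟨q, hq, h1⟩ := h
  exact ⟨q, hq, iK_injective (by rw [iK_ev1, h1, map_zero])⟩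

theorem algK_mul {z : KK p} (h : AlgK z) (d : P1 p) : AlgK (tauK p d * z) := by
  obtain ⟨q, hq, h1⟩ := h
  refine ⟨q.scaleRoots d, Polynomial.scaleRoots_ne_zero hq d, ?_⟩
  unfold ev1 at h1 ⊢
  rw [coe_eval₂RingHom] at h1 ⊢
  rw [Polynomial.scaleRoots_eval₂_mul, h1, mul_zero]

theorem algO_of_root {ξ y : OO p} (hξ : AlgO ξ) (F : P3 p) (hF : F.map (ev1 (tau p) ξ) ≠ 0)
    (hy : ev2 (tau p) ξ y F = 0) : AlgO y := by
  letI : Algebra (P1 p) (OO p) := (tau p).toAlgebra
  have hiff : ∀ z : OO p, AlgO z ↔ IsAlgebraic (P1 p) z := fun z => Iff.rfl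
  rw [hiff] at hξ ⊢
  set A := Subalgebra.algebraicClosure (P1 p) (OO p) with hA
  have hmem : ∀ q : P2 p, ev1 (tau p) ξ q ∈ A := by
    intro q
    exact ev1_mem A.toSubring (tau p) (fun r => A.algebraMap_mem r) (x := ξ) hξ q
  obtain ⟨F', hF'⟩ : ∃ F' : Polynomial A, F'.map (algebraMap A (OO p)) =
      F.map (ev1 (tau p) ξ) := by
    rw [← Polynomial.mem_lifts, Polynomial.lifts_iff_coeff_lifts]
    intro n
    rw [coeff_map]
    exact ⟨⟨_, hmem _⟩, rfl⟩
  have halg : IsAlgebraic A y := by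
    refine ⟨F', ?_, ?_⟩
    · rintro rfl
      rw [Polynomial.map_zero] at hF'
      exact hF hF'.symm
    · rw [aeval_def, eval₂_eq_eval_map, hF', ← ev2_eq_eval]
      exact hy
  exact halg.restrictScalars (P1 p)

/-! ### the scaling -/

theorem scale_int (Y : ℕ → KK p) {y₀ : OO p} (h0 : Y 0 = iK p y₀) (D : ℕ) :
    ∃ r : ℕ, ∀ i ≤ D, ∃ y : OO p, iK p y = iK p PowerSeries.X ^ (r * i) * Y i := by
  induction D with
  | zero =>
    refine ⟨0, fun i hi => ⟨y₀, ?_⟩⟩
    rw [Nat.le_zero.1 hi, mul_zero, pow_zero, one_mul, h0]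
  | succ D ih =>
    obtain ⟨r, hr⟩ := ih
    obtain ⟨s, z, hz⟩ := exists_scale (Y (D + 1))
    refine ⟨r + s, fun i hi => ?_⟩
    rcases Nat.lt_or_ge D i with h1 | h1
    · have h2 : i = D + 1 := by omega
      subst h2
      refine ⟨PowerSeries.X ^ (r * (D + 1) + s * D) * z, ?_⟩
      rw [map_mul, ← hz, map_pow, show (r + s) * (D + 1) = (r * (D + 1) + s * D) + s by ring,
        pow_add _ (r * (D + 1) + s * D) s]
      ring
    · obtain ⟨y, hy⟩ := hr i h1
      refine ⟨PowerSeries.X ^ (s * i) * y, ?_⟩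
      rw [map_mul, hy, map_pow, add_mul, pow_add]
      ring

/-- `O[u] → K[[X]]` -/
noncomputable def om (p : ℕ) [Fact p.Prime] : Polynomial (OO p) →+* PowerSeries (KK p) :=
  (Polynomial.coeToPowerSeries.ringHom).comp (Polynomial.mapRingHom (iK p))

theorem coeff_om (G : Polynomial (OO p)) (i : ℕ) :
    PowerSeries.coeff i (om p G) = iK p (G.coeff i) := by
  unfold om
  rw [RingHom.comp_apply, coe_mapRingHom, Polynomial.coeToPowerSeries.ringHom_apply,
    Polynomial.coeff_coe, coeff_map]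

theorem om_C (z : OO p) : om p (C z) = PowerSeries.C (iK p z) := by
  unfold om
  rw [RingHom.comp_apply, coe_mapRingHom, map_C, Polynomial.coeToPowerSeries.ringHom_apply,
    Polynomial.coe_C]

theorem om_X : om p X = PowerSeries.X := by
  unfold om
  rw [RingHom.comp_apply, coe_mapRingHom, Polynomial.map_X,
    Polynomial.coeToPowerSeries.ringHom_apply, Polynomial.coe_X]

theorem om_comp_Ct : (om p).comp (Ct p) = iota p := by
  refine RingHom.ext (fun d => ?_)
  unfold Ct iota tauK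
  rw [RingHom.comp_apply, RingHom.comp_apply, om_C, RingHom.comp_apply, RingHom.comp_apply]

theorem X_pow_dvd_om {G : Polynomial (OO p)} {n : ℕ} (h : PowerSeries.X ^ n ∣ om p G) :
    X ^ n ∣ G := by
  rw [Polynomial.X_pow_dvd_iff]
  intro d hd
  rw [PowerSeries.X_pow_dvd_iff] at h
  have h1 := h d hd
  rw [coeff_om] at h1
  exact iK_injective (h1.trans (map_zero _).symm)

/-- the point `ξ + γ t^J u^e` of `O[u]` -/
noncomputable def xu (ξ : OO p) (γ : ZMod p) (J e : ℕ) : Polynomial (OO p) :=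
  C ξ + C (PowerSeries.C γ * PowerSeries.X ^ J) * X ^ e

theorem om_xu (ξ : OO p) (γ : ZMod p) (J e : ℕ) : om p (xu ξ γ J e) = XX ξ γ J e := by
  unfold xu XX
  rw [map_add, map_mul, map_pow, om_C, om_C, om_X]

theorem rescale_C' (a c : KK p) :
    PowerSeries.rescale a (PowerSeries.C c) = PowerSeries.C c := by
  ext n
  rw [PowerSeries.coeff_rescale, PowerSeries.coeff_C]
  split_ifs with h
  · rw [h, pow_zero, one_mul]
  · rw [mul_zero]

theorem rescale_XX (ξ : OO p) (γ : ZMod p) (j e r : ℕ) :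
    PowerSeries.rescale (iK p PowerSeries.X ^ r) (XX ξ γ j e) = XX ξ γ (j + r * e) e := by
  unfold XX
  rw [map_add, map_mul, map_pow, rescale_C', rescale_C', PowerSeries.rescale_X, mul_pow,
    ← map_pow, ← mul_assoc, ← map_mul]
  congr 3
  rw [map_mul, map_mul, map_pow, map_pow, ← pow_mul, mul_assoc, ← pow_add]

theorem rescale_comp_iota (a : KK p) : (PowerSeries.rescale a).comp (iota p) = iota p := by
  refine RingHom.ext (fun d => ?_)
  unfold iota
  rw [RingHom.comp_apply, RingHom.comp_apply, rescale_C']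

/-- the data for one class -/
theorem class_data {ξ : OO p} (hξ : AlgO ξ) {γ : ZMod p} (hγ : γ ≠ 0) (j : ℕ) {e : ℕ}
    (he : e ≠ 0) (hpe : ¬ p ∣ e) {Y : PowerSeries (KK p)} {y₀ : OO p}
    (hY : PowerSeries.constantCoeff Y = iK p y₀) {f g : P3 p} (hf0 : f ≠ 0)
    (hf : ev2 (iota p) (XX ξ γ j e) Y f = 0) (hg : ev2 (iota p) (XX ξ γ j e) Y g ≠ 0) :
    ∃ J : ℕ, J % e = j % e ∧ ∃ (ft q h l A B : P3 p) (b : P2 p), SepRel f g ft q h l A B b ∧
      ∃ (Yh R R' : Polynomial (OO p)) (a₀ c₁ : OO p) (C₀ β : ℕ),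
        (∀ i, AlgO (Yh.coeff i)) ∧
        ev2 (Ct p) (xu ξ γ J e) Yh ft = X ^ (2 * C₀ + 1) * R ∧
        ev1 (Ct p) (xu ξ γ J e) b = X ^ C₀ * (C a₀ + X * R') ∧
        a₀ ≠ 0 ∧ a₀ * c₁ = PowerSeries.X ^ β := by
  obtain ⟨ft, q, h, l, A, B, b, hb, hft0, hsep, hft⟩ := sep_data ξ hγ j hpe Y hf0 hf hg
  have halg := coeff_alg hξ hγ j he Y hft0 hft
  have hbX : ev1 (iota p) (XX ξ γ j e) b ≠ 0 := by
    intro h1
    apply hb
    refine SepC.subst_injective_ps (tauK p) tauK_injective (iK p ξ) _ (SepC.gamma_ne hγ j) he ?_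
    rw [map_zero]
    exact h1
  obtain ⟨C₀, hC1, hC2⟩ := ps_exists_order _ hbX
  obtain ⟨r, hr⟩ := scale_int (fun i => PowerSeries.coeff i Y) (y₀ := y₀) (by
    show PowerSeries.coeff 0 Y = _
    rw [PowerSeries.coeff_zero_eq_constantCoeff_apply, hY]) (2 * C₀)
  choose! y hy using hr
  have hyalg : ∀ i ≤ 2 * C₀, AlgO (y i) := by
    intro i hi
    apply algO_of_algK
    rw [hy i hi]
    have h1 : iK p PowerSeries.X ^ (r * i) = tauK p (X ^ (r * i)) := by
      unfold tauK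
      rw [RingHom.comp_apply, map_pow, tau_X, map_pow]
    rw [h1]
    exact algK_mul (halg i) _
  set Yh : Polynomial (OO p) := ∑ i ∈ Finset.range (2 * C₀ + 1), monomial i (y i) with hYh
  have hYc : ∀ i, Yh.coeff i = if i < 2 * C₀ + 1 then y i else 0 := by
    intro i
    rw [hYh, finset_sum_coeff]
    simp only [coeff_monomial]
    rw [Finset.sum_ite_eq' (Finset.range (2 * C₀ + 1)) i (fun i => y i)]
    simp only [Finset.mem_range]
  set ρ := PowerSeries.rescale (iK p (PowerSeries.X : OO p) ^ r) with hρ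
  have hρX : ρ (XX ξ γ j e) = XX ξ γ (j + r * e) e := rescale_XX ξ γ j e r
  have hρi : ρ.comp (iota p) = iota p := rescale_comp_iota _
  -- the first equation
  have e1 : X ^ (2 * C₀ + 1) ∣ ev2 (Ct p) (xu ξ γ (j + r * e) e) Yh ft := by
    apply X_pow_dvd_om
    rw [map_ev2', om_comp_Ct, om_xu]
    have h1 : ev2 (iota p) (XX ξ γ (j + r * e) e) (ρ Y) ft = 0 := by
      rw [← hρX]
      conv_lhs => rw [← hρi]
      rw [← map_ev2', hft, map_zero]
    have h2 : PowerSeries.X ^ (2 * C₀ + 1) ∣ om p Yh - ρ Y := by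
      rw [PowerSeries.X_pow_dvd_iff]
      intro i hi
      rw [map_sub, coeff_om, hYc, if_pos hi, hρ, PowerSeries.coeff_rescale,
        hy i (Nat.lt_succ_iff.1 hi), ← pow_mul, sub_self]
    have h3 := ev2_congr' (iota p) (XX ξ γ (j + r * e) e) h2 ft
    rw [h1, sub_zero] at h3
    exact h3
  obtain ⟨R, hR⟩ := e1
  -- the second equation
  have hb2 : ∀ i, iK p ((ev1 (Ct p) (xu ξ γ (j + r * e) e) b).coeff i) =
      (iK p PowerSeries.X ^ r) ^ i *
        PowerSeries.coeff i (ev1 (iota p) (XX ξ γ j e) b) := by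
    intro i
    rw [← coeff_om, map_ev1', om_comp_Ct, om_xu, ← hρX]
    conv_lhs => rw [← hρi]
    rw [← map_ev1', hρ, PowerSeries.coeff_rescale]
  have e2 : X ^ C₀ ∣ ev1 (Ct p) (xu ξ γ (j + r * e) e) b := by
    rw [Polynomial.X_pow_dvd_iff]
    intro i hi
    apply iK_injective
    rw [PowerSeries.X_pow_dvd_iff] at hC1
    rw [hb2, hC1 i hi, mul_zero, map_zero]
  obtain ⟨B₁, hB₁⟩ := e2
  have ha0 : B₁.coeff 0 ≠ 0 := by
    intro h1
    apply hC2
    rw [PowerSeries.X_pow_dvd_iff]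
    intro i hi
    rcases Nat.lt_or_ge i C₀ with h2 | h2
    · rw [PowerSeries.X_pow_dvd_iff] at hC1
      exact hC1 i h2
    · have h3 : i = C₀ := by omega
      subst h3
      have h4 := hb2 i
      rw [hB₁, coeff_X_pow_mul', if_pos le_rfl, Nat.sub_self, h1, map_zero] at h4
      have hX0 : iK p (PowerSeries.X : OO p) ≠ 0 := by
        intro h5
        exact PowerSeries.X_ne_zero (iK_injective (h5.trans (map_zero _).symm))
      exact (mul_eq_zero.1 h4.symm).resolve_left (pow_ne_zero _ (pow_ne_zero _ hX0))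
  obtain ⟨R', hR'⟩ : X ∣ B₁ - C (B₁.coeff 0) := by
    rw [X_dvd_iff, coeff_sub, coeff_C_zero, sub_self]
  obtain ⟨v, hv1, hv2⟩ := ps_exists_order _ ha0
  obtain ⟨c₁, hc₁⟩ := dvd_X_pow hv2
  refine ⟨j + r * e, by rw [Nat.add_mul_mod_self_right], ft, q, h, l, A, B, b, hsep, Yh, R, R',
    B₁.coeff 0, c₁, C₀, v + 1, ?_, hR, ?_, ha0, hc₁⟩
  · intro i
    rw [hYc]
    split_ifs with hi
    · exact hyalg i (Nat.lt_succ_iff.1 hi)
    · rw [← map_zero (tau p)]
      exact algO_tau 0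
  · rw [hB₁, ← hR']
    ring

end FT80
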