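import Pool.Agent.FT80.Complete3

/-!
# Completeness of the certificates of truth: conclusion
-/

set_option maxSynthPendingDepth 10

open Polynomial

namespace FT80

variable {p : ℕ} [hp : Fact p.Prime]

/-- the data at one algebraic point, for one class -/
def CD (φ : List (P3 p × P3 p)) (ξ : OO p) (n : ℕ) (γ : ZMod p) (j M : ℕ) (S : Finset (OO p)) :
    Prop :=
  ∃ fg ∈ φ, ∃ e J : ℕ, 1 ≤ e ∧ e ∣ n ∧ ¬ p ∣ e ∧ J % e = j % e ∧
    ∃ (ft q h l A B : P3 p) (b : P2 p), SepRel fg.1 fg.2 ft q h l A B b ∧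
      ∃ (Yh R R' : Polynomial (OO p)) (a₀ c₁ : OO p) (C₀ β : ℕ), J + e * (2 * β + 1) ≤ M ∧
        (∀ i, Yh.coeff i ∈ S) ∧
        ev2 (Ct p) (xu ξ γ J e) Yh ft = X ^ (2 * C₀ + 1) * R ∧
        ev1 (Ct p) (xu ξ γ J e) b = X ^ C₀ * (C a₀ + X * R') ∧
        a₀ ≠ 0 ∧ a₀ * c₁ = PowerSeries.X ^ β

theorem CD.mono {φ : List (P3 p × P3 p)} {ξ : OO p} {n : ℕ} {γ : ZMod p} {j M M' : ℕ}
    {S S' : Finset (OO p)} (h : CD φ ξ n γ j M S) (hM : M ≤ M') (hS : S ⊆ S') :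
    CD φ ξ n γ j M' S' := by
  obtain ⟨fg, hfg, e, J, h1, h2, h3, h4, ft, q, h', l, A, B, b, hsep, Yh, R, R', a₀, c₁, C₀, β,
    h5, h6, h7⟩ := h
  exact ⟨fg, hfg, e, J, h1, h2, h3, h4, ft, q, h', l, A, B, b, hsep, Yh, R, R', a₀, c₁, C₀, β,
    le_trans h5 hM, fun i => hS (h6 i), h7⟩

theorem exists_CD {φ : List (P3 p × P3 p)} (hφ : ∀ c ∈ φ, c.1 ≠ 0)
    (h : ∀ x : OO p, ∃ y : OO p, Holds (tau p) φ x y) {ξ : OO p} (hξ : AlgO ξ) :
    ∃ n ≥ 1, ∃ (M : ℕ) (S : Finset (OO p)), (∀ s ∈ S, AlgO s) ∧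
      ∀ γ : ZMod p, γ ≠ 0 → ∀ j < n, CD φ ξ n γ j M S := by
  classical
  haveI : NeZero p := ⟨hp.out.ne_zero⟩
  obtain ⟨n, hn, hc⟩ := np φ hφ ξ (fun w _ => h (ξ + w))
  have key : ∀ π : ZMod p × Fin n, ∃ (M : ℕ) (S : Finset (OO p)), (∀ s ∈ S, AlgO s) ∧
      (π.1 ≠ 0 → CD φ ξ n π.1 π.2 M S) := by
    rintro ⟨γ, j⟩
    by_cases hγ : γ = 0
    · exact ⟨0, ∅, fun s hs => by simp at hs, fun h1 => (h1 hγ).elim⟩
    · obtain ⟨e, he, hen, hpe, Y, ⟨y₀, hy₀⟩, fg, hfg, hf, hg⟩ := hc γ hγ j j.2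
      obtain ⟨J, hJ, ft, q, h', l, A, B, b, hsep, Yh, R, R', a₀, c₁, C₀, β, hYh, h1, h2, h3, h4⟩ :=
        class_data hξ hγ j (by omega : e ≠ 0) hpe hy₀ (hφ fg hfg) hf hg
      refine ⟨J + e * (2 * β + 1), insert 0 (Yh.support.image Yh.coeff), ?_, fun _ =>
        ⟨fg, hfg, e, J, he, hen, hpe, hJ, ft, q, h', l, A, B, b, hsep, Yh, R, R', a₀, c₁, C₀, β,
          le_rfl, ?_, h1, h2, h3, h4⟩⟩
      · intro s hs
        rcases Finset.mem_insert.1 hs with rfl | hs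
        · rw [← map_zero (tau p)]
          exact algO_tau 0
        · obtain ⟨i, _, rfl⟩ := Finset.mem_image.1 hs
          exact hYh i
      · intro i
        by_cases h5 : Yh.coeff i = 0
        · rw [h5]
          exact Finset.mem_insert_self _ _
        · exact Finset.mem_insert_of_mem (Finset.mem_image_of_mem _ (mem_support_iff.2 h5))
  choose M S hS hCD using key
  refine ⟨n, hn, Finset.univ.sup M, Finset.univ.biUnion S, ?_, ?_⟩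
  · intro s hs
    obtain ⟨π, _, hπ⟩ := Finset.mem_biUnion.1 hs
    exact hS π s hπ
  · intro γ hγ j hj
    exact (hCD (γ, ⟨j, hj⟩) hγ).mono (Finset.le_sup (Finset.mem_univ _))
      (Finset.subset_biUnion_of_mem S (Finset.mem_univ _))

/-- the data at the point itself -/
theorem exists_point {φ : List (P3 p × P3 p)} {ξ : OO p} (hξ : AlgO ξ)
    (h : ∃ y : OO p, Holds (tau p) φ ξ y) : ∃ y : OO p, AlgO y ∧ Holds (tau p) φ ξ y := by
  obtain ⟨y, fg, hfg, hf, hg⟩ := h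
  by_cases hF : fg.1.map (ev1 (tau p) ξ) = 0
  · have hG : fg.2.map (ev1 (tau p) ξ) ≠ 0 := by
      intro h1
      apply hg
      rw [ev2_eq_eval, h1, eval_zero]
    obtain ⟨i, _, hi⟩ := exists_pow_ne _ hG
    refine ⟨PowerSeries.X ^ i, ?_, fg, hfg, ?_, ?_⟩
    · rw [← tau_X, ← map_pow]
      exact algO_tau _
    · rw [ev2_eq_eval, hF, eval_zero]
    · rw [ev2_eq_eval]
      exact hi
  · exact ⟨y, algO_of_root hξ fg.1 hF hf, fg, hfg, hf, hg⟩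

theorem xu_mem {θ ξ : OO p} (hξ : ξ ∈ OTheta θ) (γ : ZMod p) (J e : ℕ) :
    xu ξ γ J e ∈ PTheta θ := by
  unfold xu
  refine Subring.add_mem _ (C_mem_PTheta hξ) (Subring.mul_mem _ (C_mem_PTheta ?_)
    (Subring.pow_mem _ (X_mem_PTheta θ) _))
  have h1 : (PowerSeries.C γ * PowerSeries.X ^ J : OO p) = tau p (C γ * X ^ J) := by
    rw [map_mul, map_pow, tau_X]
    congr 1
    simp [tau]
  rw [h1]
  exact tau_mem θ _

theorem mem_of_X_pow_mul {θ : OO p} {G R : Polynomial (OO p)} {k : ℕ} (hG : G ∈ PTheta θ)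
    (h : G = X ^ k * R) : R ∈ PTheta θ := by
  intro i
  have h1 := hG (i + k)
  rw [h, coeff_X_pow_mul] at h1
  exact h1

theorem local_alg {φ : List (P3 p × P3 p)} (hφ : ∀ c ∈ φ, c.1 ≠ 0)
    (h : ∀ x : OO p, ∃ y : OO p, Holds (tau p) φ x y) {ξ : OO p} (hξ : AlgO ξ) :
    ∃ N₀ : ℕ, ∀ N ≥ N₀, ∀ a : P1 p, PowerSeries.X ^ N₀ ∣ tau p a - ξ → AlphaOK φ N a := by
  classical
  obtain ⟨n, hn, M, S, hS, hCD⟩ := exists_CD hφ h hξ
  obtain ⟨y, hy, fg₀, hfg₀, hf₀, hg₀⟩ := exists_point hξ (h ξ)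
  obtain ⟨m, θ, hθ, hSθ⟩ := theta_data (insert ξ (insert y S)) (by
    intro s hs
    rcases Finset.mem_insert.1 hs with rfl | hs
    · exact hξ
    rcases Finset.mem_insert.1 hs with rfl | hs
    · exact hy
    · exact hS s hs)
  have hξθ : ξ ∈ OTheta θ := hSθ ξ (Finset.mem_insert_self _ _)
  have hyθ : y ∈ OTheta θ := hSθ y (Finset.mem_insert_of_mem (Finset.mem_insert_self _ _))
  have hSS : ∀ s ∈ S, s ∈ OTheta θ := fun s hs =>
    hSθ s (Finset.mem_insert_of_mem (Finset.mem_insert_of_mem hs))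
  refine ⟨M, fun N hN a ha => ?_⟩
  obtain ⟨R₀, hR₀⟩ : PowerSeries.X ^ M ∣ ξ - tau p a := by
    rw [← neg_sub, dvd_neg]
    exact ha
  have hR₀θ : R₀ ∈ OTheta θ := by
    refine div_mem hθ (w := PowerSeries.X ^ M) ?_ (z := ξ - tau p a) ?_ ?_ hR₀.symm
    · rw [← tau_X, ← map_pow]
      exact tau_mem θ _
    · exact Subring.sub_mem _ hξθ (tau_mem θ _)
    · exact pow_ne_zero _ PowerSeries.X_ne_zero
  -- the point
  obtain ⟨v, hv1, hv2⟩ := ps_exists_order _ hg₀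
  obtain ⟨h', hh'⟩ := dvd_X_pow hv2
  have hh'θ : h' ∈ OTheta θ := by
    refine div_mem hθ (ev2_mem _ _ (tau_mem θ) hξθ hyθ fg₀.2) (z := PowerSeries.X ^ (v + 1)) ?_
      hg₀ hh'
    rw [← tau_X, ← map_pow]
    exact tau_mem θ _
  -- the classes
  have hcl : ∀ π ∈ (Finset.range p ×ˢ Finset.range n).filter (fun π => 1 ≤ π.1),
      Lift θ (fun c ζ => ∃ fg ∈ φ, ∃ e J : ℕ, 1 ≤ e ∧ e ∣ n ∧ ¬ p ∣ e ∧ J % e = π.2 % e ∧
        ∃ (ft q h l A B : P3 p) (b : P2 p), SepRel fg.1 fg.2 ft q h l A B b ∧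
          ∃ (Yh R : P4 p) (a₀ c₁ : P3 p) (R' : P4 p) (C₀ β : ℕ), J + e * (2 * β + 1) ≤ M ∧
            ev2 (Ct p) (xu ξ (π.1 : ZMod p) J e) (evth ζ θ Yh) ft =
              X ^ (2 * C₀ + 1) * evth ζ θ R ∧
            ev1 (Ct p) (xu ξ (π.1 : ZMod p) J e) b =
              X ^ C₀ * (C (ev2 (tau p) ζ θ a₀) + X * evth ζ θ R') ∧
            ev2 (tau p) ζ θ a₀ * ev2 (tau p) ζ θ c₁ = PowerSeries.X ^ β) := by
    rintro ⟨γ, j⟩ hπ
    rw [Finset.mem_filter, Finset.mem_product, Finset.mem_range, Finset.mem_range] at hπ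
    obtain ⟨⟨hγp, hjn⟩, hγ1⟩ := hπ
    dsimp only at hγp hjn hγ1 ⊢
    have hγ : (γ : ZMod p) ≠ 0 := by
      rw [Ne, ZMod.natCast_eq_zero_iff]
      intro h1
      have := Nat.le_of_dvd (by omega) h1
      omega
    obtain ⟨fg, hfg, e, J, h1, h2, h3, h4, ft, q, h', l, A, B, b, hsep, Yh, R, R', a₀, c₁, C₀, β,
      h5, h6, h7, h8, h9, h10⟩ := hCD γ hγ j hjn
    have hYhθ : Yh ∈ PTheta θ := fun i => hSS _ (h6 i)
    have hxu := xu_mem hξθ (γ : ZMod p) J e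
    have hRθ : R ∈ PTheta θ :=
      mem_of_X_pow_mul (ev2_mem _ _ (Ct_mem θ) hxu hYhθ ft) h7
    have hBθ : C a₀ + X * R' ∈ PTheta θ :=
      mem_of_X_pow_mul (ev1_mem _ _ (Ct_mem θ) hxu b) h8
    have ha₀θ : a₀ ∈ OTheta θ := by
      have := hBθ 0
      rwa [coeff_add, coeff_C_zero, coeff_X_mul_zero, add_zero] at this
    have hR'θ : R' ∈ PTheta θ := by
      refine mem_of_X_pow_mul (k := 1) (G := (C a₀ + X * R') - C a₀)
        (Subring.sub_mem _ hBθ (C_mem_PTheta ha₀θ)) ?_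
      rw [pow_one]
      ring
    have hc₁θ : c₁ ∈ OTheta θ := by
      refine div_mem hθ ha₀θ (z := PowerSeries.X ^ β) ?_ h9 h10
      rw [← tau_X, ← map_pow]
      exact tau_mem θ _
    refine (((lift4 hYhθ).and (lift4 hRθ)).and (((lift3 ha₀θ).and (lift3 hc₁θ)).and
      (lift4 hR'θ))).imp ?_
    rintro c ζ hc ⟨⟨⟨Yh', hYh'⟩, ⟨R1, hR1⟩⟩, ⟨⟨a', ha'⟩, ⟨c', hc'⟩⟩, ⟨R2, hR2⟩⟩
    exact ⟨fg, hfg, e, J, h1, h2, h3, h4, ft, q, h', l, A, B, b, hsep, Yh', R1, a', c', R2, C₀, β,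
      h5, by rw [hYh', hR1]; exact h7, by rw [ha', hR2]; exact h8, by rw [ha', hc']; exact h10⟩
  obtain ⟨c, ζ, hc0, hcζ, ⟨⟨⟨α, hα⟩, ⟨R0', hR0'⟩⟩, ⟨⟨η, hη⟩, ⟨h1', hh1'⟩⟩⟩, hcl'⟩ :=
    ((((lift3 hξθ).and (lift3 hR₀θ)).and ((lift3 hyθ).and (lift3 hh'θ))).and
      (Lift.ball _ hcl)).exists
  refine ⟨m, c, ⟨hθ.1, hθ.2.1, hc0⟩, α, R0', M, n, hN, hn, ?_, ?_, ?_⟩
  · refine eqv_of_eval hθ hcζ ?_
    rw [evth_C, map_add, map_mul, evth_kap, evth_kap, evth_C, hα, hR0', ← C_mul, ← C_add,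
      map_pow, tau_X, ← hR₀]
    congr 1
    ring
  · refine ⟨fg₀, hfg₀, η, h1', v + 1, eqv_of_eval hθ hcζ ?_, eqv_of_eval hθ hcζ ?_⟩
    · rw [evth_ev2, evth_C, evth_C, hα, hη, ev2_Ct_C, hf₀, map_zero, map_zero]
    · rw [map_mul, evth_ev2, evth_C, evth_C, evth_C, hα, hη, ev2_Ct_C, hh1', ← C_mul, hh',
        evth_kap, map_pow (tau p), tau_X]
  · intro γ hγ1 hγ2 j hj
    obtain ⟨fg, hfg, e, J, h1, h2, h3, h4, ft, q, h', l, A, B, b, hsep, Yh, R, a₀, c₁, R', C₀, β,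
      h5, h6, h7, h8⟩ := hcl' (γ, j) (by
        rw [Finset.mem_filter, Finset.mem_product, Finset.mem_range, Finset.mem_range]
        exact ⟨⟨hγ2, hj⟩, hγ1⟩)
    dsimp only at h4 h6 h7
    have hxx : evth ζ θ (C α + kap p ((γ : P1 p) * X ^ J) * X ^ e) = xu ξ (γ : ZMod p) J e := by
      unfold xu
      rw [map_add, map_mul, map_pow, evth_C, evth_X, evth_kap, hα]
      congr 3
      rw [map_mul, map_pow, tau_X]
      congr 1
      rw [map_natCast, map_natCast]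
    refine ⟨fg, hfg, e, J, h1, h2, h3, h4, ft, q, h', l, A, B, b, hsep, Yh, R, a₀, c₁, R', C₀, β,
      h5, eqv_of_eval hθ hcζ ?_, eqv_of_eval hθ hcζ ?_, eqv_of_eval hθ hcζ ?_⟩
    · rw [evth_ev2, hxx, h6, map_mul, map_pow, evth_X]
    · rw [evth_ev1, hxx, h7, map_mul, map_pow, evth_X, map_add, evth_C, map_mul, evth_X]
    · rw [evth_C, map_mul, h8, evth_kap, map_pow (tau p), tau_X]

theorem true_complete (φ : List (P3 p × P3 p))
    (h : ∀ x : OO p, ∃ y : OO p, Holds (tau p) φ x y) : TrueOK φ := by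
  obtain ⟨φ', h1, h2, h3⟩ := exists_sub φ
  refine TrueOK.sub h1 ?_
  have h' : ∀ x : OO p, ∃ y : OO p, Holds (tau p) φ' x y := fun x => h3 x (h x)
  obtain ⟨N, hN⟩ := compact_cover (p := p) (fun N x => ∀ a < p ^ N,
    PowerSeries.X ^ N ∣ x - tau p (polyN p N a) →
      BallOK φ' N (polyN p N a) ∨ AlphaOK φ' N (polyN p N a)) (by
    intro ξ
    have key : ∃ N₀ : ℕ, ∀ N ≥ N₀, ∀ a : P1 p, PowerSeries.X ^ N₀ ∣ tau p a - ξ →
        BallOK φ' N a ∨ AlphaOK φ' N a := by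
      by_cases hξ : AlgO ξ
      · obtain ⟨N₀, hN₀⟩ := local_alg h2 h' hξ
        exact ⟨N₀, fun N hN a ha => Or.inr (hN₀ N hN a ha)⟩
      · obtain ⟨N₀, hN₀⟩ := local_trans h2 h' hξ
        exact ⟨N₀, fun N hN a ha => Or.inl (hN₀ N hN a ha)⟩
    obtain ⟨N₀, hN₀⟩ := key
    refine ⟨N₀, fun N hN x hx a _ hxa => hN₀ N hN _ ?_⟩
    have h4 : tau p (polyN p N a) - ξ = (x - ξ) - (x - tau p (polyN p N a)) := by ring
    rw [h4]
    exact dvd_sub hx (dvd_trans (pow_dvd_pow _ hN) hxa))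
  refine ⟨N, fun a ha => hN (tau p (polyN p N a)) a ha ?_⟩
  rw [sub_self]
  exact dvd_zero _

end FT80
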