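import Mathlib

/-!
# Definitions for the decidability of `∀ x ∃ y` sentences over `F_p[[t]]` and `F_p((t))`

`P1 = F_p[t]`, `P2 = F_p[t][x]`, `P3 = F_p[t][x][y]` (the last variable is the outermost one).
-/

set_option maxSynthPendingDepth 10

open Polynomial

namespace FT80

abbrev P1 (p : ℕ) := Polynomial (ZMod p)
abbrev P2 (p : ℕ) := Polynomial (P1 p)
abbrev P3 (p : ℕ) := Polynomial (P2 p)
abbrev P4 (p : ℕ) := Polynomial (P3 p)
/-- the ring `F_p[[t]]` -/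
abbrev OO (p : ℕ) := PowerSeries (ZMod p)
/-- the field `F_p((t))` -/
abbrev KK (p : ℕ) := LaurentSeries (ZMod p)

/-- evaluation of a polynomial in `R[x][y]` at `x, y ∈ S` along `σ : R → S` -/
noncomputable def ev2 {R S : Type*} [CommRing R] [CommRing S] (σ : R →+* S) (x y : S) :
    Polynomial (Polynomial R) →+* S :=
  Polynomial.eval₂RingHom (Polynomial.eval₂RingHom σ x) y

/-- evaluation of a polynomial in `R[x]` at `x ∈ S` along `σ : R → S` -/
noncomputable def ev1 {R S : Type*} [CommRing R] [CommRing S] (σ : R →+* S) (x : S) :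
    Polynomial R →+* S :=
  Polynomial.eval₂RingHom σ x

/-- `F_p[t] → F_p[[t]]` -/
noncomputable def tau (p : ℕ) : P1 p →+* OO p := Polynomial.coeToPowerSeries.ringHom

/-- `F_p[[t]] → F_p((t))` -/
noncomputable def iK (p : ℕ) : OO p →+* KK p := algebraMap (OO p) (KK p)

/-- `F_p[t] → F_p((t))` -/
noncomputable def tauK (p : ℕ) : P1 p →+* KK p := (iK p).comp (tau p)

/-- `F_p[t] → F_p[t][Z][T][u]` -/
noncomputable def kap (p : ℕ) : P1 p →+* P4 p :=
  ((C : P3 p →+* P4 p).comp (C : P2 p →+* P3 p)).comp (C : P1 p →+* P2 p)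

/-- a quantifier free formula in `x, y`, as a list of pairs `(f, g)`, each standing for
`f = 0 ∧ g ≠ 0`, holds at `(x, y)` -/
def Holds {p : ℕ} {S : Type*} [CommRing S] (σ : P1 p →+* S) (φ : List (P3 p × P3 p))
    (x y : S) : Prop :=
  ∃ c ∈ φ, ev2 σ x y c.1 = 0 ∧ ev2 σ x y c.2 ≠ 0

section certs

variable {p : ℕ}

/-- `m ∈ F_p[t][T]` has a simple root in `t F_p[[t]]` and `c ∈ F_p[t]` is a unit of `F_p[[t]]` -/
def HenselData (m : P2 p) (c : P1 p) : Prop :=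
  (m.coeff 0).coeff 0 = 0 ∧ (m.coeff 1).coeff 0 ≠ 0 ∧ c.coeff 0 ≠ 0

/-- `m(T)` as an element of `F_p[t][Z][T]` -/
noncomputable def mhat (m : P2 p) : P3 p := m.map (C : P1 p →+* P2 p)

/-- `c(t) Z - 1` as an element of `F_p[t][Z][T]` -/
noncomputable def zhat (c : P1 p) : P3 p := C (C c * X - 1)

/-- certified equality of `E₁` and `E₂` after `Z ↦ 1/c`, `T ↦ θ` -/
def Eqv (m : P2 p) (c : P1 p) (E₁ E₂ : P4 p) : Prop :=
  ∃ (d : P1 p) (S S' : P4 p), d ≠ 0 ∧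
    kap p d * E₁ = kap p d * E₂ + C (mhat m) * S + C (zhat c) * S'

/-- the separable polynomial `ft` (in `y`), away from the zeros of `b(x)`, has only simple roots
and at these roots `f = 0` and `g ≠ 0` -/
def SepRel (f g ft q h l A B : P3 p) (b : P2 p) : Prop :=
  C b * f = ft * q ∧ g * h + ft * l = C b ∧ ft * A + derivative ft * B = C b

/-- certificate for a ball `a + t^N O` -/
def BallOK (φ : List (P3 p × P3 p)) (N : ℕ) (a : P1 p) : Prop :=
  ∃ fg ∈ φ, ∃ (ft q h l A B : P3 p) (b : P2 p), SepRel fg.1 fg.2 ft q h l A B b ∧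
    ∃ (ν : ℕ) (y₁ R c₁ c₂ : P1 p), 2 * ν + 1 ≤ N ∧
      ev2 (RingHom.id (P1 p)) a y₁ ft = X ^ (2 * ν + 1) * R ∧
      ev1 (RingHom.id (P1 p)) a b * c₁ = X ^ ν * (1 + X * c₂)

/-- certificate for the single point `x = α` -/
def PointOK (φ : List (P3 p × P3 p)) (m : P2 p) (c : P1 p) (α : P3 p) : Prop :=
  ∃ fg ∈ φ, ∃ (η h' : P3 p) (β : ℕ),
    Eqv m c (ev2 (kap p) (C α) (C η) fg.1) 0 ∧
    Eqv m c (ev2 (kap p) (C α) (C η) fg.2 * C h') (kap p (X ^ β))

/-- certificate for all `x = α + w` with `v(w) ≥ M`, `v(w) ≡ j` mod `n`, leading coefficient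
`γ` -/
def ClassOK (φ : List (P3 p × P3 p)) (m : P2 p) (c : P1 p) (α : P3 p) (M n γ j : ℕ) : Prop :=
  ∃ fg ∈ φ, ∃ (e J : ℕ), 1 ≤ e ∧ e ∣ n ∧ ¬ p ∣ e ∧ J % e = j % e ∧
    ∃ (ft q h l A B : P3 p) (b : P2 p), SepRel fg.1 fg.2 ft q h l A B b ∧
      ∃ (Yh R : P4 p) (a₀ c₁ : P3 p) (R' : P4 p) (C₀ β : ℕ), J + e * (2 * β + 1) ≤ M ∧
        Eqv m c (ev2 (kap p) (C α + kap p ((γ : P1 p) * X ^ J) * X ^ e) Yh ft)
          (X ^ (2 * C₀ + 1) * R) ∧
        Eqv m c (ev1 (kap p) (C α + kap p ((γ : P1 p) * X ^ J) * X ^ e) b)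
          (X ^ C₀ * (C a₀ + X * R')) ∧
        Eqv m c (C (a₀ * c₁)) (kap p (X ^ β))

/-- certificate for a ball `a + t^N O` around an algebraic point -/
def AlphaOK (φ : List (P3 p × P3 p)) (N : ℕ) (a : P1 p) : Prop :=
  ∃ (m : P2 p) (c : P1 p), HenselData m c ∧ ∃ (α R₀ : P3 p) (M n : ℕ), M ≤ N ∧ 1 ≤ n ∧
    Eqv m c (C α) (kap p a + kap p (X ^ M) * C R₀) ∧
    PointOK φ m c α ∧
    ∀ γ : ℕ, 1 ≤ γ → γ < p → ∀ j < n, ClassOK φ m c α M n γ j

/-- the polynomial of degree `< N` coded by `a` -/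
noncomputable def polyN (p N a : ℕ) : P1 p :=
  ∑ i ∈ Finset.range N, C ((a / p ^ i : ℕ) : ZMod p) * X ^ i

/-- finite certificates for the truth of `∀ x ∈ O, ∃ y ∈ O, φ(x, y)` -/
def TrueOK (φ : List (P3 p × P3 p)) : Prop :=
  ∃ N : ℕ, ∀ a < p ^ N, BallOK φ N (polyN p N a) ∨ AlphaOK φ N (polyN p N a)

/-- finite certificates for the falsity of `∀ x ∈ O, ∃ y ∈ O, φ(x, y)` -/
def FalseOK (φ : List (P3 p × P3 p)) : Prop :=
  ∃ (m : P2 p) (c : P1 p), HenselData m c ∧ ∃ α : P3 p, ∀ fg ∈ φ,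
    ∃ (H Q : P4 p) (k N : ℕ),
      Eqv m c (H * (ev2 (kap p) (C α) X fg.2) ^ k) (ev2 (kap p) (C α) X fg.1 * Q) ∧
      ∀ b < p ^ (N + 1), ∃ h : P3 p,
        Eqv m c (C (Polynomial.eval (C (C (polyN p (N + 1) b))) H * h)) (kap p (X ^ N))

end certs

section codes

/-- value of a list of codes of coefficients (constant coefficient first) as a polynomial -/
noncomputable def vList {A R : Type*} [CommRing R] (v : A → R) (l : List A) : Polynomial R :=
  l.foldr (fun a q => C (v a) + X * q) 0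

/-- codes: a natural number stands for its class mod `p` -/
def v0 (p : ℕ) (n : ℕ) : ZMod p := (n : ZMod p)
noncomputable def v1 (p : ℕ) : List ℕ → P1 p := vList (v0 p)
noncomputable def v2 (p : ℕ) : List (List ℕ) → P2 p := vList (v1 p)
noncomputable def v3 (p : ℕ) : List (List (List ℕ)) → P3 p := vList (v2 p)
noncomputable def v4 (p : ℕ) : List (List (List (List ℕ))) → P4 p := vList (v3 p)

/-- the list of pairs of polynomials with a given code -/
noncomputable def vPhi (p : ℕ) (l : List (List (List (List ℕ)) × List (List (List ℕ)))) :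
    List (P3 p × P3 p) :=
  l.map fun c => (v3 p c.1, v3 p c.2)

end codes

section points

/-- `F_p[t] → F_p((t))[[X]]` -/
noncomputable def iota (p : ℕ) : P1 p →+* PowerSeries (KK p) :=
  (PowerSeries.C (R := KK p)).comp (tauK p)

/-- the power series `ξ + γ t^j X^e` in `F_p((t))[[X]]` -/
noncomputable def XX {p : ℕ} (ξ : OO p) (γ : ZMod p) (j e : ℕ) : PowerSeries (KK p) :=
  PowerSeries.C (iK p ξ) +
    PowerSeries.C (iK p (PowerSeries.C γ * PowerSeries.X ^ j)) * PowerSeries.X ^ e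

/-- `z ∈ F_p[[t]]` is algebraic over `F_p[t]` -/
def AlgO {p : ℕ} (z : OO p) : Prop := ∃ q : P2 p, q ≠ 0 ∧ ev1 (tau p) z q = 0

/-- `z ∈ F_p((t))` is algebraic over `F_p[t]` -/
def AlgK {p : ℕ} (z : KK p) : Prop := ∃ q : P2 p, q ≠ 0 ∧ ev1 (tauK p) z q = 0

/-- `z ∈ F_p[[t]]` is of the form `A(θ)/c(t)` with `c(0) ≠ 0` -/
def InTh {p : ℕ} (θ z : OO p) : Prop :=
  ∃ (A : P2 p) (c : P1 p), c.coeff 0 ≠ 0 ∧ tau p c * z = ev1 (tau p) θ A

/-- `θ ∈ t F_p[[t]]` is a root of `m`, `m` is (up to constants) its minimal polynomial, has a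
simple root modulo `t`, and `F_p(t)(θ) ∩ F_p[[t]]` consists of the elements `A(θ)/c(t)` with
`c(0) ≠ 0` -/
def ThetaData {p : ℕ} (m : P2 p) (θ : OO p) : Prop :=
  (m.coeff 0).coeff 0 = 0 ∧ (m.coeff 1).coeff 0 ≠ 0 ∧ PowerSeries.X ∣ θ ∧
  ev1 (tau p) θ m = 0 ∧
  (∀ q : P2 p, ev1 (tau p) θ q = 0 → ∃ d : P1 p, d ≠ 0 ∧ ∃ s : P2 p, C d * q = m * s) ∧
  (∀ (A B : P2 p) (z : OO p), ev1 (tau p) θ B ≠ 0 → ev1 (tau p) θ B * z = ev1 (tau p) θ A →
    InTh θ z)

end points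

end FT80
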