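import Pool.Agent.FT80.Digits
import Pool.Agent.FT80.Hensel
set_option maxSynthPendingDepth 10
set_option linter.unusedSectionVars false
open Polynomial
namespace FT80

section embed
variable {K F Γ₀ : Type*} [Field K] [Field F] [Algebra K F] [LinearOrderedCommGroupWithZero Γ₀]

/-- `K` is trivially valued, and relatively algebraically closed in the residue field -/
structure Nice (K : Type*) {F Γ₀ : Type*} [Field K] [Field F] [Algebra K F]
    [LinearOrderedCommGroupWithZero Γ₀] (v : Valuation F Γ₀) : Prop where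
  triv : ∀ a : K, a ≠ 0 → v (algebraMap K F a) = 1
  res : ∀ q : Polynomial K, q ≠ 0 → ∀ h : F, v h ≤ 1 → v (aeval h q) < 1 →
    ∃ κ : K, v (h - algebraMap K F κ) < 1

variable {v : Valuation F Γ₀} (hv : Nice K v)
include hv

theorem Nice.le_one (a : K) : v (algebraMap K F a) ≤ 1 := by
  rcases eq_or_ne a 0 with rfl | h
  · simp
  · exact (hv.triv a h).le

theorem Nice.unit {x : F} {κ : K} (hκ : κ ≠ 0) (h : v (x - algebraMap K F κ) < 1) : v x = 1 := by
  have h1 := hv.triv κ hκ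
  have h2 : x = (x - algebraMap K F κ) + algebraMap K F κ := by ring
  rw [h2, v.map_add_eq_of_lt_right (by rw [h1]; exact h), h1]

theorem Nice.uniq {x : F} {κ κ' : K} (h : v (x - algebraMap K F κ) < 1)
    (h' : v (x - algebraMap K F κ') < 1) : κ = κ' := by
  by_contra hne
  have h1 : v (algebraMap K F (κ - κ')) < 1 := by
    have : algebraMap K F (κ - κ') = (x - algebraMap K F κ') - (x - algebraMap K F κ) := by
      rw [map_sub]; ring
    rw [this]
    exact v.map_sub_lt h' h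
  rw [hv.triv _ (sub_ne_zero.2 hne)] at h1
  exact lt_irrefl _ h1

theorem Nice.div {x y : F} {κ κ' : K} (hκ' : κ' ≠ 0) (h : v (x - algebraMap K F κ) < 1)
    (h' : v (y - algebraMap K F κ') < 1) : v (x / y - algebraMap K F (κ / κ')) < 1 := by
  have hy : v y = 1 := hv.unit hκ' h'
  have hy0 : y ≠ 0 := by
    rintro rfl
    rw [map_zero] at hy
    exact zero_ne_one hy
  have hk0 : algebraMap K F κ' ≠ 0 := by
    rw [Ne, map_eq_zero]; exact hκ'
  have e : x / y - algebraMap K F (κ / κ') =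
      ((x - algebraMap K F κ) * algebraMap K F κ' - algebraMap K F κ * (y - algebraMap K F κ')) /
        (y * algebraMap K F κ') := by
    rw [map_div₀]
    field_simp
    ring
  rw [e, map_div₀, map_mul, hy, hv.triv _ hκ', mul_one, div_one]
  apply v.map_sub_lt
  · rw [map_mul, hv.triv _ hκ', mul_one]
    exact h
  · rw [map_mul]
    exact mul_lt_one_of_nonneg_of_lt_one_right (hv.le_one κ) zero_le h'

theorem Nice.aeval_le {h : F} (hh : v h ≤ 1) (q : Polynomial K) : v (aeval h q) ≤ 1 := by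
  induction q using Polynomial.induction_on' with
  | add p q hp hq => rw [map_add]; exact v.map_add_le hp hq
  | monomial n a =>
    rw [aeval_monomial, map_mul, map_pow]
    exact mul_le_one' (hv.le_one a) (pow_le_one' hh n)

theorem Nice.poly {w : F} (hw : v w < 1) (r : Polynomial K) (hr : r ≠ 0) :
    ∃ (n : ℕ) (κ : K) (s : F), κ ≠ 0 ∧ v s ≤ 1 ∧
      aeval w r = w ^ n * (algebraMap K F κ + w * s) := by
  induction hn : r.natDegree using Nat.strong_induction_on generalizing r with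
  | _ N ih =>
    by_cases h0 : r.coeff 0 = 0
    · have e : r = X * r.divX := by
        conv_lhs => rw [← Polynomial.X_mul_divX_add r, h0]
        simp
      have hd : r.divX ≠ 0 := by
        intro h
        rw [h, mul_zero] at e
        exact hr e
      have hdeg : r.divX.natDegree < N := by
        have : r.natDegree = r.divX.natDegree + 1 := by
          conv_lhs => rw [e]
          rw [Polynomial.natDegree_X_mul hd]
        omega
      obtain ⟨n, κ, s, h1, h2, h3⟩ := ih _ hdeg r.divX hd rfl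
      refine ⟨n + 1, κ, s, h1, h2, ?_⟩
      rw [e, map_mul, aeval_X, h3]
      ring
    · refine ⟨0, r.coeff 0, aeval w r.divX, h0, hv.aeval_le hw.le _, ?_⟩
      conv_lhs => rw [← Polynomial.X_mul_divX_add r]
      rw [map_add, map_mul, aeval_X, aeval_C]
      ring

theorem Nice.adjoin {w : F} (hw : v w < 1) (hw0 : w ≠ 0) {c : F}
    (hc : c ∈ IntermediateField.adjoin K {w}) (hc0 : c ≠ 0) :
    ∃ (ν : ℤ) (κ : K), κ ≠ 0 ∧ v (c / w ^ ν - algebraMap K F κ) < 1 := by
  rw [IntermediateField.mem_adjoin_simple_iff] at hc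
  obtain ⟨r, s, rfl⟩ := hc
  have hr : r ≠ 0 := by rintro rfl; simp at hc0
  have hs : s ≠ 0 := by rintro rfl; simp at hc0
  obtain ⟨n, κ, a, h1, h2, h3⟩ := hv.poly hw r hr
  obtain ⟨m, κ', b, h1', h2', h3'⟩ := hv.poly hw s hs
  refine ⟨(n : ℤ) - m, κ / κ', div_ne_zero h1 h1', ?_⟩
  have e : aeval w r / aeval w s / w ^ ((n : ℤ) - m) =
      (algebraMap K F κ + w * a) / (algebraMap K F κ' + w * b) := by
    rw [h3, h3', zpow_sub₀ hw0, zpow_natCast, zpow_natCast]
    have : w ^ n ≠ 0 := pow_ne_zero _ hw0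
    have : w ^ m ≠ 0 := pow_ne_zero _ hw0
    field_simp
  rw [e]
  apply hv.div h1'
  · rw [add_sub_cancel_left, map_mul]
    exact mul_lt_one_of_lt_of_le hw h2
  · rw [add_sub_cancel_left, map_mul]
    exact mul_lt_one_of_lt_of_le hw h2'

theorem Nice.adjoin_val {w : F} (hw : v w < 1) (hw0 : w ≠ 0) {c : F}
    (hc : c ∈ IntermediateField.adjoin K {w}) (hc0 : c ≠ 0) :
    ∃ ν : ℤ, v c = v w ^ ν := by
  obtain ⟨ν, κ, h1, h2⟩ := hv.adjoin hw hw0 hc hc0
  refine ⟨ν, ?_⟩
  have h3 := hv.unit h1 h2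
  rw [map_div₀, map_zpow₀] at h3
  have h4 : v w ^ ν ≠ 0 := zpow_ne_zero _ ((Valuation.ne_zero_iff v).2 hw0)
  rwa [div_eq_one_iff_eq h4] at h3

theorem Nice.adjoin_res {w : F} (hw : v w < 1) (hw0 : w ≠ 0) {c : F}
    (hc : c ∈ IntermediateField.adjoin K {w}) (hc1 : v c ≤ 1) :
    ∃ κ : K, v (c - algebraMap K F κ) < 1 := by
  rcases eq_or_ne c 0 with rfl | hc0
  · exact ⟨0, by simp⟩
  rcases lt_or_eq_of_le hc1 with h | h
  · exact ⟨0, by simpa using h⟩
  obtain ⟨ν, κ, h1, h2⟩ := hv.adjoin hw hw0 hc hc0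
  have h3 := hv.unit h1 h2
  rw [map_div₀, map_zpow₀, h] at h3
  have hw' : v w ≠ 0 := (Valuation.ne_zero_iff v).2 hw0
  have h5 : v w ^ ν = 1 := by
    have h4 : v w ^ ν ≠ 0 := zpow_ne_zero _ hw'
    field_simp at h3
    exact h3.symm
  have h6 : ν = 0 := by
    by_contra hne
    have h7 := zpow_right_injective₀ (a := v w) (zero_lt_iff.2 hw') hw.ne
    exact hne (h7 (by simpa using h5))
  rw [h6, zpow_zero, div_one] at h2
  exact ⟨κ, h2⟩

/-- two terms of a vanishing sum have the same nonzero value -/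
theorem exists_eq_val {n : ℕ} {t : ℕ → F} (h : ∑ i ∈ Finset.range n, t i = 0)
    (hne : ∃ i < n, t i ≠ 0) :
    ∃ i j, i < j ∧ j < n ∧ t i ≠ 0 ∧ t j ≠ 0 ∧ v (t i) = v (t j) := by
  classical
  obtain ⟨i₁, hi₁, hti₁⟩ := hne
  obtain ⟨i₀, hi₀, hmax⟩ := Finset.exists_max_image (Finset.range n) (fun i => v (t i))
    ⟨i₁, Finset.mem_range.2 hi₁⟩
  have hpos : 0 < v (t i₀) :=
    lt_of_lt_of_le (zero_lt_iff.2 ((Valuation.ne_zero_iff v).2 hti₁))
      (hmax i₁ (Finset.mem_range.2 hi₁))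
  have hex : ∃ j ∈ Finset.range n, j ≠ i₀ ∧ v (t j) = v (t i₀) := by
    by_contra hcon
    push Not at hcon
    have h1 : v (∑ i ∈ (Finset.range n).erase i₀, t i) < v (t i₀) := by
      apply v.map_sum_lt' hpos
      intro j hj
      rw [Finset.mem_erase] at hj
      exact lt_of_le_of_ne (hmax j hj.2) (hcon j hj.2 hj.1)
    rw [← Finset.add_sum_erase _ _ hi₀, add_eq_zero_iff_eq_neg] at h
    rw [h, v.map_neg] at h1
    exact lt_irrefl _ h1
  obtain ⟨j, hj, hne, hval⟩ := hex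
  have hti₀ : t i₀ ≠ 0 := (Valuation.ne_zero_iff v).1 hpos.ne'
  have htj : t j ≠ 0 := (Valuation.ne_zero_iff v).1 (by rw [hval]; exact hpos.ne')
  rw [Finset.mem_range] at hj hi₀
  rcases lt_or_gt_of_ne hne with h1 | h1
  · exact ⟨j, i₀, h1, hi₀, htj, hti₀, hval⟩
  · exact ⟨i₀, j, h1, hj, hti₀, htj, hval.symm⟩

theorem Nice.val_pow {w : F} (hw : v w < 1) (hw0 : w ≠ 0)
    (P : Polynomial (IntermediateField.adjoin K {w})) (hP : P ≠ 0) {h : F} (h0 : h ≠ 0)
    (hPh : aeval h P = 0) :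
    ∃ b : ℕ, 1 ≤ b ∧ b ≤ P.natDegree ∧ ∃ ν : ℤ, v h ^ b = v w ^ ν := by
  rw [Polynomial.aeval_eq_sum_range] at hPh
  obtain ⟨i, j, hij, hjn, hti, htj, hval⟩ := exists_eq_val hv hPh (by
    refine ⟨P.natDegree, by omega, ?_⟩
    rw [Algebra.smul_def]
    apply mul_ne_zero
    · rw [Ne, map_eq_zero]
      exact Polynomial.leadingCoeff_ne_zero.2 hP
    · exact pow_ne_zero _ h0)
  rw [Algebra.smul_def] at hti htj hval
  rw [Algebra.smul_def] at hval
  have hci : (P.coeff i : F) ≠ 0 := fun h => hti (by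
    show (P.coeff i : F) * _ = 0
    rw [h, zero_mul])
  have hcj : (P.coeff j : F) ≠ 0 := fun h => htj (by
    show (P.coeff j : F) * _ = 0
    rw [h, zero_mul])
  obtain ⟨νi, hνi⟩ := hv.adjoin_val hw hw0 (P.coeff i).2 hci
  obtain ⟨νj, hνj⟩ := hv.adjoin_val hw hw0 (P.coeff j).2 hcj
  refine ⟨j - i, by omega, by omega, νi - νj, ?_⟩
  have h1 : v (P.coeff i : F) * v h ^ i = v (P.coeff j : F) * v h ^ j := by
    rw [← map_pow, ← map_mul, ← map_pow, ← map_mul]
    exact hval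
  have hvh : v h ≠ 0 := (Valuation.ne_zero_iff v).2 h0
  have hvw : v w ≠ 0 := (Valuation.ne_zero_iff v).2 hw0
  rw [hνi, hνj] at h1
  have h2 : v h ^ j = v h ^ i * v h ^ (j - i) := by
    rw [← pow_add]; congr 1; omega
  rw [h2, ← mul_assoc, mul_right_comm] at h1
  have h3 := mul_right_cancel₀ (pow_ne_zero i hvh) h1
  rw [zpow_sub₀ hvw, h3, mul_comm, mul_div_assoc, div_self (zpow_ne_zero _ hvw), mul_one]

theorem Nice.residue {w : F} (hw : v w < 1) (hw0 : w ≠ 0)
    (P : Polynomial (IntermediateField.adjoin K {w})) (hP : P ≠ 0) {h : F} (h1 : v h ≤ 1)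
    (hPh : aeval h P = 0) : ∃ κ : K, v (h - algebraMap K F κ) < 1 := by
  classical
  obtain ⟨i₀, hi₀, hmax⟩ := Finset.exists_max_image (Finset.range (P.natDegree + 1))
    (fun i => v (P.coeff i : F)) ⟨0, Finset.mem_range.2 (by omega)⟩
  have hlead : (P.coeff P.natDegree : F) ≠ 0 := by
    intro h
    have : P.coeff P.natDegree = 0 := by exact_mod_cast h
    exact hP (Polynomial.leadingCoeff_eq_zero.1 this)
  have hpos : 0 < v (P.coeff i₀ : F) :=
    lt_of_lt_of_le (zero_lt_iff.2 ((Valuation.ne_zero_iff v).2 hlead))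
      (hmax P.natDegree (Finset.mem_range.2 (by omega)))
  have hci₀ : (P.coeff i₀ : F) ≠ 0 := (Valuation.ne_zero_iff v).1 hpos.ne'
  have hres : ∀ i, ∃ κ : K, i < P.natDegree + 1 →
      v ((P.coeff i : F) / (P.coeff i₀ : F) - algebraMap K F κ) < 1 := by
    intro i
    by_cases hi : i < P.natDegree + 1
    · obtain ⟨κ, hκ⟩ := hv.adjoin_res hw hw0
        (c := (P.coeff i : F) / (P.coeff i₀ : F))
        (div_mem (P.coeff i).2 (P.coeff i₀).2)
        (by
          rw [map_div₀]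
          exact div_le_one_of_le₀ (hmax i (Finset.mem_range.2 hi)) zero_le)
      exact ⟨κ, fun _ => hκ⟩
    · exact ⟨0, fun h => absurd h hi⟩
  choose κ hκ using hres
  have hκ0 : κ i₀ = 1 := by
    have h2 := hκ i₀ (Finset.mem_range.1 hi₀)
    rw [div_self hci₀] at h2
    have h3 : v ((1 : F) - algebraMap K F 1) < 1 := by simp
    exact hv.uniq h2 h3
  let q : Polynomial K := ∑ i ∈ Finset.range (P.natDegree + 1), C (κ i) * X ^ i
  have hq : q ≠ 0 := by
    intro h
    have h2 : q.coeff i₀ = κ i₀ := by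
      simp only [q, Polynomial.finsetSum_coeff, Polynomial.coeff_C_mul_X_pow]
      rw [Finset.sum_ite_eq, if_pos hi₀]
    rw [h, hκ0] at h2
    simp at h2
  apply hv.res q hq h h1
  have h3 : aeval h q = ∑ i ∈ Finset.range (P.natDegree + 1),
      (algebraMap K F (κ i) - (P.coeff i : F) / (P.coeff i₀ : F)) * h ^ i := by
    have h4 : ∑ i ∈ Finset.range (P.natDegree + 1),
        ((P.coeff i : F) / (P.coeff i₀ : F)) * h ^ i = 0 := by
      rw [Polynomial.aeval_eq_sum_range] at hPh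
      have h5 : ∑ i ∈ Finset.range (P.natDegree + 1),
          ((P.coeff i : F) / (P.coeff i₀ : F)) * h ^ i =
          (∑ i ∈ Finset.range (P.natDegree + 1), P.coeff i • h ^ i) / (P.coeff i₀ : F) := by
        rw [Finset.sum_div]
        apply Finset.sum_congr rfl
        intro i _
        rw [Algebra.smul_def]
        show _ = (P.coeff i : F) * h ^ i / _
        ring
      rw [h5, hPh, zero_div]
    simp only [sub_mul, Finset.sum_sub_distrib, h4, sub_zero, q, map_sum, map_mul, map_pow,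
      aeval_C, aeval_X]
  rw [h3]
  apply v.map_sum_lt' zero_lt_one
  intro i hi
  rw [map_mul, map_pow]
  apply mul_lt_one_of_lt_of_le _ (pow_le_one' h1 i)
  rw [v.map_sub_swap]
  exact hκ i (Finset.mem_range.1 hi)


/-- the field `K(w, y)`, over `K` -/
noncomputable def EE (K : Type*) {F : Type*} [Field K] [Field F] [Algebra K F] (w y : F) :
    IntermediateField K F :=
  (IntermediateField.adjoin (IntermediateField.adjoin K {w}) {y}).restrictScalars K

omit hv in
theorem w_mem_EE (w y : F) : w ∈ EE K w y := by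
  have h1 : w ∈ IntermediateField.adjoin K {w} :=
    IntermediateField.mem_adjoin_simple_self K w
  exact (IntermediateField.adjoin (IntermediateField.adjoin K {w}) {y}).algebraMap_mem ⟨w, h1⟩

omit hv in
theorem y_mem_EE (w y : F) : y ∈ EE K w y :=
  IntermediateField.mem_adjoin_simple_self (IntermediateField.adjoin K {w}) y

/-- each element of `K(w, y)` is a root of a nonzero polynomial of bounded degree -/
theorem EE_poly {w y : F} (hy : IsIntegral (IntermediateField.adjoin K {w}) y) :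
    ∃ d : ℕ, ∀ h ∈ EE K w y, ∃ P : Polynomial (IntermediateField.adjoin K {w}),
      P ≠ 0 ∧ P.natDegree ≤ d ∧ aeval h P = 0 := by
  have := IntermediateField.adjoin.finiteDimensional hy
  refine ⟨Module.finrank (IntermediateField.adjoin K {w})
    (IntermediateField.adjoin (IntermediateField.adjoin K {w}) {y}), ?_⟩
  intro h hh
  let h' : IntermediateField.adjoin (IntermediateField.adjoin K {w}) {y} := ⟨h, hh⟩
  have hint : IsIntegral (IntermediateField.adjoin K {w}) h' := IsIntegral.of_finite _ _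
  refine ⟨minpoly _ h', minpoly.ne_zero hint, minpoly.natDegree_le h', ?_⟩
  have h1 : (aeval h' (minpoly (IntermediateField.adjoin K {w}) h')) = 0 := minpoly.aeval _ _
  have h2 := congrArg (algebraMap (IntermediateField.adjoin (IntermediateField.adjoin K {w}) {y})
    F) h1
  rw [map_zero, ← Polynomial.aeval_algebraMap_apply] at h2
  exact h2

theorem exists_unif {w y : F} (hw : v w < 1) (hw0 : w ≠ 0)
    (hy : IsIntegral (IntermediateField.adjoin K {w}) y) :
    ∃ π ∈ EE K w y, π ≠ 0 ∧ v π < 1 ∧ ∀ h ∈ EE K w y, h ≠ 0 → ∃ q : ℤ, v h = v π ^ q := by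
  obtain ⟨d, hd⟩ := EE_poly hv hy
  have hvw : v w ≠ 0 := (Valuation.ne_zero_iff v).2 hw0
  have hinj := zpow_right_injective₀ (a := v w) (zero_lt_iff.2 hvw) hw.ne
  have hN0 : d.factorial ≠ 0 := Nat.factorial_ne_zero d
  have key : ∀ h ∈ EE K w y, h ≠ 0 → ∃ a : ℤ, v h ^ d.factorial = v w ^ a := by
    intro h hh h0
    obtain ⟨P, hP, hPd, hPh⟩ := hd h hh
    obtain ⟨b, hb1, hb2, ν, hν⟩ := hv.val_pow hw hw0 P hP h0 hPh
    obtain ⟨c, hc⟩ := Nat.dvd_factorial hb1 (hb2.trans hPd)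
    refine ⟨ν * c, ?_⟩
    rw [hc, pow_mul, hν, zpow_mul, zpow_natCast]
  let S : Set ℕ := {a | 0 < a ∧ ∃ h ∈ EE K w y, h ≠ 0 ∧ v h ^ d.factorial = v w ^ (a : ℤ)}
  have hS : S.Nonempty := ⟨d.factorial, Nat.pos_of_ne_zero hN0, w, w_mem_EE w y, hw0, by
    rw [zpow_natCast]⟩
  classical
  obtain ⟨hg0, π, hπE, hπ0, hπ⟩ := Nat.sInf_mem hS
  set g : ℕ := sInf S with hg
  have hmin : ∀ a ∈ S, g ≤ a := fun a ha => Nat.sInf_le ha
  have hvπ : v π ≠ 0 := (Valuation.ne_zero_iff v).2 hπ0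
  have hπ1 : v π < 1 := by
    have h1 : v π ^ d.factorial < 1 := by
      rw [hπ, zpow_natCast]
      exact pow_lt_one₀ zero_le hw hg0.ne'
    by_contra h2
    exact absurd h1 (not_lt.2 (one_le_pow₀ (not_lt.1 h2)))
  refine ⟨π, hπE, hπ0, hπ1, ?_⟩
  intro h hh h0
  obtain ⟨a, ha⟩ := key h hh h0
  have hvh : v h ≠ 0 := (Valuation.ne_zero_iff v).2 h0
  refine ⟨a / g, ?_⟩
  have hdiv : h / π ^ (a / g) ∈ EE K w y := div_mem hh (zpow_mem hπE _)
  have hne : h / π ^ (a / g) ≠ 0 := div_ne_zero h0 (zpow_ne_zero _ hπ0)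
  have hgz : (g : ℤ) ≠ 0 := by exact_mod_cast hg0.ne'
  have hval : v (h / π ^ (a / g)) ^ d.factorial = v w ^ (a % g) := by
    rw [map_div₀, map_zpow₀, div_pow, ha, ← zpow_natCast (v π ^ (a / (g : ℤ))), ← zpow_mul,
      mul_comm (a / (g : ℤ)), zpow_mul, zpow_natCast, hπ, ← zpow_mul, ← zpow_sub₀ hvw]
    congr 1
    rw [Int.emod_def]
  have hr0 : a % (g : ℤ) = 0 := by
    by_contra hne0
    have h1 : 0 ≤ a % (g : ℤ) := Int.emod_nonneg _ hgz
    have h2 : a % (g : ℤ) < g := Int.emod_lt_of_pos _ (by exact_mod_cast hg0)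
    have h3 : (a % (g : ℤ)).toNat ∈ S := by
      refine ⟨by omega, _, hdiv, hne, ?_⟩
      rw [hval, Int.toNat_of_nonneg h1]
    have := hmin _ h3
    omega
  rw [hr0, zpow_zero] at hval
  have h4 : v (h / π ^ (a / g)) = 1 := by
    rcases lt_trichotomy (v (h / π ^ (a / (g : ℤ)))) 1 with h5 | h5 | h5
    · exact absurd hval (pow_lt_one₀ zero_le h5 hN0).ne
    · exact h5
    · exact absurd hval (one_lt_pow₀ h5 hN0).ne'
  rw [map_div₀, map_zpow₀, div_eq_one_iff_eq (zpow_ne_zero _ hvπ)] at h4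
  exact h4

/-- the valuation ring of `K(w, y)` -/
noncomputable def RR (w y : F) (hv : Nice K v) : Subalgebra K F where
  carrier := {h | h ∈ EE K w y ∧ v h ≤ 1}
  mul_mem' := fun {a b} ha hb => ⟨mul_mem ha.1 hb.1, by
    rw [map_mul]; exact mul_le_one' ha.2 hb.2⟩
  one_mem' := ⟨one_mem _, by simp⟩
  add_mem' := fun {a b} ha hb => ⟨add_mem ha.1 hb.1, v.map_add_le ha.2 hb.2⟩
  zero_mem' := ⟨zero_mem _, by simp⟩
  algebraMap_mem' := fun r => ⟨(EE K w y).algebraMap_mem r, hv.le_one r⟩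

theorem exists_rho {w y : F} (hw : v w < 1) (hw0 : w ≠ 0)
    (hy : IsIntegral (IntermediateField.adjoin K {w}) y) :
    ∃ ρ : RR w y hv →ₐ[K] K, ∀ r : RR w y hv, v ((r : F) - algebraMap K F (ρ r)) < 1 := by
  obtain ⟨d, hd⟩ := EE_poly hv hy
  have key : ∀ r : RR w y hv, ∃ κ : K, v ((r : F) - algebraMap K F κ) < 1 := by
    intro r
    obtain ⟨P, hP, -, hPh⟩ := hd r r.2.1
    exact hv.residue hw hw0 P hP r.2.2 hPh
  choose ρ hρ using key
  refine ⟨{ toFun := ρ, map_one' := ?_, map_mul' := ?_, map_zero' := ?_, map_add' := ?_,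
            commutes' := ?_ }, hρ⟩
  · exact hv.uniq (hρ 1) (by simp)
  · intro a b
    apply hv.uniq (hρ (a * b))
    have e : ((a * b : RR w y hv) : F) - algebraMap K F (ρ a * ρ b) =
        ((a : F) - algebraMap K F (ρ a)) * b + algebraMap K F (ρ a) *
          ((b : F) - algebraMap K F (ρ b)) := by
      rw [map_mul]; push_cast; ring
    rw [e]
    apply v.map_add_lt
    · rw [map_mul]
      exact mul_lt_one_of_lt_of_le (hρ a) b.2.2
    · rw [map_mul]
      exact mul_lt_one_of_nonneg_of_lt_one_right (hv.le_one _) zero_le (hρ b)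
  · exact hv.uniq (hρ 0) (by simp)
  · intro a b
    apply hv.uniq (hρ (a + b))
    have e : ((a + b : RR w y hv) : F) - algebraMap K F (ρ a + ρ b) =
        ((a : F) - algebraMap K F (ρ a)) + ((b : F) - algebraMap K F (ρ b)) := by
      rw [map_add]; push_cast; ring
    rw [e]
    exact v.map_add_lt (hρ a) (hρ b)
  · intro a
    apply hv.uniq (hρ _)
    simp

/-- a coordinate change in `K[[X]]` -/
theorem reparam {σ : PowerSeries K} {u : PowerSeries K} (hu : IsUnit u)
    (hσ : σ = PowerSeries.X * u) :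
    ∃ Ψ : PowerSeries K →ₐ[K] PowerSeries K, Ψ σ = PowerSeries.X ∧ Function.Injective Ψ ∧
      ∀ r, PowerSeries.constantCoeff (Ψ r) = PowerSeries.constantCoeff r := by
  have hσ0 : σ ≠ 0 := by
    rw [hσ]; exact mul_ne_zero PowerSeries.X_ne_zero hu.ne_zero
  let ρ : PowerSeries K →ₐ[K] K :=
    { PowerSeries.constantCoeff (R := K) with
      commutes' := fun a => by
        show PowerSeries.constantCoeff (algebraMap K (PowerSeries K) a) = a
        simp }
  have hρ : ∀ r, ρ r = 0 ↔ σ ∣ r := by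
    intro r
    have h1 : ρ r = PowerSeries.constantCoeff r := rfl
    rw [h1, ← PowerSeries.X_dvd_iff, hσ]
    exact (hu.mul_right_dvd).symm
  obtain ⟨Ψ, h1, h2⟩ := digits hσ0 ρ hρ
  refine ⟨Ψ, h1, ?_, h2⟩
  rw [injective_iff_map_eq_zero]
  intro r hr
  by_contra hr0
  obtain ⟨n, q, hq, hqu⟩ := ps_eq_pow_mul_unit hr0
  obtain ⟨u', hu'⟩ := hu.exists_right_inv
  have e : r = σ ^ n * (u' ^ n * q) := by
    rw [hq, hσ, mul_pow, mul_assoc, ← mul_assoc (u ^ n), ← mul_pow, hu', one_pow, one_mul]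
  have hu'u : IsUnit u' := IsUnit.of_mul_eq_one u (by rw [mul_comm]; exact hu')
  rw [e, map_mul, map_pow, h1] at hr
  rcases mul_eq_zero.1 hr with h3 | h3
  · exact (pow_ne_zero n PowerSeries.X_ne_zero) h3
  · have h4 := h2 (u' ^ n * q)
    rw [h3, map_zero] at h4
    have h5 : IsUnit (PowerSeries.constantCoeff (u' ^ n * q)) :=
      ((hu'u.pow n).mul hqu).map (PowerSeries.constantCoeff (R := K))
    exact h5.ne_zero h4.symm

omit hv in
theorem hom_ev2 {R S S' : Type*} [CommRing R] [CommRing S] [CommRing S'] (σ : R →+* S) (f : S →+* S')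
    (x y : S) (Q : Polynomial (Polynomial R)) :
    f (ev2 σ x y Q) = ev2 (f.comp σ) (f x) (f y) Q := by
  have h : f.comp (ev2 σ x y) = ev2 (f.comp σ) (f x) (f y) := by
    apply Polynomial.ringHom_ext'
    · apply Polynomial.ringHom_ext'
      · ext r
        simp [ev2]
      · simp [ev2]
    · simp [ev2]
  exact congrArg (fun g => g Q) h

theorem embed {w y : F} (hw : v w < 1) (hw0 : w ≠ 0) (hy1 : v y ≤ 1)
    (hy : IsIntegral (IntermediateField.adjoin K {w}) y) :
    ∃ (e : ℕ) (π u : F) (ζ : K), 1 ≤ e ∧ ζ ≠ 0 ∧ w = π ^ e * u ∧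
      v (u - algebraMap K F ζ) < 1 ∧ ((e : K) ≠ 0 → ∃ Y : PowerSeries K,
        (∀ Q : Polynomial (Polynomial K), ev2 (algebraMap K F) w y Q = 0 ↔
          ev2 (PowerSeries.C (R := K)) (PowerSeries.C ζ * PowerSeries.X ^ e) Y Q = 0) ∧
        v (y - algebraMap K F (PowerSeries.constantCoeff Y)) < 1) := by
  obtain ⟨π, hπE, hπ0, hπ1, hπ⟩ := exists_unif hv hw hw0 hy
  obtain ⟨ρ, hρ⟩ := exists_rho hv hw hw0 hy
  have hvπ : v π ≠ 0 := (Valuation.ne_zero_iff v).2 hπ0
  have hvπ' : 0 < v π := zero_lt_iff.2 hvπ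
  -- sign of exponents
  have hpos : ∀ q : ℤ, v π ^ q < 1 → 1 ≤ q := by
    intro q hq
    by_contra hlt
    have h1 : (1 : Γ₀) ≤ v π ^ q := by
      have : q ≤ 0 := by omega
      obtain ⟨n, hn⟩ := Int.exists_eq_neg_ofNat this
      rw [hn, zpow_neg, zpow_natCast]
      exact (one_le_inv₀ (pow_pos hvπ' n)).2 (pow_le_one' hπ1.le n)
    exact absurd hq (not_lt.2 h1)
  have hnonneg : ∀ q : ℤ, v π ^ q ≤ 1 → 0 ≤ q := by
    intro q hq
    by_contra hlt
    have h1 : (1 : Γ₀) < v π ^ q := by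
      have : q ≤ 0 := by omega
      obtain ⟨n, hn⟩ := Int.exists_eq_neg_ofNat this
      have hn0 : n ≠ 0 := by omega
      rw [hn, zpow_neg, zpow_natCast]
      exact (one_lt_inv₀ (pow_pos hvπ' n)).2 (pow_lt_one₀ zero_le hπ1 hn0)
    exact absurd hq (not_le.2 h1)
  obtain ⟨q, hq⟩ := hπ w (w_mem_EE w y) hw0
  have hq1 : 1 ≤ q := hpos q (by rw [← hq]; exact hw)
  obtain ⟨e, rfl⟩ := Int.eq_ofNat_of_zero_le (by omega : 0 ≤ q)
  have he1 : 1 ≤ e := by exact_mod_cast hq1
  rw [zpow_natCast] at hq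
  set u : F := w / π ^ e with hu
  have hπe : π ^ e ≠ 0 := pow_ne_zero _ hπ0
  have hwu : w = π ^ e * u := by rw [hu]; field_simp
  have hvu : v u = 1 := by
    rw [hu, map_div₀, map_pow, ← hq, div_self]
    exact (Valuation.ne_zero_iff v).2 hw0
  have huE : u ∈ EE K w y := div_mem (w_mem_EE w y) (pow_mem hπE _)
  let uR : RR w y hv := ⟨u, huE, hvu.le⟩
  let πR : RR w y hv := ⟨π, hπE, hπ1.le⟩
  let wR : RR w y hv := ⟨w, w_mem_EE w y, hw.le⟩
  let yR : RR w y hv := ⟨y, y_mem_EE w y, hy1⟩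
  have hunit : ∀ r : RR w y hv, v (r : F) = 1 → ρ r ≠ 0 := by
    intro r hr h0
    have := hρ r
    rw [h0, map_zero, sub_zero, hr] at this
    exact lt_irrefl _ this
  have hζ : ρ uR ≠ 0 := hunit uR hvu
  refine ⟨e, π, u, ρ uR, he1, hζ, hwu, hρ uR, ?_⟩
  intro heK
  have hwR : wR = πR ^ e * uR := by
    apply Subtype.ext
    show w = π ^ e * u
    exact hwu
  have hπR0 : πR ≠ 0 := fun h => hπ0 (congrArg Subtype.val h)
  have hker : ∀ r : RR w y hv, ρ r = 0 ↔ πR ∣ r := by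
    intro r
    constructor
    · intro h0
      have h1 : v (r : F) < 1 := by
        have := hρ r
        rwa [h0, map_zero, sub_zero] at this
      rcases eq_or_ne (r : F) 0 with hr0 | hr0
      · have : r = 0 := Subtype.ext hr0
        rw [this]; exact dvd_zero _
      · obtain ⟨q', hq'⟩ := hπ r r.2.1 hr0
        have h2 : 1 ≤ q' := hpos q' (by rw [← hq']; exact h1)
        have h3 : v ((r : F) / π) ≤ 1 := by
          rw [map_div₀, hq', div_eq_mul_inv, ← zpow_sub_one₀ hvπ]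
          obtain ⟨n, hn⟩ := Int.eq_ofNat_of_zero_le (by omega : 0 ≤ q' - 1)
          rw [hn, zpow_natCast]
          exact pow_le_one' hπ1.le n
        refine ⟨⟨(r : F) / π, div_mem r.2.1 hπE, h3⟩, ?_⟩
        apply Subtype.ext
        show (r : F) = π * ((r : F) / π)
        field_simp
    · rintro ⟨r', hr'⟩
      apply hv.uniq (hρ r)
      rw [map_zero, sub_zero, hr']
      show v (π * (r' : F)) < 1
      rw [map_mul]
      exact mul_lt_one_of_lt_of_le hπ1 r'.2.2
  obtain ⟨Ψ, hΨ1, hΨ2⟩ := digits hπR0 ρ hker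
  have hΨinj : ∀ r, Ψ r = 0 → r = 0 := by
    intro r hr
    by_contra hne
    have hr0 : (r : F) ≠ 0 := fun h => hne (Subtype.ext h)
    obtain ⟨q', hq'⟩ := hπ r r.2.1 hr0
    have h2 : 0 ≤ q' := hnonneg q' (by rw [← hq']; exact r.2.2)
    obtain ⟨n, rfl⟩ := Int.eq_ofNat_of_zero_le h2
    rw [zpow_natCast] at hq'
    have hv1 : v ((r : F) / π ^ n) = 1 := by
      rw [map_div₀, map_pow, ← hq', div_self]
      exact (Valuation.ne_zero_iff v).2 hr0
    let r' : RR w y hv := ⟨(r : F) / π ^ n, div_mem r.2.1 (pow_mem hπE _), hv1.le⟩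
    have hπn : π ^ n ≠ 0 := pow_ne_zero _ hπ0
    have hrr : r = πR ^ n * r' := by
      apply Subtype.ext
      show (r : F) = π ^ n * ((r : F) / π ^ n)
      field_simp
    rw [hrr, map_mul, map_pow, hΨ1] at hr
    rcases mul_eq_zero.1 hr with h3 | h3
    · exact (pow_ne_zero n PowerSeries.X_ne_zero) h3
    · have h4 := hΨ2 r'
      rw [h3, map_zero] at h4
      exact hunit r' hv1 h4.symm
  -- the e-th root
  have hA : PowerSeries.constantCoeff (PowerSeries.C (ρ uR)⁻¹ * Ψ uR) = 1 := by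
    rw [map_mul, PowerSeries.constantCoeff_C, hΨ2]
    exact inv_mul_cancel₀ hζ
  obtain ⟨B, hB1, hB2⟩ := exists_root_pow e heK _ hA
  have hBu : IsUnit B := by
    rw [PowerSeries.isUnit_iff_constantCoeff, hB1]
    exact isUnit_one
  obtain ⟨Ψ₂, hΨ₂1, hΨ₂inj, hΨ₂c⟩ := reparam hv hBu (σ := PowerSeries.X * B) rfl
  have hΨu : Ψ uR = PowerSeries.C (ρ uR) * B ^ e := by
    rw [hB2, ← mul_assoc, ← map_mul, mul_inv_cancel₀ hζ, map_one, one_mul]
  have hΘw : Ψ₂ (Ψ wR) = PowerSeries.C (ρ uR) * PowerSeries.X ^ e := by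
    rw [hwR, map_mul, map_pow, hΨ1, hΨu]
    have e1 : (PowerSeries.X : PowerSeries K) ^ e * (PowerSeries.C (ρ uR) * B ^ e) =
        algebraMap K (PowerSeries K) (ρ uR) * (PowerSeries.X * B) ^ e := by
      rw [mul_pow]
      show _ = PowerSeries.C (ρ uR) * _
      ring
    rw [e1, map_mul, map_pow, hΨ₂1, AlgHom.commutes]
    rfl
  refine ⟨Ψ₂ (Ψ yR), ?_, ?_⟩
  · intro Q
    have e1 : ev2 (algebraMap K F) w y Q = ((ev2 (algebraMap K (RR w y hv)) wR yR Q :
        RR w y hv) : F) := by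
      have := hom_ev2 (algebraMap K (RR w y hv)) (RR w y hv).val.toRingHom wR yR Q
      exact this.symm
    have e2 : ev2 (PowerSeries.C (R := K)) (PowerSeries.C (ρ uR) * PowerSeries.X ^ e)
        (Ψ₂ (Ψ yR)) Q = Ψ₂ (Ψ (ev2 (algebraMap K (RR w y hv)) wR yR Q)) := by
      have h1 := hom_ev2 (algebraMap K (RR w y hv)) (Ψ₂.comp Ψ).toRingHom wR yR Q
      have h2 : ((Ψ₂.comp Ψ).toRingHom.comp (algebraMap K (RR w y hv))) =
          PowerSeries.C (R := K) := by
        ext1 a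
        exact AlgHom.commutes (Ψ₂.comp Ψ) a
      rw [h2] at h1
      have h3 : (Ψ₂.comp Ψ).toRingHom wR = PowerSeries.C (ρ uR) * PowerSeries.X ^ e := hΘw
      rw [h3] at h1
      exact h1.symm
    rw [e1, e2]
    constructor
    · intro h
      have h1 : ev2 (algebraMap K (RR w y hv)) wR yR Q = 0 := Subtype.ext h
      rw [h1, map_zero, map_zero]
    · intro h
      have h1 := (injective_iff_map_eq_zero Ψ₂).1 hΨ₂inj _ h
      rw [hΨinj _ h1]
      rfl
  · rw [hΨ₂c, hΨ2]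
    exact hρ yR

end embed
end FT80
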