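import Pool.Agent.FT80.Cod

/-!
# The certificates form recursively enumerable sets
-/

set_option maxSynthPendingDepth 10

open Polynomial

namespace FT80

open CodeRing

section pp

variable {Γ α β : Type*} [Primcodable Γ] [Primcodable α] [Primcodable β]

theorem pp_id : Primrec fun x : Γ => x := Primrec.id

theorem pp_fst {f : Γ → α × β} (h : Primrec f) : Primrec fun x => (f x).1 := Primrec.fst.comp h

theorem pp_snd {f : Γ → α × β} (h : Primrec f) : Primrec fun x => (f x).2 := Primrec.snd.comp h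

end pp

section

variable {Γ : Type*} [Primcodable Γ] {p : ℕ} [NeZero p]

theorem Cod.v3 {g : Γ → List (List (List ℕ))} (hg : Primrec g) : Cod fun x => FT80.v3 p (g x) :=
  ⟨g, hg, fun _ => rfl⟩

section ev

variable {R S : Type} [CommRing R] [CommRing S] [CodeRing R] [CodeRing S]

theorem Cod.ev1 {σ : R →+* S} (hσ : Cod fun a : Code R => σ (CodeRing.val a)) {x : Γ → S}
    (hx : Cod x) {f : Γ → Polynomial R} (hf : Cod f) : Cod fun z => FT80.ev1 σ (x z) (f z) :=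
  Cod.eval₂ (σ := fun _ => σ) (hσ.comp Primrec.snd) hx hf

theorem Cod.ev2 {σ : R →+* S} (hσ : Cod fun a : Code R => σ (CodeRing.val a)) {x y : Γ → S}
    (hx : Cod x) (hy : Cod y) {f : Γ → Polynomial (Polynomial R)} (hf : Cod f) :
    Cod fun z => FT80.ev2 σ (x z) (y z) (f z) :=
  Cod.eval₂ (σ := fun z => Polynomial.eval₂RingHom σ (x z))
    (Cod.ev1 hσ (hx.comp Primrec.fst) (Cod.val Primrec.snd)) hy hf

end ev

theorem Cod.idHom {R : Type} [CommRing R] [CodeRing R] :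
    Cod fun a : Code R => RingHom.id R (CodeRing.val a) := Cod.val Primrec.id

theorem Cod.kapHom : Cod fun a : Code (P1 p) => FT80.kap p (CodeRing.val a) :=
  (Cod.val Primrec.id).C.C.C

theorem Cod.kap {f : Γ → P1 p} (hf : Cod f) : Cod fun x => FT80.kap p (f x) := hf.C.C.C

theorem Cod.mhat {f : Γ → P2 p} (hf : Cod f) : Cod fun x => FT80.mhat (f x) :=
  Cod.map (σ := fun _ => (Polynomial.C : P1 p →+* P2 p)) (Cod.val Primrec.snd).C hf

theorem Cod.zhat {f : Γ → P1 p} (hf : Cod f) : Cod fun x => FT80.zhat (f x) :=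
  ((hf.C.mul Cod.X).sub (Cod.const 1)).C

theorem pow_prim : Primrec₂ ((· ^ ·) : ℕ → ℕ → ℕ) :=
  Primrec₂.unpaired'.1 Nat.Primrec.pow

theorem Cod.polyN {N a : Γ → ℕ} (hN : Primrec N) (ha : Primrec a) :
    Cod fun x => FT80.polyN p (N x) (a x) := by
  refine Cod.sum_range (f := fun x i => ((a x / p ^ i : ℕ) : ZMod p)) hN ?_
  exact Cod.natCast (Primrec.nat_div.comp (ha.comp Primrec.fst)
    (pow_prim.comp (Primrec.const p) Primrec.snd))

/-! ### the certificates -/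

theorem re_eqv {m : Γ → P2 p} {c : Γ → P1 p} {E₁ E₂ : Γ → P4 p} (hm : Cod m) (hc : Cod c)
    (h1 : Cod E₁) (h2 : Cod E₂) : RE fun x => Eqv (m x) (c x) (E₁ x) (E₂ x) := by
  refine RE.existsR (RE.existsR (RE.existsR (RE.and ?_ ?_)))
  · exact RE.ne (Cod.val (pp_snd (pp_fst (pp_fst pp_id)))) (Cod.const 0)
  · exact RE.eq ((Cod.val (pp_snd (pp_fst (pp_fst pp_id)))).kap.mul (h1.comp (pp_fst (pp_fst
    (pp_fst pp_id)))))
      ((((Cod.val (pp_snd (pp_fst (pp_fst pp_id)))).kap.mul (h2.comp (pp_fst (pp_fst (pp_fst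
        pp_id))))).add
        ((hm.comp (pp_fst (pp_fst (pp_fst pp_id)))).mhat.C.mul (Cod.val (pp_snd (pp_fst
          pp_id))))).add
        ((hc.comp (pp_fst (pp_fst (pp_fst pp_id)))).zhat.C.mul (Cod.val (pp_snd pp_id))))

theorem re_hensel {m : Γ → P2 p} {c : Γ → P1 p} (hm : Cod m) (hc : Cod c) :
    RE fun x => HenselData (m x) (c x) :=
  RE.and (RE.eq ((hm.coeff (Primrec.const 0)).coeff (Primrec.const 0)) (Cod.const 0))
    (RE.and (RE.ne ((hm.coeff (Primrec.const 1)).coeff (Primrec.const 0)) (Cod.const 0))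
      (RE.ne (hc.coeff (Primrec.const 0)) (Cod.const 0)))

theorem re_sepRel {f g ft q h l A B : Γ → P3 p} {b : Γ → P2 p} (hf : Cod f) (hg : Cod g)
    (hft : Cod ft) (hq : Cod q) (hh : Cod h) (hl : Cod l) (hA : Cod A) (hB : Cod B) (hb : Cod b) :
    RE fun x => SepRel (f x) (g x) (ft x) (q x) (h x) (l x) (A x) (B x) (b x) :=
  RE.and (RE.eq (hb.C.mul hf) (hft.mul hq))
    (RE.and (RE.eq ((hg.mul hh).add (hft.mul hl)) hb.C)
      (RE.eq ((hft.mul hA).add (hft.derivative.mul hB)) hb.C))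

/-- codes of formulas -/
abbrev PhiCode : Type := List (List (List (List ℕ)) × List (List (List ℕ)))

omit [NeZero p] in
theorem RE.existsPhi {P : Γ → P3 p × P3 p → Prop}
    (h : RE fun z : Γ × (List (List (List ℕ)) × List (List (List ℕ))) =>
      P z.1 (FT80.v3 p z.2.1, FT80.v3 p z.2.2)) {l : Γ → PhiCode} (hl : Primrec l) :
    RE fun x => ∃ fg ∈ vPhi p (l x), P x fg := by
  refine (RE.exists_mem (P := fun x c => P x (FT80.v3 p c.1, FT80.v3 p c.2)) h hl).of_iff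
    fun x => ?_
  unfold vPhi
  simp only [List.mem_map]
  constructor
  · rintro ⟨_, ⟨c, hc, rfl⟩, hP⟩
    exact ⟨c, hc, hP⟩
  · rintro ⟨c, hc, hP⟩
    exact ⟨_, ⟨c, hc, rfl⟩, hP⟩

omit [NeZero p] in
theorem RE.forallPhi {P : Γ → P3 p × P3 p → Prop}
    (h : RE fun z : Γ × (List (List (List ℕ)) × List (List (List ℕ))) =>
      P z.1 (FT80.v3 p z.2.1, FT80.v3 p z.2.2)) {l : Γ → PhiCode} (hl : Primrec l) :
    RE fun x => ∀ fg ∈ vPhi p (l x), P x fg := by
  refine (RE.forall_mem (P := fun x c => P x (FT80.v3 p c.1, FT80.v3 p c.2)) h hl).of_iff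
    fun x => ?_
  unfold vPhi
  simp only [List.mem_map]
  constructor
  · intro hP c hc
    exact hP _ ⟨c, hc, rfl⟩
  · rintro hP _ ⟨c, hc, rfl⟩
    exact hP c hc

/-- numeric side conditions -/
theorem RE.le {f g : Γ → ℕ} (hf : Primrec f) (hg : Primrec g) : RE fun x => f x ≤ g x :=
  RE.of_pred (Primrec.nat_le.comp hf hg)

theorem RE.lt {f g : Γ → ℕ} (hf : Primrec f) (hg : Primrec g) : RE fun x => f x < g x :=
  RE.of_pred (Primrec.nat_lt.comp hf hg)

theorem RE.eqN {f g : Γ → ℕ} (hf : Primrec f) (hg : Primrec g) : RE fun x => f x = g x :=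
  RE.of_pred (Primrec.eq.comp hf hg)

theorem RE.dvd {f g : Γ → ℕ} (hf : Primrec f) (hg : Primrec g) : RE fun x => f x ∣ g x :=
  (RE.eqN (Primrec.nat_mod.comp hg hf) (Primrec.const 0)).of_iff fun _ => Nat.dvd_iff_mod_eq_zero

theorem RE.not_dvd {f g : Γ → ℕ} (hf : Primrec f) (hg : Primrec g) : RE fun x => ¬ f x ∣ g x :=
  (RE.lt (Primrec.const 0) (Primrec.nat_mod.comp hg hf)).of_iff fun x => by
    rw [Nat.dvd_iff_mod_eq_zero, Nat.pos_iff_ne_zero]

theorem re_ball {l : Γ → PhiCode} (hl : Primrec l) {N : Γ → ℕ} (hN : Primrec N) {a : Γ → P1 p}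
    (ha : Cod a) : RE fun x => BallOK (vPhi p (l x)) (N x) (a x) := by
  unfold BallOK
  refine RE.existsPhi ?_ hl
  refine RE.existsR (RE.existsR (RE.existsR (RE.existsR (RE.existsR (RE.existsR
    (RE.existsR (RE.and ?_ ?_)))))))
  · exact re_sepRel (Cod.v3 (pp_fst (pp_snd (pp_fst (pp_fst (pp_fst (pp_fst (pp_fst (pp_fst (pp_fst
    pp_id)))))))))) (Cod.v3 (pp_snd (pp_snd (pp_fst (pp_fst (pp_fst (pp_fst (pp_fst (pp_fst (pp_fst
      pp_id)))))))))) (Cod.val (pp_snd (pp_fst (pp_fst (pp_fst (pp_fst (pp_fst (pp_fst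
        pp_id)))))))) (Cod.val (pp_snd (pp_fst (pp_fst (pp_fst (pp_fst (pp_fst pp_id)))))))
      (Cod.val (pp_snd (pp_fst (pp_fst (pp_fst (pp_fst pp_id)))))) (Cod.val (pp_snd (pp_fst (pp_fst
        (pp_fst pp_id))))) (Cod.val (pp_snd (pp_fst (pp_fst pp_id)))) (Cod.val (pp_snd (pp_fst
          pp_id))) (Cod.val (pp_snd pp_id))
  · refine RE.exists (RE.existsR (RE.existsR (RE.existsR (RE.existsR
      (RE.and ?_ (RE.and ?_ ?_))))))
    · exact RE.le (Primrec.nat_add.comp (Primrec.nat_mul.comp (Primrec.const 2) (pp_snd (pp_fst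
      (pp_fst (pp_fst (pp_fst pp_id))))))
        (Primrec.const 1)) (hN.comp (pp_fst (pp_fst (pp_fst (pp_fst (pp_fst (pp_fst (pp_fst (pp_fst
          (pp_fst (pp_fst (pp_fst (pp_fst (pp_fst pp_id))))))))))))))
    · exact RE.eq (Cod.ev2 Cod.idHom (ha.comp (pp_fst (pp_fst (pp_fst (pp_fst (pp_fst (pp_fst
      (pp_fst (pp_fst (pp_fst (pp_fst (pp_fst (pp_fst (pp_fst pp_id)))))))))))))) (Cod.val (pp_snd
        (pp_fst (pp_fst (pp_fst pp_id))))) (Cod.val (pp_snd (pp_fst (pp_fst (pp_fst (pp_fst (pp_fst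
          (pp_fst (pp_fst (pp_fst (pp_fst (pp_fst (pp_fst pp_id))))))))))))))
        ((Cod.X.pow (Primrec.nat_add.comp (Primrec.nat_mul.comp (Primrec.const 2) (pp_snd (pp_fst
          (pp_fst (pp_fst (pp_fst pp_id))))))
        (Primrec.const 1))).mul (Cod.val (pp_snd (pp_fst (pp_fst pp_id)))))
    · exact RE.eq ((Cod.ev1 Cod.idHom (ha.comp (pp_fst (pp_fst (pp_fst (pp_fst (pp_fst (pp_fst
      (pp_fst (pp_fst (pp_fst (pp_fst (pp_fst (pp_fst (pp_fst pp_id)))))))))))))) (Cod.val (pp_snd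
        (pp_fst (pp_fst (pp_fst (pp_fst (pp_fst pp_id)))))))).mul (Cod.val (pp_snd (pp_fst pp_id))))
        ((Cod.X.pow (pp_snd (pp_fst (pp_fst (pp_fst (pp_fst pp_id)))))).mul ((Cod.const 1).add
          (Cod.X.mul (Cod.val (pp_snd pp_id)))))

theorem re_point {l : Γ → PhiCode} (hl : Primrec l) {m : Γ → P2 p} {c : Γ → P1 p} {α : Γ → P3 p}
    (hm : Cod m) (hc : Cod c) (hα : Cod α) :
    RE fun x => PointOK (vPhi p (l x)) (m x) (c x) (α x) := by
  unfold PointOK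
  refine RE.existsPhi ?_ hl
  refine RE.existsR (RE.existsR (RE.exists (RE.and ?_ ?_)))
  · exact re_eqv (hm.comp (pp_fst (pp_fst (pp_fst (pp_fst pp_id))))) (hc.comp (pp_fst (pp_fst
    (pp_fst (pp_fst pp_id))))) (Cod.ev2 Cod.kapHom (hα.comp (pp_fst (pp_fst (pp_fst (pp_fst
      pp_id))))).C
      (Cod.val (pp_snd (pp_fst (pp_fst pp_id)))).C (Cod.v3 (pp_fst (pp_snd (pp_fst (pp_fst (pp_fst
        pp_id))))))) (Cod.const 0)
  · exact re_eqv (hm.comp (pp_fst (pp_fst (pp_fst (pp_fst pp_id))))) (hc.comp (pp_fst (pp_fst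
    (pp_fst (pp_fst pp_id))))) ((Cod.ev2 Cod.kapHom (hα.comp (pp_fst (pp_fst (pp_fst (pp_fst
      pp_id))))).C
      (Cod.val (pp_snd (pp_fst (pp_fst pp_id)))).C (Cod.v3 (pp_snd (pp_snd (pp_fst (pp_fst (pp_fst
        pp_id))))))).mul (Cod.val (pp_snd (pp_fst pp_id))).C) (Cod.X.pow (pp_snd pp_id)).kap

theorem re_class {l : Γ → PhiCode} (hl : Primrec l) {m : Γ → P2 p} {c : Γ → P1 p} {α : Γ → P3 p}
    (hm : Cod m) (hc : Cod c) (hα : Cod α) {M n γ j : Γ → ℕ} (hM : Primrec M) (hn : Primrec n)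
    (hγ : Primrec γ) (hj : Primrec j) :
    RE fun x => ClassOK (vPhi p (l x)) (m x) (c x) (α x) (M x) (n x) (γ x) (j x) := by
  unfold ClassOK
  refine RE.existsPhi ?_ hl
  refine RE.exists (RE.exists (RE.and ?_ (RE.and ?_ (RE.and ?_ (RE.and ?_ ?_)))))
  · exact RE.le (Primrec.const 1) (pp_snd (pp_fst pp_id))
  · exact RE.dvd (pp_snd (pp_fst pp_id)) (hn.comp (pp_fst (pp_fst (pp_fst pp_id))))
  · exact RE.not_dvd (Primrec.const p) (pp_snd (pp_fst pp_id))
  · exact RE.eqN (Primrec.nat_mod.comp (pp_snd pp_id) (pp_snd (pp_fst pp_id)))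
      (Primrec.nat_mod.comp (hj.comp (pp_fst (pp_fst (pp_fst pp_id)))) (pp_snd (pp_fst pp_id)))
  refine RE.existsR (RE.existsR (RE.existsR (RE.existsR (RE.existsR (RE.existsR
    (RE.existsR (RE.and ?_ ?_)))))))
  · exact re_sepRel (Cod.v3 (pp_fst (pp_snd (pp_fst (pp_fst (pp_fst (pp_fst (pp_fst (pp_fst (pp_fst
    (pp_fst (pp_fst pp_id)))))))))))) (Cod.v3 (pp_snd (pp_snd (pp_fst (pp_fst (pp_fst (pp_fst
      (pp_fst (pp_fst (pp_fst (pp_fst (pp_fst pp_id)))))))))))) (Cod.val (pp_snd (pp_fst (pp_fst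
        (pp_fst (pp_fst (pp_fst (pp_fst pp_id)))))))) (Cod.val (pp_snd (pp_fst (pp_fst (pp_fst
          (pp_fst (pp_fst pp_id)))))))
      (Cod.val (pp_snd (pp_fst (pp_fst (pp_fst (pp_fst pp_id)))))) (Cod.val (pp_snd (pp_fst (pp_fst
        (pp_fst pp_id))))) (Cod.val (pp_snd (pp_fst (pp_fst pp_id)))) (Cod.val (pp_snd (pp_fst
          pp_id))) (Cod.val (pp_snd pp_id))
  refine RE.existsR (RE.existsR (RE.existsR (RE.existsR (RE.existsR (RE.exists (RE.exists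
    (RE.and ?_ (RE.and ?_ (RE.and ?_ ?_)))))))))
  · exact RE.le (Primrec.nat_add.comp (pp_snd (pp_fst (pp_fst (pp_fst (pp_fst (pp_fst (pp_fst
    (pp_fst (pp_fst (pp_fst (pp_fst (pp_fst (pp_fst (pp_fst (pp_fst pp_id)))))))))))))))
      (Primrec.nat_mul.comp (pp_snd (pp_fst (pp_fst (pp_fst (pp_fst (pp_fst (pp_fst (pp_fst (pp_fst
        (pp_fst (pp_fst (pp_fst (pp_fst (pp_fst (pp_fst (pp_fst pp_id))))))))))))))))
      (Primrec.nat_add.comp (Primrec.nat_mul.comp (Primrec.const 2) (pp_snd pp_id)) (Primrec.const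
        1))))
      (hM.comp (pp_fst (pp_fst (pp_fst (pp_fst (pp_fst (pp_fst (pp_fst (pp_fst (pp_fst (pp_fst
        (pp_fst (pp_fst (pp_fst (pp_fst (pp_fst (pp_fst (pp_fst pp_id))))))))))))))))))
  · exact re_eqv (hm.comp (pp_fst (pp_fst (pp_fst (pp_fst (pp_fst (pp_fst (pp_fst (pp_fst (pp_fst
    (pp_fst (pp_fst (pp_fst (pp_fst (pp_fst (pp_fst (pp_fst (pp_fst pp_id))))))))))))))))))
      (hc.comp (pp_fst (pp_fst (pp_fst (pp_fst (pp_fst (pp_fst (pp_fst (pp_fst (pp_fst (pp_fst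
        (pp_fst (pp_fst (pp_fst (pp_fst (pp_fst (pp_fst (pp_fst pp_id)))))))))))))))))) (Cod.ev2
          Cod.kapHom
      ((hα.comp (pp_fst (pp_fst (pp_fst (pp_fst (pp_fst (pp_fst (pp_fst (pp_fst (pp_fst (pp_fst
        (pp_fst (pp_fst (pp_fst (pp_fst (pp_fst (pp_fst (pp_fst pp_id)))))))))))))))))).C.add
          (((Cod.natCast (hγ.comp (pp_fst (pp_fst (pp_fst (pp_fst (pp_fst (pp_fst (pp_fst (pp_fst
            (pp_fst (pp_fst (pp_fst (pp_fst (pp_fst (pp_fst (pp_fst (pp_fst (pp_fst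
              pp_id))))))))))))))))))).mul (Cod.X.pow (pp_snd (pp_fst (pp_fst (pp_fst (pp_fst
                (pp_fst (pp_fst (pp_fst (pp_fst (pp_fst (pp_fst (pp_fst (pp_fst (pp_fst (pp_fst
                  pp_id))))))))))))))))).kap.mul
        (Cod.X.pow (pp_snd (pp_fst (pp_fst (pp_fst (pp_fst (pp_fst (pp_fst (pp_fst (pp_fst (pp_fst
          (pp_fst (pp_fst (pp_fst (pp_fst (pp_fst (pp_fst pp_id))))))))))))))))))) (Cod.val (pp_snd
            (pp_fst (pp_fst (pp_fst (pp_fst (pp_fst (pp_fst pp_id)))))))) (Cod.val (pp_snd (pp_fst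
              (pp_fst (pp_fst (pp_fst (pp_fst (pp_fst (pp_fst (pp_fst (pp_fst (pp_fst (pp_fst
                (pp_fst (pp_fst pp_id))))))))))))))))
      ((Cod.X.pow (Primrec.nat_add.comp (Primrec.nat_mul.comp (Primrec.const 2) (pp_snd (pp_fst
        pp_id)))
        (Primrec.const 1))).mul (Cod.val (pp_snd (pp_fst (pp_fst (pp_fst (pp_fst (pp_fst
          pp_id))))))))
  · exact re_eqv (hm.comp (pp_fst (pp_fst (pp_fst (pp_fst (pp_fst (pp_fst (pp_fst (pp_fst (pp_fst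
    (pp_fst (pp_fst (pp_fst (pp_fst (pp_fst (pp_fst (pp_fst (pp_fst pp_id))))))))))))))))))
      (hc.comp (pp_fst (pp_fst (pp_fst (pp_fst (pp_fst (pp_fst (pp_fst (pp_fst (pp_fst (pp_fst
        (pp_fst (pp_fst (pp_fst (pp_fst (pp_fst (pp_fst (pp_fst pp_id)))))))))))))))))) (Cod.ev1
          Cod.kapHom
      ((hα.comp (pp_fst (pp_fst (pp_fst (pp_fst (pp_fst (pp_fst (pp_fst (pp_fst (pp_fst (pp_fst
        (pp_fst (pp_fst (pp_fst (pp_fst (pp_fst (pp_fst (pp_fst pp_id)))))))))))))))))).C.add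
          (((Cod.natCast (hγ.comp (pp_fst (pp_fst (pp_fst (pp_fst (pp_fst (pp_fst (pp_fst (pp_fst
            (pp_fst (pp_fst (pp_fst (pp_fst (pp_fst (pp_fst (pp_fst (pp_fst (pp_fst
              pp_id))))))))))))))))))).mul (Cod.X.pow (pp_snd (pp_fst (pp_fst (pp_fst (pp_fst
                (pp_fst (pp_fst (pp_fst (pp_fst (pp_fst (pp_fst (pp_fst (pp_fst (pp_fst (pp_fst
                  pp_id))))))))))))))))).kap.mul
        (Cod.X.pow (pp_snd (pp_fst (pp_fst (pp_fst (pp_fst (pp_fst (pp_fst (pp_fst (pp_fst (pp_fst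
          (pp_fst (pp_fst (pp_fst (pp_fst (pp_fst (pp_fst pp_id))))))))))))))))))) (Cod.val (pp_snd
            (pp_fst (pp_fst (pp_fst (pp_fst (pp_fst (pp_fst (pp_fst pp_id))))))))))
      ((Cod.X.pow (pp_snd (pp_fst pp_id))).mul ((Cod.val (pp_snd (pp_fst (pp_fst (pp_fst (pp_fst
        pp_id)))))).C.add (Cod.X.mul (Cod.val (pp_snd (pp_fst (pp_fst pp_id)))))))
  · exact re_eqv (hm.comp (pp_fst (pp_fst (pp_fst (pp_fst (pp_fst (pp_fst (pp_fst (pp_fst (pp_fst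
    (pp_fst (pp_fst (pp_fst (pp_fst (pp_fst (pp_fst (pp_fst (pp_fst pp_id))))))))))))))))))
      (hc.comp (pp_fst (pp_fst (pp_fst (pp_fst (pp_fst (pp_fst (pp_fst (pp_fst (pp_fst (pp_fst
        (pp_fst (pp_fst (pp_fst (pp_fst (pp_fst (pp_fst (pp_fst pp_id)))))))))))))))))) ((Cod.val
          (pp_snd (pp_fst (pp_fst (pp_fst (pp_fst pp_id)))))).mul (Cod.val (pp_snd (pp_fst (pp_fst
            (pp_fst pp_id)))))).C
      (Cod.X.pow (pp_snd pp_id)).kap

theorem re_alpha {l : Γ → PhiCode} (hl : Primrec l) {N : Γ → ℕ} (hN : Primrec N) {a : Γ → P1 p}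
    (ha : Cod a) : RE fun x => AlphaOK (vPhi p (l x)) (N x) (a x) := by
  unfold AlphaOK
  refine RE.existsR (RE.existsR (RE.and (re_hensel (Cod.val (pp_snd (pp_fst pp_id))) (Cod.val
    (pp_snd pp_id)))
    (RE.existsR (RE.existsR (RE.exists (RE.exists
      (RE.and ?_ (RE.and ?_ (RE.and ?_ (RE.and ?_ ?_))))))))))
  · exact RE.le (pp_snd (pp_fst pp_id)) (hN.comp (pp_fst (pp_fst (pp_fst (pp_fst (pp_fst (pp_fst
    pp_id)))))))
  · exact RE.le (Primrec.const 1) (pp_snd pp_id)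
  · exact re_eqv (Cod.val (pp_snd (pp_fst (pp_fst (pp_fst (pp_fst (pp_fst pp_id))))))) (Cod.val
    (pp_snd (pp_fst (pp_fst (pp_fst (pp_fst pp_id)))))) (Cod.val (pp_snd (pp_fst (pp_fst (pp_fst
      pp_id))))).C
      ((ha.comp (pp_fst (pp_fst (pp_fst (pp_fst (pp_fst (pp_fst pp_id))))))).kap.add ((Cod.X.pow
        (pp_snd (pp_fst pp_id))).kap.mul (Cod.val (pp_snd (pp_fst (pp_fst pp_id)))).C))
  · exact re_point (hl.comp (pp_fst (pp_fst (pp_fst (pp_fst (pp_fst (pp_fst pp_id))))))) (Cod.val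
    (pp_snd (pp_fst (pp_fst (pp_fst (pp_fst (pp_fst pp_id))))))) (Cod.val (pp_snd (pp_fst (pp_fst
      (pp_fst (pp_fst pp_id)))))) (Cod.val (pp_snd (pp_fst (pp_fst (pp_fst pp_id)))))
  · refine (RE.forall_lt (N := fun _ => p) (P := fun z γ => γ < 1 ∨ ∀ j < z.2,
      ClassOK (vPhi p (l z.1.1.1.1.1.1)) (CodeRing.val z.1.1.1.1.1.2) (CodeRing.val z.1.1.1.1.2)
        (CodeRing.val z.1.1.1.2) z.1.2 z.2 γ j) ?_ (Primrec.const p)).of_iff fun z => ?_
    · refine RE.or (RE.lt (pp_snd pp_id) (Primrec.const 1)) (RE.forall_lt ?_ (pp_snd (pp_fst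
      pp_id)))
      exact re_class (hl.comp (pp_fst (pp_fst (pp_fst (pp_fst (pp_fst (pp_fst (pp_fst (pp_fst
        pp_id))))))))) (Cod.val (pp_snd (pp_fst (pp_fst (pp_fst (pp_fst (pp_fst (pp_fst (pp_fst
          pp_id))))))))) (Cod.val (pp_snd (pp_fst (pp_fst (pp_fst (pp_fst (pp_fst (pp_fst
            pp_id)))))))) (Cod.val (pp_snd (pp_fst (pp_fst (pp_fst (pp_fst (pp_fst pp_id)))))))
        (pp_snd (pp_fst (pp_fst (pp_fst pp_id)))) (pp_snd (pp_fst (pp_fst pp_id))) (pp_snd (pp_fst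
          pp_id)) (pp_snd pp_id)
    · constructor
      · intro h γ hγ
        by_cases h1 : γ < 1
        · exact Or.inl h1
        · exact Or.inr (h γ (not_lt.1 h1) hγ)
      · intro h γ h1 hγ
        rcases h γ hγ with h2 | h2
        · omega
        · exact h2

theorem re_true' {l : Γ → PhiCode} (hl : Primrec l) : RE fun x => TrueOK (vPhi p (l x)) := by
  unfold TrueOK
  refine RE.exists (RE.forall_lt (RE.or ?_ ?_) (pow_prim.comp (Primrec.const p) (pp_snd pp_id)))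
  · exact re_ball (hl.comp (pp_fst (pp_fst pp_id))) (pp_snd (pp_fst pp_id)) (Cod.polyN (pp_snd
    (pp_fst pp_id)) (pp_snd pp_id))
  · exact re_alpha (hl.comp (pp_fst (pp_fst pp_id))) (pp_snd (pp_fst pp_id)) (Cod.polyN (pp_snd
    (pp_fst pp_id)) (pp_snd pp_id))

theorem re_false' {l : Γ → PhiCode} (hl : Primrec l) : RE fun x => FalseOK (vPhi p (l x)) := by
  unfold FalseOK
  refine RE.existsR (RE.existsR (RE.and (re_hensel (Cod.val (pp_snd (pp_fst pp_id))) (Cod.val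
    (pp_snd pp_id)))
    (RE.existsR (RE.forallPhi ?_ (hl.comp (pp_fst (pp_fst (pp_fst pp_id))))))))
  refine RE.existsR (RE.existsR (RE.exists (RE.exists (RE.and ?_ ?_))))
  · exact re_eqv (Cod.val (pp_snd (pp_fst (pp_fst (pp_fst (pp_fst (pp_fst (pp_fst (pp_fst
    pp_id))))))))) (Cod.val (pp_snd (pp_fst (pp_fst (pp_fst (pp_fst (pp_fst (pp_fst pp_id))))))))
      ((Cod.val (pp_snd (pp_fst (pp_fst (pp_fst pp_id))))).mul ((Cod.ev2 Cod.kapHom (Cod.val
        (pp_snd (pp_fst (pp_fst (pp_fst (pp_fst (pp_fst pp_id))))))).C Cod.X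
        (Cod.v3 (pp_snd (pp_snd (pp_fst (pp_fst (pp_fst (pp_fst pp_id)))))))).pow (pp_snd (pp_fst
          pp_id))))
      ((Cod.ev2 Cod.kapHom (Cod.val (pp_snd (pp_fst (pp_fst (pp_fst (pp_fst (pp_fst pp_id))))))).C
        Cod.X (Cod.v3 (pp_fst (pp_snd (pp_fst (pp_fst (pp_fst (pp_fst pp_id)))))))).mul (Cod.val
          (pp_snd (pp_fst (pp_fst pp_id)))))
  · refine RE.forall_lt ?_ (pow_prim.comp (Primrec.const p)
      (Primrec.nat_add.comp (pp_snd pp_id) (Primrec.const 1)))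
    refine RE.existsR ?_
    exact re_eqv (Cod.val (pp_snd (pp_fst (pp_fst (pp_fst (pp_fst (pp_fst (pp_fst (pp_fst (pp_fst
      (pp_fst pp_id))))))))))) (Cod.val (pp_snd (pp_fst (pp_fst (pp_fst (pp_fst (pp_fst (pp_fst
        (pp_fst (pp_fst pp_id))))))))))
      ((Cod.eval ((Cod.polyN (Primrec.nat_add.comp (pp_snd (pp_fst (pp_fst pp_id))) (Primrec.const
        1)) (pp_snd (pp_fst pp_id))).C.C)
        (Cod.val (pp_snd (pp_fst (pp_fst (pp_fst (pp_fst (pp_fst pp_id)))))))).mul (Cod.val (pp_snd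
          pp_id))).C
      (Cod.X.pow (pp_snd (pp_fst (pp_fst pp_id)))).kap

end

variable {p : ℕ} [Fact p.Prime]

theorem re_true : REPred fun l : List (List (List (List ℕ)) × List (List (List ℕ))) =>
    TrueOK (vPhi p l) :=
  haveI : NeZero p := ⟨(Fact.out (p := p.Prime)).ne_zero⟩
  (re_true' Primrec.id).re

theorem re_false : REPred fun l : List (List (List (List ℕ)) × List (List (List ℕ))) =>
    FalseOK (vPhi p l) :=
  haveI : NeZero p := ⟨(Fact.out (p := p.Prime)).ne_zero⟩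
  (re_false' Primrec.id).re

end FT80
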