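import Pool.Agent.FT80.Final0

/-!
# Quantifier free formulas in two variables of the language `{+, -, ·, 0, 1, t}`
-/

set_option maxSynthPendingDepth 10

open Polynomial

namespace FT80

/-- terms in two variables of the language of rings with a constant `t` -/
inductive Tm
  | zero
  | one
  | tt
  | x
  | y
  | add (a b : Tm)
  | sub (a b : Tm)
  | mul (a b : Tm)

/-- quantifier free formulas in two variables -/
inductive Fml
  | eq (a b : Tm)
  | not (φ : Fml)
  | and (φ ψ : Fml)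
  | or (φ ψ : Fml)

/-- the value of a term in a ring, for given values of `t, x, y` -/
def Tm.val {R : Type*} [CommRing R] (t x y : R) : Tm → R
  | .zero => 0
  | .one => 1
  | .tt => t
  | .x => x
  | .y => y
  | .add a b => a.val t x y + b.val t x y
  | .sub a b => a.val t x y - b.val t x y
  | .mul a b => a.val t x y * b.val t x y

/-- satisfaction of a quantifier free formula in a ring -/
def Fml.Holds {R : Type*} [CommRing R] (t x y : R) : Fml → Prop
  | .eq a b => a.val t x y = b.val t x y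
  | .not φ => ¬ φ.Holds t x y
  | .and φ ψ => φ.Holds t x y ∧ ψ.Holds t x y
  | .or φ ψ => φ.Holds t x y ∨ ψ.Holds t x y

/-- a term as a word (prefix notation) over the alphabet `0, ..., 7` -/
def Tm.code : Tm → List ℕ
  | .zero => [0]
  | .one => [1]
  | .tt => [2]
  | .x => [3]
  | .y => [4]
  | .add a b => 5 :: (a.code ++ b.code)
  | .sub a b => 6 :: (a.code ++ b.code)
  | .mul a b => 7 :: (a.code ++ b.code)

/-- a formula as a word (prefix notation) over the alphabet `0, ..., 11` -/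
def Fml.code : Fml → List ℕ
  | .eq a b => 8 :: (a.code ++ b.code)
  | .not φ => 9 :: φ.code
  | .and φ ψ => 10 :: (φ.code ++ ψ.code)
  | .or φ ψ => 11 :: (φ.code ++ ψ.code)

/-- arithmetic on codes of polynomials -/
structure Ops (p : ℕ) where
  add : Cd → Cd → Cd
  sub : Cd → Cd → Cd
  mul : Cd → Cd → Cd
  padd : Primrec₂ add
  psub : Primrec₂ sub
  pmul : Primrec₂ mul
  vadd : ∀ a b, v3 p (add a b) = v3 p a + v3 p b
  vsub : ∀ a b, v3 p (sub a b) = v3 p a - v3 p b
  vmul : ∀ a b, v3 p (mul a b) = v3 p a * v3 p b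

abbrev L2 := List (Cd × Cd)

namespace Ops

variable {p : ℕ} (o : Ops p)

def oneC : Cd := [[[1]]]
def tC : Cd := [[[0, 1]]]
def xC : Cd := [[[], [1]]]
def yC : Cd := [[], [[1]]]

/-- polynomial of a term -/
def tm : Tm → Cd
  | .zero => []
  | .one => oneC
  | .tt => tC
  | .x => xC
  | .y => yC
  | .add a b => o.add (tm a) (tm b)
  | .sub a b => o.sub (tm a) (tm b)
  | .mul a b => o.mul (tm a) (tm b)

/-- conjunction of two pairs -/
def conj1 (c d : Cd × Cd) : Cd × Cd :=
  (o.sub (o.mul c.1 c.1) (o.mul tC (o.mul d.1 d.1)), o.mul c.2 d.2)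

/-- conjunction of two lists of pairs -/
def conj (l l' : L2) : L2 := l.flatMap fun c => l'.map fun d => o.conj1 c d

/-- an equation and its negation -/
def eqF (a b : Cd) : L2 × L2 := ([(o.sub a b, oneC)], [([], o.sub a b)])

/-- list of pairs of a formula, and of its negation -/
def fml : Fml → L2 × L2
  | .eq a b => o.eqF (o.tm a) (o.tm b)
  | .not φ => ((fml φ).2, (fml φ).1)
  | .and φ ψ => (o.conj (fml φ).1 (fml ψ).1, (fml φ).2 ++ (fml ψ).2)
  | .or φ ψ => ((fml φ).1 ++ (fml ψ).1, o.conj (fml φ).2 (fml ψ).2)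

/-- state of the parser: a stack of polynomials and a stack of formulas -/
abbrev St := List Cd × List (L2 × L2)

def arg1 (s : St) : Cd := s.1.getD 0 []
def arg2 (s : St) : Cd := s.1.getD 1 []
def frg1 (s : St) : L2 × L2 := s.2.getD 0 ([], [])
def frg2 (s : St) : L2 × L2 := s.2.getD 1 ([], [])

/-- one step of the parser (the word is read from right to left) -/
def step (n : ℕ) (s : St) : St :=
  if n = 0 then ([] :: s.1, s.2)
  else if n = 1 then (oneC :: s.1, s.2)
  else if n = 2 then (tC :: s.1, s.2)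
  else if n = 3 then (xC :: s.1, s.2)
  else if n = 4 then (yC :: s.1, s.2)
  else if n = 5 then (o.add (arg1 s) (arg2 s) :: s.1.drop 2, s.2)
  else if n = 6 then (o.sub (arg1 s) (arg2 s) :: s.1.drop 2, s.2)
  else if n = 7 then (o.mul (arg1 s) (arg2 s) :: s.1.drop 2, s.2)
  else if n = 8 then (s.1.drop 2, o.eqF (arg1 s) (arg2 s) :: s.2)
  else if n = 9 then (s.1, ((frg1 s).2, (frg1 s).1) :: s.2.drop 1)
  else if n = 10 then
    (s.1, (o.conj (frg1 s).1 (frg2 s).1, (frg1 s).2 ++ (frg2 s).2) :: s.2.drop 2)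
  else (s.1, ((frg1 s).1 ++ (frg2 s).1, o.conj (frg1 s).2 (frg2 s).2) :: s.2.drop 2)

/-- parser -/
def parse (w : List ℕ) : St := w.foldr o.step ([], [])

/-- the list of pairs of the formula with code `w` -/
def compile (w : List ℕ) : L2 := (frg1 (o.parse w)).1

theorem foldr_tm (a : Tm) (s : St) : a.code.foldr o.step s = (o.tm a :: s.1, s.2) := by
  induction a generalizing s with
  | zero => rfl
  | one => rfl
  | tt => rfl
  | x => rfl
  | y => rfl
  | add a b iha ihb => simp [Tm.code, List.foldr_append, iha, ihb, step, arg1, arg2, tm]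
  | sub a b iha ihb => simp [Tm.code, List.foldr_append, iha, ihb, step, arg1, arg2, tm]
  | mul a b iha ihb => simp [Tm.code, List.foldr_append, iha, ihb, step, arg1, arg2, tm]

theorem foldr_fml (φ : Fml) (s : St) : φ.code.foldr o.step s = (s.1, o.fml φ :: s.2) := by
  induction φ generalizing s with
  | eq a b => simp [Fml.code, List.foldr_append, foldr_tm, step, arg1, arg2, fml]
  | not φ ih => simp [Fml.code, ih, step, frg1, fml]
  | and φ ψ ih ih' => simp [Fml.code, List.foldr_append, ih, ih', step, frg1, frg2, fml]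
  | or φ ψ ih ih' => simp [Fml.code, List.foldr_append, ih, ih', step, frg1, frg2, fml]

theorem compile_code (φ : Fml) : o.compile φ.code = (o.fml φ).1 := by
  simp [compile, parse, foldr_fml, frg1]

/-! ### Semantics -/

section sem

variable {S : Type*} [CommRing S] (σ : P1 p →+* S) (x y : S)

theorem val_add (a b : Cd) : val3 (σ X) x y (o.add a b) = val3 (σ X) x y a + val3 (σ X) x y b := by
  rw [← ev2_v3, ← ev2_v3, ← ev2_v3, o.vadd, map_add]
theorem val_sub (a b : Cd) : val3 (σ X) x y (o.sub a b) = val3 (σ X) x y a - val3 (σ X) x y b := by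
  rw [← ev2_v3, ← ev2_v3, ← ev2_v3, o.vsub, map_sub]
theorem val_mul (a b : Cd) : val3 (σ X) x y (o.mul a b) = val3 (σ X) x y a * val3 (σ X) x y b := by
  rw [← ev2_v3, ← ev2_v3, ← ev2_v3, o.vmul, map_mul]

theorem val_tm (a : Tm) : val3 (σ X) x y (o.tm a) = a.val (σ X) x y := by
  induction a with
  | zero => rfl
  | one => simp [tm, oneC, val3, val2, val1, hv, Tm.val]
  | tt => simp [tm, tC, val3, val2, val1, hv, Tm.val]
  | x => simp [tm, xC, val3, val2, val1, hv, Tm.val]
  | y => simp [tm, yC, val3, val2, val1, hv, Tm.val]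
  | add a b iha ihb => rw [tm, val_add, iha, ihb, Tm.val]
  | sub a b iha ihb => rw [tm, val_sub, iha, ihb, Tm.val]
  | mul a b iha ihb => rw [tm, val_mul, iha, ihb, Tm.val]

theorem sat_conj [IsDomain S] (hsq : ∀ a b : S, a * a = σ X * (b * b) → a = 0 ∧ b = 0)
    (l l' : L2) : Sat2 (σ X) x y (o.conj l l') ↔ Sat2 (σ X) x y l ∧ Sat2 (σ X) x y l' := by
  have htC : val3 (σ X) x y tC = σ X := by simp [tC, val3, val2, val1, hv]
  have key : ∀ c d : Cd × Cd, (val3 (σ X) x y (o.conj1 c d).1 = 0 ∧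
      val3 (σ X) x y (o.conj1 c d).2 ≠ 0) ↔
      (val3 (σ X) x y c.1 = 0 ∧ val3 (σ X) x y c.2 ≠ 0) ∧
      (val3 (σ X) x y d.1 = 0 ∧ val3 (σ X) x y d.2 ≠ 0) := by
    intro c d
    unfold conj1
    dsimp only
    rw [val_sub, val_mul, val_mul, val_mul, val_mul, htC, sub_eq_zero]
    constructor
    · rintro ⟨h1, h2⟩
      obtain ⟨h3, h4⟩ := hsq _ _ h1
      obtain ⟨h5, h6⟩ := mul_ne_zero_iff.1 h2
      exact ⟨⟨h3, h5⟩, ⟨h4, h6⟩⟩
    · rintro ⟨⟨h3, h5⟩, ⟨h4, h6⟩⟩
      rw [h3, h4]
      exact ⟨by simp, mul_ne_zero h5 h6⟩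
  unfold Sat2 conj
  constructor
  · rintro ⟨e, he, h1⟩
    obtain ⟨c, hc, he⟩ := List.mem_flatMap.1 he
    obtain ⟨d, hd, rfl⟩ := List.mem_map.1 he
    obtain ⟨h2, h3⟩ := (key c d).1 h1
    exact ⟨⟨c, hc, h2⟩, ⟨d, hd, h3⟩⟩
  · rintro ⟨⟨c, hc, h2⟩, ⟨d, hd, h3⟩⟩
    exact ⟨o.conj1 c d, List.mem_flatMap.2 ⟨c, hc, List.mem_map.2 ⟨d, hd, rfl⟩⟩,
      (key c d).2 ⟨h2, h3⟩⟩

theorem sat_fml [IsDomain S] (hsq : ∀ a b : S, a * a = σ X * (b * b) → a = 0 ∧ b = 0)
    (φ : Fml) : (Sat2 (σ X) x y (o.fml φ).1 ↔ φ.Holds (σ X) x y) ∧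
      (Sat2 (σ X) x y (o.fml φ).2 ↔ ¬ φ.Holds (σ X) x y) := by
  have hone : val3 (σ X) x y oneC = 1 := by simp [oneC, val3, val2, val1, hv]
  have hnil : val3 (σ X) x y [] = 0 := rfl
  induction φ with
  | eq a b =>
    have h1 : ∀ c : Cd × Cd, Sat2 (σ X) x y [c] ↔
        val3 (σ X) x y c.1 = 0 ∧ val3 (σ X) x y c.2 ≠ 0 := by
      intro c
      unfold Sat2
      simp
    constructor
    · rw [fml, eqF, h1]
      dsimp only
      rw [val_sub, hone, val_tm, val_tm, sub_eq_zero, Fml.Holds]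
      simp
    · rw [fml, eqF, h1]
      dsimp only
      rw [val_sub, hnil, val_tm, val_tm, ne_eq, sub_eq_zero, Fml.Holds]
      simp
  | not φ ih =>
    rw [fml, Fml.Holds]
    dsimp only
    refine ⟨ih.2, ?_⟩
    rw [ih.1, not_not]
  | and φ ψ ih ih' =>
    rw [fml, Fml.Holds]
    dsimp only
    rw [sat_conj o σ x y hsq, sat2_append, ih.1, ih'.1, ih.2, ih'.2]
    exact ⟨Iff.rfl, not_and_or.symm⟩
  | or φ ψ ih ih' =>
    rw [fml, Fml.Holds]
    dsimp only
    rw [sat_conj o σ x y hsq, sat2_append, ih.1, ih'.1, ih.2, ih'.2]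
    exact ⟨Iff.rfl, not_or.symm⟩

end sem

/-! ### Primitive recursiveness -/

theorem primrec_conj1 : Primrec₂ o.conj1 := by
  unfold conj1
  have c1 : Primrec fun x : (Cd × Cd) × (Cd × Cd) => x.1.1 := Primrec.fst.comp Primrec.fst
  have c2 : Primrec fun x : (Cd × Cd) × (Cd × Cd) => x.1.2 := Primrec.snd.comp Primrec.fst
  have d1 : Primrec fun x : (Cd × Cd) × (Cd × Cd) => x.2.1 := Primrec.fst.comp Primrec.snd
  have d2 : Primrec fun x : (Cd × Cd) × (Cd × Cd) => x.2.2 := Primrec.snd.comp Primrec.snd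
  exact Primrec.pair (o.psub.comp (o.pmul.comp c1 c1)
    (o.pmul.comp (Primrec.const tC) (o.pmul.comp d1 d1))) (o.pmul.comp c2 d2)

theorem primrec_conj : Primrec₂ o.conj := by
  unfold conj
  refine Primrec.list_flatMap Primrec.fst ?_
  refine Primrec.list_map (Primrec.snd.comp Primrec.fst) ?_
  exact o.primrec_conj1.comp (Primrec.snd.comp Primrec.fst) Primrec.snd

theorem primrec_eqF : Primrec₂ o.eqF := by
  unfold eqF
  have h : Primrec fun x : Cd × Cd => o.sub x.1 x.2 := o.psub
  have e1 : Primrec fun x : Cd × Cd => [(o.sub x.1 x.2, oneC)] :=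
    Primrec.list_cons.comp (Primrec.pair h (Primrec.const oneC)) (Primrec.const [])
  have e2 : Primrec fun x : Cd × Cd => [(([] : Cd), o.sub x.1 x.2)] :=
    Primrec.list_cons.comp (Primrec.pair (Primrec.const []) h) (Primrec.const [])
  exact Primrec.pair e1 e2

theorem primrec_step : Primrec₂ o.step := by
  unfold step
  have hn : Primrec fun q : ℕ × St => q.1 := Primrec.fst
  have hs1 : Primrec fun q : ℕ × St => q.2.1 := Primrec.fst.comp Primrec.snd
  have hs2 : Primrec fun q : ℕ × St => q.2.2 := Primrec.snd.comp Primrec.snd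
  have ha1 : Primrec fun q : ℕ × St => arg1 q.2 :=
    (Primrec.list_getD []).comp hs1 (Primrec.const 0)
  have ha2 : Primrec fun q : ℕ × St => arg2 q.2 :=
    (Primrec.list_getD []).comp hs1 (Primrec.const 1)
  have hf1 : Primrec fun q : ℕ × St => frg1 q.2 :=
    (Primrec.list_getD ([], [])).comp hs2 (Primrec.const 0)
  have hf2 : Primrec fun q : ℕ × St => frg2 q.2 :=
    (Primrec.list_getD ([], [])).comp hs2 (Primrec.const 1)
  have hd1 : Primrec fun q : ℕ × St => q.2.1.drop 2 :=
    Primrec.list_drop.comp (Primrec.const 2) hs1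
  have hd2 : Primrec fun q : ℕ × St => q.2.2.drop 2 :=
    Primrec.list_drop.comp (Primrec.const 2) hs2
  have hd3 : Primrec fun q : ℕ × St => q.2.2.drop 1 :=
    Primrec.list_drop.comp (Primrec.const 1) hs2
  have hc : ∀ k : ℕ, PrimrecPred fun q : ℕ × St => q.1 = k := fun k =>
    Primrec.eq.comp hn (Primrec.const k)
  have push : ∀ c : Cd, Primrec fun q : ℕ × St => ((c :: q.2.1, q.2.2) : St) := fun c =>
    Primrec.pair (Primrec.list_cons.comp (Primrec.const c) hs1) hs2
  refine Primrec.ite (hc 0) (push []) (Primrec.ite (hc 1) (push _) (Primrec.ite (hc 2) (push _)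
    (Primrec.ite (hc 3) (push _) (Primrec.ite (hc 4) (push _) (Primrec.ite (hc 5) ?_
    (Primrec.ite (hc 6) ?_ (Primrec.ite (hc 7) ?_ (Primrec.ite (hc 8) ?_ (Primrec.ite (hc 9) ?_
    (Primrec.ite (hc 10) ?_ ?_))))))))))
  · exact Primrec.pair (Primrec.list_cons.comp (o.padd.comp ha1 ha2) hd1) hs2
  · exact Primrec.pair (Primrec.list_cons.comp (o.psub.comp ha1 ha2) hd1) hs2
  · exact Primrec.pair (Primrec.list_cons.comp (o.pmul.comp ha1 ha2) hd1) hs2
  · exact Primrec.pair hd1 (Primrec.list_cons.comp (o.primrec_eqF.comp ha1 ha2) hs2)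
  · exact Primrec.pair hs1 (Primrec.list_cons.comp
      (Primrec.pair (Primrec.snd.comp hf1) (Primrec.fst.comp hf1)) hd3)
  · exact Primrec.pair hs1 (Primrec.list_cons.comp
      (Primrec.pair (o.primrec_conj.comp (Primrec.fst.comp hf1) (Primrec.fst.comp hf2))
        (Primrec.list_append.comp (Primrec.snd.comp hf1) (Primrec.snd.comp hf2))) hd2)
  · exact Primrec.pair hs1 (Primrec.list_cons.comp
      (Primrec.pair (Primrec.list_append.comp (Primrec.fst.comp hf1) (Primrec.fst.comp hf2))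
        (o.primrec_conj.comp (Primrec.snd.comp hf1) (Primrec.snd.comp hf2))) hd2)

theorem primrec_parse : Primrec o.parse := by
  unfold parse
  have h : Primrec₂ fun (_ : List ℕ) (q : ℕ × St) => o.step q.1 q.2 :=
    o.primrec_step.comp (Primrec.fst.comp Primrec.snd) (Primrec.snd.comp Primrec.snd)
  exact Primrec.list_foldr Primrec.id (Primrec.const ([], [])) h

theorem primrec_compile : Primrec o.compile := by
  unfold compile
  have h : Primrec fun w => frg1 (o.parse w) :=
    (Primrec.list_getD ([], [])).comp (Primrec.snd.comp o.primrec_parse) (Primrec.const 0)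
  exact Primrec.fst.comp h

end Ops

/-! ### Squares -/

section squares

variable {p : ℕ} [Fact p.Prime]

theorem sq_OO (a b : OO p) (h : a * a = PowerSeries.X * (b * b)) : a = 0 ∧ b = 0 := by
  have hX : (PowerSeries.X : OO p) ≠ 0 := PowerSeries.X_ne_zero
  by_cases hb : b = 0
  · refine ⟨?_, hb⟩
    rw [hb] at h
    simpa using h
  · exfalso
    have ha : a ≠ 0 := by
      rintro rfl
      rw [zero_mul] at h
      exact mul_ne_zero hX (mul_ne_zero hb hb) h.symm
    have h1 := congrArg PowerSeries.order h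
    rw [PowerSeries.order_mul, PowerSeries.order_mul, PowerSeries.order_mul,
      PowerSeries.order_X] at h1
    obtain ⟨m, hm⟩ := ENat.ne_top_iff_exists.1 (mt PowerSeries.order_eq_top.1 ha)
    obtain ⟨n, hn⟩ := ENat.ne_top_iff_exists.1 (mt PowerSeries.order_eq_top.1 hb)
    rw [← hm, ← hn] at h1
    norm_cast at h1
    omega

theorem sq_KK (a b : KK p) (h : a * a = iK p PowerSeries.X * (b * b)) : a = 0 ∧ b = 0 := by
  obtain ⟨n, hn⟩ := exists_clear a
  obtain ⟨m, hm⟩ := exists_clear b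
  obtain ⟨u, hu⟩ := hn.mono (m := n) (n := ((n + m : ℕ) : ℤ)) (by push_cast; omega)
  obtain ⟨v, hv⟩ := hm.mono (m := m) (n := ((n + m : ℕ) : ℤ)) (by push_cast; omega)
  have h1 : u * u = PowerSeries.X * (v * v) := by
    apply iK_injective
    rw [map_mul, map_mul, map_mul, hu, hv]
    linear_combination (TT p ((n + m : ℕ) : ℤ)) ^ 2 * h
  obtain ⟨h2, h3⟩ := sq_OO u v h1
  rw [h2, map_zero] at hu
  rw [h3, map_zero] at hv
  exact ⟨(mul_eq_zero.1 hu.symm).resolve_left (TT_ne_zero _),
    (mul_eq_zero.1 hv.symm).resolve_left (TT_ne_zero _)⟩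

end squares

end FT80
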