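import Pool.Agent.FT80.Complete4
import Pool.Agent.FT80.Syntax
import Pool.Agent.FT80.RE

/-!
# Decidability of `∀ x ∃ y` and `∃ x ∀ y` sentences
-/

set_option maxSynthPendingDepth 10

open Polynomial

namespace FT80

variable {p : ℕ} [Fact p.Prime]

theorem re_comp {α β : Type*} [Primcodable α] [Primcodable β] {P : β → Prop} (h : REPred P)
    {f : α → β} (hf : Computable f) : REPred fun a => P (f a) := h.comp hf

theorem comp_comp {α β : Type*} [Primcodable α] [Primcodable β] {P : β → Prop}
    (h : ComputablePred P) {f : α → β} (hf : Computable f) : ComputablePred fun a => P (f a) := by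
  rw [ComputablePred.computable_iff_re_compl_re'] at h ⊢
  exact ⟨re_comp h.1 hf, re_comp h.2 hf⟩

/-- arithmetic on codes -/
noncomputable def theOps (p : ℕ) [Fact p.Prime] : Ops p :=
  haveI : NeZero p := ⟨(Fact.out (p := p.Prime)).ne_zero⟩
  { add := CodeRing.add (R := P3 p)
    sub := fun a b => CodeRing.add (R := P3 p) a (CodeRing.neg (R := P3 p) b)
    mul := CodeRing.mul (R := P3 p)
    padd := CodeRing.add_prim (R := P3 p)
    psub := (CodeRing.add_prim (R := P3 p)).comp Primrec.fst
      ((CodeRing.neg_prim (R := P3 p)).comp Primrec.snd)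
    pmul := CodeRing.mul_prim (R := P3 p)
    vadd := CodeRing.val_add (R := P3 p)
    vsub := fun a b => by
      rw [sub_eq_add_neg]
      exact (CodeRing.val_add (R := P3 p) a (CodeRing.neg (R := P3 p) b)).trans
        (congrArg _ (CodeRing.val_neg (R := P3 p) b))
    vmul := CodeRing.val_mul (R := P3 p) }

theorem dec_OO :
    ComputablePred fun l : L2 => ∀ x : OO p, ∃ y : OO p, Sat2 PowerSeries.X x y l := by
  have key : ∀ l : L2, (∀ x : OO p, ∃ y : OO p, Sat2 PowerSeries.X x y l) ↔
      ∀ x : OO p, ∃ y : OO p, Holds (tau p) (vPhi p l) x y := by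
    intro l
    refine forall_congr' fun x => exists_congr fun y => ?_
    rw [holds_vPhi, tau_X]
  rw [ComputablePred.computable_iff_re_compl_re']
  refine ⟨(re_true (p := p)).of_eq fun l => ?_, (re_false (p := p)).of_eq fun l => ?_⟩
  · rw [key]
    exact ⟨true_sound _, true_complete _⟩
  · rw [key]
    exact ⟨false_sound _, false_complete _⟩

theorem computable_and {α : Type*} [Primcodable α] {P Q : α → Prop} (hP : ComputablePred P)
    (hQ : ComputablePred Q) : ComputablePred fun a => P a ∧ Q a := by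
  classical
  rw [ComputablePred.computable_iff] at hP hQ ⊢
  obtain ⟨f, hf, rfl⟩ := hP
  obtain ⟨g, hg, rfl⟩ := hQ
  refine ⟨fun a => f a && g a, ?_, ?_⟩
  · exact Primrec.and.to_comp.comp hf hg
  · funext a
    simp

theorem dec_KK :
    ComputablePred fun l : L2 => ∀ x : KK p, ∃ y : KK p, Sat2 (iK p PowerSeries.X) x y l := by
  have h := dec_OO (p := p)
  refine (computable_and (comp_comp h primrec_trA.to_comp)
    (comp_comp h primrec_trB.to_comp)).of_eq fun l => ?_
  exact (KK_iff _ l).symm

/-- decision of `∀ x ∃ y φ` in `F_p[[t]]` -/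
theorem decide_OO (p : ℕ) [Fact p.Prime] : ∃ D : List ℕ → Bool, Computable D ∧ ∀ φ : Fml,
    (D φ.code = true ↔ ∀ x : OO p, ∃ y : OO p, φ.Holds PowerSeries.X x y) := by
  have h := comp_comp (dec_OO (p := p)) (theOps p).primrec_compile.to_comp
  obtain ⟨D, hD, hDe⟩ := ComputablePred.computable_iff.1 h
  refine ⟨D, hD, fun φ => ?_⟩
  have h1 := congrFun hDe φ.code
  rw [← iff_eq_eq] at h1
  rw [← h1]
  refine forall_congr' fun x => exists_congr fun y => ?_
  rw [Ops.compile_code]
  have h2 := ((theOps p).sat_fml (tau p) x y (by rw [tau_X]; exact sq_OO) φ).1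
  rw [tau_X] at h2
  exact h2

/-- decision of `∀ x ∃ y φ` in `F_p((t))` -/
theorem decide_KK (p : ℕ) [Fact p.Prime] : ∃ D : List ℕ → Bool, Computable D ∧ ∀ φ : Fml,
    (D φ.code = true ↔ ∀ x : KK p, ∃ y : KK p, φ.Holds (iK p PowerSeries.X) x y) := by
  have h := comp_comp (dec_KK (p := p)) (theOps p).primrec_compile.to_comp
  obtain ⟨D, hD, hDe⟩ := ComputablePred.computable_iff.1 h
  refine ⟨D, hD, fun φ => ?_⟩
  have h1 := congrFun hDe φ.code
  rw [← iff_eq_eq] at h1
  rw [← h1]
  refine forall_congr' fun x => exists_congr fun y => ?_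
  rw [Ops.compile_code]
  have h3 : tauK p X = iK p PowerSeries.X := by
    rw [tauK, RingHom.comp_apply, tau_X]
  have h2 := ((theOps p).sat_fml (tauK p) x y (by rw [h3]; exact sq_KK) φ).1
  rw [h3] at h2
  exact h2

/-- decision of `∃ x ∀ y φ` from the decision of `∀ x ∃ y φ` -/
theorem decide_neg {R : Type*} [CommRing R] (t : R)
    (h : ∃ D : List ℕ → Bool, Computable D ∧ ∀ φ : Fml,
      (D φ.code = true ↔ ∀ x : R, ∃ y : R, φ.Holds t x y)) :
    ∃ D : List ℕ → Bool, Computable D ∧ ∀ φ : Fml,
      (D φ.code = true ↔ ∃ x : R, ∀ y : R, φ.Holds t x y) := by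
  obtain ⟨D, hD, hφ⟩ := h
  refine ⟨fun w => !D (9 :: w), ?_, fun φ => ?_⟩
  · exact Primrec.not.to_comp.comp (hD.comp (Primrec.list_cons.comp (Primrec.const 9)
      Primrec.id).to_comp)
  · have h1 := hφ φ.not
    have h2 : φ.not.code = 9 :: φ.code := rfl
    rw [h2] at h1
    rw [Bool.not_eq_true', ← Bool.not_eq_true, h1]
    push Not
    simp only [Fml.Holds, not_not]

end FT80
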