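import Pool.Agent.FT80.InO

/-!
# Codes: semantics, reversal, reduction of the field case to the ring case
-/

set_option maxSynthPendingDepth 10

open Polynomial

namespace FT80

/-! ### Horner evaluation of lists -/

/-- `∑ y^i v(l_i)` -/
def hv {A R : Type*} [CommRing R] (v : A → R) (y : R) (l : List A) : R :=
  l.foldr (fun a s => v a + y * s) 0

theorem hv_append {A R : Type*} [CommRing R] (v : A → R) (y : R) (l l' : List A) :
    hv v y (l ++ l') = hv v y l + y ^ l.length * hv v y l' := by
  induction l with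
  | nil => simp [hv]
  | cons a l ih =>
    have h1 : hv v y (a :: l ++ l') = v a + y * hv v y (l ++ l') := rfl
    have h2 : hv v y (a :: l) = v a + y * hv v y l := rfl
    rw [h1, ih, h2, List.length_cons]
    ring

theorem hv_reverse {A R : Type*} [Field R] (v : A → R) {y : R} (hy : y ≠ 0) (l : List A) :
    y * hv v y l.reverse = y ^ l.length * hv v y⁻¹ l := by
  induction l with
  | nil => simp [hv]
  | cons a l ih =>
    have h1 : hv v y [a] = v a := by simp [hv]
    have h2 : hv v y⁻¹ (a :: l) = v a + y⁻¹ * hv v y⁻¹ l := rfl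
    rw [List.reverse_cons, hv_append, mul_add, ih, h1, h2, List.length_cons, List.length_reverse]
    field_simp
    ring

theorem hv_congr {A R : Type*} [CommRing R] {v v' : A → R} (y : R) (l : List A)
    (h : ∀ a ∈ l, v a = v' a) : hv v y l = hv v' y l := by
  induction l with
  | nil => rfl
  | cons a l ih =>
    have h1 : hv v y (a :: l) = v a + y * hv v y l := rfl
    have h2 : hv v' y (a :: l) = v' a + y * hv v' y l := rfl
    rw [h1, h2, ih (fun b hb => h b (List.mem_cons_of_mem _ hb)), h a List.mem_cons_self]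

theorem hv_mul {A R : Type*} [CommRing R] (v : A → R) (y s : R) (l : List A) :
    s * hv v y l = hv (fun a => s * v a) y l := by
  induction l with
  | nil => simp [hv]
  | cons a l ih =>
    have h1 : hv v y (a :: l) = v a + y * hv v y l := rfl
    have h2 : hv (fun a => s * v a) y (a :: l) = s * v a + y * hv (fun a => s * v a) y l := rfl
    rw [h1, h2, ← ih]
    ring

theorem hv_map {A B R : Type*} [CommRing R] (v : B → R) (f : A → B) (y : R) (l : List A) :
    hv v y (l.map f) = hv (fun a => v (f a)) y l := by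
  induction l with
  | nil => rfl
  | cons a l ih =>
    have h1 : hv v y ((a :: l).map f) = v (f a) + y * hv v y (l.map f) := rfl
    have h2 : hv (fun a => v (f a)) y (a :: l) = v (f a) + y * hv (fun a => v (f a)) y l := rfl
    rw [h1, h2, ih]

/-- value of a coefficient in `t` -/
def val1 {R : Type*} [CommRing R] (t : R) : List ℕ → R := hv (fun n : ℕ => (n : R)) t
def val2 {R : Type*} [CommRing R] (t x : R) : List (List ℕ) → R := hv (val1 t) x
def val3 {R : Type*} [CommRing R] (t x y : R) : List (List (List ℕ)) → R := hv (val2 t x) y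

theorem ev_vList {A R S : Type*} [CommRing R] [CommRing S] (v : A → R) (l : List A)
    (σ : R →+* S) (y : S) : Polynomial.eval₂RingHom σ y (vList v l) = hv (fun a => σ (v a)) y l := by
  induction l with
  | nil => simp [vList, hv]
  | cons a l ih =>
    have h1 : vList v (a :: l) = C (v a) + X * vList v l := rfl
    have h2 : hv (fun a => σ (v a)) y (a :: l) = σ (v a) + y * hv (fun a => σ (v a)) y l := rfl
    rw [h1, h2, map_add, map_mul, ih]
    simp

theorem sigma_v1 {p : ℕ} {S : Type*} [CommRing S] (σ : P1 p →+* S) (l : List ℕ) :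
    σ (v1 p l) = val1 (σ X) l := by
  unfold v1 val1
  induction l with
  | nil => simp [vList, hv]
  | cons a l ih =>
    have h1 : vList (v0 p) (a :: l) = C (v0 p a) + X * vList (v0 p) l := rfl
    have h2 : hv (fun n : ℕ => (n : S)) (σ X) (a :: l) =
      (a : S) + σ X * hv (fun n : ℕ => (n : S)) (σ X) l := rfl
    rw [h1, h2, map_add, map_mul, ih]
    congr 1
    unfold v0
    rw [map_natCast (C : ZMod p →+* P1 p), map_natCast]

theorem ev2_v3 {p : ℕ} {S : Type*} [CommRing S] (σ : P1 p →+* S) (x y : S)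
    (c : List (List (List ℕ))) : ev2 σ x y (v3 p c) = val3 (σ X) x y c := by
  unfold ev2 v3 val3
  rw [ev_vList]
  congr 1
  funext b
  unfold v2 val2
  rw [ev_vList]
  congr 1
  funext a
  exact sigma_v1 σ a


/-! ### Reversal in `y` and in `x` -/

/-- code of polynomials over `F_p[t][x][y]` -/
abbrev Cd := List (List (List ℕ))

theorem val3_reverse {R : Type*} [Field R] (t x : R) {y : R} (hy : y ≠ 0) (c : Cd) :
    val3 t x y c.reverse = 0 ↔ val3 t x y⁻¹ c = 0 := by
  unfold val3
  have h := hv_reverse (val2 t x) hy c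
  constructor
  · intro h1
    rw [h1, mul_zero] at h
    exact (mul_eq_zero.1 h.symm).resolve_left (pow_ne_zero _ hy)
  · intro h1
    rw [h1, mul_zero] at h
    exact (mul_eq_zero.1 h).resolve_left hy

/-- list of length `L`, reversed -/
def padrev (L : ℕ) (a : List (List ℕ)) : List (List ℕ) :=
  ((List.range L).map fun i => a.getD i []).reverse

theorem hv_pad {R : Type*} [CommRing R] (v : List ℕ → R) (hv0 : v [] = 0) (x : R) (L : ℕ) :
    ∀ a : List (List ℕ), a.length ≤ L →
      hv v x ((List.range L).map fun i => a.getD i []) = hv v x a := by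
  induction L with
  | zero =>
    intro a ha
    rw [List.eq_nil_of_length_eq_zero (Nat.le_zero.1 ha)]
    rfl
  | succ n ih =>
    intro a ha
    rw [List.range_succ_eq_map]
    cases a with
    | nil =>
      have h1 := ih [] (Nat.zero_le _)
      rw [List.map_cons, List.map_map]
      have h2 : ∀ (b : List ℕ) (l : List (List ℕ)), hv v x (b :: l) = v b + x * hv v x l :=
        fun _ _ => rfl
      rw [h2]
      have h3 : (List.range n).map ((fun i => ([] : List (List ℕ)).getD i []) ∘ Nat.succ) =
        (List.range n).map fun i => ([] : List (List ℕ)).getD i [] := by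
        apply List.map_congr_left
        intro i _
        simp
      rw [h3, h1]
      simp [hv, hv0]
    | cons b l =>
      have h1 := ih l (by simpa using ha)
      rw [List.map_cons, List.map_map]
      have h2 : ∀ (b : List ℕ) (l : List (List ℕ)), hv v x (b :: l) = v b + x * hv v x l :=
        fun _ _ => rfl
      rw [h2, h2]
      have h3 : (List.range n).map ((fun i => (b :: l).getD i []) ∘ Nat.succ) =
        (List.range n).map fun i => l.getD i [] := by
        apply List.map_congr_left
        intro i _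
        simp
      rw [h3, h1]
      simp

theorem val2_padrev {R : Type*} [Field R] (t : R) {x : R} (hx : x ≠ 0) (L : ℕ)
    (a : List (List ℕ)) (ha : a.length ≤ L) :
    x * val2 t x (padrev L a) = x ^ L * val2 t x⁻¹ a := by
  unfold val2 padrev
  rw [hv_reverse _ hx, hv_pad _ (by simp [val1, hv]) _ _ _ ha]
  simp

/-- maximal length of the members of a list -/
def maxlen (c : Cd) : ℕ := c.foldr (fun a m => max a.length m) 0

theorem le_maxlen (c : Cd) : ∀ a ∈ c, a.length ≤ maxlen c := by
  induction c with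
  | nil => intro a ha; simp at ha
  | cons b l ih =>
    intro a ha
    have h : maxlen (b :: l) = max b.length (maxlen l) := rfl
    rw [h]
    rcases List.mem_cons.1 ha with rfl | ha
    · exact le_max_left _ _
    · exact (ih a ha).trans (le_max_right _ _)

/-- reversal in `x` -/
def revX (c : Cd) : Cd := c.map (padrev (maxlen c))

theorem val3_revX {R : Type*} [Field R] (t : R) {x : R} (hx : x ≠ 0) (y : R) (c : Cd) :
    val3 t x y (revX c) = 0 ↔ val3 t x⁻¹ y c = 0 := by
  have h : x * val3 t x y (revX c) = x ^ (maxlen c) * val3 t x⁻¹ y c := by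
    unfold val3 revX
    rw [hv_map, hv_mul, hv_mul]
    apply hv_congr
    intro a ha
    exact val2_padrev t hx _ a (le_maxlen c a ha)
  constructor
  · intro h1
    rw [h1, mul_zero] at h
    exact (mul_eq_zero.1 h.symm).resolve_left (pow_ne_zero _ hx)
  · intro h1
    rw [h1, mul_zero] at h
    exact (mul_eq_zero.1 h).resolve_left hx

/-! ### Lists of pairs -/

/-- satisfaction of a coded list of pairs -/
def Sat2 {R : Type*} [CommRing R] (t x y : R) (l : List (Cd × Cd)) : Prop :=
  ∃ c ∈ l, val3 t x y c.1 = 0 ∧ val3 t x y c.2 ≠ 0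

theorem holds_vPhi {p : ℕ} {S : Type*} [CommRing S] (σ : P1 p →+* S) (x y : S)
    (l : List (Cd × Cd)) : Holds σ (vPhi p l) x y ↔ Sat2 (σ X) x y l := by
  unfold Holds Sat2 vPhi
  constructor
  · rintro ⟨c, hc, h1, h2⟩
    obtain ⟨d, hd, rfl⟩ := List.mem_map.1 hc
    rw [ev2_v3] at h1 h2
    exact ⟨d, hd, h1, h2⟩
  · rintro ⟨d, hd, h1, h2⟩
    refine ⟨_, List.mem_map.2 ⟨d, hd, rfl⟩, ?_, ?_⟩
    · rw [ev2_v3]; exact h1
    · rw [ev2_v3]; exact h2

def revYs (l : List (Cd × Cd)) : List (Cd × Cd) := l.map fun c => (c.1.reverse, [] :: c.2.reverse)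
def revXs (l : List (Cd × Cd)) : List (Cd × Cd) := l.map fun c => (revX c.1, revX c.2)

theorem sat2_append {R : Type*} [CommRing R] (t x y : R) (l l' : List (Cd × Cd)) :
    Sat2 t x y (l ++ l') ↔ Sat2 t x y l ∨ Sat2 t x y l' := by
  unfold Sat2
  constructor
  · rintro ⟨c, hc, h⟩
    rcases List.mem_append.1 hc with hc | hc
    · exact Or.inl ⟨c, hc, h⟩
    · exact Or.inr ⟨c, hc, h⟩
  · rintro (⟨c, hc, h⟩ | ⟨c, hc, h⟩)
    · exact ⟨c, List.mem_append_left _ hc, h⟩
    · exact ⟨c, List.mem_append_right _ hc, h⟩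

theorem sat2_revYs {R : Type*} [Field R] (t x y : R) (l : List (Cd × Cd)) :
    Sat2 t x y (revYs l) ↔ y ≠ 0 ∧ Sat2 t x y⁻¹ l := by
  unfold Sat2 revYs
  have hcons : ∀ c : Cd, val3 t x y ([] :: c) = y * val3 t x y c := by
    intro c
    simp [val3, hv, val2]
  constructor
  · rintro ⟨c, hc, h1, h2⟩
    obtain ⟨d, hd, rfl⟩ := List.mem_map.1 hc
    dsimp only at h1 h2
    rw [hcons] at h2
    have hy : y ≠ 0 := fun h => h2 (by rw [h, zero_mul])
    have h3 : val3 t x y d.2.reverse ≠ 0 := fun h => h2 (by rw [h, mul_zero])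
    exact ⟨hy, d, hd, (val3_reverse t x hy _).1 h1, fun h => h3 ((val3_reverse t x hy _).2 h)⟩
  · rintro ⟨hy, d, hd, h1, h2⟩
    refine ⟨_, List.mem_map.2 ⟨d, hd, rfl⟩, ?_, ?_⟩
    · exact (val3_reverse t x hy _).2 h1
    · dsimp only
      rw [hcons]
      exact mul_ne_zero hy (fun h => h2 ((val3_reverse t x hy _).1 h))

theorem sat2_revXs {R : Type*} [Field R] (t : R) {x : R} (hx : x ≠ 0) (y : R)
    (l : List (Cd × Cd)) : Sat2 t x y (revXs l) ↔ Sat2 t x⁻¹ y l := by
  unfold Sat2 revXs
  constructor
  · rintro ⟨c, hc, h1, h2⟩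
    obtain ⟨d, hd, rfl⟩ := List.mem_map.1 hc
    exact ⟨d, hd, (val3_revX t hx y _).1 h1, fun h => h2 ((val3_revX t hx y _).2 h)⟩
  · rintro ⟨d, hd, h1, h2⟩
    exact ⟨_, List.mem_map.2 ⟨d, hd, rfl⟩, (val3_revX t hx y _).2 h1,
      fun h => h2 ((val3_revX t hx y _).1 h)⟩

/-- the code of `x = 0 ∧ 1 ≠ 0` -/
def xcode : Cd × Cd := ([[[], [1]]], [[[1]]])

theorem val_xcode {R : Type*} [CommRing R] (t x y : R) :
    val3 t x y xcode.1 = x ∧ val3 t x y xcode.2 = 1 := by
  constructor <;> simp [xcode, val3, val2, val1, hv]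

def trA (l : List (Cd × Cd)) : List (Cd × Cd) := l ++ revYs l
def trB (l : List (Cd × Cd)) : List (Cd × Cd) := xcode :: trA (revXs l)

theorem sat2_trA {R : Type*} [Field R] (t x y : R) (l : List (Cd × Cd)) :
    Sat2 t x y (trA l) ↔ Sat2 t x y l ∨ (y ≠ 0 ∧ Sat2 t x y⁻¹ l) := by
  unfold trA
  rw [sat2_append, sat2_revYs]

theorem sat2_trB {R : Type*} [Field R] (t x y : R) (l : List (Cd × Cd)) :
    Sat2 t x y (trB l) ↔ x = 0 ∨ (Sat2 t x⁻¹ y l ∨ (y ≠ 0 ∧ Sat2 t x⁻¹ y⁻¹ l)) := by
  have h0 : Sat2 t x y (trB l) ↔ x = 0 ∨ Sat2 t x y (trA (revXs l)) := by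
    unfold trB Sat2
    constructor
    · rintro ⟨c, hc, h1, h2⟩
      rcases List.mem_cons.1 hc with rfl | hc
      · left
        rw [(val_xcode t x y).1] at h1
        exact h1
      · exact Or.inr ⟨c, hc, h1, h2⟩
    · rintro (h | ⟨c, hc, h1, h2⟩)
      · refine ⟨xcode, List.mem_cons_self, ?_, ?_⟩
        · rw [(val_xcode t x y).1]
          exact h
        · rw [(val_xcode t x y).2]
          exact one_ne_zero
      · exact ⟨c, List.mem_cons_of_mem _ hc, h1, h2⟩
  rw [h0]
  by_cases hx : x = 0
  · simp [hx]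
  · rw [sat2_trA, sat2_revXs t hx, sat2_revXs t hx]

/-! ### From the field to the ring -/

variable {p : ℕ} [Fact p.Prime]

theorem val3_map {R S : Type*} [CommRing R] [CommRing S] (f : R →+* S) (t x y : R) (c : Cd) :
    val3 (f t) (f x) (f y) c = f (val3 t x y c) := by
  have h1 : ∀ a : List ℕ, val1 (f t) a = f (val1 t a) := by
    intro a
    induction a with
    | nil => simp [val1, hv]
    | cons n l ih =>
      have e1 : val1 (f t) (n :: l) = (n : S) + f t * val1 (f t) l := rfl
      have e2 : val1 t (n :: l) = (n : R) + t * val1 t l := rfl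
      rw [e1, e2, ih, map_add, map_mul, map_natCast]
  have h2 : ∀ a : List (List ℕ), val2 (f t) (f x) a = f (val2 t x a) := by
    intro a
    induction a with
    | nil => simp [val2, hv]
    | cons n l ih =>
      have e1 : val2 (f t) (f x) (n :: l) = val1 (f t) n + f x * val2 (f t) (f x) l := rfl
      have e2 : val2 t x (n :: l) = val1 t n + x * val2 t x l := rfl
      rw [e1, e2, ih, map_add, map_mul, h1]
  induction c with
  | nil => simp [val3, hv]
  | cons n l ih =>
    have e1 : val3 (f t) (f x) (f y) (n :: l) = val2 (f t) (f x) n + f y * val3 (f t) (f x) (f y) l :=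
      rfl
    have e2 : val3 t x y (n :: l) = val2 t x n + y * val3 t x y l := rfl
    rw [e1, e2, ih, map_add, map_mul, h2]

theorem sat2_map {R S : Type*} [CommRing R] [CommRing S] (f : R →+* S)
    (hf : Function.Injective f) (t x y : R) (l : List (Cd × Cd)) :
    Sat2 (f t) (f x) (f y) l ↔ Sat2 t x y l := by
  unfold Sat2
  simp only [val3_map, ne_eq, map_eq_zero_iff f hf]

/-- every element of the field is integral or the inverse of a nonzero integral element -/
theorem KK_cases (x : KK p) : (∃ z : OO p, x = iK p z) ∨ ∃ z : OO p, z ≠ 0 ∧ x = (iK p z)⁻¹ := by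
  by_cases h : InO x
  · obtain ⟨z, hz⟩ := h
    exact Or.inl ⟨z, hz.symm⟩
  · obtain ⟨z, hz⟩ := inO_or_inv x h
    right
    refine ⟨z, ?_, ?_⟩
    · rintro rfl
      rw [map_zero] at hz
      apply h
      rw [inv_eq_zero.1 hz.symm]
      exact InO.zero
    · rw [hz, inv_inv]

theorem forall_KK (P : KK p → Prop) : (∀ x, P x) ↔
    (∀ z : OO p, P (iK p z)) ∧ ∀ z : OO p, z = 0 ∨ P (iK p z)⁻¹ := by
  constructor
  · intro h
    exact ⟨fun z => h _, fun z => Or.inr (h _)⟩
  · rintro ⟨h1, h2⟩ x
    rcases KK_cases x with ⟨z, rfl⟩ | ⟨z, hz, rfl⟩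
    · exact h1 z
    · exact (h2 z).resolve_left hz

theorem exists_KK (P : KK p → Prop) : (∃ x, P x) ↔
    ∃ z : OO p, P (iK p z) ∨ (iK p z ≠ 0 ∧ P (iK p z)⁻¹) := by
  constructor
  · rintro ⟨x, hx⟩
    rcases KK_cases x with ⟨z, rfl⟩ | ⟨z, hz, rfl⟩
    · exact ⟨z, Or.inl hx⟩
    · refine ⟨z, Or.inr ⟨?_, hx⟩⟩
      rwa [ne_eq, map_eq_zero_iff _ iK_injective]
  · rintro ⟨z, h | ⟨_, h⟩⟩
    · exact ⟨_, h⟩
    · exact ⟨_, h⟩

theorem KK_iff (t : OO p) (l : List (Cd × Cd)) :
    (∀ x : KK p, ∃ y : KK p, Sat2 (iK p t) x y l) ↔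
      (∀ x : OO p, ∃ y : OO p, Sat2 t x y (trA l)) ∧
        ∀ x : OO p, ∃ y : OO p, Sat2 t x y (trB l) := by
  have hinj : Function.Injective (iK p) := iK_injective
  rw [forall_KK]
  refine and_congr (forall_congr' fun z => ?_) (forall_congr' fun z => ?_)
  · rw [exists_KK]
    refine exists_congr fun y => ?_
    rw [← sat2_map (iK p) hinj, sat2_trA]
  · rw [exists_KK]
    constructor
    · rintro (h | ⟨y, hy⟩)
      · refine ⟨0, ?_⟩
        rw [← sat2_map (iK p) hinj, sat2_trB]
        left
        rw [h, map_zero]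
      · refine ⟨y, ?_⟩
        rw [← sat2_map (iK p) hinj, sat2_trB]
        exact Or.inr hy
    · rintro ⟨y, hy⟩
      rw [← sat2_map (iK p) hinj, sat2_trB] at hy
      rcases hy with h | h
      · left
        rwa [map_eq_zero_iff _ hinj] at h
      · exact Or.inr ⟨y, h⟩

/-! ### Primitive recursiveness of the transformations -/

theorem primrec_padrev : Primrec₂ padrev := by
  unfold padrev
  have h1 : Primrec fun x : ℕ × List (List ℕ) => (List.range x.1) :=
    Primrec.list_range.comp Primrec.fst
  have h2 : Primrec₂ fun (x : ℕ × List (List ℕ)) (i : ℕ) => x.2.getD i [] :=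
    (Primrec.list_getD []).comp (Primrec.snd.comp Primrec.fst) Primrec.snd
  exact Primrec.list_reverse.comp (Primrec.list_map h1 h2)

theorem primrec_maxlen : Primrec maxlen := by
  unfold maxlen
  have h : Primrec₂ fun (_ : Cd) (q : List (List ℕ) × ℕ) => max q.1.length q.2 :=
    Primrec.nat_max.comp (Primrec.list_length.comp (Primrec.fst.comp Primrec.snd))
      (Primrec.snd.comp Primrec.snd)
  exact Primrec.list_foldr Primrec.id (Primrec.const 0) h

theorem primrec_revX : Primrec revX := by
  unfold revX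
  have h : Primrec₂ fun (c : Cd) (a : List (List ℕ)) => padrev (maxlen c) a :=
    primrec_padrev.comp (primrec_maxlen.comp Primrec.fst) Primrec.snd
  exact Primrec.list_map Primrec.id h

theorem primrec_revXs : Primrec revXs := by
  unfold revXs
  have h : Primrec₂ fun (_ : List (Cd × Cd)) (c : Cd × Cd) => (revX c.1, revX c.2) :=
    Primrec.pair (primrec_revX.comp (Primrec.fst.comp Primrec.snd))
      (primrec_revX.comp (Primrec.snd.comp Primrec.snd))
  exact Primrec.list_map Primrec.id h

theorem primrec_revYs : Primrec revYs := by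
  unfold revYs
  have h : Primrec₂ fun (_ : List (Cd × Cd)) (c : Cd × Cd) => (c.1.reverse, [] :: c.2.reverse) :=
    Primrec.pair (Primrec.list_reverse.comp (Primrec.fst.comp Primrec.snd))
      (Primrec.list_cons.comp (Primrec.const []) (Primrec.list_reverse.comp (Primrec.snd.comp Primrec.snd)))
  exact Primrec.list_map Primrec.id h

theorem primrec_trA : Primrec trA := by
  unfold trA
  exact Primrec.list_append.comp Primrec.id primrec_revYs

theorem primrec_trB : Primrec trB := by
  unfold trB
  exact Primrec.list_cons.comp (Primrec.const xcode) (primrec_trA.comp primrec_revXs)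

end FT80
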