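import Pool.Agent.FT80.Tools

/-!
# Soundness of the certificates
-/

set_option maxSynthPendingDepth 10

open Polynomial

namespace FT80

variable {p : ℕ} [hp : Fact p.Prime]

theorem map_ev2' {R S S' : Type*} [CommRing R] [CommRing S] [CommRing S'] (σ : R →+* S)
    (f : S →+* S') (x y : S) (q : Polynomial (Polynomial R)) :
    f (ev2 σ x y q) = ev2 (f.comp σ) (f x) (f y) q := by
  unfold ev2
  rw [coe_eval₂RingHom, coe_eval₂RingHom, hom_eval₂]
  congr 1
  refine RingHom.ext (fun r => ?_)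
  rw [RingHom.comp_apply, coe_eval₂RingHom, coe_eval₂RingHom, hom_eval₂]

theorem map_ev1' {R S S' : Type*} [CommRing R] [CommRing S] [CommRing S'] (σ : R →+* S)
    (f : S →+* S') (x : S) (q : Polynomial R) :
    f (ev1 σ x q) = ev1 (f.comp σ) (f x) q := by
  unfold ev1
  rw [coe_eval₂RingHom, coe_eval₂RingHom, hom_eval₂]

theorem ev2_eq_eval {R S : Type*} [CommRing R] [CommRing S] (σ : R →+* S) (x y : S)
    (q : Polynomial (Polynomial R)) : ev2 σ x y q = (q.map (ev1 σ x)).eval y := by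
  unfold ev2 ev1
  rw [coe_eval₂RingHom, eval₂_eq_eval_map]

theorem ev2_C' {R S : Type*} [CommRing R] [CommRing S] (σ : R →+* S) (x y : S)
    (q : Polynomial R) : ev2 σ x y (C q) = ev1 σ x q := by
  unfold ev2 ev1
  rw [coe_eval₂RingHom, eval₂_C]

/-- the main step: a simple approximate root gives a root -/
theorem sep_root {f g ft q h l A B : P3 p} {b : P2 p} (hs : SepRel f g ft q h l A B b)
    (x y₁ : OO p) (ν : ℕ) (h1 : PowerSeries.X ^ (2 * ν + 1) ∣ ev2 (tau p) x y₁ ft)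
    (h2 : ¬ PowerSeries.X ^ (ν + 1) ∣ ev1 (tau p) x b) :
    ∃ y : OO p, ev2 (tau p) x y f = 0 ∧ ev2 (tau p) x y g ≠ 0 := by
  obtain ⟨e1, e2, e3⟩ := hs
  obtain ⟨z, hz⟩ := hensel_newton (ft.map (ev1 (tau p) x)) y₁ ν
    (by rw [← ev2_eq_eval]; exact h1) (by
      rw [derivative_map, ← ev2_eq_eval]
      intro h3
      apply h2
      have h4 := congrArg (ev2 (tau p) x y₁) e3
      rw [map_add, map_mul, map_mul, ev2_C'] at h4
      rw [← h4]
      exact dvd_add (Dvd.dvd.mul_right (dvd_trans (pow_dvd_pow _ (by omega)) h1) _)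
        (Dvd.dvd.mul_right h3 _))
  rw [← ev2_eq_eval] at hz
  have hb : ev1 (tau p) x b ≠ 0 := by
    intro h3
    rw [h3] at h2
    exact h2 (dvd_zero _)
  refine ⟨z, ?_, ?_⟩
  · have h4 := congrArg (ev2 (tau p) x z) e1
    rw [map_mul, map_mul, ev2_C', hz, zero_mul] at h4
    exact (mul_eq_zero.1 h4).resolve_left hb
  · intro h3
    have h4 := congrArg (ev2 (tau p) x z) e2
    rw [map_add, map_mul, map_mul, ev2_C', hz, h3, zero_mul, zero_mul, add_zero] at h4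
    exact hb h4.symm

theorem ball_sound {φ : List (P3 p × P3 p)} {N : ℕ} {a : P1 p} (h : BallOK φ N a) (x : OO p)
    (hx : PowerSeries.X ^ N ∣ x - tau p a) : ∃ y : OO p, Holds (tau p) φ x y := by
  obtain ⟨fg, hfg, ft, q, h, l, A, B, b, hs, ν, y₁, R, c₁, c₂, hν, e1, e2⟩ := h
  have hid : ∀ (y : P1 p) (F : P3 p), tau p (ev2 (RingHom.id (P1 p)) a y F) =
      ev2 (tau p) (tau p a) (tau p y) F := by
    intro y F
    rw [map_ev2', RingHom.comp_id]
  have hid1 : ∀ (F : P2 p), tau p (ev1 (RingHom.id (P1 p)) a F) =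
      ev1 (tau p) (tau p a) F := by
    intro F
    rw [map_ev1', RingHom.comp_id]
  have hdvd2 : ∀ (y : OO p) (F : P3 p), PowerSeries.X ^ N ∣
      ev2 (tau p) x y F - ev2 (tau p) (tau p a) y F := by
    intro y F
    have hc : ∀ G : P2 p, PowerSeries.X ^ N ∣ ev1 (tau p) x G - ev1 (tau p) (tau p a) G := by
      intro G
      rw [ev1_eq_eval, ev1_eq_eval]
      exact dvd_trans hx (sub_dvd_eval_sub _ _ _)
    induction F using Polynomial.induction_on' with
    | add F G hF hG =>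
      rw [map_add, map_add]
      have : ev2 (tau p) x y F + ev2 (tau p) x y G -
          (ev2 (tau p) (tau p a) y F + ev2 (tau p) (tau p a) y G) =
          (ev2 (tau p) x y F - ev2 (tau p) (tau p a) y F) +
          (ev2 (tau p) x y G - ev2 (tau p) (tau p a) y G) := by ring
      rw [this]
      exact dvd_add hF hG
    | monomial n r =>
      rw [← C_mul_X_pow_eq_monomial, map_mul, map_mul, ev2_C', ev2_C']
      have h3 : ∀ x : OO p, ev2 (tau p) x y (X ^ n : P3 p) = y ^ n := by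
        intro x
        unfold ev2
        rw [coe_eval₂RingHom, eval₂_pow, eval₂_X]
      rw [h3, h3, ← sub_mul]
      exact Dvd.dvd.mul_right (hc r) _
  have hdvd1 : ∀ G : P2 p, PowerSeries.X ^ N ∣ ev1 (tau p) x G - ev1 (tau p) (tau p a) G := by
    intro G
    rw [ev1_eq_eval, ev1_eq_eval]
    exact dvd_trans hx (sub_dvd_eval_sub _ _ _)
  have e1' := congrArg (tau p) e1
  rw [hid, map_mul, map_pow, tau_X] at e1'
  have e2' := congrArg (tau p) e2
  rw [map_mul, hid1, map_mul, map_pow, tau_X, map_add, map_one, map_mul, tau_X] at e2'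
  obtain ⟨y, hy1, hy2⟩ := sep_root hs x (tau p y₁) ν (by
    have h3 : ev2 (tau p) x (tau p y₁) ft = (ev2 (tau p) x (tau p y₁) ft -
      ev2 (tau p) (tau p a) (tau p y₁) ft) + ev2 (tau p) (tau p a) (tau p y₁) ft := by ring
    rw [h3]
    exact dvd_add (dvd_trans (pow_dvd_pow _ hν) (hdvd2 _ _)) ⟨_, e1'⟩) (by
    intro h3
    have h4 : PowerSeries.X ^ (ν + 1) ∣ ev1 (tau p) (tau p a) b := by
      have h5 : ev1 (tau p) (tau p a) b = ev1 (tau p) x b -
        (ev1 (tau p) x b - ev1 (tau p) (tau p a) b) := by ring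
      rw [h5]
      exact dvd_sub h3 (dvd_trans (pow_dvd_pow _ (by omega)) (hdvd1 _))
    have h6 : PowerSeries.X ^ (ν + 1) ∣
        PowerSeries.X ^ ν * (1 + PowerSeries.X * tau p c₂) := by
      rw [← e2']
      exact Dvd.dvd.mul_right h4 _
    rw [pow_succ] at h6
    have h7 := (mul_dvd_mul_iff_left (pow_ne_zero ν PowerSeries.X_ne_zero)).1 h6
    rw [PowerSeries.X_dvd_iff] at h7
    simp at h7)
  exact ⟨y, fg, hfg, hy1, hy2⟩

/-! ### evaluation of certificates -/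

/-- evaluation `Z ↦ ζ`, `T ↦ θ`, `u ↦ s` -/
noncomputable def evq (ζ θ s : OO p) : P4 p →+* OO p :=
  (Polynomial.evalRingHom s).comp (evth ζ θ)

theorem evq_C (ζ θ s : OO p) (E : P3 p) : evq ζ θ s (C E) = ev2 (tau p) ζ θ E := by
  simp [evq, evth]

theorem evq_X (ζ θ s : OO p) : evq ζ θ s X = s := by
  simp [evq, evth]

theorem evq_kap (ζ θ s : OO p) (d : P1 p) : evq ζ θ s (kap p d) = tau p d := by
  unfold kap
  rw [RingHom.comp_apply, RingHom.comp_apply, evq_C, ev2_C', ev1_C]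

theorem evq_comp_kap (ζ θ s : OO p) : (evq ζ θ s).comp (kap p) = tau p :=
  RingHom.ext (fun d => evq_kap ζ θ s d)

theorem evq_ev2 (ζ θ s : OO p) (x y : P4 p) (F : P3 p) :
    evq ζ θ s (ev2 (kap p) x y F) = ev2 (tau p) (evq ζ θ s x) (evq ζ θ s y) F := by
  rw [map_ev2', evq_comp_kap]

theorem evq_ev1 (ζ θ s : OO p) (x : P4 p) (F : P2 p) :
    evq ζ θ s (ev1 (kap p) x F) = ev1 (tau p) (evq ζ θ s x) F := by
  rw [map_ev1', evq_comp_kap]

/-- `θ` and `ζ` from the data -/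
theorem exists_theta {m : P2 p} {c : P1 p} (h : HenselData m c) :
    ∃ θ ζ : OO p, ev1 (tau p) θ m = 0 ∧ tau p c * ζ = 1 := by
  obtain ⟨h0, h1, h2⟩ := h
  obtain ⟨θ, _, hθ⟩ := hensel_ps (m.map (tau p)) (by
    rw [← coeff_zero_eq_eval_zero, coeff_map]
    have := (X_pow_dvd_tau 1 (m.coeff 0)).2 (by rw [pow_one, X_dvd_iff]; exact h0)
    simpa using this) (by
    rw [derivative_map, ← coeff_zero_eq_eval_zero, coeff_map, coeff_derivative]
    rw [PowerSeries.isUnit_iff_constantCoeff, ← PowerSeries.coeff_zero_eq_constantCoeff_apply,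
      tau_coeff]
    simpa using h1)
  have hu : IsUnit (tau p c) := by
    rw [PowerSeries.isUnit_iff_constantCoeff, ← PowerSeries.coeff_zero_eq_constantCoeff_apply,
      tau_coeff]
    exact isUnit_iff_ne_zero.2 h2
  obtain ⟨ζ, hζ⟩ := hu.exists_right_inv
  exact ⟨θ, ζ, by rw [ev1_eq_eval]; exact hθ, hζ⟩

theorem eqv_eval {m : P2 p} {c : P1 p} {θ ζ : OO p} (hθ : ev1 (tau p) θ m = 0)
    (hζ : tau p c * ζ = 1) {E₁ E₂ : P4 p} (h : Eqv m c E₁ E₂) (s : OO p) :
    evq ζ θ s E₁ = evq ζ θ s E₂ := by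
  obtain ⟨d, S, S', hd, hS⟩ := h
  have h1 := congrArg (evq ζ θ s) hS
  rw [map_mul, map_add, map_add, map_mul, map_mul, map_mul, evq_kap, evq_C, evq_C, ev2_mhat,
    ev2_zhat, hθ, hζ, sub_self, zero_mul, zero_mul, add_zero, add_zero] at h1
  refine mul_left_cancel₀ ?_ h1
  intro h2
  exact hd (tau_injective (h2.trans (map_zero _).symm))

theorem false_sound (φ : List (P3 p × P3 p)) (h : FalseOK φ) :
    ¬ ∀ x : OO p, ∃ y : OO p, Holds (tau p) φ x y := by
  intro hall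
  obtain ⟨m, c, hmc, α, hα⟩ := h
  obtain ⟨θ, ζ, hθ, hζ⟩ := exists_theta hmc
  obtain ⟨y, fg, hfg, hy1, hy2⟩ := hall (ev2 (tau p) ζ θ α)
  obtain ⟨H, Q, k, N, hH, hb⟩ := hα fg hfg
  have h1 := eqv_eval hθ hζ hH y
  rw [map_mul, map_mul, map_pow, evq_ev2, evq_ev2, evq_C, evq_X, hy1, zero_mul] at h1
  have h2 : evq ζ θ y H = 0 := (mul_eq_zero.1 h1).resolve_right (pow_ne_zero _ hy2)
  obtain ⟨b, hb1, hb2⟩ := exists_polyN y (N + 1)
  obtain ⟨h', hh'⟩ := hb b hb1
  have h3 := eqv_eval hθ hζ hh' y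
  rw [evq_C, map_mul, evq_kap, map_pow, tau_X] at h3
  have h4 : ev2 (tau p) ζ θ (Polynomial.eval (C (C (polyN p (N + 1) b))) H) =
      evq ζ θ (tau p (polyN p (N + 1) b)) H := by
    unfold evq evth
    rw [RingHom.comp_apply, coe_mapRingHom, coe_evalRingHom]
    have h5 : tau p (polyN p (N + 1) b) =
        ev2 (tau p) ζ θ (C (C (polyN p (N + 1) b))) := by
      rw [ev2_C', ev1_C]
    rw [h5, eval_map_apply]
  have h5 : PowerSeries.X ^ (N + 1) ∣ evq ζ θ (tau p (polyN p (N + 1) b)) H := by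
    have h6 : PowerSeries.X ^ (N + 1) ∣ evq ζ θ y H -
        evq ζ θ (tau p (polyN p (N + 1) b)) H := by
      unfold evq
      exact dvd_trans hb2 (sub_dvd_eval_sub _ _ _)
    rw [h2, zero_sub, dvd_neg] at h6
    exact h6
  rw [h4] at h3
  have h7 : PowerSeries.X ^ (N + 1) ∣ (PowerSeries.X : OO p) ^ N := by
    rw [← h3]
    exact Dvd.dvd.mul_right h5 _
  rw [PowerSeries.X_pow_dvd_iff] at h7
  have h8 := h7 N (Nat.lt_succ_self _)
  rw [PowerSeries.coeff_X_pow_self] at h8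
  exact one_ne_zero h8

theorem point_sound {φ : List (P3 p × P3 p)} {m : P2 p} {c : P1 p} {α : P3 p} {θ ζ : OO p}
    (hθ : ev1 (tau p) θ m = 0) (hζ : tau p c * ζ = 1) (h : PointOK φ m c α) :
    ∃ y : OO p, Holds (tau p) φ (ev2 (tau p) ζ θ α) y := by
  obtain ⟨fg, hfg, η, h', β, e1, e2⟩ := h
  have h1 := eqv_eval hθ hζ e1 0
  have h2 := eqv_eval hθ hζ e2 0
  rw [evq_ev2, evq_C, evq_C, map_zero] at h1
  rw [map_mul, evq_ev2, evq_C, evq_C, evq_C, evq_kap, map_pow, tau_X] at h2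
  refine ⟨ev2 (tau p) ζ θ η, fg, hfg, h1, ?_⟩
  intro h3
  rw [h3, zero_mul] at h2
  exact pow_ne_zero β PowerSeries.X_ne_zero h2.symm

theorem ps_form {w : OO p} (hw : w ≠ 0) : ∃ (v : ℕ) (γ : ZMod p) (u : OO p), γ ≠ 0 ∧
    PowerSeries.constantCoeff u = 1 ∧ w = PowerSeries.C γ * PowerSeries.X ^ v * u := by
  obtain ⟨v, hv1, hv2⟩ := ps_exists_order w hw
  obtain ⟨q, hq⟩ := hv1
  have hq0 : PowerSeries.constantCoeff q ≠ 0 := by
    intro h
    apply hv2
    rw [hq, pow_succ]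
    exact mul_dvd_mul_left _ (PowerSeries.X_dvd_iff.2 h)
  refine ⟨v, PowerSeries.constantCoeff q, PowerSeries.C (PowerSeries.constantCoeff q)⁻¹ * q, hq0,
    ?_, ?_⟩
  · rw [map_mul, PowerSeries.constantCoeff_C, inv_mul_cancel₀ hq0]
  · have h1 : (PowerSeries.C (PowerSeries.constantCoeff q) : OO p) *
        PowerSeries.C (PowerSeries.constantCoeff q)⁻¹ = 1 := by
      rw [← map_mul, mul_inv_cancel₀ hq0, map_one]
    rw [hq]
    linear_combination (-(PowerSeries.X ^ v * q)) * h1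

theorem class_sound {φ : List (P3 p × P3 p)} {m : P2 p} {c : P1 p} {α : P3 p} {θ ζ : OO p}
    (hθ : ev1 (tau p) θ m = 0) (hζ : tau p c * ζ = 1) {M n γ j : ℕ}
    (h : ClassOK φ m c α M n γ j) {v : ℕ} (hv : M ≤ v) (hvj : v % n = j) {u : OO p}
    (hu : PowerSeries.constantCoeff u = 1) :
    ∃ y : OO p, Holds (tau p) φ (ev2 (tau p) ζ θ α +
      tau p ((γ : P1 p)) * PowerSeries.X ^ v * u) y := by
  obtain ⟨fg, hfg, e, J, he1, hen, hpe, hJ, ft, q, h', l, A, B, b, hs, Yh, R, a₀, c₁, R', C₀, β,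
    hM, e1, e2, e3⟩ := h
  obtain ⟨n', hn'⟩ := hen
  have hvJ : v % e = J % e := by
    rw [hJ, ← hvj, hn', Nat.mod_mul_right_mod]
  have hJM : J ≤ v := le_trans (le_trans (Nat.le_add_right _ _) hM) hv
  obtain ⟨s, hs'⟩ : ∃ s, v = J + e * s := by
    have h1 : e ∣ v - J := (Nat.modEq_iff_dvd' hJM).1 hvJ.symm
    obtain ⟨s, hs⟩ := h1
    exact ⟨s, by omega⟩
  have hsβ : 2 * β + 1 ≤ s := by
    have h1 : J + e * (2 * β + 1) ≤ J + e * s := by rw [← hs']; exact le_trans hM hv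
    exact Nat.le_of_mul_le_mul_left (Nat.le_of_add_le_add_left h1) he1
  have hek : (e : ZMod p) ≠ 0 := by
    rw [Ne, ZMod.natCast_eq_zero_iff]
    exact hpe
  obtain ⟨B', hB', hBe⟩ := exists_root_pow e hek u hu
  set σ : OO p := PowerSeries.X ^ s * B' with hσ
  have hx : ev2 (tau p) ζ θ α + tau p ((γ : P1 p)) * PowerSeries.X ^ v * u =
      evq ζ θ σ (C α + kap p ((γ : P1 p) * X ^ J) * X ^ e) := by
    rw [map_add, map_mul, evq_C, evq_kap, map_pow, evq_X, map_mul, map_pow, tau_X, hσ, ← hBe,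
      mul_pow, hs', pow_add, pow_mul']
    ring
  rw [hx]
  set x := evq ζ θ σ (C α + kap p ((γ : P1 p) * X ^ J) * X ^ e) with hxdef
  have E1 := eqv_eval hθ hζ e1 σ
  have E2 := eqv_eval hθ hζ e2 σ
  have E3 := eqv_eval hθ hζ e3 σ
  rw [evq_ev2, ← hxdef, map_mul, map_pow, evq_X] at E1
  rw [evq_ev1, ← hxdef, map_mul, map_pow, evq_X, map_add, map_mul, evq_X, evq_C] at E2
  rw [evq_C, map_mul, evq_kap, map_pow, tau_X] at E3
  have hσd : PowerSeries.X ^ s ∣ σ := ⟨B', hσ⟩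
  have hB'u : ¬ PowerSeries.X ∣ B' := by
    rw [PowerSeries.X_dvd_iff, hB']
    exact one_ne_zero
  obtain ⟨y, hy1, hy2⟩ := sep_root hs x (evq ζ θ σ Yh) (C₀ * s + β) (by
    rw [E1]
    refine Dvd.dvd.mul_right ?_ _
    have h1 : PowerSeries.X ^ (s * (2 * C₀ + 1)) ∣ σ ^ (2 * C₀ + 1) := by
      rw [pow_mul]
      exact pow_dvd_pow_of_dvd hσd _
    refine dvd_trans (pow_dvd_pow _ ?_) h1
    nlinarith) (by
    rw [E2]
    intro h1
    -- cancel `σ ^ C₀`
    have h2 : PowerSeries.X ^ (β + 1) ∣ ev2 (tau p) ζ θ a₀ + σ * evq ζ θ σ R' := by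
      have h3 : σ ^ C₀ = PowerSeries.X ^ (C₀ * s) * B' ^ C₀ := by
        rw [hσ, mul_pow, ← pow_mul, mul_comm s C₀]
      rw [h3, show C₀ * s + β + 1 = C₀ * s + (β + 1) by ring, pow_add, mul_assoc] at h1
      have h4 := (mul_dvd_mul_iff_left (pow_ne_zero (C₀ * s) PowerSeries.X_ne_zero)).1 h1
      have h5 : IsUnit (B' ^ C₀) := by
        apply IsUnit.pow
        rw [ps_isUnit_iff]
        exact hB'u
      exact (h5.dvd_mul_left).1 h4
    have h3 : PowerSeries.X ^ (β + 1) ∣ ev2 (tau p) ζ θ a₀ := by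
      have h4 : ev2 (tau p) ζ θ a₀ = (ev2 (tau p) ζ θ a₀ + σ * evq ζ θ σ R') -
        σ * evq ζ θ σ R' := by ring
      rw [h4]
      refine dvd_sub h2 (Dvd.dvd.mul_right (dvd_trans (pow_dvd_pow _ ?_) hσd) _)
      omega
    have h4 : PowerSeries.X ^ (β + 1) ∣ (PowerSeries.X : OO p) ^ β := by
      rw [← E3]
      exact Dvd.dvd.mul_right h3 _
    rw [PowerSeries.X_pow_dvd_iff] at h4
    have h5 := h4 β (Nat.lt_succ_self _)
    rw [PowerSeries.coeff_X_pow_self] at h5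
    exact one_ne_zero h5)
  exact ⟨y, fg, hfg, hy1, hy2⟩

theorem alpha_sound {φ : List (P3 p × P3 p)} {N : ℕ} {a : P1 p} (h : AlphaOK φ N a) (x : OO p)
    (hx : PowerSeries.X ^ N ∣ x - tau p a) : ∃ y : OO p, Holds (tau p) φ x y := by
  obtain ⟨m, c, hmc, α, R₀, M, n, hMN, hn, hα, hpt, hcl⟩ := h
  obtain ⟨θ, ζ, hθ, hζ⟩ := exists_theta hmc
  have h1 := eqv_eval hθ hζ hα 0
  rw [evq_C, map_add, evq_kap, map_mul, evq_kap, evq_C, map_pow, tau_X] at h1
  set x₀ := ev2 (tau p) ζ θ α with hx₀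
  have hxM : PowerSeries.X ^ M ∣ x - x₀ := by
    have h2 : x - x₀ = (x - tau p a) - PowerSeries.X ^ M * ev2 (tau p) ζ θ R₀ := by
      rw [h1]; ring
    rw [h2]
    exact dvd_sub (dvd_trans (pow_dvd_pow _ hMN) hx) (dvd_mul_right _ _)
  by_cases hw : x - x₀ = 0
  · rw [sub_eq_zero] at hw
    rw [hw]
    exact point_sound hθ hζ hpt
  · obtain ⟨v, γ, u, hγ, hu, hwu⟩ := ps_form hw
    have hvM : M ≤ v := by
      by_contra hlt
      rw [hwu, PowerSeries.X_pow_dvd_iff] at hxM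
      have h2 := hxM v (by omega)
      rw [mul_assoc, PowerSeries.coeff_C_mul, PowerSeries.coeff_X_pow_mul', if_pos le_rfl,
        Nat.sub_self, PowerSeries.coeff_zero_eq_constantCoeff_apply, hu, mul_one] at h2
      exact hγ h2
    haveI : NeZero p := ⟨hp.out.ne_zero⟩
    have hγ1 : 1 ≤ γ.val := by
      rw [Nat.one_le_iff_ne_zero, Ne, ZMod.val_eq_zero]
      exact hγ
    obtain ⟨y, hy⟩ := class_sound hθ hζ (hcl γ.val hγ1 (ZMod.val_lt γ) (v % n)
      (Nat.mod_lt _ hn)) hvM rfl hu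
    refine ⟨y, ?_⟩
    have h3 : x = x₀ + tau p ((γ.val : P1 p)) * PowerSeries.X ^ v * u := by
      have h4 : tau p ((γ.val : P1 p)) = PowerSeries.C γ := by
        rw [map_natCast]
        have h5 : (PowerSeries.C (γ.val : ZMod p) : OO p) = ((γ.val : ℕ) : OO p) :=
          map_natCast _ _
        rw [← h5, ZMod.natCast_zmod_val]
      rw [h4, ← hwu]
      ring
    rw [h3]
    exact hy

theorem true_sound (φ : List (P3 p × P3 p)) (h : TrueOK φ) (x : OO p) :
    ∃ y : OO p, Holds (tau p) φ x y := by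
  obtain ⟨N, hN⟩ := h
  obtain ⟨a, ha, hx⟩ := exists_polyN x N
  rcases hN a ha with h | h
  · exact ball_sound h x hx
  · exact alpha_sound h x hx

end FT80
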