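import Pool.Agent.FT80.Embed
import Pool.Agent.FT80.Tools0
set_option maxSynthPendingDepth 10
set_option linter.unusedSectionVars false
open Polynomial Filter
namespace FT80

variable {p : ℕ} [Fact p.Prime]

section ultra

variable (U : Ultrafilter ℕ)

/-- the ultrapower of `K` -/
abbrev FF (p : ℕ) [Fact p.Prime] (U : Ultrafilter ℕ) := Filter.Germ (U : Filter ℕ) (KK p)

/-- the class of a sequence -/
noncomputable def cls : (ℕ → KK p) →+* FF p U := Filter.Germ.coeRingHom (U : Filter ℕ)

theorem cls_surj (h : FF p U) : ∃ f : ℕ → KK p, cls U f = h := by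
  induction h using Filter.Germ.inductionOn with
  | _ f => exact ⟨f, rfl⟩

theorem cls_eq_iff {f g : ℕ → KK p} : cls U f = cls U g ↔ ∀ᶠ l in (U : Filter ℕ), f l = g l :=
  Filter.Germ.coe_eq

theorem cls_eq_zero_iff {f : ℕ → KK p} : cls U f = 0 ↔ ∀ᶠ l in (U : Filter ℕ), f l = 0 := by
  rw [← map_zero (cls U), cls_eq_iff]
  rfl

theorem cls_inv (f : ℕ → KK p) : (cls U f)⁻¹ = cls U (fun l => (f l)⁻¹) := rfl

noncomputable instance : Algebra (KK p) (FF p U) :=
  ((cls U).comp (Pi.constRingHom ℕ (KK p))).toAlgebra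

theorem algebraMap_FF (a : KK p) : algebraMap (KK p) (FF p U) a = cls U (fun _ => a) := rfl

variable (κ : ℕ → ℕ)

/-- bounded growth -/
def Bd (f : ℕ → KK p) : Prop :=
  ∃ C : ℕ, ∀ᶠ l in (U : Filter ℕ), InO (TT p (C * κ l : ℕ) * f l)

/-- very small -/
def Sm (f : ℕ → KK p) : Prop :=
  ∀ C : ℕ, ∀ᶠ l in (U : Filter ℕ), InO (TT p (-((C * κ l : ℕ) : ℤ)) * f l)

variable {U κ}

theorem Bd.congr {f g : ℕ → KK p} (h : ∀ᶠ l in (U : Filter ℕ), f l = g l) (hf : Bd U κ f) :
    Bd U κ g := by
  obtain ⟨C, hC⟩ := hf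
  refine ⟨C, ?_⟩
  filter_upwards [h, hC] with l h1 h2
  rwa [← h1]

theorem Sm.congr {f g : ℕ → KK p} (h : ∀ᶠ l in (U : Filter ℕ), f l = g l) (hf : Sm U κ f) :
    Sm U κ g := by
  intro C
  filter_upwards [h, hf C] with l h1 h2
  rwa [← h1]

theorem Bd.of_inO {f : ℕ → KK p} (h : ∀ᶠ l in (U : Filter ℕ), InO (f l)) : Bd U κ f := by
  refine ⟨0, ?_⟩
  filter_upwards [h] with l h1
  rw [zero_mul, Nat.cast_zero, TT_zero, one_mul]
  exact h1

variable (U κ)

/-- the coarse valuation ring of the ultrapower -/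
noncomputable def AA : ValuationSubring (FF p U) where
  carrier := {h | ∃ f : ℕ → KK p, cls U f = h ∧ Bd U κ f}
  mul_mem' := by
    rintro _ _ ⟨f, rfl, C, hC⟩ ⟨g, rfl, D, hD⟩
    refine ⟨f * g, map_mul _ _ _, C + D, ?_⟩
    filter_upwards [hC, hD] with l h1 h2
    have : TT p ((C + D) * κ l : ℕ) * (f * g) l =
        (TT p (C * κ l : ℕ) * f l) * (TT p (D * κ l : ℕ) * g l) := by
      rw [add_mul, Nat.cast_add, TT_add, Pi.mul_apply]
      ring
    rw [this]
    exact h1.mul h2
  one_mem' := ⟨1, map_one _, Bd.of_inO (Eventually.of_forall fun _ => InO.one)⟩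
  add_mem' := by
    rintro _ _ ⟨f, rfl, C, hC⟩ ⟨g, rfl, D, hD⟩
    refine ⟨f + g, map_add _ _ _, C + D, ?_⟩
    filter_upwards [hC, hD] with l h1 h2
    rw [Pi.add_apply, mul_add]
    apply InO.add
    · exact InO.mono (by push_cast; nlinarith [Nat.zero_le (D * κ l)]) h1
    · exact InO.mono (by push_cast; nlinarith [Nat.zero_le (C * κ l)]) h2
  zero_mem' := ⟨0, map_zero _, Bd.of_inO (Eventually.of_forall fun _ => InO.zero)⟩
  neg_mem' := by
    rintro _ ⟨f, rfl, C, hC⟩
    refine ⟨-f, map_neg _ _, C, ?_⟩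
    filter_upwards [hC] with l h1
    rw [Pi.neg_apply, mul_neg]
    exact h1.neg
  mem_or_inv_mem' := by
    intro h
    obtain ⟨f, rfl⟩ := cls_surj U h
    rcases U.em (fun l => InO (f l)) with h1 | h1
    · exact Or.inl ⟨f, rfl, Bd.of_inO h1⟩
    · right
      refine ⟨fun l => (f l)⁻¹, rfl, Bd.of_inO ?_⟩
      filter_upwards [h1] with l h2
      exact inO_or_inv _ h2

variable {U κ}

theorem mem_AA {f : ℕ → KK p} : cls U f ∈ AA U κ ↔ Bd U κ f := by
  constructor
  · rintro ⟨g, hg, hb⟩
    rw [cls_eq_iff] at hg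
    exact hb.congr hg
  · intro h
    exact ⟨f, rfl, h⟩

/-- the valuation of the ultrapower -/
noncomputable abbrev vv (U : Ultrafilter ℕ) (κ : ℕ → ℕ) :
    Valuation (FF p U) (AA (p := p) U κ).ValueGroup := (AA U κ).valuation

theorem vv_le_one {f : ℕ → KK p} : vv U κ (cls U f) ≤ 1 ↔ Bd U κ f := by
  rw [ValuationSubring.valuation_le_one_iff, mem_AA]

theorem vv_lt_one (hκ : ∀ᶠ l in (U : Filter ℕ), 1 ≤ κ l) {f : ℕ → KK p} :
    vv U κ (cls U f) < 1 ↔ Sm U κ f := by
  rcases eq_or_ne (cls U f) 0 with h0 | h0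
  · rw [h0, map_zero]
    simp only [zero_lt_one, true_iff]
    rw [cls_eq_zero_iff] at h0
    intro C
    filter_upwards [h0] with l h1
    rw [h1, mul_zero]
    exact InO.zero
  have hne : ∀ᶠ l in (U : Filter ℕ), f l ≠ 0 := by
    rw [Ne, cls_eq_zero_iff, ← Ultrafilter.eventually_not] at h0
    exact h0
  have h1 : vv U κ (cls U f) < 1 ↔ ¬ Bd U κ (fun l => (f l)⁻¹) := by
    rw [← vv_le_one, ← cls_inv, map_inv₀, not_le]
    have hpos : 0 < vv U κ (cls U f) := zero_lt_iff.2 ((Valuation.ne_zero_iff _).2 h0)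
    exact (one_lt_inv₀ hpos).symm
  rw [h1]
  constructor
  · intro h C
    have h2 : ∀ᶠ l in (U : Filter ℕ), ¬ InO (TT p (C * κ l : ℕ) * (f l)⁻¹) := by
      rw [Ultrafilter.eventually_not]
      intro h3
      exact h ⟨C, h3⟩
    filter_upwards [h2] with l h3
    have h4 := inO_or_inv _ h3
    rwa [mul_inv, inv_inv, TT_inv] at h4
  · rintro h ⟨C, hC⟩
    have h2 : ∀ᶠ l in (U : Filter ℕ), False := by
      filter_upwards [hC, h (C + 1), hκ, hne] with l h3 h4 h5 h6
      have h7 := h3.mul h4
      have h8 : TT p (C * κ l : ℕ) * (f l)⁻¹ * (TT p (-(((C + 1) * κ l : ℕ) : ℤ)) * f l) =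
          TT p (-(κ l : ℤ)) := by
        have : (-(κ l : ℤ)) = ((C * κ l : ℕ) : ℤ) + (-(((C + 1) * κ l : ℕ) : ℤ)) := by
          push_cast; ring
        rw [this, TT_add]
        field_simp
      rw [h8] at h7
      exact not_inO_TT (by omega) h7
    exact (U.neBot.ne (Filter.eventually_false_iff_eq_bot.1 h2))

theorem nice_FF (hκ : ∀ N : ℕ, ∀ᶠ l in (U : Filter ℕ), N ≤ κ l) :
    Nice (KK p) (vv (p := p) U κ) := by
  have hκ1 := hκ 1
  refine ⟨?_, ?_⟩
  · intro a ha
    have h1 : ∀ b : KK p, vv (p := p) U κ (algebraMap (KK p) (FF p U) b) ≤ 1 := by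
      intro b
      rw [algebraMap_FF, vv_le_one]
      obtain ⟨n, hn⟩ := exists_clear b
      refine ⟨1, ?_⟩
      filter_upwards [hκ n] with l h2
      rw [one_mul]
      exact InO.mono (by exact_mod_cast h2) hn
    apply le_antisymm (h1 a)
    have h2 := h1 a⁻¹
    rw [map_inv₀, map_inv₀] at h2
    have h0 : algebraMap (KK p) (FF p U) a ≠ 0 := by
      rw [Ne, map_eq_zero]; exact ha
    have hpos : 0 < vv U κ (algebraMap (KK p) (FF p U) a) :=
      zero_lt_iff.2 ((Valuation.ne_zero_iff _).2 h0)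
    exact (inv_le_one₀ hpos).1 h2
  · intro q
    induction hn : q.natDegree using Nat.strong_induction_on generalizing q with
    | _ n ih =>
      intro hq h hh hqh
      by_cases hroot : ∃ z, q.eval z = 0
      · obtain ⟨z, hz⟩ := hroot
        obtain ⟨q₁, hq₁⟩ := Polynomial.dvd_iff_isRoot.2 hz
        have hq₁0 : q₁ ≠ 0 := by
          rintro rfl
          rw [mul_zero] at hq₁
          exact hq hq₁
        have hdeg : q₁.natDegree < n := by
          rw [← hn, hq₁, Polynomial.natDegree_mul (Polynomial.X_sub_C_ne_zero z) hq₁0,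
            Polynomial.natDegree_X_sub_C]
          omega
        rw [hq₁, map_mul, map_mul] at hqh
        by_cases h1 : vv U κ (aeval h (X - C z)) < 1
        · refine ⟨z, ?_⟩
          simpa using h1
        · apply ih _ hdeg q₁ rfl hq₁0 h hh
          have h2 : vv U κ (aeval h (X - C z)) = 1 := by
            apply le_antisymm _ (not_lt.1 h1)
            rw [map_sub, aeval_X, aeval_C]
            apply (vv U κ).map_sub_le hh
            rw [algebraMap_FF, vv_le_one]
            obtain ⟨n, hn⟩ := exists_clear z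
            refine ⟨1, ?_⟩
            filter_upwards [hκ n] with l h2
            rw [one_mul]
            exact InO.mono (by exact_mod_cast h2) hn
          rwa [h2, one_mul] at hqh
      · exfalso
        push Not at hroot
        obtain ⟨N, hN⟩ := no_root_bdd q hroot
        obtain ⟨f, rfl⟩ := cls_surj U h
        have h1 : aeval (cls U f) q = cls U (fun l => q.eval (f l)) := by
          have h2 : aeval (cls U f) q = ev1 (algebraMap (KK p) (FF p U)) (cls U f) q := rfl
          rw [h2]
          have h3 : (ev1 (algebraMap (KK p) (FF p U)) (cls U f)) =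
              (cls U).comp (ev1 (Pi.constRingHom ℕ (KK p)) f) := by
            apply Polynomial.ringHom_ext
            · intro a
              simp [ev1, algebraMap_FF]
              rfl
            · simp [ev1]
          rw [h3]
          show cls U _ = _
          congr 1
          funext l
          have h4 : (Pi.evalRingHom (fun _ => KK p) l).comp (ev1 (Pi.constRingHom ℕ (KK p)) f) =
              Polynomial.evalRingHom (f l) := by
            apply Polynomial.ringHom_ext
            · intro a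
              simp [ev1]
            · simp [ev1]
          exact congrArg (fun g => g q) h4
        rw [h1, vv_lt_one hκ1] at hqh
        have h2 : ∀ᶠ l in (U : Filter ℕ), False := by
          filter_upwards [hqh 1, hκ N] with l h3 h4
          rw [one_mul] at h3
          exact hN (f l) (InO.mono (by omega) h3)
        exact (U.neBot.ne (Filter.eventually_false_iff_eq_bot.1 h2))

end ultra
end FT80
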